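import Mathlib
import Pool.Agent.MP_8702f5_pr.Defs

-- part MP_8702f5_pr.Forest
section

/-! Ordered forests and the expectation functional of forests of independent branching trees. -/

namespace Pool.Agent.MP_8702f5_pr

open Finset
open scoped ENNReal

/-- Ordered forests: in `cons c r` the root of the first tree has the forest `c` of children
subtrees and `r` is the forest of the remaining trees. A tree is coded by the forest of the
subtrees of the children of its root. -/
inductive F where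
  | nil : F
  | cons : F → F → F

namespace F

/-- The number of trees. -/
def len : F → ℕ
  | nil => 0
  | cons _ r => r.len + 1

/-- The number of vertices. -/
def size : F → ℕ
  | nil => 0
  | cons c r => c.size + r.size + 1

/-- Concatenation. -/
def app : F → F → F
  | nil, g => g
  | cons c r, g => cons c (app r g)

/-- The tree number `i`. -/
def child : F → ℕ → F
  | nil, _ => nil
  | cons c _, 0 => c
  | cons _ r, i + 1 => child r i

/-- All trees satisfy `A`. -/
def all (A : F → Prop) : F → Prop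
  | nil => True
  | cons c r => A c ∧ all A r

/-- Some tree satisfies `A`. -/
def ex (A : F → Prop) : F → Prop
  | nil => False
  | cons c r => A c ∨ ex A r

open Classical in
/-- The number of trees satisfying `A`. -/
noncomputable def cnt (A : F → Prop) : F → ℕ
  | nil => 0
  | cons c r => cnt A r + if A c then 1 else 0

/-- All out-degrees in the forest are less than `K`. -/
def smallF (K : ℕ) : F → Prop
  | nil => True
  | cons c r => (c.len < K ∧ smallF K c) ∧ smallF K r

/-- All out-degrees in the tree are less than `K`. -/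
def small (K : ℕ) (c : F) : Prop := c.len < K ∧ smallF K c

/-- The weight of a forest. -/
noncomputable def wF (ν : ℕ → ℝ≥0∞) : F → ℝ≥0∞
  | nil => 1
  | cons c r => ν c.len * wF ν c * wF ν r

theorem len_app (c r : F) : (c.app r).len = c.len + r.len := by
  induction c with
  | nil => simp [app, len]
  | cons a b _ ih => simp [app, len, ih]; omega

theorem size_app (c r : F) : (c.app r).size = c.size + r.size := by
  induction c with
  | nil => simp [app, size]
  | cons a b _ ih => simp [app, size, ih]; omega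

theorem smallF_app (K : ℕ) (c r : F) : (c.app r).smallF K ↔ c.smallF K ∧ r.smallF K := by
  induction c with
  | nil => simp [app, smallF]
  | cons a b _ ih => simp [app, smallF, ih, and_assoc]

theorem len_le_size (c : F) : c.len ≤ c.size := by
  induction c with
  | nil => simp [len]
  | cons a b _ ih => simp [len, size]; omega

theorem smallF_iff (K : ℕ) (c : F) : c.smallF K ↔ c.all (small K) := by
  induction c with
  | nil => simp [smallF, all]
  | cons a b _ ih => simp [smallF, all, small, ih]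

theorem all_iff (A : F → Prop) (c : F) : c.all A ↔ ∀ i < c.len, A (c.child i) := by
  induction c with
  | nil => simp [all, len]
  | cons a b _ ih => simp only [all, len, ih, Nat.forall_lt_succ_left, child]

theorem ex_iff (A : F → Prop) (c : F) : c.ex A ↔ ∃ i < c.len, A (c.child i) := by
  induction c with
  | nil => simp [ex, len]
  | cons a b _ ih => simp only [ex, len, ih, Nat.exists_lt_succ_left, child]

open Classical in
theorem cnt_eq (A : F → Prop) (c : F) :
    c.cnt A = ((range c.len).filter fun i => A (c.child i)).card := by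
  rw [card_filter]
  induction c with
  | nil => simp [cnt, len]
  | cons a b _ ih => rw [cnt, len, sum_range_succ', ih]; rfl

theorem all_mono {A B : F → Prop} (h : ∀ c, A c → B c) {c : F} (hc : c.all A) : c.all B := by
  rw [all_iff] at *
  exact fun i hi => h _ (hc i hi)

theorem ex_mono {A B : F → Prop} (h : ∀ c, A c → B c) {c : F} (hc : c.ex A) : c.ex B := by
  rw [ex_iff] at *
  obtain ⟨i, hi, h1⟩ := hc
  exact ⟨i, hi, h _ h1⟩

theorem smallF_mono {K K' : ℕ} (h : K ≤ K') {c : F} (hc : c.smallF K) : c.smallF K' := by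
  induction c with
  | nil => trivial
  | cons a b iha ihb => exact ⟨⟨hc.1.1.trans_le h, iha hc.1.2⟩, ihb hc.2⟩

theorem small_mono {K K' : ℕ} (h : K ≤ K') {c : F} (hc : c.small K) : c.small K' :=
  ⟨hc.1.trans_le h, smallF_mono h hc.2⟩

theorem finite_size (n : ℕ) : {c : F | c.size ≤ n}.Finite := by
  induction n with
  | zero =>
    refine (Set.finite_singleton nil).subset fun c hc => ?_
    cases c with
    | nil => rfl
    | cons a b => simp [size] at hc
  | succ n ih =>
    refine (((ih.prod ih).image fun p => cons p.1 p.2).insert nil).subset fun c hc => ?_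
    cases c with
    | nil => exact Or.inl rfl
    | cons a b =>
      simp only [size, Set.mem_ofPred_eq] at hc
      exact Or.inr ⟨(a, b), ⟨by simp; omega, by simp; omega⟩, rfl⟩

end F

open F

/-- The expectation of `φ` over forests of `l` independent trees. -/
noncomputable def E (ν : ℕ → ℝ≥0∞) (l : ℕ) (φ : F → ℝ≥0∞) : ℝ≥0∞ :=
  ∑' f, if f.len = l then wF ν f * φ f else 0

/-- The expectation of `φ` over one tree. -/
noncomputable def ET (ν : ℕ → ℝ≥0∞) (φ : F → ℝ≥0∞) : ℝ≥0∞ :=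
  ∑' c, ν c.len * wF ν c * φ c

variable {ν : ℕ → ℝ≥0∞}

theorem E_zero (φ : F → ℝ≥0∞) : E ν 0 φ = φ nil := by
  rw [E, tsum_eq_single nil]
  · simp [len, wF]
  · rintro (_ | ⟨a, b⟩) h
    · exact absurd rfl h
    · simp [len]

theorem E_succ (l : ℕ) (φ : F → ℝ≥0∞) :
    E ν (l + 1) φ = ET ν fun c => E ν l fun r => φ (cons c r) := by
  have hinj : Function.Injective fun p : F × F => cons p.1 p.2 := by
    rintro ⟨a, b⟩ ⟨c, d⟩ h
    simpa using h
  rw [E, ← hinj.tsum_eq, ENNReal.tsum_prod', ET]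
  · refine tsum_congr fun c => ?_
    rw [E, ← ENNReal.tsum_mul_left]
    refine tsum_congr fun r => ?_
    simp only [len, wF, Nat.add_right_cancel_iff]
    split_ifs
    · ring
    · simp
  · rintro (_ | ⟨a, b⟩) h
    · simp [len] at h
    · exact ⟨(a, b), rfl⟩

theorem ET_eq (φ : F → ℝ≥0∞) : ET ν φ = ∑' l, ν l * E ν l φ := by
  simp only [E, ← ENNReal.tsum_mul_left]
  rw [ENNReal.tsum_comm, ET]
  refine tsum_congr fun c => ?_
  rw [tsum_eq_single c.len]
  · simp [mul_assoc]
  · intro l hl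
    simp [hl.symm]

theorem E_mono {l : ℕ} {φ ψ : F → ℝ≥0∞} (h : ∀ f, f.len = l → φ f ≤ ψ f) :
    E ν l φ ≤ E ν l ψ := by
  refine ENNReal.tsum_le_tsum fun f => ?_
  split_ifs with hf
  · gcongr; exact h f hf
  · exact le_rfl

theorem E_congr {l : ℕ} {φ ψ : F → ℝ≥0∞} (h : ∀ f, f.len = l → φ f = ψ f) :
    E ν l φ = E ν l ψ :=
  le_antisymm (E_mono fun f hf => (h f hf).le) (E_mono fun f hf => (h f hf).ge)

theorem ET_mono {φ ψ : F → ℝ≥0∞} (h : ∀ f, φ f ≤ ψ f) : ET ν φ ≤ ET ν ψ :=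
  ENNReal.tsum_le_tsum fun f => by gcongr; exact h f

theorem E_add (l : ℕ) (φ ψ : F → ℝ≥0∞) :
    E ν l (fun f => φ f + ψ f) = E ν l φ + E ν l ψ := by
  rw [E, E, E, ← ENNReal.tsum_add]
  refine tsum_congr fun f => ?_
  split_ifs
  · ring
  · simp

theorem ET_add (φ ψ : F → ℝ≥0∞) : ET ν (fun f => φ f + ψ f) = ET ν φ + ET ν ψ := by
  rw [ET, ET, ET, ← ENNReal.tsum_add]
  exact tsum_congr fun f => by ring

theorem E_mul (l : ℕ) (a : ℝ≥0∞) (φ : F → ℝ≥0∞) : E ν l (fun f => a * φ f) = a * E ν l φ := by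
  rw [E, E, ← ENNReal.tsum_mul_left]
  refine tsum_congr fun f => ?_
  split_ifs
  · ring
  · simp

theorem ET_mul (a : ℝ≥0∞) (φ : F → ℝ≥0∞) : ET ν (fun f => φ f * a) = ET ν φ * a := by
  rw [ET, ET, ← ENNReal.tsum_mul_right]
  exact tsum_congr fun f => by ring

theorem E_const_zero (l : ℕ) : E ν l (fun _ => 0) = 0 := by simp [E]

/-- The product formula. -/
theorem E_prod (g Φ : F → ℝ≥0∞) (h0 : Φ nil = 1) (h : ∀ c r, Φ (cons c r) = g c * Φ r) (l : ℕ) :
    E ν l Φ = ET ν g ^ l := by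
  induction l with
  | zero => rw [E_zero, h0, pow_zero]
  | succ l ih =>
    rw [E_succ, pow_succ']
    simp only [h, E_mul, ih, ET_mul]

theorem E_app (j k : ℕ) (φ : F → ℝ≥0∞) :
    E ν (j + k) φ = E ν j fun c => E ν k fun r => φ (c.app r) := by
  induction j generalizing φ with
  | zero => rw [E_zero, zero_add]; rfl
  | succ j ih =>
    rw [add_right_comm, E_succ, E_succ]
    simp only [ih]
    rfl

/-- Removing the root of the first tree. -/
theorem E_unroll (k : ℕ) (φ : F → ℝ≥0∞) (ψ : ℕ → F → ℝ≥0∞)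
    (h : ∀ c r, φ (cons c r) = ψ c.len (c.app r)) :
    E ν (k + 1) φ = ∑' j, ν j * E ν (j + k) (ψ j) := by
  rw [E_succ, ET_eq]
  refine tsum_congr fun j => ?_
  rw [E_app]
  congr 1
  refine E_congr fun c hc => ?_
  simp only [h, hc]

/-- The height. -/
def F.ht : F → ℕ
  | nil => 0
  | cons c r => max (c.ht + 1) r.ht

open Classical in
/-- The indicator of an event. -/
noncomputable def ind (A : Prop) : ℝ≥0∞ := if A then 1 else 0

theorem ind_pos {A : Prop} (h : A) : ind A = 1 := if_pos h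

theorem ind_neg {A : Prop} (h : ¬A) : ind A = 0 := if_neg h

theorem ind_and (A B : Prop) : ind (A ∧ B) = ind A * ind B := by
  by_cases hA : A <;> by_cases hB : B <;> simp [ind, hA, hB]

theorem ind_le_one (A : Prop) : ind A ≤ 1 := by
  by_cases hA : A <;> simp [ind, hA]

theorem ind_mono {A B : Prop} (h : A → B) : ind A ≤ ind B := by
  by_cases hA : A
  · rw [ind_pos hA, ind_pos (h hA)]
  · rw [ind_neg hA]; exact zero_le

theorem ind_or_le {A B C : Prop} (h : A → B ∨ C) : ind A ≤ ind B + ind C := by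
  by_cases hA : A
  · rcases h hA with h | h
    · rw [ind_pos hA, ind_pos h]; exact le_self_add
    · rw [ind_pos hA, ind_pos h]; exact le_add_self
  · rw [ind_neg hA]; exact zero_le

theorem E_all (A : F → Prop) (l : ℕ) :
    E ν l (fun f => ind (f.all A)) = ET ν (fun c => ind (A c)) ^ l :=
  E_prod _ _ (ind_pos trivial) (fun _ _ => ind_and _ _) l

theorem ET_one_le (hν : ∑' l, ν l ≤ 1) : ET ν (fun _ => 1) ≤ 1 := by
  have key : ∀ h, ET ν (fun c => ind (c.ht < h)) ≤ 1 := by
    intro h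
    induction h with
    | zero => simp [ET, ind]
    | succ h ih =>
      rw [ET_eq]
      refine le_trans (ENNReal.tsum_le_tsum fun l => ?_) hν
      have : ∀ f : F, f.ht < h + 1 ↔ f.all fun c => c.ht < h := by
        intro f
        induction f with
        | nil => simp [F.ht, all]
        | cons a b _ ihb => simp [F.ht, all, ← ihb]
      simp only [this, E_all]
      exact mul_le_of_le_one_right' (pow_le_one' ih l)
  rw [ET, ENNReal.tsum_eq_iSup_sum]
  refine iSup_le fun s => le_trans ?_ (key (s.sup F.ht + 1))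
  refine le_trans (le_of_eq (sum_congr rfl fun c hc => ?_)) (ENNReal.sum_le_tsum s)
  beta_reduce
  rw [ind_pos (Nat.lt_add_one_of_le (le_sup (f := F.ht) hc))]

theorem E_one_le (hν : ∑' l, ν l ≤ 1) (l : ℕ) : E ν l (fun _ => 1) ≤ 1 := by
  rw [E_prod (fun _ => 1) _ rfl (fun _ _ => (one_mul _).symm)]
  exact pow_le_one' (ET_one_le hν) l

theorem E_ind_le (hν : ∑' l, ν l ≤ 1) (l : ℕ) (A : F → Prop) : E ν l (fun f => ind (A f)) ≤ 1 :=
  (E_mono fun _ _ => ind_le_one _).trans (E_one_le hν l)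

theorem ET_ind_le (hν : ∑' l, ν l ≤ 1) (A : F → Prop) : ET ν (fun f => ind (A f)) ≤ 1 :=
  (ET_mono fun _ => ind_le_one _).trans (ET_one_le hν)

/-- The union bound over the trees of a forest. -/
theorem E_ex_le (hν : ∑' l, ν l ≤ 1) (A : F → Prop) (l : ℕ) :
    E ν l (fun f => ind (f.ex A)) ≤ l * ET ν fun c => ind (A c) := by
  induction l with
  | zero => rw [E_zero, ind_neg (by simp [ex])]; exact zero_le
  | succ l ih =>
    rw [E_succ]
    calc _ ≤ ET ν fun c => ind (A c) + 1 * (l * ET ν fun c => ind (A c)) := by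
          refine ET_mono fun c => ?_
          calc _ ≤ E ν l fun r => ind (A c) * 1 + ind (r.ex A) :=
                E_mono fun r _ => by rw [mul_one]; exact ind_or_le id
            _ ≤ _ := by
                rw [E_add, E_mul, one_mul]
                exact add_le_add (mul_le_of_le_one_right' (E_one_le hν l)) ih
      _ ≤ _ := by
          rw [ET_add, ET_mul]
          push_cast
          rw [add_mul, one_mul, add_comm]
          exact add_le_add (mul_le_of_le_one_left' (ET_one_le hν)) le_rfl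

/-- Some vertex at height less than `h` has a forest of children subtrees satisfying `A`. -/
def anyV (A : F → Prop) : ℕ → F → Prop
  | 0, _ => False
  | h + 1, c => A c ∨ c.ex (anyV A h)

/-- The union bound over the vertices of a tree. -/
theorem ET_anyV_le (hν : ∑' l, ν l ≤ 1) (hm : ∑' l : ℕ, l * ν l ≤ 1) (A : F → Prop) (h : ℕ) :
    ET ν (fun c => ind (anyV A h c)) ≤ h * ET ν fun c => ind (A c) := by
  induction h with
  | zero => simp [ET, ind, anyV]
  | succ h ih =>
    calc _ ≤ ET ν fun c => ind (A c) + ind (c.ex (anyV A h)) := ET_mono fun c => ind_or_le id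
      _ ≤ _ := by
          rw [ET_add]
          push_cast
          rw [add_mul, one_mul, add_comm]
          refine add_le_add ?_ le_rfl
          rw [ET_eq]
          calc _ ≤ ∑' l : ℕ, l * ν l * (h * ET ν fun c => ind (A c)) := by
                refine ENNReal.tsum_le_tsum fun l => ?_
                rw [mul_comm (l : ℝ≥0∞), mul_assoc]
                gcongr
                exact (E_ex_le hν _ l).trans (by gcongr)
            _ ≤ _ := by
                rw [ENNReal.tsum_mul_right]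
                exact mul_le_of_le_one_left' hm

theorem ET_le_of_E_le (hν : ∑' l, ν l ≤ 1) {φ : F → ℝ≥0∞} {ε : ℝ≥0∞} (h : ∀ l, E ν l φ ≤ ε) :
    ET ν φ ≤ ε := by
  rw [ET_eq]
  calc _ ≤ ∑' l, ν l * ε := ENNReal.tsum_le_tsum fun l => by gcongr; exact h l
    _ ≤ ε := by rw [ENNReal.tsum_mul_right]; exact mul_le_of_le_one_left' hν

theorem E_sum {ι : Type*} (s : Finset ι) (l : ℕ) (φ : ι → F → ℝ≥0∞) :
    E ν l (fun f => ∑ i ∈ s, φ i f) = ∑ i ∈ s, E ν l (φ i) := by
  classical
  induction s using Finset.induction_on with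
  | empty => simp [E]
  | insert a s ha ih => simp only [sum_insert ha, E_add, ih]

theorem ET_eq_E_one (φ : F → ℝ≥0∞) : E ν 1 (fun f => φ (f.child 0)) = ET ν φ := by
  rw [E_succ]
  simp only [E_zero, child]

end Pool.Agent.MP_8702f5_pr

end

-- part MP_8702f5_pr.Words
section

/-! The correspondence between the inductive coding of trees and sets of words; common subtrees. -/

namespace Pool.Agent.MP_8702f5_pr

open Finset
open scoped ENNReal

namespace F

/-- The word `u` is a vertex of the tree coded by `f`. -/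
def mem : List ℕ → F → Prop
  | [], _ => True
  | i :: w, f => i < f.len ∧ mem w (f.child i)

/-- The subtree of the descendants of `u`. -/
def sub : F → List ℕ → F
  | f, [] => f
  | f, i :: w => sub (f.child i) w

/-- Adding one to the first letter. -/
def shift : List ℕ → List ℕ
  | [] => []
  | i :: w => (i + 1) :: w

theorem shift_injective : Function.Injective shift := by
  rintro (_ | ⟨i, w⟩) (_ | ⟨j, v⟩) h <;> simp_all [shift]

/-- The set of vertices. -/
def V : F → Finset (List ℕ)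
  | nil => {[]}
  | cons c r => (V c).map ⟨List.cons 0, List.cons_injective⟩ ∪ (V r).map ⟨shift, shift_injective⟩

theorem mem_append (u v : List ℕ) (f : F) : mem (u ++ v) f ↔ mem u f ∧ mem v (f.sub u) := by
  induction u generalizing f with
  | nil => simp [mem, sub]
  | cons i w ih => simp [mem, sub, ih, and_assoc]

theorem mem_zero (w : List ℕ) (c r : F) : mem (0 :: w) (cons c r) ↔ mem w c := by
  simp [mem, len, child]

theorem mem_shift (u : List ℕ) (c r : F) : mem (shift u) (cons c r) ↔ mem u r := by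
  rcases u with _ | ⟨i, w⟩ <;> simp [mem, len, child, shift]

theorem mem_V (u : List ℕ) (f : F) : u ∈ V f ↔ mem u f := by
  induction f generalizing u with
  | nil => rcases u with _ | ⟨i, w⟩ <;> simp [V, mem, len]
  | cons c r ihc ihr =>
    simp only [V, mem_union, mem_map, Function.Embedding.coeFn_mk, ihc, ihr]
    constructor
    · rintro (⟨w, hw, rfl⟩ | ⟨w, hw, rfl⟩)
      · exact (mem_zero w c r).2 hw
      · exact (mem_shift w c r).2 hw
    · rcases u with _ | ⟨_ | i, w⟩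
      · exact fun _ => Or.inr ⟨[], trivial, rfl⟩
      · exact fun h => Or.inl ⟨w, (mem_zero w c r).1 h, rfl⟩
      · exact fun h => Or.inr ⟨i :: w, (mem_shift (i :: w) c r).1 h, rfl⟩

theorem disjoint_V (c r : F) : Disjoint ((V c).map ⟨List.cons 0, List.cons_injective⟩)
    ((V r).map ⟨shift, shift_injective⟩) := by
  rw [disjoint_left]
  simp only [mem_map, Function.Embedding.coeFn_mk]
  rintro _ ⟨w, _, rfl⟩ ⟨_ | ⟨i, v⟩, _, h⟩ <;> simp [shift] at h

theorem card_V (f : F) : (V f).card = f.size + 1 := by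
  induction f with
  | nil => rfl
  | cons c r ihc ihr =>
    rw [V, card_union_of_disjoint (disjoint_V c r), card_map, card_map, ihc, ihr, size]; omega

theorem prod_V (ν : ℕ → ℝ≥0∞) (f : F) (a : ℝ≥0∞) :
    ∏ u ∈ V f, (if u = [] then a else ν (f.sub u).len) = a * wF ν f := by
  induction f generalizing a with
  | nil => simp [V, wF]
  | cons c r ihc ihr =>
    rw [V, prod_union (disjoint_V c r), prod_map, prod_map, wF, ← ihc, mul_left_comm, ← ihr]
    congr 1
    · refine prod_congr rfl fun u _ => ?_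
      rcases u with _ | ⟨i, w⟩ <;> simp [sub, child]
    · refine prod_congr rfl fun u _ => ?_
      rcases u with _ | ⟨i, w⟩ <;> simp [sub, child, shift]

theorem eq_of_mem {f g : F} (h : ∀ u, mem u f ↔ mem u g) : f = g := by
  induction f generalizing g with
  | nil =>
    cases g with
    | nil => rfl
    | cons c r => simpa [mem, len] using h [0]
  | cons a b iha ihb =>
    cases g with
    | nil => simpa [mem, len] using h [0]
    | cons c r =>
      rw [iha (g := c) fun u => by rw [← mem_zero u a b, h, mem_zero],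
        ihb (g := r) fun u => by rw [← mem_shift u a b, h, mem_shift]]

theorem small_iff (K : ℕ) (c : F) : c.small K ↔ ∀ u, mem u c → (c.sub u).len < K := by
  constructor
  · intro h u
    induction u generalizing c with
    | nil => exact fun _ => h.1
    | cons i w ih => exact fun hu => ih _ ((all_iff _ c).1 ((smallF_iff K c).1 h.2) i hu.1) hu.2
  · intro h
    refine ⟨h [] trivial, ?_⟩
    induction c with
    | nil => trivial
    | cons a b iha ihb =>
      refine ⟨⟨h [0] ((mem_zero [] a b).2 trivial), iha fun u hu => h (0 :: u)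
        ((mem_zero u a b).2 hu)⟩, ihb fun u hu => ?_⟩
      have := h _ ((mem_shift u a b).2 hu)
      rcases u with _ | ⟨i, w⟩
      · exact lt_trans (Nat.lt_succ_self _) this
      · exact this

theorem size_child_lt {c : F} {i : ℕ} (h : i < c.len) : (c.child i).size < c.size := by
  induction c generalizing i with
  | nil => simp [len] at h
  | cons a b _ ihb =>
    rcases i with _ | i
    · simp only [child, size]; omega
    · have := ihb (Nat.lt_of_succ_lt_succ h)
      simp only [child, size]; omega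

theorem length_le_size {u : List ℕ} {c : F} (h : mem u c) : u.length ≤ c.size := by
  induction u generalizing c with
  | nil => simp
  | cons i w ih => exact (Nat.succ_le_succ (ih h.2)).trans (size_child_lt h.1)

theorem len_sub_le_size {u : List ℕ} {c : F} (h : mem u c) : (c.sub u).len ≤ c.size := by
  induction u generalizing c with
  | nil => exact len_le_size c
  | cons i w ih => exact (ih h.2).trans (size_child_lt h.1).le

theorem anyV_of_mem {A : F → Prop} {u : List ℕ} {c : F} {h : ℕ} (hu : mem u c) (hA : A (c.sub u))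
    (hh : u.length < h) : anyV A h c := by
  induction u generalizing c h with
  | nil =>
    obtain ⟨h, rfl⟩ := Nat.exists_eq_succ_of_ne_zero (Nat.ne_zero_of_lt hh)
    exact Or.inl hA
  | cons i w ih =>
    obtain ⟨h, rfl⟩ := Nat.exists_eq_succ_of_ne_zero (Nat.ne_zero_of_lt hh)
    exact Or.inr ((ex_iff _ c).2 ⟨i, hu.1, ih hu.2 hA (Nat.lt_of_succ_lt_succ hh)⟩)

/-- The forest with trees `g 0, …, g (m - 1)`. -/
def ofFn : ℕ → (ℕ → F) → F
  | 0, _ => nil
  | m + 1, g => cons (g 0) (ofFn m fun i => g (i + 1))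

theorem len_ofFn (m : ℕ) (g : ℕ → F) : (ofFn m g).len = m := by
  induction m generalizing g with
  | zero => rfl
  | succ m ih => simp [ofFn, len, ih]

theorem child_ofFn {m i : ℕ} (g : ℕ → F) (h : i < m) : (ofFn m g).child i = g i := by
  induction m generalizing g i with
  | zero => simp at h
  | succ m ih =>
    rcases i with _ | i
    · rfl
    · exact ih _ (Nat.lt_of_succ_lt_succ h)

theorem size_ofFn (m : ℕ) (g : ℕ → F) : (ofFn m g).size = ∑ i ∈ range m, ((g i).size + 1) := by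
  induction m generalizing g with
  | zero => rfl
  | succ m ih => rw [ofFn, size, ih, sum_range_succ']; omega

/-- The rooted tree coded by `S` embeds in the one coded by `f`, root to root. -/
def Emb (S f : F) : Prop := ∃ ψ : List ℕ → List ℕ, ψ [] = [] ∧
  (∀ u v, mem u S → mem v S → ψ u = ψ v → u = v) ∧ (∀ u, mem u S → mem (ψ u) f) ∧
  ∀ u i, mem (u ++ [i]) S → ∃ j, ψ (u ++ [i]) = ψ u ++ [j]

theorem emb_ofFn {m : ℕ} {S : ℕ → F} {f : F} (σ : ℕ → ℕ) (h1 : ∀ i < m, σ i < f.len)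
    (h2 : ∀ i < m, ∀ j < m, σ i = σ j → i = j) (h3 : ∀ i < m, Emb (S i) (f.child (σ i))) :
    Emb (ofFn m S) f := by
  choose! ψ a1 a2 a3 a4 using h3
  have key : ∀ i w, mem (i :: w) (ofFn m S) → i < m ∧ mem w (S i) := by
    intro i w h
    have h' : i < m := len_ofFn m S ▸ h.1
    exact ⟨h', child_ofFn S h' ▸ h.2⟩
  refine ⟨fun u => match u with
    | [] => []
    | i :: w => σ i :: ψ i w, rfl, ?_, ?_, ?_⟩
  · rintro (_ | ⟨i, w⟩) (_ | ⟨j, v⟩) hu hv h
    · rfl
    · simp at h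
    · simp at h
    · simp only [List.cons.injEq] at h
      obtain ⟨b1, b2⟩ := key _ _ hu
      obtain ⟨b3, b4⟩ := key _ _ hv
      obtain rfl := h2 i b1 j b3 h.1
      rw [a2 i b1 w v b2 b4 h.2]
  · rintro (_ | ⟨i, w⟩) hu
    · trivial
    · obtain ⟨b1, b2⟩ := key _ _ hu
      exact ⟨h1 i b1, a3 i b1 w b2⟩
  · rintro (_ | ⟨i, w⟩) j hu
    · exact ⟨σ j, by simp [a1 j (key _ _ hu).1]⟩
    · obtain ⟨b1, b2⟩ := key _ _ hu
      obtain ⟨k, hk⟩ := a4 i b1 w j b2
      exact ⟨k, by simp [hk]⟩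

/-- The trees coded by `f` and `f'` have a common rooted subtree with more than `x` vertices. -/
def Com (f f' : F) (x : ℝ) : Prop := ∃ S : F, x ≤ S.size ∧ Emb S f ∧ Emb S f'

theorem Com.mono {f f' : F} {x y : ℝ} (h : Com f f' x) (hy : y ≤ x) : Com f f' y := by
  obtain ⟨S, h1, h2⟩ := h
  exact ⟨S, hy.trans h1, h2⟩

theorem com_zero (f f' : F) : Com f f' 0 :=
  ⟨ofFn 0 fun _ => nil, Nat.cast_nonneg _, emb_ofFn id (by simp) (by simp) (by simp),
    emb_ofFn id (by simp) (by simp) (by simp)⟩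

theorem com_combine {τ : Type*} [Fintype τ] {f f' : F} (σ σ' : τ → ℕ) (x : τ → ℝ)
    (h1 : ∀ t, σ t < f.len) (h1' : ∀ t, σ' t < f'.len) (h2 : σ.Injective) (h2' : σ'.Injective)
    (h3 : ∀ t, Com (f.child (σ t)) (f'.child (σ' t)) (x t)) : Com f f' (∑ t, (x t + 1)) := by
  choose S a1 a2 a3 using h3
  set e := (Fintype.equivFin τ).symm
  have key : ∀ (g : F) (ρ : τ → ℕ), (∀ t, ρ t < g.len) → ρ.Injective →
      (∀ t, Emb (S t) (g.child (ρ t))) → Emb (ofFn (Fintype.card τ) fun i =>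
        if h : i < Fintype.card τ then S (e ⟨i, h⟩) else nil) g := by
    intro g ρ b1 b2 b3
    refine emb_ofFn (fun i => if h : i < Fintype.card τ then ρ (e ⟨i, h⟩) else 0) ?_ ?_ ?_
    · intro i hi
      simpa [hi] using b1 _
    · intro i hi j hj h
      simp only [hi, hj, dite_true] at h
      simpa using e.injective (b2 h)
    · intro i hi
      simpa [hi] using b3 _
  refine ⟨_, ?_, key f σ h1 h2 a2, key f' σ' h1' h2' a3⟩
  rw [size_ofFn, sum_range, ← e.sum_comp]
  push_cast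
  refine sum_le_sum fun i _ => ?_
  simpa using a1 _

theorem com_lift {f f' : F} {i j : ℕ} {x : ℝ} (hi : i < f.len) (hj : j < f'.len)
    (h : Com (f.child i) (f'.child j) x) : Com f f' x := by
  refine (com_combine (τ := Unit) (fun _ => i) (fun _ => j) (fun _ => x) (fun _ => hi) (fun _ => hj)
    (fun _ _ _ => rfl) (fun _ _ _ => rfl) fun _ => h).mono ?_
  simp

theorem exists_select {ι : Type*} (s : Finset ι) (B : ι → F → Prop) (N : ι → ℕ) (f : F)
    (hd : ∀ i ∈ s, ∀ j ∈ s, ∀ c, B i c → B j c → i = j) (hN : ∀ i ∈ s, N i ≤ f.cnt (B i)) :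
    ∃ σ : (Σ i : s, Fin (N i)) → ℕ, (∀ t, σ t < f.len) ∧ σ.Injective ∧
      ∀ t, B t.1 (f.child (σ t)) := by
  classical
  have hN' : ∀ i : s, N i ≤ ((range f.len).filter fun k => B i (f.child k)).card := fun i => by
    have := hN i i.2
    rw [cnt_eq] at this
    exact this.trans (card_le_card fun k hk => by simpa using hk)
  have hm := fun (t : Σ i : s, Fin (N i)) => mem_filter.1 (orderEmbOfCardLe_mem _ (hN' t.1) t.2)
  refine ⟨fun t => orderEmbOfCardLe _ (hN' t.1) t.2, fun t => mem_range.1 (hm t).1, ?_,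
    fun t => (hm t).2⟩
  rintro ⟨i, a⟩ ⟨j, b⟩ h
  have h1 := (hm ⟨i, a⟩).2
  have h2 := (hm ⟨j, b⟩).2
  simp only at h h1 h2
  rw [h] at h1
  obtain rfl : i = j := Subtype.ext (hd i i.2 j j.2 _ h1 h2)
  rw [(orderEmbOfCardLe _ (hN' i)).injective h]

/-- Matching the trees of two forests type by type. -/
theorem com_match {ι : Type*} (s : Finset ι) (B B' : ι → F → Prop) (N : ι → ℕ) (x : ι → ℝ)
    {f f' : F} (hd : ∀ i ∈ s, ∀ j ∈ s, ∀ c, B i c → B j c → i = j)
    (hd' : ∀ i ∈ s, ∀ j ∈ s, ∀ c, B' i c → B' j c → i = j) (hN : ∀ i ∈ s, N i ≤ f.cnt (B i))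
    (hN' : ∀ i ∈ s, N i ≤ f'.cnt (B' i)) (h : ∀ i ∈ s, ∀ c c', B i c → B' i c' → Com c c' (x i)) :
    Com f f' (∑ i ∈ s, N i * (x i + 1)) := by
  obtain ⟨σ, a1, a2, a3⟩ := exists_select s B N f hd hN
  obtain ⟨σ', b1, b2, b3⟩ := exists_select s B' N f' hd' hN'
  refine (com_combine σ σ' (fun t => x t.1) a1 b1 a2 b2 fun t =>
    h _ t.1.2 _ _ (a3 t) (b3 t)).mono (le_of_eq ?_)
  rw [Fintype.sum_sigma, ← sum_coe_sort s]
  simp [mul_add]

end F

open F

/-- The plane tree coded by `f`. -/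
def toPT (f : F) : PlaneTree where
  verts := V f
  root_mem := (mem_V _ _).2 trivial
  parent_mem u i h := (mem_V _ _).2 ((F.mem_append _ _ _).1 ((mem_V _ _).1 h)).1
  sibling_mem u i h := by
    rw [mem_V, F.mem_append] at h ⊢
    exact ⟨h.1, lt_trans (Nat.lt_succ_self _) h.2.1, trivial⟩

theorem toPT_injective : Function.Injective toPT := fun f g h =>
  eq_of_mem fun u => by
    rw [← mem_V, ← mem_V]
    exact Iff.of_eq (congrArg (fun t : PlaneTree => u ∈ t.verts) h)

theorem exists_mem_iff (n : ℕ) : ∀ t : PlaneTree, t.verts.card ≤ n →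
    ∃ f, ∀ u, u ∈ t.verts ↔ mem u f := by
  classical
  induction n with
  | zero => exact fun t h => absurd (card_pos.2 ⟨_, t.root_mem⟩) (by omega)
  | succ n ih =>
    intro t ht
    by_cases h0 : [0] ∈ t.verts
    · have hc : ∀ (g : List ℕ → List ℕ) (hg : g.Injective), (∃ v ∈ t.verts, v ∉ Set.range g) →
          (t.verts.preimage g hg.injOn).card ≤ n := by
        rintro g hg ⟨v, hv, hv'⟩
        rw [card_preimage]
        have := card_lt_card (filter_ssubset.2 ⟨v, hv, hv'⟩ :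
          t.verts.filter (· ∈ Set.range g) ⊂ t.verts)
        omega
      obtain ⟨c, hc1⟩ := ih ⟨t.verts.preimage (List.cons 0) List.cons_injective.injOn,
        mem_preimage.2 h0,
        fun u i h => mem_preimage.2 (t.parent_mem (0 :: u) i (by rw [mem_preimage] at h; exact h)),
        fun u i h => mem_preimage.2 (t.sibling_mem (0 :: u) i (by rw [mem_preimage] at h; exact h))⟩
        (hc _ List.cons_injective ⟨[], t.root_mem, by simp⟩)
      obtain ⟨r, hr1⟩ := ih ⟨t.verts.preimage shift shift_injective.injOn,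
        mem_preimage.2 t.root_mem,
        fun u i h => mem_preimage.2 (by
          rcases u with _ | ⟨j, w⟩
          · exact t.root_mem
          · exact t.parent_mem ((j + 1) :: w) i (by rw [mem_preimage] at h; exact h)),
        fun u i h => mem_preimage.2 (by
          rcases u with _ | ⟨j, w⟩
          · exact t.sibling_mem [] (i + 1) (by rw [mem_preimage] at h; exact h)
          · exact t.sibling_mem ((j + 1) :: w) i (by rw [mem_preimage] at h; exact h))⟩
        (hc _ shift_injective ⟨[0], h0, by rintro ⟨_ | ⟨j, w⟩, h⟩ <;> simp [shift] at h⟩)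
      simp only [mem_preimage] at hc1 hr1
      refine ⟨cons c r, ?_⟩
      rintro (_ | ⟨_ | i, w⟩)
      · exact iff_of_true t.root_mem trivial
      · rw [F.mem_zero, hc1]
      · exact (hr1 (i :: w)).trans (mem_shift (i :: w) c r).symm
    · refine ⟨nil, ?_⟩
      rintro (_ | ⟨i, w⟩)
      · exact iff_of_true t.root_mem trivial
      refine iff_of_false (fun h => h0 ?_) (by simp [mem, len])
      have h1 : [i] ∈ t.verts := by
        induction w using List.reverseRecOn with
        | nil => exact h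
        | append_singleton w j ihw => exact ihw (t.parent_mem (i :: w) j h)
      clear h
      induction i with
      | zero => exact h1
      | succ i ihi => exact ihi (t.sibling_mem [] i h1)

theorem toPT_surjective : Function.Surjective toPT := by
  intro t
  obtain ⟨f, hf⟩ := exists_mem_iff _ t le_rfl
  refine ⟨f, ?_⟩
  obtain ⟨s, _, _, _⟩ := t
  simp only [toPT, PlaneTree.mk.injEq]
  ext u
  rw [mem_V, hf]

theorem outdeg_toPT {f : F} {u : List ℕ} (h : mem u f) : (toPT f).outdeg u = (f.sub u).len := by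
  have : {i : ℕ | u ++ [i] ∈ (toPT f).verts} = ↑(range (f.sub u).len) := by
    ext i
    simp [toPT, mem_V, F.mem_append, h, mem]
  rw [PlaneTree.outdeg, this, Set.ncard_coe_finset, card_range]

theorem isContained_of_emb {S f : F} {u : List ℕ} (hu : mem u f) (h : Emb S (f.sub u)) :
    (toPT S).graph.IsContained (toPT f).graph := by
  obtain ⟨ψ, -, a2, a3, a4⟩ := h
  have hinj : Function.Injective fun v : (toPT S).verts => (⟨u ++ ψ v, (mem_V _ _).2
      ((F.mem_append _ _ _).2 ⟨hu, a3 _ ((mem_V _ _).1 v.2)⟩)⟩ : (toPT f).verts) := by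
    intro v w hvw
    exact Subtype.ext (a2 _ _ ((mem_V _ _).1 v.2) ((mem_V _ _).1 w.2)
      (List.append_cancel_left (congrArg Subtype.val hvw)))
  refine ⟨⟨⟨_, fun {v w} hvw => ?_⟩, hinj⟩⟩
  rw [PlaneTree.graph, SimpleGraph.fromRel_adj] at hvw ⊢
  refine ⟨hinj.ne hvw.1, hvw.2.imp ?_ ?_⟩
  · rintro ⟨i, hi⟩
    obtain ⟨j, hj⟩ := a4 v i (hi ▸ (mem_V _ _).1 w.2)
    exact ⟨j, by simp [hi, hj]⟩
  · rintro ⟨i, hi⟩
    obtain ⟨j, hj⟩ := a4 w i (hi ▸ (mem_V _ _).1 v.2)
    exact ⟨j, by simp [hi, hj]⟩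

theorem PlaneTree.connected (t : PlaneTree) : t.graph.Connected := by
  rw [SimpleGraph.connected_iff_exists_forall_reachable]
  refine ⟨⟨[], t.root_mem⟩, fun ⟨w, hw⟩ => ?_⟩
  induction w using List.reverseRecOn with
  | nil => rfl
  | append_singleton w j ih =>
    refine (ih (t.parent_mem w j hw)).trans (SimpleGraph.Adj.reachable ?_)
    rw [PlaneTree.graph, SimpleGraph.fromRel_adj]
    exact ⟨by simp, Or.inl ⟨j, rfl⟩⟩

theorem le_LCS {f f' : F} {u u' : List ℕ} {x : ℝ} (hu : mem u f) (hu' : mem u' f')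
    (h : Com (f.sub u) (f'.sub u') x) : x ≤ LCS (toPT f) (toPT f') := by
  obtain ⟨S, h1, h2, h3⟩ := h
  obtain ⟨T, hT, hT'⟩ := (toPT S).connected.exists_isTree_le
  have hc : Fintype.card (toPT S).verts = S.size + 1 := by
    rw [Fintype.card_coe]; exact card_V S
  have : S.size + 1 ≤ LCS (toPT f) (toPT f') := by
    refine le_csSup ⟨Fintype.card (toPT f).verts, ?_⟩ ⟨T.overFin hc,
      (T.overFinIso hc).isTree_iff.1 hT',
      (T.overFinIso hc).isContained'.trans ((SimpleGraph.IsContained.of_le hT).trans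
        (isContained_of_emb hu h2)),
      (T.overFinIso hc).isContained'.trans ((SimpleGraph.IsContained.of_le hT).trans
        (isContained_of_emb hu' h3))⟩
    rintro k ⟨R, -, ⟨g⟩, -⟩
    simpa using Fintype.card_le_of_injective _ g.injective
  have : (S.size : ℝ) + 1 ≤ LCS (toPT f) (toPT f') := by exact_mod_cast this
  linarith

theorem maxDeg_le {f : F} {K : ℕ} (h : f.small K) : (toPT f).maxDeg ≤ K := by
  classical
  rw [PlaneTree.maxDeg]
  refine SimpleGraph.maxDegree_le_of_forall_degree_le _ _ fun v => ?_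
  rw [← SimpleGraph.card_neighborFinset_eq_degree]
  have h1 := (small_iff K f).1 h v ((mem_V _ _).1 v.2)
  calc _ ≤ (insert v.1.dropLast ((range (f.sub v).len).image fun i => v.1 ++ [i])).card := by
        refine card_le_card_of_injOn Subtype.val (fun w hw => ?_) Subtype.val_injective.injOn
        rw [mem_coe, SimpleGraph.mem_neighborFinset, PlaneTree.graph,
          SimpleGraph.fromRel_adj] at hw
        rw [mem_coe, mem_insert, mem_image]
        rcases hw.2 with ⟨i, hi⟩ | ⟨i, hi⟩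
        · have := (mem_V _ _).1 w.2
          rw [hi, F.mem_append] at this
          exact Or.inr ⟨i, mem_range.2 this.2.1, hi.symm⟩
        · exact Or.inl (by simp [hi])
    _ ≤ (f.sub v).len + 1 := (card_insert_le _ _).trans (Nat.succ_le_succ
        (card_image_le.trans (card_range _).le))
    _ ≤ K := h1

theorem exists_hub (f : F) : ∃ u, mem u f ∧ f.small ((f.sub u).len + 1) := by
  obtain ⟨u, hu, h⟩ := exists_max_image (V f) (fun u => (f.sub u).len) ⟨[], (mem_V _ _).2 trivial⟩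
  exact ⟨u, (mem_V _ _).1 hu, (small_iff _ f).2 fun v hv =>
    Nat.lt_succ_of_le (h v ((mem_V _ _).2 hv))⟩

end Pool.Agent.MP_8702f5_pr

end

-- part MP_8702f5_pr.UDet
section

/-! Deterministic part of the upper bound: rooted common subtrees, the branching number of a pair
of trees and the accumulated mass along a path. -/

namespace Pool.Agent.MP_8702f5_pr

open Finset

namespace F

/-- Removing the tree number `j`. -/
def del : F → ℕ → F
  | nil, _ => nil
  | cons _ r, 0 => r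
  | cons c r, j + 1 => cons c (del r j)

theorem len_del {f : F} {j : ℕ} (h : j < f.len) : (f.del j).len + 1 = f.len := by
  induction f generalizing j with
  | nil => simp [len] at h
  | cons c r _ ih =>
    rcases j with _ | j
    · rfl
    · simp only [del, len]
      rw [ih (Nat.lt_of_succ_lt_succ h)]

theorem child_del (f : F) (i j : ℕ) :
    (f.del j).child i = f.child (if i < j then i else i + 1) := by
  induction f generalizing i j with
  | nil => simp [del, child]
  | cons c r _ ih =>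
    rcases j with _ | j
    · simp [del, child]
    · rcases i with _ | i
      · simp [del, child]
      · simp only [del, child, ih, Nat.add_lt_add_iff_right]
        split_ifs <;> rfl

theorem all_del {A : F → Prop} {f : F} (h : f.all A) (j : ℕ) : (f.del j).all A := by
  induction f generalizing j with
  | nil => exact h
  | cons c r _ ih =>
    rcases j with _ | j
    · exact h.2
    · exact ⟨h.1, ih h.2 j⟩

theorem all_child {A : F → Prop} {f : F} (h : f.all A) {j : ℕ} (hj : j < f.len) :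
    A (f.child j) := (all_iff A f).1 h j hj

/-- Subforests. -/
inductive Sub : F → F → Prop
  | nil : Sub nil nil
  | skip {g g' : F} (a : F) : Sub g g' → Sub g (cons a g')
  | keep {g g' : F} (a : F) : Sub g g' → Sub (cons a g) (cons a g')

theorem Sub.refl (f : F) : Sub f f := by
  induction f with
  | nil => exact Sub.nil
  | cons c r _ ih => exact Sub.keep c ih

theorem sub_del (f : F) (j : ℕ) : Sub (f.del j) f := by
  induction f generalizing j with
  | nil => exact Sub.nil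
  | cons c r _ ih =>
    rcases j with _ | j
    · exact Sub.skip c (Sub.refl r)
    · exact Sub.keep c (ih j)

theorem Sub.pick {g g' : F} (h : Sub g g') : ∀ j < g.len,
    ∃ j' < g'.len, g.child j = g'.child j' ∧ Sub (g.del j) (g'.del j') := by
  induction h with
  | nil => intro j hj; simp [len] at hj
  | skip a _ ih =>
    intro j hj
    obtain ⟨j', h1, h2, h3⟩ := ih j hj
    exact ⟨j' + 1, Nat.succ_lt_succ h1, h2, Sub.skip a h3⟩
  | keep a h ih =>
    rintro (_ | j) hj
    · exact ⟨0, Nat.succ_pos _, rfl, h⟩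
    · obtain ⟨j', h1, h2, h3⟩ := ih j (Nat.lt_of_succ_lt_succ hj)
      exact ⟨j' + 1, Nat.succ_lt_succ h1, h2, Sub.keep a h3⟩

end F

open F

/-- The largest number of non-root vertices of a common rooted subtree. -/
def Rm : F → F → ℕ
  | F.nil, _ => 0
  | F.cons c r, f =>
    max (Rm r f) ((range f.len).sup fun j => Rm c (f.child j) + 1 + Rm r (f.del j))

open Classical in
/-- The largest number of branches of a common rooted subtree made of pairs that are not good. -/
noncomputable def Lm (gd : F → F → Prop) : F → F → ℕ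
  | F.nil, _ => 0
  | F.cons c r, f => max (Lm gd r f) (((range f.len).filter fun j => ¬gd c (f.child j)).sup
      fun j => max 1 (Lm gd c (f.child j)) + Lm gd r (f.del j))

theorem Lm_tail_le (gd : F → F → Prop) (c r f : F) : Lm gd r f ≤ Lm gd (cons c r) f :=
  le_max_left _ _

theorem Lm_pick_le {gd : F → F → Prop} {c f : F} (r : F) {j : ℕ} (hj : j < f.len)
    (hb : ¬gd c (f.child j)) :
    max 1 (Lm gd c (f.child j)) + Lm gd r (f.del j) ≤ Lm gd (cons c r) f := by
  classical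
  refine le_trans ?_ (le_max_right _ _)
  exact le_sup (f := fun j => max 1 (Lm gd c (f.child j)) + Lm gd r (f.del j))
    (mem_filter.2 ⟨mem_range.2 hj, hb⟩)

theorem Lm_cases (gd : F → F → Prop) (c r f : F) : Lm gd (cons c r) f = Lm gd r f ∨
    ∃ j < f.len, ¬gd c (f.child j) ∧
      Lm gd (cons c r) f = max 1 (Lm gd c (f.child j)) + Lm gd r (f.del j) := by
  classical
  rw [Lm]
  rcases ((range f.len).filter fun j => ¬gd c (f.child j)).eq_empty_or_nonempty with h | h
  · left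
    simp only [h, sup_empty]
    exact max_eq_left bot_le
  · obtain ⟨j, hj, e⟩ := exists_mem_eq_sup _ h
      fun j => max 1 (Lm gd c (f.child j)) + Lm gd r (f.del j)
    rcases le_total (Lm gd r f) (max 1 (Lm gd c (f.child j)) + Lm gd r (f.del j)) with h1 | h1
    · exact Or.inr ⟨j, mem_range.1 (mem_filter.1 hj).1, (mem_filter.1 hj).2, by
        rw [e, max_eq_right h1]⟩
    · exact Or.inl (by rw [e, max_eq_left h1])

theorem Lm_mono (gd : F → F → Prop) (g : F) : ∀ {f f' : F}, Sub f f' → Lm gd g f ≤ Lm gd g f' := by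
  induction g with
  | nil => intro _ _ _; exact le_rfl
  | cons c r _ ih =>
    intro f f' h
    rcases Lm_cases gd c r f with e | ⟨j, hj, hb, e⟩
    · rw [e]; exact (ih h).trans (Lm_tail_le gd c r f')
    · obtain ⟨j', h1, h2, h3⟩ := h.pick j hj
      rw [e, h2]
      exact (Nat.add_le_add_left (ih h3) _).trans (Lm_pick_le r h1 (h2 ▸ hb))

theorem Rm_cases (c r f : F) : Rm (cons c r) f = Rm r f ∨
    ∃ j < f.len, Rm (cons c r) f = Rm c (f.child j) + 1 + Rm r (f.del j) := by
  rw [Rm]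
  rcases (range f.len).eq_empty_or_nonempty with h | h
  · left
    simp only [h, sup_empty]
    exact max_eq_left bot_le
  · obtain ⟨j, hj, e⟩ := exists_mem_eq_sup _ h fun j => Rm c (f.child j) + 1 + Rm r (f.del j)
    rcases le_total (Rm r f) (Rm c (f.child j) + 1 + Rm r (f.del j)) with h1 | h1
    · exact Or.inr ⟨j, mem_range.1 hj, by rw [e, max_eq_right h1]⟩
    · exact Or.inl (by rw [e, max_eq_left h1])

/-- Every matching of the trees of two forests gives a lower bound for `Rm`. -/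
theorem le_Rm (g : F) : ∀ (f : F) (p : ℕ → Prop) [DecidablePred p] (σ : ℕ → ℕ),
    (∀ i < g.len, p i → σ i < f.len) →
    (∀ i < g.len, ∀ i' < g.len, p i → p i' → σ i = σ i' → i = i') →
    ∑ i ∈ range g.len, (if p i then Rm (g.child i) (f.child (σ i)) + 1 else 0) ≤ Rm g f := by
  induction g with
  | nil => intro f p _ σ _ _; simp [len]
  | cons c r _ ih =>
    intro f p _ σ h1 h2
    rw [len, sum_range_succ']
    simp only [child]
    by_cases h0 : p 0
    · rw [if_pos h0]
      have hj : σ 0 < f.len := h1 0 (Nat.succ_pos _) h0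
      have hne : ∀ i < r.len, p (i + 1) → σ (i + 1) ≠ σ 0 := fun i hi hp e => by
        have := h2 (i + 1) (Nat.succ_lt_succ hi) 0 (Nat.succ_pos _) hp h0 e
        omega
      have hl := len_del hj
      have key := ih (f.del (σ 0)) (fun i => p (i + 1))
        (fun i => if σ (i + 1) < σ 0 then σ (i + 1) else σ (i + 1) - 1)
        (fun i hi hp => by
          have := h1 (i + 1) (Nat.succ_lt_succ hi) hp
          have := hne i hi hp
          split_ifs <;> omega)
        (fun i hi i' hi' hp hp' e => by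
          have a1 := hne i hi hp
          have a2 := hne i' hi' hp'
          have := h2 (i + 1) (Nat.succ_lt_succ hi) (i' + 1) (Nat.succ_lt_succ hi') hp hp'
            (by split_ifs at e <;> omega)
          omega)
      have e1 : ∑ i ∈ range r.len, (if p (i + 1) then
          Rm (r.child i) (f.child (σ (i + 1))) + 1 else 0) ≤ Rm r (f.del (σ 0)) := by
        refine le_trans (le_of_eq (sum_congr rfl fun i hi => ?_)) key
        by_cases hp : p (i + 1)
        · have a1 := hne i (mem_range.1 hi) hp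
          rw [if_pos hp, if_pos hp, child_del]
          congr 3
          split_ifs <;> omega
        · rw [if_neg hp, if_neg hp]
      refine le_trans ?_ (le_trans (le_sup (f := fun j => Rm c (f.child j) + 1 + Rm r (f.del j))
        (mem_range.2 hj)) (le_max_right _ _))
      omega
    · rw [if_neg h0, add_zero]
      refine le_trans (ih f (fun i => p (i + 1)) (fun i => σ (i + 1))
        (fun i hi hp => h1 (i + 1) (Nat.succ_lt_succ hi) hp) fun i hi i' hi' hp hp' e => ?_)
        (le_max_left _ _)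
      have := h2 (i + 1) (Nat.succ_lt_succ hi) (i' + 1) (Nat.succ_lt_succ hi') hp hp' e
      omega

/-- The sum of `Y` over the trees of a forest. -/
def sumY (Y : F → ℝ) : F → ℝ
  | F.nil => 0
  | F.cons c r => Y c + sumY Y r

/-- The largest mass hanging along a path going down from the root. -/
noncomputable def acc (Y : F → ℝ) : F → ℝ
  | F.nil => 0
  | F.cons c r => max (acc Y c + 1 + sumY Y r) (Y c + acc Y r)

variable {Y : F → ℝ}

theorem sumY_nonneg (hY : ∀ c, 0 ≤ Y c) (g : F) : 0 ≤ sumY Y g := by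
  induction g with
  | nil => exact le_rfl
  | cons c r _ ih => exact add_nonneg (hY c) ih

theorem sumY_le_acc (g : F) : sumY Y g ≤ acc Y g := by
  induction g with
  | nil => exact le_rfl
  | cons c r _ ih => exact le_trans (add_le_add le_rfl ih) (le_max_right _ _)

theorem sumY_eq (g : F) : sumY Y g = ∑ i ∈ range g.len, Y (g.child i) := by
  induction g with
  | nil => simp [sumY, len]
  | cons c r _ ih => rw [sumY, len, sum_range_succ', ih, add_comm]; rfl

theorem acc_all (hY : ∀ c, 0 ≤ Y c) (g : F) :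
    g.all fun c => acc Y c + 1 ≤ acc Y g - sumY Y g + Y c ∧ Y c ≤ sumY Y g := by
  induction g with
  | nil => trivial
  | cons c r _ ih =>
    have h1 : acc Y c + 1 + sumY Y r ≤ acc Y (cons c r) := le_max_left _ _
    have h2 : Y c + acc Y r ≤ acc Y (cons c r) := le_max_right _ _
    have h3 := sumY_nonneg hY r
    have h4 := hY c
    refine ⟨⟨by rw [sumY]; linarith, by rw [sumY]; linarith⟩, all_mono (fun a ha => ?_) ih⟩
    rw [sumY]
    exact ⟨by linarith [ha.1], by linarith [ha.2]⟩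

/-- A family of trees closed under taking the subtree of a child of the root. -/
def Her (T : F → Prop) : Prop := ∀ c, T c → c.all T

theorem core {gd : F → F → Prop} {T' T : F → Prop} (hT' : Her T') (hT : Her T) {G : ℝ}
    (hG : 1 ≤ G) (hY : ∀ c, 0 ≤ Y c)
    (h : ∀ c' c, T' c' → T c → gd c' c → (Rm c' c : ℝ) + 1 ≤ G * Y c') (g : F) :
    ∀ (f : F) (D s : ℝ), g.all T' → f.all T → 0 ≤ D → 0 ≤ s →
      g.all (fun c => acc Y c + 1 ≤ D + Y c ∧ Y c ≤ s) →
      (Rm g f : ℝ) ≤ G * (sumY Y g + Lm gd g f * D + ((Lm gd g f - 1 : ℕ) : ℝ) * s) := by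
  induction g with
  | nil => intro f D s _ _ _ _ _; simp [Rm, sumY, Lm]
  | cons c r ihc ihr =>
    intro f D s hg hf hD hs ha
    have hG0 : 0 ≤ G := by linarith
    have mono : ∀ {L L' : ℕ}, L ≤ L' →
        (L : ℝ) * D + ((L - 1 : ℕ) : ℝ) * s ≤ L' * D + ((L' - 1 : ℕ) : ℝ) * s := by
      intro L L' hL
      gcongr
    rcases Rm_cases c r f with e | ⟨j, hj, e⟩
    · rw [e]
      refine (ihr f D s hg.2 hf hD hs ha.2).trans (mul_le_mul_of_nonneg_left ?_ hG0)
      have := mono (Lm_tail_le gd c r f)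
      rw [sumY]
      linarith [hY c]
    · have h1 := ihr (f.del j) D s hg.2 (all_del hf j) hD hs ha.2
      have hfj : T (f.child j) := all_child hf hj
      rw [e]
      push_cast
      by_cases hb : gd c (f.child j)
      · have h2 := h c _ hg.1 hfj hb
        have h3 := mono ((Lm_mono gd r (sub_del f j)).trans (Lm_tail_le gd c r f))
        rw [sumY]
        nlinarith
      · have h2 := ihc (f.child j) (acc Y c - sumY Y c) (sumY Y c) (hT' c hg.1) (hT _ hfj)
          (sub_nonneg.2 (sumY_le_acc c)) (sumY_nonneg hY c) (acc_all hY c)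
        have h3 := mono (Lm_pick_le r hj hb)
        set L := Lm gd c (f.child j)
        set L' := Lm gd r (f.del j)
        have hacc : 0 ≤ acc Y c := (sumY_nonneg hY c).trans (sumY_le_acc c)
        obtain ⟨M, hM⟩ : ∃ M, max 1 L = M + 1 := ⟨max 1 L - 1, by omega⟩
        have h4 : sumY Y c + L * (acc Y c - sumY Y c) + ((L - 1 : ℕ) : ℝ) * sumY Y c ≤
            (M + 1) * acc Y c := by
          rcases Nat.eq_zero_or_pos L with h0 | h0
          · have : M = 0 := by omega
            simp [h0, this, sumY_le_acc]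
          · have : L = M + 1 := by omega
            rw [this, Nat.add_sub_cancel]
            push_cast
            linarith
        have hM0 : (0 : ℝ) ≤ M := Nat.cast_nonneg M
        have h5 : (Rm c (f.child j) : ℝ) + 1 ≤ G * ((M + 1) * (D + Y c)) := by
          have a1 : (Rm c (f.child j) : ℝ) ≤ G * ((M + 1) * acc Y c) :=
            h2.trans (mul_le_mul_of_nonneg_left h4 hG0)
          have a2 : G * ((M + 1) * (acc Y c + 1)) ≤ G * ((M + 1) * (D + Y c)) :=
            mul_le_mul_of_nonneg_left (mul_le_mul_of_nonneg_left ha.1.1 (by linarith)) hG0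
          nlinarith
        rw [hM] at h3
        have h6 : (M : ℝ) + ((L' - 1 : ℕ) : ℝ) ≤ ((M + 1 + L' - 1 : ℕ) : ℝ) := by
          exact_mod_cast (by omega)
        have h7 : (M : ℝ) * Y c ≤ M * s := mul_le_mul_of_nonneg_left ha.1.2 hM0
        have h8 : ((M : ℝ) + ((L' - 1 : ℕ) : ℝ)) * s ≤ ((M + 1 + L' - 1 : ℕ) : ℝ) * s :=
          mul_le_mul_of_nonneg_right h6 hs
        rw [sumY]
        push_cast at h3
        refine le_trans (add_le_add h5 h1) ?_
        rw [← mul_add]
        refine mul_le_mul_of_nonneg_left ?_ hG0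
        linarith

theorem core_tree {gd : F → F → Prop} {T' T : F → Prop} (hT' : Her T') (hT : Her T) {G : ℝ}
    (hG : 1 ≤ G) (hY : ∀ c, 0 ≤ Y c)
    (h : ∀ c' c, T' c' → T c → gd c' c → (Rm c' c : ℝ) + 1 ≤ G * Y c') {g f : F} (hg : T' g)
    (hf : T f) {m : ℕ} (hm : 1 ≤ m) (hL : Lm gd g f ≤ m) :
    (Rm g f : ℝ) + 1 ≤ G * m * (acc Y g + 1) := by
  have h2 := core hT' hT hG hY h g f (acc Y g - sumY Y g) (sumY Y g) (hT' g hg) (hT f hf)
    (sub_nonneg.2 (sumY_le_acc g)) (sumY_nonneg hY g) (acc_all hY g)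
  have h3 := sumY_nonneg hY g
  have h4 := sumY_le_acc (Y := Y) g
  have h5 : (Lm gd g f : ℝ) ≤ m := by exact_mod_cast hL
  have h6 : ((Lm gd g f - 1 : ℕ) : ℝ) ≤ m - 1 := by
    have : Lm gd g f - 1 + 1 ≤ m := by omega
    have : ((Lm gd g f - 1 : ℕ) : ℝ) + 1 ≤ m := by exact_mod_cast this
    linarith
  have h7 : (1 : ℝ) ≤ m := by exact_mod_cast hm
  have h8 : sumY Y g + Lm gd g f * (acc Y g - sumY Y g) + ((Lm gd g f - 1 : ℕ) : ℝ) * sumY Y g ≤
      m * acc Y g := by nlinarith
  have h9 := mul_le_mul_of_nonneg_left h8 (by linarith : 0 ≤ G)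
  nlinarith

/-- One of the trees has height less than `h`, and the product of the out-degrees of two vertices
at equal heights is at most `z`. -/
def good (z : ℕ) : ℕ → F → F → Prop
  | 0, _, _ => False
  | h + 1, g, f => g.len * f.len ≤ z ∧ g.all fun c' => f.all fun c => good z h c' c

theorem Rm_le_of_all {B : ℕ} (g : F) : ∀ f : F,
    (g.all fun c' => f.all fun c => Rm c' c + 1 ≤ B) → Rm g f ≤ g.len * f.len * B := by
  induction g with
  | nil => intro f _; simp [Rm]
  | cons c r _ ih =>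
    intro f h
    rw [len]
    rcases Rm_cases c r f with e | ⟨j, hj, e⟩
    · rw [e]
      exact (ih f h.2).trans (by gcongr; omega)
    · have h1 := ih (f.del j) (all_mono (fun _ ha => all_del ha j) h.2)
      have h2 := all_child h.1 hj
      have h3 := len_del hj
      rw [e, ← h3]
      nlinarith [Nat.zero_le (r.len * B), Nat.zero_le ((f.del j).len * B)]

theorem good_base {z : ℕ} : ∀ {h : ℕ} {g f : F}, good z h g f → Rm g f + 1 ≤ (z + 1) ^ h
  | 0, _, _, hg => hg.elim
  | h + 1, g, f, hg => by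
    have h1 := Rm_le_of_all (B := (z + 1) ^ h) g f
      (all_mono (fun _ ha => all_mono (fun _ hb => good_base hb) ha) hg.2)
    have h2 : g.len * f.len * (z + 1) ^ h ≤ z * (z + 1) ^ h := Nat.mul_le_mul_right _ hg.1
    have h3 : 1 ≤ (z + 1) ^ h := Nat.one_le_pow _ _ (Nat.succ_pos z)
    rw [pow_succ]
    nlinarith

theorem good_of_size {z n : ℕ} (hz : n * n ≤ z) :
    ∀ {h : ℕ} {g f : F}, g.size < h → g.size ≤ n → f.size ≤ n → good z h g f
  | 0, _, _, h0, _, _ => absurd h0 (Nat.not_lt_zero _)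
  | h + 1, g, f, h0, h1, h2 => by
    refine ⟨(Nat.mul_le_mul ((len_le_size g).trans h1) ((len_le_size f).trans h2)).trans hz, ?_⟩
    refine (all_iff _ _).2 fun i hi => (all_iff _ _).2 fun j hj => ?_
    have a1 := size_child_lt hi
    have a2 := size_child_lt hj
    exact good_of_size hz (by omega) (by omega) (by omega)

/-- The induction over the levels. -/
theorem levels {T' T : F → Prop} (hT' : Her T') (hT : Her T) (hY : ∀ c, 1 ≤ Y c)
    (z H : ℕ → ℕ) {m : ℕ} (hm : 1 ≤ m) {L : ℝ} (hL1 : 1 ≤ L) {N : ℕ}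
    (h1 : ∀ i < N, ∀ c' c, T' c' → T c → good (z (i + 1)) (H (i + 1)) c' c →
      Lm (good (z i) (H i)) c' c ≤ m)
    (h2 : ∀ c', T' c' → acc Y c' + 1 ≤ L * Y c') : ∀ i ≤ N, ∀ c' c, T' c' → T c →
      good (z i) (H i) c' c →
      (Rm c' c : ℝ) + 1 ≤ ((z 0 + 1) ^ H 0 : ℕ) * (m * L) ^ i * Y c' := by
  have hm' : (1 : ℝ) ≤ m := by exact_mod_cast hm
  have hG : (1 : ℝ) ≤ ((z 0 + 1) ^ H 0 : ℕ) := by
    exact_mod_cast Nat.one_le_pow _ _ (Nat.succ_pos _)
  intro i
  induction i with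
  | zero =>
    intro _ c' c _ _ hg
    have : ((Rm c' c + 1 : ℕ) : ℝ) ≤ ((z 0 + 1) ^ H 0 : ℕ) := by exact_mod_cast good_base hg
    rw [Nat.cast_add, Nat.cast_one] at this
    rw [pow_zero, mul_one]
    nlinarith [hY c']
  | succ i ih =>
    intro hi c' c hc' hc hg
    have hG' : (1 : ℝ) ≤ ((z 0 + 1) ^ H 0 : ℕ) * (m * L) ^ i :=
      one_le_mul_of_one_le_of_one_le hG (one_le_pow₀ (one_le_mul_of_one_le_of_one_le hm' hL1))
    refine (core_tree hT' hT hG' (fun c => by linarith [hY c]) (ih (by omega)) hc' hc hm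
      (h1 i hi c' c hc' hc hg)).trans ?_
    calc _ ≤ ((z 0 + 1) ^ H 0 : ℕ) * (m * L) ^ i * m * (L * Y c') := by
          gcongr; exact h2 c' hc'
      _ = _ := by ring

end Pool.Agent.MP_8702f5_pr

end

-- part MP_8702f5_pr.UPair
section

/-! Pairs of independent trees: the exponential moment of the branching number. -/

namespace Pool.Agent.MP_8702f5_pr

open Finset F
open scoped ENNReal

variable {ν ν' : ℕ → ℝ≥0∞}

theorem E_eq_w (l : ℕ) (φ : F → ℝ≥0∞) :
    E ν l φ = ∑' f, (if f.len = l then wF ν f else 0) * φ f :=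
  tsum_congr fun f => by split_ifs <;> simp

theorem tsum_w_comm (w w' : F → ℝ≥0∞) (φ : F → F → ℝ≥0∞) :
    ∑' g, w' g * ∑' f, w f * φ g f = ∑' f, w f * ∑' g, w' g * φ g f := by
  simp only [← ENNReal.tsum_mul_left]
  rw [ENNReal.tsum_comm]
  exact tsum_congr fun f => tsum_congr fun g => by ring

theorem E_comm (l l' : ℕ) (φ : F → F → ℝ≥0∞) :
    E ν' l' (fun g => E ν l fun f => φ g f) = E ν l fun f => E ν' l' fun g => φ g f := by
  simp only [E_eq_w]
  exact tsum_w_comm _ _ φ

theorem ET_E_comm (l : ℕ) (φ : F → F → ℝ≥0∞) :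
    ET ν' (fun g => E ν l fun f => φ g f) = E ν l fun f => ET ν' fun g => φ g f := by
  simp only [E_eq_w, ET]
  exact tsum_w_comm _ _ φ

theorem ET_comm (φ : F → F → ℝ≥0∞) :
    ET ν' (fun g => ET ν fun f => φ g f) = ET ν fun f => ET ν' fun g => φ g f := by
  simp only [ET]
  exact tsum_w_comm _ _ φ

theorem E_tsum {ι : Type*} (l : ℕ) (φ : ι → F → ℝ≥0∞) :
    E ν l (fun f => ∑' i, φ i f) = ∑' i, E ν l (φ i) := by
  simp only [E_eq_w, ← ENNReal.tsum_mul_left]
  exact ENNReal.tsum_comm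

theorem ET_mul' (a : ℝ≥0∞) (φ : F → ℝ≥0∞) : ET ν (fun f => a * φ f) = a * ET ν φ := by
  simp only [mul_comm a, ET_mul]

theorem E_mul' (l : ℕ) (a : ℝ≥0∞) (φ : F → ℝ≥0∞) : E ν l (fun f => φ f * a) = E ν l φ * a := by
  simp only [mul_comm _ a, E_mul]

theorem ET_const_le (hν : ∑' l, ν l ≤ 1) (a : ℝ≥0∞) : ET ν (fun _ => a) ≤ a := by
  have := ET_mul (ν := ν) a fun _ => 1
  simp only [one_mul] at this
  rw [this]
  exact mul_le_of_le_one_left' (ET_one_le hν)

theorem E_const_le (hν : ∑' l, ν l ≤ 1) (l : ℕ) (a : ℝ≥0∞) : E ν l (fun _ => a) ≤ a := by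
  have := E_mul (ν := ν) l a fun _ => 1
  simp only [mul_one] at this
  rw [this]
  exact mul_le_of_le_one_right' (E_one_le hν l)

theorem ET_sum {ι : Type*} (s : Finset ι) (φ : ι → F → ℝ≥0∞) :
    ET ν (fun f => ∑ i ∈ s, φ i f) = ∑ i ∈ s, ET ν (φ i) := by
  classical
  induction s using Finset.induction_on with
  | empty => simp [ET]
  | insert a s ha ih => simp only [sum_insert ha, ET_add, ih]

/-- The expectation over a pair of forests. -/
noncomputable def E2 (ν' ν : ℕ → ℝ≥0∞) (l' l : ℕ) (φ : F → F → ℝ≥0∞) : ℝ≥0∞ :=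
  E ν' l' fun g => E ν l fun f => φ g f

/-- The expectation over a pair of trees. -/
noncomputable def ET2 (ν' ν : ℕ → ℝ≥0∞) (φ : F → F → ℝ≥0∞) : ℝ≥0∞ :=
  ET ν' fun g => ET ν fun f => φ g f

/-- The expectation of a function of the product of two independent out-degrees. -/
noncomputable def M2 (ν' ν : ℕ → ℝ≥0∞) (a : ℕ → ℝ≥0∞) : ℝ≥0∞ :=
  ∑' l', ∑' l, ν' l' * ν l * a (l' * l)

theorem ET2_eq (φ : F → F → ℝ≥0∞) :
    ET2 ν' ν φ = ∑' l', ∑' l, ν' l' * ν l * E2 ν' ν l' l φ := by
  rw [ET2, ET_eq]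
  refine tsum_congr fun l' => ?_
  simp only [ET_eq (ν := ν), E_tsum, E_mul, ← ENNReal.tsum_mul_left, E2, mul_assoc]

theorem ET2_le_M2 {φ : F → F → ℝ≥0∞} {a : ℕ → ℝ≥0∞}
    (h : ∀ l' l, E2 ν' ν l' l φ ≤ a (l' * l)) : ET2 ν' ν φ ≤ M2 ν' ν a := by
  rw [ET2_eq]
  exact ENNReal.tsum_le_tsum fun l' => ENNReal.tsum_le_tsum fun l => by gcongr; exact h l' l

theorem M2_mono {a b : ℕ → ℝ≥0∞} (h : ∀ n, a n ≤ b n) : M2 ν' ν a ≤ M2 ν' ν b :=
  ENNReal.tsum_le_tsum fun l' => ENNReal.tsum_le_tsum fun l => by gcongr; exact h _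

theorem M2_add (a b : ℕ → ℝ≥0∞) :
    M2 ν' ν (fun n => a n + b n) = M2 ν' ν a + M2 ν' ν b := by
  simp only [M2, mul_add, ENNReal.tsum_add]

theorem M2_mul (a : ℕ → ℝ≥0∞) (x : ℝ≥0∞) : M2 ν' ν (fun n => a n * x) = M2 ν' ν a * x := by
  simp only [M2, ← mul_assoc, ENNReal.tsum_mul_right]

theorem M2_prod {a : ℕ → ℝ≥0∞} (h : ∀ m n, a (m * n) = a m * a n) :
    M2 ν' ν a = (∑' l, a l * ν' l) * ∑' l, a l * ν l := by
  rw [M2, ← ENNReal.tsum_mul_right]
  refine tsum_congr fun l' => ?_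
  rw [← ENNReal.tsum_mul_left]
  exact tsum_congr fun l => by rw [h]; ring

theorem M2_id_le (hm' : ∑' l : ℕ, l * ν' l ≤ 1) (hm : ∑' l : ℕ, l * ν l ≤ 1) :
    M2 ν' ν (fun n => n) ≤ 1 := by
  rw [M2_prod fun m n => Nat.cast_mul m n]
  exact mul_le_one' hm' hm

theorem E2_mono {l' l : ℕ} {φ ψ : F → F → ℝ≥0∞}
    (h : ∀ g f, g.len = l' → f.len = l → φ g f ≤ ψ g f) : E2 ν' ν l' l φ ≤ E2 ν' ν l' l ψ :=
  E_mono fun g hg => E_mono fun f hf => h g f hg hf

theorem ET2_mono {φ ψ : F → F → ℝ≥0∞} (h : ∀ g f, φ g f ≤ ψ g f) : ET2 ν' ν φ ≤ ET2 ν' ν ψ :=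
  ET_mono fun g => ET_mono fun f => h g f

theorem E2_add (l' l : ℕ) (φ ψ : F → F → ℝ≥0∞) :
    E2 ν' ν l' l (fun g f => φ g f + ψ g f) = E2 ν' ν l' l φ + E2 ν' ν l' l ψ := by
  simp only [E2, E_add]

theorem ET2_add (φ ψ : F → F → ℝ≥0∞) :
    ET2 ν' ν (fun g f => φ g f + ψ g f) = ET2 ν' ν φ + ET2 ν' ν ψ := by
  simp only [ET2, ET_add]

theorem ET2_mul (φ : F → F → ℝ≥0∞) (a : ℝ≥0∞) :
    ET2 ν' ν (fun g f => φ g f * a) = ET2 ν' ν φ * a := by
  simp only [ET2, ET_mul]

theorem ET2_sum {ι : Type*} (s : Finset ι) (φ : ι → F → F → ℝ≥0∞) :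
    ET2 ν' ν (fun g f => ∑ i ∈ s, φ i g f) = ∑ i ∈ s, ET2 ν' ν (φ i) := by
  simp only [ET2, ET_sum]

theorem ET2_prod (a b : F → ℝ≥0∞) : ET2 ν' ν (fun g f => a g * b f) = ET ν' a * ET ν b := by
  simp only [ET2, ET_mul', ET_mul]

theorem E2_const_le (hν' : ∑' l, ν' l ≤ 1) (hν : ∑' l, ν l ≤ 1) (l' l : ℕ) (a : ℝ≥0∞) :
    E2 ν' ν l' l (fun _ _ => a) ≤ a :=
  (E_mono fun _ _ => E_const_le hν l a).trans (E_const_le hν' l' a)

/-- Taking one tree out of a forest. -/
theorem E_del (l : ℕ) : ∀ j < l + 1, ∀ Φ : F → F → ℝ≥0∞,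
    E ν (l + 1) (fun f => Φ (f.child j) (f.del j)) = ET ν fun c => E ν l (Φ c) := by
  induction l with
  | zero =>
    intro j hj Φ
    obtain rfl : j = 0 := by omega
    rw [E_succ]; rfl
  | succ l ih =>
    rintro (_ | j) hj Φ
    · rw [E_succ]; rfl
    · rw [E_succ]
      simp only [child, del]
      rw [show (fun a => E ν (l + 1) fun r => Φ (r.child j) (cons a (r.del j))) =
        fun a => ET ν fun c => E ν l fun r => Φ c (cons a r) from funext fun a =>
          ih j (by omega) fun c r => Φ c (cons a r), ET_comm]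
      simp only [E_succ]

theorem E_peel (l : ℕ) (χ Φ : F → ℝ≥0∞) :
    E ν l (fun f => ∑ j ∈ range f.len, χ (f.child j) * Φ (f.del j)) =
      l * (ET ν χ * E ν (l - 1) Φ) := by
  rw [E_congr (ψ := fun f => ∑ j ∈ range l, χ (f.child j) * Φ (f.del j)) fun f hf => by rw [hf],
    E_sum]
  rcases l with _ | l
  · simp
  rw [sum_congr rfl fun j hj => E_del l j (mem_range.1 hj) fun c r => χ c * Φ r]
  simp only [E_mul, ET_mul, sum_const, card_range, nsmul_eq_mul, Nat.add_sub_cancel]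

theorem E2_peel (hν' : ∑' l, ν' l ≤ 1) (l' l : ℕ) (A χ₁ Φ₁ χ₂ Φ₂ Ψ : F → F → ℝ≥0∞)
    (h : ∀ c r f, A (cons c r) f = Ψ r f + ∑ j ∈ range f.len,
      (χ₁ c (f.child j) * Φ₁ r (f.del j) + χ₂ c (f.child j) * Φ₂ r (f.del j))) :
    E2 ν' ν (l' + 1) l A ≤ E2 ν' ν l' l Ψ + (l * (ET2 ν' ν χ₁ * E2 ν' ν l' (l - 1) Φ₁) +
      l * (ET2 ν' ν χ₂ * E2 ν' ν l' (l - 1) Φ₂)) := by
  rw [E2, E_succ]
  simp only [h, sum_add_distrib, E_add, ET_add, E_peel, E_mul, ET_mul', ET_mul]
  exact add_le_add (ET_const_le hν' _) le_rfl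

/-- The sum over the non-empty matchings of the product of the values of `χ`. -/
noncomputable def T1f (χ : F → F → ℝ≥0∞) : F → F → ℝ≥0∞
  | F.nil, _ => 0
  | F.cons c r, f => T1f χ r f + ∑ j ∈ range f.len,
      (χ c (f.child j) * 1 + χ c (f.child j) * T1f χ r (f.del j))

/-- The sum of `ψ` over all pairs, plus the sum over the matchings with at least two pairs. -/
noncomputable def Uf (ψ χ : F → F → ℝ≥0∞) : F → F → ℝ≥0∞
  | F.nil, _ => 0
  | F.cons c r, f => Uf ψ χ r f + ∑ j ∈ range f.len,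
      (ψ c (f.child j) * 1 + χ c (f.child j) * T1f χ r (f.del j))

theorem E2_T1f (hν' : ∑' l, ν' l ≤ 1) (hν : ∑' l, ν l ≤ 1) {χ : F → F → ℝ≥0∞} {x : ℝ≥0∞}
    (hx : ET2 ν' ν χ ≤ x) (l' : ℕ) : ∀ l : ℕ, 2 * (l' * l * x) ≤ 1 →
      E2 ν' ν l' l (T1f χ) ≤ 2 * (l' * l * x) := by
  induction l' with
  | zero => intro l _; simp [E2, E_zero, T1f, E_const_zero]
  | succ l' ih =>
    intro l hl
    have h1 : 2 * (l' * l * x) ≤ 1 := le_trans (by gcongr; simp) hl
    have h2 : E2 ν' ν l' (l - 1) (T1f χ) ≤ 1 := by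
      have : 2 * (l' * (l - 1 : ℕ) * x) ≤ 1 := le_trans (by gcongr; simp) h1
      exact (ih _ this).trans this
    refine (E2_peel hν' l' l _ χ (fun _ _ => 1) χ (T1f χ) (T1f χ) fun _ _ _ => rfl).trans ?_
    calc _ ≤ 2 * (l' * l * x) + (l * (x * 1) + l * (x * 1)) := by
          gcongr
          · exact ih l h1
          · exact E2_const_le hν' hν _ _ _
      _ = _ := by push_cast; ring

theorem E2_Uf (hν' : ∑' l, ν' l ≤ 1) (hν : ∑' l, ν l ≤ 1) {ψ χ : F → F → ℝ≥0∞} {e x : ℝ≥0∞}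
    (he : ET2 ν' ν ψ ≤ e) (hx : ET2 ν' ν χ ≤ x) (l' l : ℕ) (hl : 2 * (l' * l * x) ≤ 1) :
    E2 ν' ν l' l (Uf ψ χ) ≤ l' * l * e + 2 * (l' * l * x) ^ 2 := by
  induction l' with
  | zero => simp [E2, E_zero, Uf, E_const_zero]
  | succ l' ih =>
    have h1 : 2 * (l' * l * x) ≤ 1 := le_trans (by gcongr; simp) hl
    have h2 : E2 ν' ν l' (l - 1) (T1f χ) ≤ 2 * (l' * l * x) := by
      have : 2 * (l' * (l - 1 : ℕ) * x) ≤ 2 * (l' * l * x) := by gcongr; simp
      exact (E2_T1f hν' hν hx _ _ (this.trans h1)).trans this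
    refine (E2_peel hν' l' l _ ψ (fun _ _ => 1) χ (T1f χ) (Uf ψ χ) fun _ _ _ => rfl).trans ?_
    calc _ ≤ l' * l * e + 2 * (l' * l * x) ^ 2 + (l * (e * 1) + l * (x * (2 * (l' * l * x)))) := by
          gcongr
          · exact ih h1
          · exact E2_const_le hν' hν _ _ _
      _ ≤ l' * l * e + 2 * (l' * l * x) ^ 2 + (l * (e * 1) + l * (x * (2 * (l' * l * x)))) +
          2 * (l' + 1) * (l * x) ^ 2 := le_self_add
      _ = _ := by push_cast; ring

variable {gd : F → F → Prop}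

theorem pow_le_T1f {χ : F → F → ℝ≥0∞} (g : F) : ∀ f : F,
    (g.all fun c' => f.all fun c => ¬gd c' c → 2 ^ max 1 (Lm gd c' c) ≤ χ c' c) →
    1 ≤ Lm gd g f → 2 ^ Lm gd g f ≤ T1f χ g f := by
  induction g with
  | nil => intro f _ h; simp [Lm] at h
  | cons c r _ ih =>
    intro f h h1
    rcases Lm_cases gd c r f with e | ⟨j, hj, hb, e⟩
    · rw [e] at h1 ⊢
      exact (ih f h.2 h1).trans le_self_add
    · rw [e, pow_add]
      refine le_add_left (le_trans ?_ (single_le_sum (f := fun j => χ c (f.child j) * 1 +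
        χ c (f.child j) * T1f χ r (f.del j)) (fun _ _ => zero_le) (mem_range.2 hj)))
      have h2 := all_child h.1 hj hb
      rcases Nat.eq_zero_or_pos (Lm gd r (f.del j)) with h0 | h0
      · rw [h0, pow_zero]
        exact le_add_right (by gcongr)
      · refine le_add_left ?_
        gcongr
        exact ih _ (all_mono (fun _ ha => all_del ha j) h.2) h0

theorem pow_le_Uf {ψ χ : F → F → ℝ≥0∞} (g : F) : ∀ f : F,
    (g.all fun c' => f.all fun c => (¬gd c' c → 2 ^ max 1 (Lm gd c' c) ≤ χ c' c) ∧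
      ((2 ^ Lm gd c' c - 2 : ℕ) : ℝ≥0∞) ≤ ψ c' c) →
    ((2 ^ Lm gd g f - 2 : ℕ) : ℝ≥0∞) ≤ Uf ψ χ g f := by
  induction g with
  | nil => intro f _; simp [Lm]
  | cons c r _ ih =>
    intro f h
    rcases Lm_cases gd c r f with e | ⟨j, hj, hb, e⟩
    · rw [e]
      exact (ih f h.2).trans le_self_add
    · rw [e]
      refine le_add_left (le_trans ?_ (single_le_sum (f := fun j => ψ c (f.child j) * 1 +
        χ c (f.child j) * T1f χ r (f.del j)) (fun _ _ => zero_le) (mem_range.2 hj)))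
      obtain ⟨h2, h3⟩ := all_child h.1 hj
      rcases Nat.eq_zero_or_pos (Lm gd r (f.del j)) with h0 | h0
      · rw [h0, add_zero, mul_one]
        refine le_add_right (le_trans (le_of_eq ?_) h3)
        rcases Nat.eq_zero_or_pos (Lm gd c (f.child j)) with h4 | h4
        · simp [h4]
        · rw [max_eq_right h4]
      · refine le_add_left (le_trans (Nat.cast_le.2 (Nat.sub_le _ _)) ?_)
        push_cast
        rw [pow_add]
        gcongr
        · exact h2 hb
        · exact pow_le_T1f r _ (all_mono (fun _ ha => all_del (all_mono (fun _ h => h.1) ha) j)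
            h.2) h0

/-- The exponential moment of the branching number. -/
theorem ET2_Lm (hν' : ∑' l, ν' l ≤ 1) (hν : ∑' l, ν l ≤ 1) (hm' : ∑' l : ℕ, l * ν' l ≤ 1)
    (hm : ∑' l : ℕ, l * ν l ≤ 1) {q S : ℝ≥0∞} {z H : ℕ}
    (hq : ET2 ν' ν (fun g f => ind ¬gd g f) ≤ q)
    (hS : M2 ν' ν (fun n => ind (n ≤ z) * n ^ 2) ≤ S) (h1 : 6 * z * q ≤ 1)
    (h2 : 18 * H * S * q ≤ 1) : ∀ h ≤ H, ET2 ν' ν (fun g f =>
      ((2 ^ Lm gd g f - 2 : ℕ) : ℝ≥0∞) * ind (good z h g f)) ≤ h * (18 * S * q * q) := by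
  intro h
  induction h with
  | zero => intro _; simp [ET2, ET, good, ind]
  | succ h ih =>
    intro hH
    have he := ih (by omega)
    set ψ : F → F → ℝ≥0∞ := fun g f =>
      ((2 ^ Lm gd g f - 2 : ℕ) : ℝ≥0∞) * ind (good z h g f) with hψ
    set e : ℝ≥0∞ := h * (18 * S * q * q) with hedef
    have heq : e ≤ q := by
      calc e = 18 * h * S * q * q := by rw [hedef]; ring
        _ ≤ 18 * H * S * q * q := by gcongr; omega
        _ ≤ 1 * q := by gcongr
        _ = q := one_mul q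
    set χ : F → F → ℝ≥0∞ := fun g f => ψ g f + ind (¬gd g f) * 2 with hχ
    have hx : ET2 ν' ν χ ≤ 3 * q := by
      rw [hχ, ET2_add, ET2_mul]
      calc _ ≤ q + q * 2 := add_le_add (he.trans heq) (by gcongr)
        _ = _ := by ring
    refine (ET2_le_M2 (a := fun n => n * e + ind (n ≤ z) * n ^ 2 * (18 * q * q))
      fun l' l => ?_).trans ?_
    · by_cases hz : l' * l ≤ z
      · have hz' : (l' : ℝ≥0∞) * l ≤ z := by exact_mod_cast hz
        refine le_trans (E2_mono fun g f _ _ => ?_) ((E2_Uf hν' hν he hx l' l ?_).trans ?_)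
        · by_cases hg : good z (h + 1) g f
          · rw [ind_pos hg, mul_one]
            refine pow_le_Uf g f (all_mono (fun c' ha => all_mono (fun c hc => ?_) ha) hg.2)
            simp only [hχ, hψ, ind_pos hc, mul_one, le_refl, and_true]
            intro hb
            rw [ind_pos hb, one_mul]
            have : 2 ^ max 1 (Lm gd c' c) ≤ 2 ^ Lm gd c' c - 2 + 2 := by
              rcases Nat.eq_zero_or_pos (Lm gd c' c) with h4 | h4
              · simp [h4]
              · rw [max_eq_right h4]; omega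
            exact_mod_cast this
          · rw [ind_neg hg, mul_zero]; exact zero_le
        · calc _ ≤ 2 * (z * (3 * q)) := by gcongr
            _ = 6 * z * q := by ring
            _ ≤ 1 := h1
        · rw [ind_pos hz]
          push_cast
          exact le_of_eq (by ring)
      · refine le_trans (E2_mono (ψ := fun _ _ => 0) fun g f hg hf => ?_)
          ((E2_const_le hν' hν _ _ _).trans zero_le)
        rw [ind_neg fun hg' => hz (hg ▸ hf ▸ hg'.1), mul_zero]
    · rw [M2_add, M2_mul, M2_mul]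
      calc _ ≤ 1 * e + S * (18 * q * q) := by
            gcongr
            exact M2_id_le hm' hm
        _ = _ := by rw [hedef]; push_cast; ring

theorem ET2_Lm_tail (hν' : ∑' l, ν' l ≤ 1) (hν : ∑' l, ν l ≤ 1) (hm' : ∑' l : ℕ, l * ν' l ≤ 1)
    (hm : ∑' l : ℕ, l * ν l ≤ 1) {q S : ℝ≥0∞} {z H : ℕ} (hq1 : q ≤ 1)
    (hq : ET2 ν' ν (fun g f => ind ¬gd g f) ≤ q)
    (hS : M2 ν' ν (fun n => ind (n ≤ z) * n ^ 2) ≤ S) (h1 : 6 * z * q ≤ 1)
    (h2 : 18 * H * S * q ≤ 1) {m : ℕ} (hm1 : 1 ≤ m) :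
    ET2 ν' ν (fun g f => ind (good z H g f ∧ m < Lm gd g f)) ≤ 2⁻¹ ^ m := by
  have h3 := ET2_Lm hν' hν hm' hm hq hS h1 h2 H le_rfl
  have h4 : (H : ℝ≥0∞) * (18 * S * q * q) ≤ 1 := by
    calc _ = 18 * H * S * q * q := by ring
      _ ≤ 1 * 1 := by gcongr
      _ = 1 := one_mul 1
  calc _ ≤ ET2 ν' ν fun g f =>
        ((2 ^ Lm gd g f - 2 : ℕ) : ℝ≥0∞) * ind (good z H g f) * 2⁻¹ ^ m := by
        refine ET2_mono fun g f => ?_
        by_cases hg : good z H g f ∧ m < Lm gd g f
        · rw [ind_pos hg, ind_pos hg.1, mul_one]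
          have a1 : 2 ^ m ≤ 2 ^ Lm gd g f - 2 := by
            have b1 : 2 ^ (m + 1) ≤ 2 ^ Lm gd g f := Nat.pow_le_pow_right two_pos hg.2
            have b2 : 2 ^ 1 ≤ 2 ^ m := Nat.pow_le_pow_right two_pos hm1
            rw [pow_succ] at b1
            omega
          calc (1 : ℝ≥0∞) = 2 ^ m * 2⁻¹ ^ m := by
                rw [← mul_pow, ENNReal.mul_inv_cancel (by simp) (by simp), one_pow]
            _ ≤ _ := by
                gcongr
                exact_mod_cast a1
        · rw [ind_neg hg]; exact zero_le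
    _ ≤ _ := by
        rw [ET2_mul]
        exact mul_le_of_le_one_left' (h3.trans h4)

/-- Two vertices at the same height, less than `h`, have out-degrees with product above `z`. -/
def big (z : ℕ) : ℕ → F → F → Prop
  | 0, _, _ => False
  | h + 1, g, f => z < g.len * f.len ∨ g.ex fun c' => f.ex fun c => big z h c' c

theorem ht_child_lt {c : F} {i : ℕ} (h : i < c.len) : (c.child i).ht < c.ht := by
  induction c generalizing i with
  | nil => simp [len] at h
  | cons a b _ ihb =>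
    rcases i with _ | i
    · simp only [child, F.ht]; omega
    · have := ihb (Nat.lt_of_succ_lt_succ h)
      simp only [child, F.ht]; omega

theorem not_good {z : ℕ} : ∀ {h : ℕ} {g f : F}, ¬good z h g f →
    (h ≤ g.ht ∧ h ≤ f.ht) ∨ big z h g f
  | 0, _, _, _ => Or.inl ⟨Nat.zero_le _, Nat.zero_le _⟩
  | h + 1, g, f, hg => by
    by_cases hz : g.len * f.len ≤ z
    · have : ¬g.all fun c' => f.all fun c => good z h c' c := fun ha => hg ⟨hz, ha⟩
      simp only [all_iff, not_forall] at this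
      obtain ⟨i, hi, j, hj, hb⟩ := this
      rcases not_good hb with h1 | h1
      · exact Or.inl ⟨h1.1.trans_lt (ht_child_lt hi), h1.2.trans_lt (ht_child_lt hj)⟩
      · exact Or.inr (Or.inr ((ex_iff _ _).2 ⟨i, hi, (ex_iff _ _).2 ⟨j, hj, h1⟩⟩))
    · exact Or.inr (Or.inl (not_le.1 hz))

theorem E2_ex_le (hν' : ∑' l, ν' l ≤ 1) (hν : ∑' l, ν l ≤ 1) (A : F → F → Prop) (l' l : ℕ) :
    E2 ν' ν l' l (fun g f => ind (g.ex fun c' => f.ex fun c => A c' c)) ≤
      l' * l * ET2 ν' ν fun g f => ind (A g f) := by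
  rw [E2, E_comm]
  refine (E_mono fun f _ => E_ex_le hν' _ l').trans ?_
  rw [E_mul, ← ET_E_comm, mul_assoc, ET2, ← ET_mul' (l : ℝ≥0∞)]
  gcongr
  exact ET_mono fun c' => E_ex_le hν _ l

theorem ET2_big_le (hν' : ∑' l, ν' l ≤ 1) (hν : ∑' l, ν l ≤ 1) (hm' : ∑' l : ℕ, l * ν' l ≤ 1)
    (hm : ∑' l : ℕ, l * ν l ≤ 1) (z h : ℕ) :
    ET2 ν' ν (fun g f => ind (big z h g f)) ≤ h * M2 ν' ν fun n => ind (z < n) := by
  induction h with
  | zero => simp [ET2, ET, big, ind]
  | succ h ih =>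
    refine (ET2_le_M2 (a := fun n => ind (z < n) + n * (h * M2 ν' ν fun n => ind (z < n)))
      fun l' l => ?_).trans ?_
    · refine le_trans (E2_mono (ψ := fun g f => ind (z < l' * l) +
        ind (g.ex fun c' => f.ex fun c => big z h c' c)) fun g f hg hf =>
          ind_or_le fun hb => by rw [← hg, ← hf]; exact hb) ?_
      rw [E2_add]
      refine add_le_add (E2_const_le hν' hν _ _ _) ((E2_ex_le hν' hν _ _ _).trans ?_)
      push_cast
      gcongr
    · rw [M2_add, M2_mul]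
      push_cast
      rw [add_mul, one_mul, add_comm]
      exact add_le_add (mul_le_of_le_one_left' (M2_id_le hm' hm)) le_rfl

theorem ET2_not_good (hν' : ∑' l, ν' l ≤ 1) (hν : ∑' l, ν l ≤ 1) (hm' : ∑' l : ℕ, l * ν' l ≤ 1)
    (hm : ∑' l : ℕ, l * ν l ≤ 1) (z h : ℕ) : ET2 ν' ν (fun g f => ind ¬good z h g f) ≤
      (ET ν' fun g => ind (h ≤ g.ht)) * (ET ν fun g => ind (h ≤ g.ht)) +
        h * M2 ν' ν fun n => ind (z < n) := by
  refine le_trans (ET2_mono fun g f => ind_or_le not_good) ?_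
  rw [ET2_add]
  refine add_le_add (le_of_eq ?_) (ET2_big_le hν' hν hm' hm z h)
  simp only [ind_and, ET2_prod]

theorem ET2_anyV_le (hν' : ∑' l, ν' l ≤ 1) (hν : ∑' l, ν l ≤ 1) (hm' : ∑' l : ℕ, l * ν' l ≤ 1)
    (hm : ∑' l : ℕ, l * ν l ≤ 1) (A : F → F → Prop) (n : ℕ) :
    ET2 ν' ν (fun g f => ind (anyV (fun c' => anyV (fun c => A c' c) n f) n g)) ≤
      n * (n * ET2 ν' ν fun g f => ind (A g f)) := by
  rw [ET2, ET_comm]
  refine (ET_mono fun f => ET_anyV_le hν' hm' _ n).trans ?_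
  rw [ET_mul', ← ET_comm, ET2, ← ET_mul' (n : ℝ≥0∞) fun g => ET ν fun f => ind (A g f)]
  gcongr
  exact ET_mono fun c' => ET_anyV_le hν hm _ n

end Pool.Agent.MP_8702f5_pr

end

-- part MP_8702f5_pr.Tail
section

/-! Tail estimates for the offspring law. -/

namespace Pool.Agent.MP_8702f5_pr

open Filter Finset Topology

/-- The tail. -/
noncomputable def tl (μ : ℕ → ℝ) (k : ℕ) : ℝ := 1 - ∑ i ∈ range k, μ i

/-- The tail of the first moment. -/
noncomputable def T1 (μ : ℕ → ℝ) (k : ℕ) : ℝ := 1 - ∑ i ∈ range k, (i : ℝ) * μ i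

/-- The truncated second moment. -/
noncomputable def T2 (μ : ℕ → ℝ) (k : ℕ) : ℝ := ∑ i ∈ range k, (i : ℝ) ^ 2 * μ i

/-- All the estimates on the offspring law that are used. -/
structure Good (μ : ℕ → ℝ) (α c₁ C₁ : ℝ) : Prop where
  nonneg : ∀ k, 0 ≤ μ k
  total : HasSum μ 1
  mean : HasSum (fun k : ℕ => (k : ℝ) * μ k) 1
  zero_pos : 0 < μ 0
  one_lt : 1 < α
  lt_two : α < 2
  c_pos : 0 < c₁
  c_le : c₁ ≤ 1
  C_ge : 1 ≤ C₁
  lower : ∀ k : ℕ, 1 ≤ k → c₁ * (k : ℝ) ^ (-α) ≤ tl μ k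
  upper : ∀ k : ℕ, 1 ≤ k → tl μ k ≤ C₁ * (k : ℝ) ^ (-α)
  first : ∀ k : ℕ, 1 ≤ k → T1 μ k ≤ C₁ * (k : ℝ) ^ (1 - α)
  second : ∀ k : ℕ, T2 μ k ≤ C₁ * (k : ℝ) ^ (2 - α)

theorem tl_sub (μ : ℕ → ℝ) {k l : ℕ} (h : k ≤ l) : tl μ k - tl μ l = ∑ i ∈ Ico k l, μ i := by
  rw [tl, tl, sum_Ico_eq_sub _ h]; ring

theorem tl_nonneg {μ : ℕ → ℝ} (h0 : ∀ k, 0 ≤ μ k) (h : HasSum μ 1) (k : ℕ) : 0 ≤ tl μ k :=
  sub_nonneg.2 (sum_le_hasSum _ (fun i _ => h0 i) h)

theorem tl_anti {μ : ℕ → ℝ} (h0 : ∀ k, 0 ≤ μ k) {k l : ℕ} (h : k ≤ l) : tl μ l ≤ tl μ k := by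
  have := tl_sub μ h
  have : 0 ≤ ∑ i ∈ Ico k l, μ i := sum_nonneg fun i _ => h0 i
  linarith

theorem sum_Ico_le_tl {μ : ℕ → ℝ} (h0 : ∀ k, 0 ≤ μ k) (h : HasSum μ 1) (k l : ℕ) :
    ∑ i ∈ Ico k l, μ i ≤ tl μ k := by
  rcases le_total k l with hkl | hkl
  · rw [← tl_sub μ hkl]; linarith [tl_nonneg h0 h l]
  · rw [Ico_eq_empty_of_le hkl, sum_empty]; exact tl_nonneg h0 h k

theorem T1_nonneg {μ : ℕ → ℝ} (h0 : ∀ k, 0 ≤ μ k)
    (h : HasSum (fun k : ℕ => (k : ℝ) * μ k) 1) (k : ℕ) : 0 ≤ T1 μ k :=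
  sub_nonneg.2 (sum_le_hasSum _ (fun i _ => mul_nonneg (Nat.cast_nonneg i) (h0 i)) h)

theorem T2_nonneg {μ : ℕ → ℝ} (h0 : ∀ k, 0 ≤ μ k) (k : ℕ) : 0 ≤ T2 μ k :=
  sum_nonneg fun i _ => mul_nonneg (sq_nonneg _) (h0 i)

theorem mul_tl_le_T1 {μ : ℕ → ℝ} (h0 : ∀ k, 0 ≤ μ k) (h : HasSum μ 1)
    (hm : HasSum (fun k : ℕ => (k : ℝ) * μ k) 1) (k : ℕ) : k * tl μ k ≤ T1 μ k := by
  have h1 := (hasSum_nat_add_iff' k).2 h
  have h2 := (hasSum_nat_add_iff' k).2 hm
  refine hasSum_le (fun i => ?_) (h1.mul_left (k : ℝ)) h2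
  push_cast
  nlinarith [h0 (i + k), Nat.cast_nonneg (α := ℝ) i]

theorem first_bound {μ : ℕ → ℝ} {α C : ℝ} (h0 : ∀ k, 0 ≤ μ k) (h : HasSum μ 1)
    (hm : HasSum (fun k : ℕ => (k : ℝ) * μ k) 1) (hα : 1 < α) (hC : 0 ≤ C)
    (hu : ∀ k : ℕ, 1 ≤ k → tl μ k ≤ C * (k : ℝ) ^ (-α)) :
    ∃ C', ∀ k : ℕ, 1 ≤ k → T1 μ k ≤ C' * (k : ℝ) ^ (1 - α) := by
  have hr : (2 : ℝ) ^ (1 - α) < 1 := Real.rpow_lt_one_of_one_lt_of_neg one_lt_two (by linarith)
  set r := (2 : ℝ) ^ (1 - α) with hr'
  have hr0 : 0 < r := by positivity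
  refine ⟨2 * C / (1 - r), fun k hk => ?_⟩
  have key : ∀ N d k : ℕ, 1 ≤ k → N - k ≤ d →
      ∑ i ∈ Ico k N, (i : ℝ) * μ i ≤ 2 * C / (1 - r) * (k : ℝ) ^ (1 - α) := by
    intro N d
    induction d with
    | zero =>
      intro k hk hd
      rw [Ico_eq_empty_of_le (by omega), sum_empty]
      have : 0 < 1 - r := by linarith
      positivity
    | succ d ih =>
      intro k hk hd
      have hk0 : (0 : ℝ) < k := by exact_mod_cast hk
      have h1 : ∑ i ∈ Ico k N, (i : ℝ) * μ i ≤
          ∑ i ∈ Ico k (2 * k), (i : ℝ) * μ i + ∑ i ∈ Ico (2 * k) N, (i : ℝ) * μ i := by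
        rw [← sum_union (by rw [disjoint_left]; intro a; simp; omega)]
        refine sum_le_sum_of_subset_of_nonneg (fun a => by simp; omega) fun i _ _ =>
          mul_nonneg (Nat.cast_nonneg i) (h0 i)
      have h2 : ∑ i ∈ Ico k (2 * k), (i : ℝ) * μ i ≤ 2 * k * tl μ k := by
        refine le_trans ?_ (mul_le_mul_of_nonneg_left (sum_Ico_le_tl h0 h k (2 * k))
          (by positivity))
        rw [mul_sum]
        refine sum_le_sum fun i hi => mul_le_mul_of_nonneg_right ?_ (h0 i)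
        have := (mem_Ico.1 hi).2.le
        exact_mod_cast this
      have h3 := ih (2 * k) (by omega) (by omega)
      have h4 : ((2 * k : ℕ) : ℝ) ^ (1 - α) = r * (k : ℝ) ^ (1 - α) := by
        push_cast; rw [Real.mul_rpow (by norm_num) hk0.le]
      have h5 : (k : ℝ) ^ (1 - α) = k * (k : ℝ) ^ (-α) := by
        rw [sub_eq_add_neg, Real.rpow_add hk0, Real.rpow_one]
      have h6 : 2 * k * tl μ k ≤ 2 * C * (k : ℝ) ^ (1 - α) := by
        rw [h5]; nlinarith [hu k hk]
      rw [h4] at h3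
      have h7 : 2 * C / (1 - r) * (k : ℝ) ^ (1 - α) =
          2 * C * (k : ℝ) ^ (1 - α) + 2 * C / (1 - r) * (r * (k : ℝ) ^ (1 - α)) := by
        have : 1 - r ≠ 0 := by linarith
        field_simp; ring
      linarith
  have hlim : Tendsto (fun N => ∑ i ∈ range N, (i : ℝ) * μ i - ∑ i ∈ range k, (i : ℝ) * μ i)
      atTop (𝓝 (T1 μ k)) := hm.tendsto_sum_nat.sub_const _
  refine le_of_tendsto hlim ?_
  filter_upwards [eventually_ge_atTop k] with N hN
  rw [← sum_Ico_eq_sub _ hN]
  exact key N _ k hk le_rfl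

theorem second_bound {μ : ℕ → ℝ} {α C : ℝ} (h0 : ∀ k, 0 ≤ μ k) (h : HasSum μ 1)
    (hα0 : 0 < α) (hα : α < 2) (hC : 0 ≤ C)
    (hu : ∀ k : ℕ, 1 ≤ k → tl μ k ≤ C * (k : ℝ) ^ (-α)) :
    ∃ C', ∀ k : ℕ, T2 μ k ≤ C' * (k : ℝ) ^ (2 - α) := by
  have hr : (2 / 3 : ℝ) ^ (2 - α) < 1 := Real.rpow_lt_one (by norm_num) (by norm_num) (by linarith)
  set r := (2 / 3 : ℝ) ^ (2 - α) with hr'
  have hr0 : 0 < r := by positivity
  have hr1 : 0 < 1 - r := by linarith
  refine ⟨C * 2 ^ α / (1 - r), fun k => ?_⟩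
  induction k using Nat.strong_induction_on with
  | _ n ih =>
    by_cases hn : n ≤ 1
    · have : T2 μ n = 0 := by
        interval_cases n <;> simp [T2]
      rw [this]; positivity
    have hn0 : (0 : ℝ) < n := by exact_mod_cast (by omega : 0 < n)
    set k := (n + 1) / 2 with hk
    have hk1 : 1 ≤ k := by omega
    have hkn : k < n := by omega
    have hk2 : (n : ℝ) / 2 ≤ k := by
      have : n ≤ 2 * k := by omega
      have : (n : ℝ) ≤ 2 * k := by exact_mod_cast this
      linarith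
    have hk3 : (k : ℝ) ≤ 2 / 3 * n := by
      have : 3 * k ≤ 2 * n := by omega
      have : 3 * (k : ℝ) ≤ 2 * n := by exact_mod_cast this
      linarith
    have h1 : T2 μ n = T2 μ k + ∑ i ∈ Ico k n, (i : ℝ) ^ 2 * μ i := by
      rw [T2, T2, sum_Ico_eq_sub _ hkn.le]; ring
    have h2 : ∑ i ∈ Ico k n, (i : ℝ) ^ 2 * μ i ≤ n ^ 2 * tl μ k := by
      refine le_trans ?_ (mul_le_mul_of_nonneg_left (sum_Ico_le_tl h0 h k n) (by positivity))
      rw [mul_sum]
      refine sum_le_sum fun i hi => mul_le_mul_of_nonneg_right ?_ (h0 i)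
      have := (mem_Ico.1 hi).2.le
      gcongr
    have h3 : (k : ℝ) ^ (-α) ≤ 2 ^ α * (n : ℝ) ^ (-α) := by
      refine (Real.rpow_le_rpow_of_nonpos (by positivity) hk2 (by linarith)).trans (le_of_eq ?_)
      rw [Real.div_rpow hn0.le (by norm_num), Real.rpow_neg (by norm_num : (0 : ℝ) ≤ 2)]
      field_simp
    have h4 : (k : ℝ) ^ (2 - α) ≤ r * (n : ℝ) ^ (2 - α) := by
      refine (Real.rpow_le_rpow (by positivity) hk3 (by linarith)).trans (le_of_eq ?_)
      rw [Real.mul_rpow (by norm_num) hn0.le]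
    have h5 : (n : ℝ) ^ (2 - α) = n ^ 2 * (n : ℝ) ^ (-α) := by
      rw [sub_eq_add_neg, Real.rpow_add hn0, Real.rpow_two]
    have h6 := ih k hkn
    have h7 : n ^ 2 * tl μ k ≤ C * 2 ^ α * (n : ℝ) ^ (2 - α) := by
      rw [h5]
      have := (hu k hk1).trans (mul_le_mul_of_nonneg_left h3 hC)
      nlinarith [sq_nonneg (n : ℝ)]
    have h8 : C * 2 ^ α / (1 - r) * (k : ℝ) ^ (2 - α) ≤
        C * 2 ^ α / (1 - r) * (r * (n : ℝ) ^ (2 - α)) := by gcongr
    have h9 : C * 2 ^ α / (1 - r) * (n : ℝ) ^ (2 - α) =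
        C * 2 ^ α * (n : ℝ) ^ (2 - α) + C * 2 ^ α / (1 - r) * (r * (n : ℝ) ^ (2 - α)) := by
      field_simp; ring
    linarith

theorem HeavyTailed.good {μ : ℕ → ℝ} {c α : ℝ} (h : HeavyTailed μ c α) (hc : 0 < c) (h1 : 1 < α)
    (h2 : α < 2) : ∃ c₁ C₁, Good μ α c₁ C₁ := by
  have htl : ∀ k, ∑' i : ℕ, μ (i + k) = tl μ k := fun k =>
    ((hasSum_nat_add_iff' k).2 h.total).tsum_eq
  have ht := h.tail
  simp only [htl] at ht
  have hne : ∀ᶠ k : ℕ in atTop, c * (k : ℝ) ^ (-α) ≠ 0 := by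
    filter_upwards [eventually_ge_atTop 1] with k hk
    have : (0 : ℝ) < k := by exact_mod_cast hk
    positivity
  rw [Asymptotics.isEquivalent_iff_tendsto_one hne] at ht
  obtain ⟨K, hK⟩ := eventually_atTop.1 ((ht.eventually (lt_mem_nhds (show (1 / 2 : ℝ) < 1 by
    norm_num))).and ((ht.eventually (gt_mem_nhds (show (1 : ℝ) < 2 by norm_num))).and
    (eventually_ge_atTop 1)))
  have hK1 : 1 ≤ K := (hK K le_rfl).2.2
  have hKpos : (0 : ℝ) < K := by exact_mod_cast hK1
  have hb : ∀ k, K ≤ k → c / 2 * (k : ℝ) ^ (-α) ≤ tl μ k ∧ tl μ k ≤ 2 * c * (k : ℝ) ^ (-α) := by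
    intro k hk
    obtain ⟨a1, a2, a3⟩ := hK k hk
    have : (0 : ℝ) < k := by exact_mod_cast a3
    have hp : 0 < c * (k : ℝ) ^ (-α) := by positivity
    simp only [Pi.div_apply] at a1 a2
    rw [lt_div_iff₀ hp] at a1
    rw [div_lt_iff₀ hp] at a2
    constructor <;> linarith
  have hu : ∀ k : ℕ, 1 ≤ k → tl μ k ≤ max (2 * c) ((K : ℝ) ^ α) * (k : ℝ) ^ (-α) := by
    intro k hk
    have hk0 : (0 : ℝ) < k := by exact_mod_cast hk
    rcases le_total K k with hkK | hkK
    · exact (hb k hkK).2.trans (mul_le_mul_of_nonneg_right (le_max_left _ _) (by positivity))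
    · refine le_trans ?_ (mul_le_mul_of_nonneg_right (le_max_right _ _) (by positivity))
      have a1 : tl μ k ≤ 1 := by
        have := tl_anti h.nonneg (Nat.zero_le k)
        simpa [tl] using this
      have a2 : (k : ℝ) ^ α ≤ (K : ℝ) ^ α :=
        Real.rpow_le_rpow hk0.le (by exact_mod_cast hkK) (by linarith)
      rw [Real.rpow_neg hk0.le, ← div_eq_mul_inv, le_div_iff₀ (by positivity)]
      nlinarith [Real.rpow_pos_of_pos hk0 α, tl_nonneg h.nonneg h.total k]
  have hC0 : 0 ≤ max (2 * c) ((K : ℝ) ^ α) := le_max_of_le_left (by positivity)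
  obtain ⟨C2, hC2⟩ := first_bound h.nonneg h.total h.mean h1 hC0 hu
  obtain ⟨C3, hC3⟩ := second_bound h.nonneg h.total (by linarith) h2 hC0 hu
  refine ⟨min 1 (c / 2 * (K : ℝ) ^ (-α)), max (max 1 (max (2 * c) ((K : ℝ) ^ α))) (max C2 C3),
    h.nonneg, h.total, h.mean, h.zero_pos, h1, h2, lt_min one_pos (by positivity),
    min_le_left _ _, le_max_of_le_left (le_max_left _ _), fun k hk => ?_, fun k hk => ?_,
    fun k hk => ?_, fun k => ?_⟩
  · have hk0 : (1 : ℝ) ≤ k := by exact_mod_cast hk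
    have a1 : (k : ℝ) ^ (-α) ≤ 1 := Real.rpow_le_one_of_one_le_of_nonpos hk0 (by linarith)
    have a2 : (K : ℝ) ^ (-α) ≤ 1 :=
      Real.rpow_le_one_of_one_le_of_nonpos (by exact_mod_cast hK1) (by linarith)
    have a3 : 0 ≤ (k : ℝ) ^ (-α) := by positivity
    refine (mul_le_mul_of_nonneg_right (min_le_right _ _) a3).trans ?_
    rcases le_total K k with hkK | hkK
    · refine le_trans ?_ (hb k hkK).1
      gcongr
      exact mul_le_of_le_one_right (by positivity) a2
    · refine le_trans ?_ ((hb K le_rfl).1.trans (tl_anti h.nonneg hkK))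
      exact mul_le_of_le_one_right (by positivity) a1
  · exact (hu k hk).trans (mul_le_mul_of_nonneg_right
      (le_max_of_le_left (le_max_right _ _)) (by positivity))
  · exact (hC2 k hk).trans (mul_le_mul_of_nonneg_right
      (le_max_of_le_right (le_max_left _ _)) (by positivity))
  · exact (hC3 k).trans (mul_le_mul_of_nonneg_right
      (le_max_of_le_right (le_max_right _ _)) (by positivity))

/-- A window `[k, L k)` carries a fixed share of the tail. -/
theorem Good.window {μ : ℕ → ℝ} {α c₁ C₁ : ℝ} (h : Good μ α c₁ C₁) {L : ℕ}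
    (hL : 2 * C₁ / c₁ ≤ L) {k : ℕ} (hk : 1 ≤ k) :
    c₁ / 2 * (k : ℝ) ^ (-α) ≤ ∑ i ∈ Ico k (L * k), μ i := by
  have hc := h.c_pos
  have hC := h.C_ge
  have hc1 := h.c_le
  have hL1 : (1 : ℝ) ≤ L := by
    refine le_trans ?_ hL
    rw [le_div_iff₀ hc]; linarith
  have hL1' : 1 ≤ L := by exact_mod_cast hL1
  have hk0 : (0 : ℝ) < k := by exact_mod_cast hk
  rw [← tl_sub μ (Nat.le_mul_of_pos_left k hL1')]
  have h1 := h.lower k hk
  have h2 := h.upper (L * k) (Nat.mul_pos hL1' hk)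
  have h3 : ((L * k : ℕ) : ℝ) ^ (-α) = (L : ℝ) ^ (-α) * (k : ℝ) ^ (-α) := by
    push_cast; rw [Real.mul_rpow (by positivity) hk0.le]
  have h4 : (L : ℝ) ^ (-α) ≤ (L : ℝ)⁻¹ := by
    rw [← Real.rpow_neg_one]
    exact Real.rpow_le_rpow_of_exponent_le hL1 (by linarith [h.one_lt])
  have h5 : C₁ * (L : ℝ)⁻¹ ≤ c₁ / 2 := by
    rw [← div_eq_mul_inv, div_le_iff₀ (by positivity)]
    rw [div_le_iff₀ hc] at hL
    linarith
  have h6 : C₁ * (L : ℝ) ^ (-α) ≤ c₁ / 2 := le_trans (by gcongr) h5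
  rw [h3] at h2
  have : 0 ≤ (k : ℝ) ^ (-α) := by positivity
  nlinarith

end Pool.Agent.MP_8702f5_pr

end

-- part MP_8702f5_pr.Prob
section

/-! Real-valued probabilities of events for forests and trees, and the events used for matching. -/

namespace Pool.Agent.MP_8702f5_pr

open Finset F
open scoped ENNReal

/-- The offspring law with values in the extended reals. -/
noncomputable def μe (μ : ℕ → ℝ) (i : ℕ) : ℝ≥0∞ := ENNReal.ofReal (μ i)

/-- The probability of an event for a forest of `l` independent trees. -/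
noncomputable def P (μ : ℕ → ℝ) (l : ℕ) (A : F → Prop) : ℝ :=
  (E (μe μ) l fun f => ind (A f)).toReal

/-- The probability of an event for one tree. -/
noncomputable def PT (μ : ℕ → ℝ) (A : F → Prop) : ℝ := (ET (μe μ) fun f => ind (A f)).toReal

variable {μ : ℕ → ℝ} {α c₁ C₁ : ℝ}

theorem Good.tsum_e (h : Good μ α c₁ C₁) : ∑' l, μe μ l ≤ 1 := by
  simp only [μe]
  rw [← ENNReal.ofReal_tsum_of_nonneg h.nonneg h.total.summable, h.total.tsum_eq]
  simp

theorem Good.mean_e (h : Good μ α c₁ C₁) : ∑' l : ℕ, l * μe μ l ≤ 1 := by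
  have : ∀ l : ℕ, l * μe μ l = ENNReal.ofReal (l * μ l) := fun l => by
    rw [ENNReal.ofReal_mul (Nat.cast_nonneg l), ENNReal.ofReal_natCast, μe]
  simp only [this]
  rw [← ENNReal.ofReal_tsum_of_nonneg (fun l => mul_nonneg (Nat.cast_nonneg l) (h.nonneg l))
    h.mean.summable, h.mean.tsum_eq]
  simp

theorem Good.E_ne (h : Good μ α c₁ C₁) (l : ℕ) (A : F → Prop) :
    (E (μe μ) l fun f => ind (A f)) ≠ ⊤ :=
  ne_top_of_le_ne_top ENNReal.one_ne_top (E_ind_le h.tsum_e l A)

theorem Good.ET_ne (h : Good μ α c₁ C₁) (A : F → Prop) :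
    (ET (μe μ) fun f => ind (A f)) ≠ ⊤ :=
  ne_top_of_le_ne_top ENNReal.one_ne_top (ET_ind_le h.tsum_e A)

theorem P_nonneg (l : ℕ) (A : F → Prop) : 0 ≤ P μ l A := ENNReal.toReal_nonneg

theorem PT_nonneg (A : F → Prop) : 0 ≤ PT μ A := ENNReal.toReal_nonneg

theorem Good.PT_le_one (h : Good μ α c₁ C₁) (A : F → Prop) : PT μ A ≤ 1 := by
  simpa [PT] using ENNReal.toReal_mono ENNReal.one_ne_top (ET_ind_le h.tsum_e A)

theorem Good.P_mono (h : Good μ α c₁ C₁) {l : ℕ} {A B : F → Prop}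
    (hAB : ∀ f, f.len = l → A f → B f) : P μ l A ≤ P μ l B :=
  ENNReal.toReal_mono (h.E_ne l B) (E_mono fun f hf => ind_mono (hAB f hf))

theorem Good.PT_mono (h : Good μ α c₁ C₁) {A B : F → Prop} (hAB : ∀ f, A f → B f) :
    PT μ A ≤ PT μ B :=
  ENNReal.toReal_mono (h.ET_ne B) (ET_mono fun f => ind_mono (hAB f))

theorem Good.P_or_le (h : Good μ α c₁ C₁) {l : ℕ} {A B C : F → Prop}
    (hA : ∀ f, f.len = l → A f → B f ∨ C f) : P μ l A ≤ P μ l B + P μ l C := by
  rw [P, P, P, ← ENNReal.toReal_add (h.E_ne l B) (h.E_ne l C), ← E_add]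
  refine ENNReal.toReal_mono ?_ (E_mono fun f hf => ind_or_le (hA f hf))
  rw [E_add]
  exact ENNReal.add_ne_top.2 ⟨h.E_ne l B, h.E_ne l C⟩

theorem Good.PT_or_le (h : Good μ α c₁ C₁) {A B C : F → Prop}
    (hA : ∀ f, A f → B f ∨ C f) : PT μ A ≤ PT μ B + PT μ C := by
  rw [PT, PT, PT, ← ENNReal.toReal_add (h.ET_ne B) (h.ET_ne C), ← ET_add]
  refine ENNReal.toReal_mono ?_ (ET_mono fun f => ind_or_le (hA f))
  rw [ET_add]
  exact ENNReal.add_ne_top.2 ⟨h.ET_ne B, h.ET_ne C⟩

theorem Good.PT_add_le (h : Good μ α c₁ C₁) {A B C : F → Prop} (hB : ∀ f, B f → A f)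
    (hC : ∀ f, C f → A f) (hBC : ∀ f, B f → ¬C f) : PT μ B + PT μ C ≤ PT μ A := by
  rw [PT, PT, PT, ← ENNReal.toReal_add (h.ET_ne B) (h.ET_ne C), ← ET_add]
  refine ENNReal.toReal_mono (h.ET_ne A) (ET_mono fun f => ?_)
  by_cases hb : B f
  · rw [ind_neg (hBC f hb), add_zero]; exact ind_mono (hB f)
  · rw [ind_neg hb, zero_add]; exact ind_mono (hC f)

theorem Good.P_exists_le (h : Good μ α c₁ C₁) {ι : Type*} (s : Finset ι) {l : ℕ} {A : F → Prop}
    (B : ι → F → Prop) (hA : ∀ f, f.len = l → A f → ∃ i ∈ s, B i f) :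
    P μ l A ≤ ∑ i ∈ s, P μ l (B i) := by
  classical
  induction s using Finset.induction_on generalizing A with
  | empty =>
    have : (E (μe μ) l fun f => ind (A f)) = 0 := by
      rw [← E_const_zero l]
      exact E_congr fun f hf => ind_neg fun ha => by simpa using hA f hf ha
    simp [P, this]
  | insert a s ha ih =>
    rw [sum_insert ha]
    refine (h.P_or_le (B := B a) (C := fun f => ∃ i ∈ s, B i f) fun f hf hf' => ?_).trans
      (add_le_add le_rfl (ih fun f _ hf => hf))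
    simpa using hA f hf hf'

theorem P_all (l : ℕ) (A : F → Prop) : P μ l (fun f => f.all A) = PT μ A ^ l := by
  rw [P, E_all, ENNReal.toReal_pow, PT]

theorem Good.sum_le_PT (h : Good μ α c₁ C₁) (s : Finset ℕ) (A : F → Prop) :
    ∑ l ∈ s, μ l * P μ l A ≤ PT μ A := by
  have h1 : ∑ l ∈ s, μe μ l * E (μe μ) l (fun f => ind (A f)) ≤ ET (μe μ) fun f => ind (A f) := by
    rw [ET_eq]; exact ENNReal.sum_le_tsum s
  refine le_trans (le_of_eq ?_) (ENNReal.toReal_mono (h.ET_ne A) h1)
  rw [ENNReal.toReal_sum fun l _ =>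
    ENNReal.mul_ne_top (show μe μ l ≠ ⊤ from ENNReal.ofReal_ne_top) (h.E_ne l A)]
  refine sum_congr rfl fun l _ => ?_
  rw [ENNReal.toReal_mul, μe, ENNReal.toReal_ofReal (h.nonneg l), P]

theorem Good.PT_le_of_P_le (h : Good μ α c₁ C₁) {A : F → Prop} {ε : ℝ} (hε : 0 ≤ ε)
    (hA : ∀ l, P μ l A ≤ ε) : PT μ A ≤ ε :=
  ENNReal.toReal_le_of_le_ofReal hε (ET_le_of_E_le h.tsum_e fun l =>
    (ENNReal.le_ofReal_iff_toReal_le (h.E_ne l A) hε).2 (hA l))

theorem Good.PT_anyV_le (h : Good μ α c₁ C₁) (A : F → Prop) (n : ℕ) :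
    PT μ (anyV A n) ≤ n * PT μ A := by
  have := ENNReal.toReal_mono (ENNReal.mul_ne_top (ENNReal.natCast_ne_top n) (h.ET_ne A))
    (ET_anyV_le h.tsum_e h.mean_e A n)
  simpa [PT] using this

/-- The lower tail of the number of trees satisfying `A`. -/
theorem Good.chernoff (h : Good μ α c₁ C₁) (A : F → Prop) (l : ℕ) {x : ℝ}
    (hx : x ≤ PT μ A * l / 4) : P μ l (fun f => (f.cnt A : ℝ) < x) ≤ Real.exp (-x) := by
  classical
  set g : F → ℝ≥0∞ := fun c => if A c then 2⁻¹ else 1 with hg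
  have h1 : E (μe μ) l (fun f => 2⁻¹ ^ f.cnt A) = ET (μe μ) g ^ l := by
    refine E_prod g _ (by simp [cnt]) (fun c r => ?_) l
    simp only [cnt, hg]
    split_ifs
    · rw [pow_succ, mul_comm]
    · simp
  have h2 : ET (μe μ) g + ET (μe μ) (fun c => ind (A c)) * 2⁻¹ ≤ 1 := by
    rw [← ET_mul, ← ET_add]
    refine le_trans (ET_mono fun c => ?_) (ET_one_le h.tsum_e)
    by_cases hc : A c
    · simp [hg, hc, ind, ENNReal.inv_two_add_inv_two]
    · simp [hg, hc, ind]
  have hg1 : ET (μe μ) g ≠ ⊤ := ne_top_of_le_ne_top ENNReal.one_ne_top (le_self_add.trans h2)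
  have h3 : (ET (μe μ) g).toReal ≤ 1 - PT μ A / 2 := by
    have := ENNReal.toReal_mono ENNReal.one_ne_top h2
    rw [ENNReal.toReal_add hg1 (ENNReal.mul_ne_top (h.ET_ne A) (by simp)),
      ENNReal.toReal_mul] at this
    simp only [ENNReal.toReal_inv, ENNReal.toReal_ofNat, ENNReal.toReal_one] at this
    rw [PT]; linarith only [this]
  have h4 : (E (μe μ) l fun f => ind ((f.cnt A : ℝ) < x)) ≤
      ENNReal.ofReal (Real.exp x) * ET (μe μ) g ^ l := by
    rw [← h1, ← E_mul]
    refine E_mono fun f _ => ?_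
    by_cases hf : (f.cnt A : ℝ) < x
    · rw [ind_pos hf]
      have a1 : (2 : ℝ) ^ f.cnt A ≤ Real.exp x := by
        calc (2 : ℝ) ^ f.cnt A ≤ Real.exp 1 ^ f.cnt A := by
              gcongr; linarith only [Real.add_one_le_exp (1 : ℝ)]
          _ = Real.exp (f.cnt A) := by rw [← Real.exp_nat_mul, mul_one]
          _ ≤ _ := Real.exp_le_exp.2 hf.le
      calc (1 : ℝ≥0∞) = 2 ^ f.cnt A * 2⁻¹ ^ f.cnt A := by
            rw [← mul_pow, ENNReal.mul_inv_cancel (by simp) (by simp), one_pow]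
        _ ≤ _ := by
            gcongr
            have := ENNReal.ofReal_le_ofReal a1
            rwa [ENNReal.ofReal_pow (by norm_num), ENNReal.ofReal_ofNat] at this
    · rw [ind_neg hf]; exact zero_le
  have h5 := ENNReal.toReal_mono (ENNReal.mul_ne_top ENNReal.ofReal_ne_top
    (ENNReal.pow_ne_top hg1)) h4
  rw [ENNReal.toReal_mul, ENNReal.toReal_ofReal (Real.exp_pos x).le, ENNReal.toReal_pow] at h5
  refine h5.trans ?_
  have h6 : (ET (μe μ) g).toReal ^ l ≤ Real.exp (-(PT μ A / 2)) ^ l := by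
    gcongr
    linarith only [Real.add_one_le_exp (-(PT μ A / 2)), h3]
  calc _ ≤ Real.exp x * Real.exp (-(PT μ A / 2)) ^ l := by gcongr
    _ = Real.exp (x + l * -(PT μ A / 2)) := by rw [← Real.exp_nat_mul, Real.exp_add]
    _ ≤ _ := Real.exp_le_exp.2 (by linarith only [hx])

/-- One step of the branching recursion for an event of the form: fewer than `k` children and all
children subtrees satisfy `A`. -/
theorem Good.PT_step (h : Good μ α c₁ C₁) (k : ℕ) (A B : F → Prop)
    (hB : ∀ f : F, f.len < k → f.all A → B f) :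
    1 - tl μ k - (1 - PT μ A) * (1 - T1 μ k) ≤ PT μ B := by
  refine le_trans ?_ (h.sum_le_PT (range k) B)
  have h1 : ∀ l ∈ range k, μ l - (1 - PT μ A) * (l * μ l) ≤ μ l * P μ l B := by
    intro l hl
    have a1 : PT μ A ^ l ≤ P μ l B := by
      rw [← P_all]
      exact h.P_mono fun f hf hA => hB f (hf ▸ mem_range.1 hl) hA
    have a2 : 1 + l * (PT μ A - 1) ≤ PT μ A ^ l := by
      have := one_add_mul_le_pow (a := PT μ A - 1) (by linarith [PT_nonneg (μ := μ) A]) l
      simpa using this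
    nlinarith only [h.nonneg l, a1, a2]
  refine le_trans (le_of_eq ?_) (sum_le_sum h1)
  rw [sum_sub_distrib, ← mul_sum, tl, T1]; ring

theorem Good.PT_small (h : Good μ α c₁ C₁) {K : ℕ} (hK : 1 ≤ K) :
    1 - 1 / (K : ℝ) ≤ PT μ (small K) := by
  have h1 := h.PT_step K (small K) (small K) fun f hf hA => ⟨hf, (smallF_iff K f).2 hA⟩
  have hK0 : (0 : ℝ) < K := by exact_mod_cast hK
  have h2 : 0 < tl μ K := lt_of_lt_of_le (mul_pos h.c_pos (by positivity)) (h.lower K hK)
  have h3 := mul_tl_le_T1 h.nonneg h.total h.mean K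
  have h4 := h.PT_le_one (small K)
  have h5 : (1 - PT μ (small K)) * K * tl μ K ≤ 1 * tl μ K := by nlinarith only [h1, h3, h4]
  have h6 := le_of_mul_le_mul_right h5 h2
  rw [sub_le_comm, le_div_iff₀ hK0]
  exact h6

/-- All out-degrees are less than `K`, and those at height less than `h` are less than `k`. -/
def ok (k K : ℕ) : ℕ → F → Prop
  | 0, f => f.small K
  | h + 1, f => f.len < k ∧ f.all (ok k K h)

/-- The event `ok k K h` holds, and some vertex at height `h` has at least `k` children, whose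
subtrees form a forest satisfying `G`. -/
def Bev (k K : ℕ) (G : F → Prop) : ℕ → F → Prop
  | 0, f => k ≤ f.len ∧ f.small K ∧ G f
  | h + 1, f => f.len < k ∧ f.all (ok k K h) ∧ f.ex (Bev k K G h)

theorem ok_succ {k K : ℕ} (hk : k ≤ K) : ∀ {h : ℕ} {f : F}, ok k K (h + 1) f → ok k K h f
  | 0, f, hf => ⟨hf.1.trans_le hk, (smallF_iff K f).2 hf.2⟩
  | _ + 1, _, hf => ⟨hf.1, all_mono (fun _ hc => ok_succ hk hc) hf.2⟩

theorem ok_anti {k K : ℕ} (hk : k ≤ K) {h h' : ℕ} (hh : h ≤ h') {f : F} (hf : ok k K h' f) :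
    ok k K h f := by
  induction hh with
  | refl => exact hf
  | step _ ih => exact ih (ok_succ hk hf)

theorem Bev.ok {k K : ℕ} {G : F → Prop} : ∀ {h : ℕ} {f : F}, Bev k K G h f → ok k K h f
  | 0, _, hf => hf.2.1
  | _ + 1, _, hf => ⟨hf.1, hf.2.1⟩

theorem Bev.not_ok {k K : ℕ} {G : F → Prop} :
    ∀ {h : ℕ} {f : F}, Bev k K G h f → ¬Pool.Agent.MP_8702f5_pr.ok k K (h + 1) f
  | 0, _, hf => fun h' => absurd h'.1 (not_lt.2 hf.1)
  | _ + 1, f, hf => fun h' => by
    obtain ⟨i, hi, h1⟩ := (ex_iff _ f).1 hf.2.2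
    exact h1.not_ok ((all_iff _ f).1 h'.2 i hi)

theorem Bev.small {k K : ℕ} (hk : k ≤ K) {G : F → Prop} {h : ℕ} {f : F} (hf : Bev k K G h f) :
    f.small K := ok_anti hk (Nat.zero_le h) hf.ok

theorem Bev.not_small {k K : ℕ} {G : F → Prop} : ∀ {h : ℕ} {f : F}, Bev k K G h f → ¬f.small k
  | 0, _, hf => fun h' => absurd h'.1 (not_lt.2 hf.1)
  | _ + 1, f, hf => fun h' => by
    obtain ⟨i, hi, h1⟩ := (ex_iff _ f).1 hf.2.2
    exact h1.not_small ((all_iff _ f).1 ((smallF_iff k f).1 h'.2) i hi)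

theorem Bev.height_eq {k K : ℕ} (hk : k ≤ K) {G G' : F → Prop} {h h' : ℕ} {f : F}
    (hf : Bev k K G h f) (hf' : Bev k K G' h' f) : h = h' := by
  by_contra hne
  rcases Nat.lt_or_gt_of_ne hne with hl | hl
  · exact hf.not_ok (ok_anti hk hl hf'.ok)
  · exact hf'.not_ok (ok_anti hk hl hf.ok)

theorem Good.PT_ok (h : Good μ α c₁ C₁) {k K : ℕ} (hK : 1 ≤ K) (n : ℕ) :
    1 - 1 / (K : ℝ) - n * tl μ k ≤ PT μ (ok k K n) := by
  induction n with
  | zero => simpa using (show _ ≤ PT μ (ok k K 0) from h.PT_small hK)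
  | succ n ih =>
    have h1 := h.PT_step k (ok k K n) (ok k K (n + 1)) fun f hf hA => ⟨hf, hA⟩
    have h2 := T1_nonneg h.nonneg h.mean k
    have h3 := h.PT_le_one (ok k K n)
    push_cast
    nlinarith only [ih, h1, h2, h3]

theorem pow_add_ge {b f : ℝ} (hb0 : 0 ≤ b) (hb1 : b ≤ 1) (hf : 0 ≤ f) (l : ℕ) :
    b ^ l + f * (l - (1 - b) * l ^ 2) ≤ (b + f) ^ l := by
  rcases l with _ | l
  · simp
  have h1 : b ^ (l + 1) + (l + 1) * b ^ l * f ≤ (b + f) ^ (l + 1) := by
    induction l with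
    | zero => simp
    | succ l ih =>
      rw [pow_succ (b + f)]
      refine le_trans ?_ (mul_le_mul_of_nonneg_right ih (by positivity))
      have : 0 ≤ ((l : ℝ) + 1) * b ^ l * f * f := by positivity
      push_cast
      rw [pow_succ, pow_succ]
      nlinarith only [this]
  have h2 : 1 + l * (b - 1) ≤ b ^ l := by
    have := one_add_mul_le_pow (a := b - 1) (by linarith) l
    simpa using this
  refine le_trans ?_ h1
  push_cast
  have : ((l : ℝ) + 1) - (1 - b) * (l + 1) ^ 2 ≤ (l + 1) * b ^ l := by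
    have : (0 : ℝ) ≤ l := Nat.cast_nonneg l
    nlinarith only [hb1, h2]
  nlinarith only [hf, this]

theorem Good.PT_Bev_succ (h : Good μ α c₁ C₁) {k K : ℕ} (G : F → Prop) (n : ℕ) {u : ℝ}
    (hu : 1 - u ≤ PT μ (ok k K (n + 1))) (hk : k ≤ K) :
    PT μ (Bev k K G n) * (1 - T1 μ k - u * T2 μ k) ≤ PT μ (Bev k K G (n + 1)) := by
  refine le_trans ?_ (h.sum_le_PT (range k) _)
  set f := PT μ (Bev k K G n)
  set b := PT μ (fun c => ok k K n c ∧ ¬Bev k K G n c) with hb
  have hf0 : 0 ≤ f := PT_nonneg _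
  have hb0 : 0 ≤ b := PT_nonneg _
  have hb1 : b ≤ 1 := h.PT_le_one _
  have hbu : 1 - b ≤ u := by
    have : PT μ (ok k K (n + 1)) ≤ b :=
      h.PT_mono fun c hc => ⟨ok_succ hk hc, fun hB => hB.not_ok hc⟩
    linarith
  have hbf : b + f ≤ PT μ (ok k K n) :=
    h.PT_add_le (fun _ hc => hc.1) (fun _ hc => hc.ok) fun _ hc => hc.2
  have h1 : ∀ l ∈ range k, f * (l * μ l - u * (l ^ 2 * μ l)) ≤
      μ l * P μ l (Bev k K G (n + 1)) := by
    intro l hl
    have a1 : PT μ (ok k K n) ^ l ≤ P μ l (Bev k K G (n + 1)) + b ^ l := by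
      rw [← P_all, hb, ← P_all]
      refine h.P_or_le fun g hg hA => ?_
      by_cases hex : g.ex (Bev k K G n)
      · exact Or.inl ⟨hg ▸ mem_range.1 hl, hA, hex⟩
      · refine Or.inr ((all_iff _ _).2 fun i hi => ⟨(all_iff _ _).1 hA i hi, fun hB => ?_⟩)
        exact hex ((ex_iff _ _).2 ⟨i, hi, hB⟩)
    have a2 := pow_add_ge hb0 hb1 hf0 l
    have a3 : (b + f) ^ l ≤ PT μ (ok k K n) ^ l := by gcongr
    have a4 : f * (l - u * l ^ 2) ≤ f * (l - (1 - b) * l ^ 2) := by gcongr
    have a5 : f * (l - u * l ^ 2) ≤ P μ l (Bev k K G (n + 1)) := by linarith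
    nlinarith only [h.nonneg l, a1, a2, a3, a4]
  refine le_trans (le_of_eq ?_) (sum_le_sum h1)
  rw [← mul_sum, sum_sub_distrib, ← mul_sum, T1, T2]; ring

/-- The lower bound for the probability of the matching event. -/
theorem Good.PT_Bev (h : Good μ α c₁ C₁) {L k : ℕ} (hL : 2 * C₁ / c₁ ≤ L) (hk : 1 ≤ k)
    (G : F → Prop) (hG : ∀ l, k ≤ l → P μ l (fun f => ¬G f) ≤ 1 / 4) (n : ℕ)
    (hn : (n : ℝ) ≤ 1 / (6 * C₁) * (k : ℝ) ^ (α - 1)) :
    c₁ / 16 * (k : ℝ) ^ (-α) ≤ PT μ (Bev k (2 * L * k) G n) := by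
  have hc := h.c_pos
  have hC := h.C_ge
  have hc1 := h.c_le
  have hL1 : (1 : ℝ) ≤ L := by
    refine le_trans ?_ hL
    rw [le_div_iff₀ hc]; linarith
  have hL1' : 1 ≤ L := by exact_mod_cast hL1
  have hk0 : (0 : ℝ) < k := by exact_mod_cast hk
  set K := 2 * L * k with hK
  have hkK : k ≤ K := Nat.le_mul_of_pos_left k (by omega)
  have hK1 : 1 ≤ K := hk.trans hkK
  have hK0 : (0 : ℝ) < K := by exact_mod_cast hK1
  have h0 : c₁ / 8 * (k : ℝ) ^ (-α) ≤ PT μ (Bev k K G 0) := by
    refine le_trans ?_ (h.sum_le_PT (Ico k (L * k)) _)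
    have a1 : ∀ l ∈ Ico k (L * k), μ l * (1 / 4) ≤ μ l * P μ l (Bev k K G 0) := by
      intro l hl
      obtain ⟨hl1, hl2⟩ := mem_Ico.1 hl
      have hlK : 2 * l ≤ K := by rw [hK, mul_assoc]; omega
      have b1 : PT μ (small K) ^ l ≤ P μ l (Bev k K G 0) + P μ l fun f => ¬G f := by
        rw [← P_all]
        refine h.P_or_le fun g hg hA => ?_
        by_cases hGg : G g
        · exact Or.inl ⟨hg ▸ hl1, ⟨by omega, (smallF_iff K g).2 hA⟩, hGg⟩
        · exact Or.inr hGg
      have b2 : 1 + l * (PT μ (small K) - 1) ≤ PT μ (small K) ^ l := by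
        have := one_add_mul_le_pow (a := PT μ (small K) - 1)
          (by linarith only [PT_nonneg (μ := μ) (small K)]) l
        simpa using this
      have b3 := h.PT_small hK1
      have b4 : (l : ℝ) * (1 / K) ≤ 1 / 2 := by
        rw [mul_one_div, div_le_iff₀ hK0]
        have : (2 : ℝ) * l ≤ K := by exact_mod_cast hlK
        linarith only [this]
      have b5 : (l : ℝ) * (-(1 / K)) ≤ l * (PT μ (small K) - 1) := by gcongr; linarith only [b3]
      have b6 := hG l hl1
      refine mul_le_mul_of_nonneg_left (by linarith only [b1, b2, b4, b5, b6]) (h.nonneg l)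
    refine le_trans ?_ (sum_le_sum a1)
    rw [← sum_mul]
    linarith only [h.window hL hk, hL, hk]
  have e1 : (k : ℝ) ^ (α - 1) * (k : ℝ) ^ (1 - α) = 1 := by
    rw [← Real.rpow_add hk0]; simp
  have e2 : (k : ℝ) ^ (α - 1) * (k : ℝ) ^ (-α) = 1 / k := by
    rw [← Real.rpow_add hk0, one_div, ← Real.rpow_neg_one]; congr 1; ring
  have e3 : 1 / k * (k : ℝ) ^ (2 - α) = (k : ℝ) ^ (1 - α) := by
    rw [one_div, ← Real.rpow_neg_one, ← Real.rpow_add hk0]; congr 1; ring
  set ε := 3 * C₁ * (k : ℝ) ^ (1 - α) with hε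
  have hε0 : 0 ≤ ε := by positivity
  have hmε : ∀ m : ℝ, m ≤ 1 / (6 * C₁) * (k : ℝ) ^ (α - 1) → m * ε ≤ 1 / 2 := by
    intro m hm
    calc m * ε ≤ 1 / (6 * C₁) * (k : ℝ) ^ (α - 1) * ε := by gcongr
      _ = 1 / 2 * ((k : ℝ) ^ (α - 1) * (k : ℝ) ^ (1 - α)) := by rw [hε]; field_simp; ring
      _ = 1 / 2 := by rw [e1, mul_one]
  have key : ∀ m : ℕ, (m : ℝ) ≤ 1 / (6 * C₁) * (k : ℝ) ^ (α - 1) →
      PT μ (Bev k K G 0) * (1 - m * ε) ≤ PT μ (Bev k K G m) := by
    intro m
    induction m with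
    | zero => simp
    | succ m ih =>
      intro hm
      have hm' : (m : ℝ) ≤ 1 / (6 * C₁) * (k : ℝ) ^ (α - 1) := by push_cast at hm; linarith only [hm]
      have b1 := h.PT_ok (k := k) hK1 (m + 1)
      have b2 : ((m + 1 : ℕ) : ℝ) * tl μ k ≤ 1 / k := by
        calc _ ≤ 1 / (6 * C₁) * (k : ℝ) ^ (α - 1) * (C₁ * (k : ℝ) ^ (-α)) := by
              gcongr
              · exact tl_nonneg h.nonneg h.total k
              · exact h.upper k hk
          _ = 1 / 6 * ((k : ℝ) ^ (α - 1) * (k : ℝ) ^ (-α)) := by field_simp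
          _ ≤ 1 / k := by
              rw [e2]
              have : 0 ≤ 1 / (k : ℝ) := by positivity
              linarith only [this]
      have b3 : 1 / (K : ℝ) ≤ 1 / k := one_div_le_one_div_of_le hk0 (by exact_mod_cast hkK)
      have b4 := h.PT_Bev_succ G m (u := 2 * (1 / k)) (by linarith only [b1, b2, b3]) hkK
      have b5 : 1 - ε ≤ 1 - T1 μ k - 2 * (1 / k) * T2 μ k := by
        have c1 := h.first k hk
        have c2 : 1 / k * T2 μ k ≤ 1 / k * (C₁ * (k : ℝ) ^ (2 - α)) := by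
          gcongr; exact h.second k
        have c3 : 1 / k * (C₁ * (k : ℝ) ^ (2 - α)) = C₁ * (k : ℝ) ^ (1 - α) := by
          rw [← e3]; ring
        linarith only [c1, c2, c3]
      have b6 := hmε _ hm
      have b7 : ε ≤ 1 / 2 := by
        push_cast at b6
        have : 0 ≤ (m : ℝ) * ε := by positivity
        linarith only [b6, this]
      have b8 := ih hm'
      have b9 : 0 ≤ PT μ (Bev k K G 0) := PT_nonneg _
      have b10 : 0 ≤ PT μ (Bev k K G m) := PT_nonneg _
      calc _ ≤ PT μ (Bev k K G 0) * (1 - m * ε) * (1 - ε) := by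
            rw [mul_assoc]
            gcongr
            push_cast
            have : 0 ≤ (m : ℝ) * ε * ε := by positivity
            nlinarith only [this]
        _ ≤ PT μ (Bev k K G m) * (1 - ε) := by gcongr; linarith only [b7]
        _ ≤ PT μ (Bev k K G m) * (1 - T1 μ k - 2 * (1 / k) * T2 μ k) := by gcongr
        _ ≤ _ := b4
  have b1 := key n hn
  have b2 := hmε n hn
  have b3 : 0 ≤ PT μ (Bev k K G 0) := PT_nonneg _
  nlinarith only [h0, b1, b2, b3]

end Pool.Agent.MP_8702f5_pr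

end
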