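import Mathlib
import Pool.Agent.MP_8702f5_pr.Mg.Prob

-- part MP_8702f5_pr.Walk
section

/-! The law of a sum of independent copies of the offspring number: a lower bound at the mean. -/

namespace Pool.Agent.MP_8702f5_pr

open Finset Filter

/-- The probability that a sum of `n` independent variables with law `μ` equals `s`. -/
noncomputable def q (μ : ℕ → ℝ) (n s : ℕ) : ℝ := PowerSeries.coeff s (PowerSeries.mk μ ^ n)

variable {μ : ℕ → ℝ} {α c₁ C₁ : ℝ}

theorem q_zero (s : ℕ) : q μ 0 s = if s = 0 then 1 else 0 := by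
  rw [q, pow_zero, PowerSeries.coeff_one]

theorem q_one (s : ℕ) : q μ 1 s = μ s := by simp [q]

theorem q_add (m r N : ℕ) : q μ (m + r) N = ∑ s ∈ range (N + 1), q μ m s * q μ r (N - s) := by
  rw [q, pow_add, PowerSeries.coeff_mul, Finset.Nat.sum_antidiagonal_eq_sum_range_succ_mk]
  rfl

theorem q_succ (n N : ℕ) : q μ (n + 1) N = ∑ j ∈ range (N + 1), μ j * q μ n (N - j) := by
  rw [add_comm n, q_add]
  simp only [q_one]

theorem q_nonneg (h0 : ∀ k, 0 ≤ μ k) (n s : ℕ) : 0 ≤ q μ n s := by
  induction n generalizing s with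
  | zero => rw [q_zero]; split_ifs <;> norm_num
  | succ n ih => rw [q_succ]; exact sum_nonneg fun j _ => mul_nonneg (h0 j) (ih _)

theorem q_mul_le (h0 : ∀ k, 0 ≤ μ k) (m r s t : ℕ) :
    q μ m s * q μ r t ≤ q μ (m + r) (s + t) := by
  rw [q_add]
  have := single_le_sum (f := fun j => q μ m j * q μ r (s + t - j)) (s := range (s + t + 1))
    (fun j _ => mul_nonneg (q_nonneg h0 _ _) (q_nonneg h0 _ _)) (a := s) (by simp)
  simpa using this

theorem q_deriv (n s : ℕ) :
    (n + 1 : ℝ) * ∑ j ∈ range (s + 1), j * μ j * q μ n (s - j) = s * q μ (n + 1) s := by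
  rcases s with _ | s
  · simp
  have h := congrArg (PowerSeries.coeff s) (PowerSeries.derivative_pow (PowerSeries.mk μ) (n + 1))
  rw [PowerSeries.coeff_derivative, mul_assoc, Nat.add_sub_cancel, ← nsmul_eq_mul, map_nsmul,
    mul_comm (_ ^ n), PowerSeries.coeff_mul,
    Finset.Nat.sum_antidiagonal_eq_sum_range_succ_mk] at h
  rw [sum_range_succ']
  simp only [PowerSeries.coeff_derivative, PowerSeries.coeff_mk, nsmul_eq_mul] at h
  push_cast at h ⊢
  simp only [zero_mul, add_zero, q]
  rw [mul_comm (s + 1 : ℝ), h]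
  congr 1
  exact sum_congr rfl fun j _ => by ring

theorem Good.markov (h : Good μ α c₁ C₁) (m N : ℕ) :
    (N : ℝ) - m ≤ ∑ s ∈ range N, ((N : ℝ) - s) * q μ m s := by
  induction m generalizing N with
  | zero =>
    rcases N with _ | N
    · simp
    · simp [q_zero]
  | succ m ih =>
    have h1 : ∑ s ∈ range N, ((N : ℝ) - s) * q μ (m + 1) s =
        ∑ j ∈ range N, μ j * ∑ t ∈ range (N - j), (((N - j : ℕ) : ℝ) - t) * q μ m t := by
      simp only [q_succ, mul_sum]
      rw [sum_sigma', sum_sigma']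
      refine sum_bij' (fun x _ => ⟨x.2, x.1 - x.2⟩) (fun x _ => ⟨x.1 + x.2, x.1⟩) ?_ ?_ ?_ ?_ ?_
      · rintro ⟨a, b⟩; simp; omega
      · rintro ⟨a, b⟩; simp; omega
      · rintro ⟨a, b⟩; simp; omega
      · rintro ⟨a, b⟩; simp
      · rintro ⟨a, b⟩ hab
        simp only [mem_sigma, mem_range] at hab
        simp only
        rw [Nat.cast_sub (by omega), Nat.cast_sub (by omega)]
        ring
    have h2 : ∑ j ∈ range N, (((N : ℝ) - m) * μ j - j * μ j) ≤
        ∑ j ∈ range N, μ j * ∑ t ∈ range (N - j), (((N - j : ℕ) : ℝ) - t) * q μ m t := by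
      refine sum_le_sum fun j hj => ?_
      have := mul_le_mul_of_nonneg_left (ih (N - j)) (h.nonneg j)
      rw [Nat.cast_sub (mem_range.1 hj).le] at this ⊢
      linarith
    rw [h1]
    refine le_trans ?_ h2
    rw [sum_sub_distrib, ← mul_sum]
    have a1 := mul_tl_le_T1 h.nonneg h.total h.mean N
    have a2 := tl_nonneg h.nonneg h.total N
    have a3 : 0 ≤ m * tl μ N := by positivity
    rw [tl] at a1 a3
    rw [T1] at a1
    push_cast
    nlinarith only [a1, a3]

theorem Good.markov' (h : Good μ α c₁ C₁) (m : ℕ) :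
    1 / (m + 1 : ℝ) ≤ ∑ s ∈ range (m + 1), q μ m s := by
  have h1 := h.markov m (m + 1)
  rw [div_le_iff₀ (by positivity), sum_mul]
  push_cast at h1
  refine le_trans (by linarith) (h1.trans (sum_le_sum fun s _ => ?_))
  have := q_nonneg h.nonneg m s
  have : 0 ≤ (s : ℝ) * q μ m s := by positivity
  nlinarith only [this]

theorem dvd_of_q_pos (h0 : ∀ k, 0 ≤ μ k) {n s : ℕ} (h : 0 < q μ n s) :
    Nat.setGcd {i | 0 < μ i} ∣ s := by
  induction n generalizing s with
  | zero =>
    rw [q_zero] at h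
    split_ifs at h with hs
    · simp [hs]
    · exact absurd h (lt_irrefl _)
  | succ n ih =>
    rw [q_succ] at h
    obtain ⟨j, hj, hp⟩ := exists_lt_of_sum_lt (f := fun _ => (0 : ℝ)) (by simpa using h)
    have a1 : 0 < μ j := pos_of_mul_pos_right (mul_comm (μ j) _ ▸ hp) (q_nonneg h0 _ _)
    have a2 : 0 < q μ n (s - j) := (pos_iff_pos_of_mul_pos hp).1 a1
    have : s = j + (s - j) := by have := mem_range.1 hj; omega
    rw [this]
    exact dvd_add (Nat.setGcd_dvd_of_mem a1) (ih a2)

theorem Good.q_pad (h : Good μ α c₁ C₁) {r r' s : ℕ} (hr : r ≤ r') (hq : 0 < q μ r s) :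
    0 < q μ r' s := by
  induction hr with
  | refl => exact hq
  | step _ ih =>
    refine lt_of_lt_of_le (mul_pos ih ?_) (q_mul_le h.nonneg _ 1 s 0)
    rw [q_one]; exact h.zero_pos

theorem Good.exists_q_pos (h : Good μ α c₁ C₁) {y : ℕ}
    (hy : y ∈ AddSubmonoid.closure {i | 0 < μ i}) : ∃ r, 0 < q μ r y := by
  induction hy using AddSubmonoid.closure_induction with
  | mem x hx => exact ⟨1, by rwa [q_one]⟩
  | zero => exact ⟨0, by simp [q_zero]⟩
  | add x y _ _ hx hy =>
    obtain ⟨r, hr⟩ := hx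
    obtain ⟨r', hr'⟩ := hy
    exact ⟨r + r', lt_of_lt_of_le (mul_pos hr hr') (q_mul_le h.nonneg _ _ _ _)⟩

theorem Good.base (h : Good μ α c₁ C₁) (y₀ Y : ℕ)
    (hy₀ : ∀ m ≥ y₀, Nat.setGcd {i | 0 < μ i} ∣ m → m ∈ AddSubmonoid.closure {i | 0 < μ i}) :
    ∃ (R : ℕ) (β : ℝ), y₀ + 1 ≤ R ∧ 0 < β ∧ ∀ y, y₀ ≤ y → y ≤ Y → Nat.setGcd {i | 0 < μ i} ∣ y →
      β ≤ q μ R y := by
  induction Y with
  | zero =>
    refine ⟨y₀ + 1, q μ (y₀ + 1) 0, le_rfl, h.q_pad (Nat.zero_le _) (by simp [q_zero]),
      fun y _ hy _ => ?_⟩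
    rw [Nat.le_zero.1 hy]
  | succ Y ih =>
    obtain ⟨R, β, hR, hβ, hq⟩ := ih
    by_cases hY : y₀ ≤ Y + 1 ∧ Nat.setGcd {i | 0 < μ i} ∣ Y + 1
    · obtain ⟨r, hr⟩ := h.exists_q_pos (hy₀ _ hY.1 hY.2)
      have h0 : 0 < q μ r 0 := h.q_pad (Nat.zero_le _) (by simp [q_zero])
      refine ⟨R + r, min (β * q μ r 0) (q μ (R + r) (Y + 1)), by omega,
        lt_min (mul_pos hβ h0) (h.q_pad (by omega) hr), fun y h1 h2 h3 => ?_⟩
      rcases Nat.lt_or_eq_of_le h2 with h4 | rfl
      · refine (min_le_left _ _).trans (le_trans ?_ (q_mul_le h.nonneg R r y 0))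
        gcongr
        exact hq y h1 (by omega) h3
      · exact min_le_right _ _
    · refine ⟨R, β, hR, hβ, fun y h1 h2 h3 => hq y h1 ?_ h3⟩
      rcases Nat.lt_or_eq_of_le h2 with h4 | rfl
      · omega
      · exact absurd ⟨h1, h3⟩ hY

theorem Good.jumps (h : Good μ α c₁ C₁) {L y₀ Y R N : ℕ} {β b : ℝ} (hL : 2 * C₁ / c₁ ≤ L)
    (hL1 : 1 ≤ L) (hY1 : 2 * y₀ ≤ Y) (hY2 : 2 * L ≤ Y) (hβ : 0 < β) (hb : 0 ≤ b) (hb0 : b ≤ μ 0)
    (hb1 : ∀ k : ℕ, 1 ≤ k → k ≤ N → b ≤ c₁ / 2 * (k : ℝ) ^ (-α))
    (hq : ∀ y, y₀ ≤ y → y ≤ Y → Nat.setGcd {i | 0 < μ i} ∣ y → β ≤ q μ R y) (j : ℕ) :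
    ∀ y : ℕ, y₀ ≤ y → y ≤ N → Nat.setGcd {i | 0 < μ i} ∣ y →
      y * (1 - 1 / (4 * L : ℝ)) ^ j ≤ Y → β * b ^ j ≤ q μ (R + j) y := by
  have hL0 : (1 : ℝ) ≤ L := by exact_mod_cast hL1
  set ρ := 1 - 1 / (4 * L : ℝ) with hρ
  have hρ0 : 0 ≤ ρ := by
    rw [hρ, sub_nonneg, div_le_one (by positivity)]; linarith only [hL0]
  have hρ1 : ρ ≤ 1 := by
    rw [hρ]
    have : 0 ≤ 1 / (4 * L : ℝ) := by positivity
    linarith only [this]
  induction j with
  | zero =>
    intro y h1 _ h3 h4
    simp only [pow_zero, mul_one, Nat.cast_le] at h4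
    simpa using hq y h1 h4 h3
  | succ j ih =>
    intro y h1 h2 h3 h4
    by_cases h5 : y * ρ ^ j ≤ Y
    · refine le_trans ?_ (q_mul_le h.nonneg (R + j) 1 y 0)
      rw [q_one, pow_succ, ← mul_assoc]
      exact mul_le_mul (ih y h1 h2 h3 h5) hb0 hb (q_nonneg h.nonneg _ _)
    have h6 : Y < y := by
      have : (y : ℝ) * ρ ^ j ≤ y := mul_le_of_le_one_right (Nat.cast_nonneg y) (pow_le_one₀ hρ0 hρ1)
      have : (Y : ℝ) < y := by linarith only [not_le.1 h5, h5, this]
      exact_mod_cast this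
    set k := y / (2 * L) with hk
    have hk1 : 1 ≤ k := (Nat.le_div_iff_mul_le (by omega)).2 (by omega)
    have hk2 : 2 * (L * k) ≤ y := by
      rw [← mul_assoc]; exact Nat.mul_div_le y (2 * L)
    have hk3 : y ≤ 4 * L * k := by
      have := Nat.lt_mul_div_succ y (show 0 < 2 * L by omega)
      rw [← hk] at this
      nlinarith only [this, hk1]
    have hk4 : k ≤ N := (Nat.div_le_self _ _).trans h2
    rw [← add_assoc, q_succ]
    calc β * b ^ (j + 1) = b * (β * b ^ j) := by ring
      _ ≤ (∑ i ∈ Ico k (L * k), μ i) * (β * b ^ j) := by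
          gcongr
          exact (hb1 k hk1 hk4).trans (h.window hL hk1)
      _ ≤ ∑ i ∈ Ico k (L * k), μ i * q μ (R + j) (y - i) := by
          rw [sum_mul]
          refine sum_le_sum fun i hi => ?_
          obtain ⟨hi1, hi2⟩ := mem_Ico.1 hi
          rcases (h.nonneg i).eq_or_lt with h0 | h0
          · rw [← h0]; simp
          refine mul_le_mul_of_nonneg_left (ih _ (by omega) (by omega)
            (Nat.dvd_sub h3 (Nat.setGcd_dvd_of_mem h0)) (le_trans ?_ h4)) h0.le
          rw [pow_succ', ← mul_assoc]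
          gcongr
          rw [Nat.cast_sub (by omega), hρ, mul_sub, mul_one, mul_one_div]
          have a1 : (y : ℝ) / (4 * L) ≤ k := by
            rw [div_le_iff₀ (by positivity)]
            have : (y : ℝ) ≤ 4 * L * k := by exact_mod_cast hk3
            linarith only [this]
          have a2 : (k : ℝ) ≤ i := by exact_mod_cast hi1
          linarith only [a1, a2]
      _ ≤ _ := by
          refine sum_le_sum_of_subset_of_nonneg (fun i hi => ?_) fun i _ _ =>
            mul_nonneg (h.nonneg i) (q_nonneg h.nonneg _ _)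
          have := mem_Ico.1 hi
          exact mem_range.2 (by omega)

/-- A quasi-polynomial lower bound for the probability that the sum of `n` copies is `n - 1`. -/
theorem Good.q_lower (h : Good μ α c₁ C₁) : ∃ C : ℝ, 0 < C ∧ ∀ᶠ n : ℕ in atTop,
    0 < q μ n (n - 1) → Real.exp (-(C * Real.log n ^ 2)) ≤ q μ n (n - 1) := by
  obtain ⟨y₀, hy₀⟩ := Nat.exists_mem_closure_of_ge {i | 0 < μ i}
  have hc := h.c_pos
  set L := ⌈2 * C₁ / c₁⌉₊ + 1 with hLdef
  have hL : 2 * C₁ / c₁ ≤ L := by
    rw [hLdef]; push_cast; linarith only [Nat.le_ceil (2 * C₁ / c₁)]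
  have hL1 : 1 ≤ L := by omega
  have hL0 : (1 : ℝ) ≤ L := by exact_mod_cast hL1
  obtain ⟨R, β, hR, hβ, hq⟩ := h.base y₀ (2 * y₀ + 2 * L) hy₀
  set b₀ := min (μ 0) (c₁ / 2) with hb₀
  have hb₀0 : 0 < b₀ := lt_min h.zero_pos (by positivity)
  refine ⟨1 + |Real.log β| + (4 * L + 1) * (2 + |Real.log b₀|), by positivity, ?_⟩
  have e1 : ∀ᶠ n : ℕ in atTop, ‖Real.log n‖ ≤ 1 / (2 * (4 * L + 1)) * ‖(n : ℝ)‖ :=
    tendsto_natCast_atTop_atTop.eventually (Real.isLittleO_log_id_atTop.bound (by positivity))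
  have e2 : ∀ᶠ n : ℕ in atTop, 1 ≤ Real.log n :=
    (Real.tendsto_log_atTop.comp tendsto_natCast_atTop_atTop).eventually_ge_atTop 1
  filter_upwards [e1, e2, eventually_ge_atTop (2 * R)] with n e1 e2 e3 hpos
  have hn1 : 1 ≤ n := by omega
  have hn0 : (1 : ℝ) ≤ n := by exact_mod_cast hn1
  set j := ⌈4 * L * Real.log n⌉₊ with hj
  have hj1 : 4 * L * Real.log n ≤ j := Nat.le_ceil _
  have hj2 : (j : ℝ) ≤ (4 * L + 1) * Real.log n := by
    have := (Nat.ceil_lt_add_one (show 0 ≤ 4 * L * Real.log n by positivity)).le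
    linarith only [e2, this]
  have hj3 : R + j ≤ n := by
    rw [Real.norm_of_nonneg (by linarith only [e2]), Real.norm_of_nonneg (by linarith only [hn0]), one_div,
      ← div_eq_inv_mul, le_div_iff₀ (by positivity)] at e1
    have : (2 : ℝ) * j ≤ n := by nlinarith only [e1, hj2]
    have : 2 * j ≤ n := by exact_mod_cast this
    omega
  set b := b₀ / (n : ℝ) ^ 2 with hb
  have hb0 : 0 < b := by positivity
  have hbb : b ≤ b₀ := div_le_self hb₀0.le (one_le_pow₀ hn0)
  have key := h.jumps (N := n) (b := b) hL hL1 (Nat.le_add_right _ _) (Nat.le_add_left _ _) hβ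
    hb0.le (hbb.trans (min_le_left _ _)) (fun k hk1 hk2 => by
      have hk0 : (1 : ℝ) ≤ k := by exact_mod_cast hk1
      rw [hb, div_eq_mul_inv]
      refine mul_le_mul (min_le_right _ _) ?_ (by positivity) (by positivity)
      rw [Real.rpow_neg (by positivity)]
      refine inv_anti₀ (by positivity) ?_
      calc (k : ℝ) ^ α ≤ (k : ℝ) ^ (2 : ℝ) := Real.rpow_le_rpow_of_exponent_le hk0 h.lt_two.le
        _ = (k : ℝ) ^ 2 := Real.rpow_two _
        _ ≤ _ := by gcongr) hq j
  have hρ : (n : ℝ) * (1 - 1 / (4 * L : ℝ)) ^ j ≤ 1 := by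
    have a1 : (1 - 1 / (4 * L : ℝ)) ^ j ≤ Real.exp (-(1 / (4 * L : ℝ))) ^ j := by
      gcongr
      · rw [sub_nonneg, div_le_one (by positivity)]; linarith only [hL0]
      · linarith only [Real.add_one_le_exp (-(1 / (4 * L : ℝ)))]
    have a2 : Real.exp (-(1 / (4 * L : ℝ))) ^ j ≤ Real.exp (-Real.log n) := by
      rw [← Real.exp_nat_mul]
      refine Real.exp_le_exp.2 ?_
      rw [mul_neg, neg_le_neg_iff, mul_one_div, le_div_iff₀ (by positivity)]
      linarith only [hj1]
    rw [Real.exp_neg (Real.log n), Real.exp_log (by positivity)] at a2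
    calc _ ≤ (n : ℝ) * (n : ℝ)⁻¹ := by gcongr; exact a1.trans a2
      _ = 1 := mul_inv_cancel₀ (by positivity)
  set m := n - (R + j) with hm
  have hnm : n = m + (R + j) := by omega
  have h1 : 1 / (m + 1 : ℝ) * (β * b ^ j) ≤ q μ n (n - 1) := by
    calc _ ≤ (∑ s ∈ range (m + 1), q μ m s) * (β * b ^ j) := by
          gcongr; exact h.markov' m
      _ ≤ ∑ s ∈ range (m + 1), q μ m s * q μ (R + j) (n - 1 - s) := by
          rw [sum_mul]
          refine sum_le_sum fun s hs => ?_
          have hs' := mem_range.1 hs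
          rcases (q_nonneg h.nonneg m s).eq_or_lt with h0 | h0
          · rw [← h0]; simp
          refine mul_le_mul_of_nonneg_left (key _ (by omega) (by omega)
            (Nat.dvd_sub (dvd_of_q_pos h.nonneg hpos) (dvd_of_q_pos h.nonneg h0)) ?_) h0.le
          have a1 : ((n - 1 - s : ℕ) : ℝ) ≤ n := by exact_mod_cast (by omega)
          have a2 : (1 : ℝ) ≤ ((2 * y₀ + 2 * L : ℕ) : ℝ) := by exact_mod_cast (by omega)
          refine le_trans ?_ (hρ.trans a2)
          gcongr
          refine pow_nonneg ?_ _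
          rw [sub_nonneg, div_le_one (by positivity)]; linarith only [hL0]
      _ ≤ ∑ s ∈ range (n - 1 + 1), q μ m s * q μ (R + j) (n - 1 - s) :=
          sum_le_sum_of_subset_of_nonneg (range_subset_range.2 (by omega)) fun s _ _ =>
            mul_nonneg (q_nonneg h.nonneg _ _) (q_nonneg h.nonneg _ _)
      _ = _ := by rw [← q_add, ← hnm]
  refine le_trans ?_ h1
  have a1 : Real.exp (-Real.log n ^ 2) ≤ 1 / (m + 1 : ℝ) := by
    calc _ ≤ Real.exp (-Real.log n) := Real.exp_le_exp.2 (by nlinarith only [e2])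
      _ = 1 / n := by rw [Real.exp_neg, Real.exp_log (by positivity), one_div]
      _ ≤ _ := one_div_le_one_div_of_le (by positivity) (by exact_mod_cast (by omega))
  have a2 : Real.exp (-(|Real.log β| * Real.log n ^ 2)) ≤ β := by
    calc _ ≤ Real.exp (Real.log β) := by
          refine Real.exp_le_exp.2 ?_
          have := neg_abs_le (Real.log β)
          have : |Real.log β| * 1 ≤ |Real.log β| * Real.log n ^ 2 := by
            gcongr; exact one_le_pow₀ e2
          linarith
      _ = β := Real.exp_log hβ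
  have a3 : Real.exp (-((4 * L + 1) * (2 + |Real.log b₀|) * Real.log n ^ 2)) ≤ b ^ j := by
    have b1 : Real.exp (-((2 + |Real.log b₀|) * Real.log n)) ≤ b := by
      rw [← Real.exp_log hb0]
      refine Real.exp_le_exp.2 ?_
      rw [hb, Real.log_div hb₀0.ne' (by positivity), Real.log_pow]
      have := neg_abs_le (Real.log b₀)
      have : |Real.log b₀| * 1 ≤ |Real.log b₀| * Real.log n := by gcongr
      push_cast
      linarith
    calc _ ≤ Real.exp (j * -((2 + |Real.log b₀|) * Real.log n)) := by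
          refine Real.exp_le_exp.2 ?_
          have : (j : ℝ) * ((2 + |Real.log b₀|) * Real.log n) ≤
              (4 * L + 1) * Real.log n * ((2 + |Real.log b₀|) * Real.log n) := by gcongr
          linarith only [this]
      _ = Real.exp (-((2 + |Real.log b₀|) * Real.log n)) ^ j := Real.exp_nat_mul _ _
      _ ≤ _ := by gcongr
  calc _ = Real.exp (-Real.log n ^ 2) * (Real.exp (-(|Real.log β| * Real.log n ^ 2)) *
        Real.exp (-((4 * L + 1) * (2 + |Real.log b₀|) * Real.log n ^ 2))) := by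
        rw [← Real.exp_add, ← Real.exp_add]; congr 1; ring
    _ ≤ _ := by gcongr

end Pool.Agent.MP_8702f5_pr

end

-- part MP_8702f5_pr.Size
section

/-! The law of the size of the tree, and the maximal out-degree of trees of a given size. -/

namespace Pool.Agent.MP_8702f5_pr

open Finset F Filter
open scoped ENNReal

variable {μ : ℕ → ℝ} {α c₁ C₁ : ℝ} {ν : ℕ → ℝ≥0∞}

theorem E_size_eq_zero {l n : ℕ} (h : n < l) : E ν l (fun f => ind (f.size = n)) = 0 := by
  rw [← E_const_zero l]
  exact E_congr fun f hf => ind_neg (by have := len_le_size f; omega)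

theorem E_size_succ (k n : ℕ) : E ν (k + 1) (fun f => ind (f.size = n + 1)) =
    ∑' j, ν j * E ν (j + k) fun f => ind (f.size = n) :=
  E_unroll k _ (fun _ f => ind (f.size = n)) fun c r => by simp [size, size_app]

theorem Good.P_size_succ (h : Good μ α c₁ C₁) (k s : ℕ) :
    P μ (k + 1) (fun f => f.size = k + s + 1) =
      ∑ j ∈ range (s + 1), μ j * P μ (j + k) fun f => f.size = k + s := by
  rw [P, E_size_succ, tsum_eq_sum (s := range (s + 1)), ENNReal.toReal_sum fun l _ =>
    ENNReal.mul_ne_top (show μe μ l ≠ ⊤ from ENNReal.ofReal_ne_top) (h.E_ne _ _)]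
  · refine sum_congr rfl fun l _ => ?_
    rw [ENNReal.toReal_mul, μe, ENNReal.toReal_ofReal (h.nonneg l), P]
  · intro j hj
    rw [E_size_eq_zero (by simp at hj; omega), mul_zero]

/-- The formula of Otter, Dwass and Kemperman. -/
theorem Good.kemperman (h : Good μ α c₁ C₁) (n : ℕ) : ∀ k s, k + s = n →
    n * P μ k (fun f => f.size = n) = k * q μ n s := by
  induction n with
  | zero => intro k s hks; simp [show k = 0 by omega]
  | succ n ih =>
    rintro (_ | k) s hks
    · simp [P, E_zero, size, ind]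
    obtain rfl : n = k + s := by omega
    rw [h.P_size_succ]
    rcases Nat.eq_zero_or_pos (k + s) with h0 | h0
    · obtain rfl : k = 0 := by omega
      obtain rfl : s = 0 := by omega
      simp [P, E_zero, size, ind, q_one]
    have h1 : ((k + s : ℕ) : ℝ) * ∑ j ∈ range (s + 1), μ j * P μ (j + k) (fun f => f.size = k + s) =
        ∑ j ∈ range (s + 1), j * μ j * q μ (k + s) (s - j) +
          k * ∑ j ∈ range (s + 1), μ j * q μ (k + s) (s - j) := by
      rw [mul_sum, mul_sum, ← sum_add_distrib]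
      refine sum_congr rfl fun j hj => ?_
      have := ih (j + k) (s - j) (by simp at hj; omega)
      rw [mul_left_comm, this]; push_cast; ring
    rw [← q_succ] at h1
    have h2 := q_deriv (μ := μ) (k + s) s
    have h3 : (0 : ℝ) < ((k + s : ℕ) : ℝ) := by exact_mod_cast h0
    refine mul_left_cancel₀ h3.ne' ?_
    rw [mul_left_comm, h1, mul_add]
    push_cast at h2 ⊢
    rw [h2]; ring

theorem ET_eq_E_one' {φ ψ : F → ℝ≥0∞} (h : ∀ c, φ c = ψ (cons c nil)) : ET ν φ = E ν 1 ψ := by
  rw [E_succ]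
  simp only [E_zero, ← h]

theorem Good.PT_size (h : Good μ α c₁ C₁) {n : ℕ} (hn : 1 ≤ n) :
    PT μ (fun c => c.size + 1 = n) = q μ n (n - 1) / n := by
  have h1 := h.kemperman n 1 (n - 1) (by omega)
  have hn0 : (0 : ℝ) < n := by exact_mod_cast hn
  rw [eq_div_iff hn0.ne', mul_comm, PT, ET_eq_E_one' (ψ := fun f => ind (f.size = n)) fun c => by
    simp [size]]
  simpa [P] using h1

theorem E_size_small_le (K n : ℕ) : ∀ k, E ν k (fun f => ind (f.size = n ∧ f.smallF K)) ≤
    (∑ j ∈ range K, ν j) ^ n := by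
  induction n with
  | zero =>
    rintro (_ | k)
    · rw [E_zero, pow_zero]; exact ind_le_one _
    · refine le_trans (E_mono fun f _ => ind_mono And.left) ?_
      rw [E_size_eq_zero (by omega)]; exact zero_le
  | succ n ih =>
    rintro (_ | k)
    · rw [E_zero, ind_neg (by simp [size])]; exact zero_le
    rw [E_unroll k _ (fun j f => ind (j < K) * ind (f.size = n ∧ f.smallF K)) fun c r => by
      rw [← ind_and]; congr 1; simp [size, size_app, smallF, smallF_app]; tauto]
    rw [tsum_eq_sum (s := range K), pow_succ', sum_mul]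
    · refine sum_le_sum fun j hj => ?_
      rw [E_mul, ind_pos (mem_range.1 hj), one_mul]
      gcongr
      exact ih _
    · intro j hj
      rw [E_mul, ind_neg (by simpa using hj), zero_mul, mul_zero]

theorem Good.PT_size_small (h : Good μ α c₁ C₁) (K n : ℕ) :
    PT μ (fun c => c.size + 1 = n ∧ c.small K) ≤ Real.exp (-(n * tl μ K)) := by
  have h1 := E_size_small_le (ν := μe μ) K n 1
  have h2 : ∑ j ∈ range K, μe μ j = ENNReal.ofReal (1 - tl μ K) := by
    rw [tl, sub_sub_cancel, ENNReal.ofReal_sum_of_nonneg fun i _ => h.nonneg i]; rfl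
  have h3 : 0 ≤ 1 - tl μ K := by
    rw [tl, sub_sub_cancel]; exact sum_nonneg fun i _ => h.nonneg i
  rw [h2, ← ENNReal.ofReal_pow h3] at h1
  rw [PT, ET_eq_E_one' (ψ := fun f => ind (f.size = n ∧ f.smallF K)) fun c => by
    simp [size, smallF, small]]
  refine (ENNReal.toReal_le_of_le_ofReal (pow_nonneg h3 _) h1).trans ?_
  rw [← mul_neg, Real.exp_nat_mul]
  gcongr
  linarith [Real.add_one_le_exp (-tl μ K)]

theorem E_size_tilt {θ φ : ℝ≥0∞} (hφ : ∑' j, ν j * θ ^ j ≤ φ) (n : ℕ) :
    ∀ k, E ν k (fun f => ind (f.size = n)) * θ ^ n ≤ θ ^ k * φ ^ n := by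
  induction n with
  | zero =>
    rintro (_ | k)
    · simp [E_zero, ind_le_one]
    · rw [E_size_eq_zero (by omega), zero_mul]; exact zero_le
  | succ n ih =>
    rintro (_ | k)
    · rw [E_zero, ind_neg (by simp [size]), zero_mul]; exact zero_le
    rw [E_size_succ, ← ENNReal.tsum_mul_right]
    calc _ ≤ ∑' j, ν j * θ ^ j * (θ ^ (k + 1) * φ ^ n) := by
          refine ENNReal.tsum_le_tsum fun j => ?_
          calc _ = ν j * θ * (E ν (j + k) (fun f => ind (f.size = n)) * θ ^ n) := by ring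
            _ ≤ ν j * θ * (θ ^ (j + k) * φ ^ n) := mul_le_mul_right (ih _) _
            _ = _ := by ring
      _ ≤ φ * (θ ^ (k + 1) * φ ^ n) := by rw [ENNReal.tsum_mul_right]; gcongr
      _ = _ := by ring

theorem E_size_large (hν : ∑' j, ν j ≤ 1) {θ φ : ℝ≥0∞} (hθ : θ ≤ 1) (hθφ : θ ≤ φ)
    (hφ : ∑' j, ν j * θ ^ j ≤ φ) (K n : ℕ) :
    ∀ k, E ν k (fun f => ind (f.size = n ∧ ¬f.smallF (K + 1))) * θ ^ n ≤
      n * θ ^ (k + K) * φ ^ n := by
  induction n with
  | zero =>
    rintro (_ | k)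
    · simp [E_zero, smallF, ind]
    · refine le_trans (mul_le_mul_left (E_mono fun f _ => ind_mono And.left) _) ?_
      rw [E_size_eq_zero (by omega), zero_mul]; exact zero_le
  | succ n ih =>
    rintro (_ | k)
    · rw [E_zero, ind_neg (by simp [size]), zero_mul]; exact zero_le
    rw [E_unroll k _ (fun j f => ind (f.size = n ∧ ¬(j < K + 1 ∧ f.smallF (K + 1)))) fun c r => by
      congr 1; simp only [size, size_app, smallF, smallF_app, Nat.add_right_cancel_iff, and_assoc],
      ← ENNReal.tsum_mul_right]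
    calc _ ≤ ∑' j, (ν j * θ ^ j * (n * θ ^ (k + 1 + K) * φ ^ n) +
            ν j * (θ * θ ^ (k + 1 + K) * φ ^ n)) := by
          refine ENNReal.tsum_le_tsum fun j => ?_
          by_cases hj : j < K + 1
          · refine le_add_right ?_
            simp only [hj, true_and]
            calc _ = ν j * θ * (E ν (j + k) (fun f => ind (f.size = n ∧ ¬f.smallF (K + 1))) *
                  θ ^ n) := by ring
              _ ≤ ν j * θ * (n * θ ^ (j + k + K) * φ ^ n) := mul_le_mul_right (ih _) _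
              _ = _ := by ring
          · refine le_add_left ?_
            simp only [hj, false_and, not_false_eq_true, and_true]
            calc _ = ν j * θ * (E ν (j + k) (fun f => ind (f.size = n)) * θ ^ n) := by ring
              _ ≤ ν j * θ * (θ ^ (j + k) * φ ^ n) := mul_le_mul_right (E_size_tilt hφ n _) _
              _ ≤ ν j * θ * (θ ^ (k + 1 + K) * φ ^ n) :=
                  mul_le_mul_right (mul_le_mul_left (pow_le_pow_right_of_le_one' hθ (by omega)) _) _
              _ = _ := by ring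
      _ ≤ φ * (n * θ ^ (k + 1 + K) * φ ^ n) + 1 * (φ * θ ^ (k + 1 + K) * φ ^ n) := by
          rw [ENNReal.tsum_add, ENNReal.tsum_mul_right, ENNReal.tsum_mul_right]; gcongr
      _ = _ := by push_cast; ring

theorem Good.laplace (h : Good μ α c₁ C₁) {k : ℕ} (hk : 1 ≤ k) :
    ∑' j, μ j * Real.exp (-(1 / k)) ^ j ≤ Real.exp (-(1 / k) + 3 * C₁ * (k : ℝ) ^ (-α)) := by
  have hk0 : (0 : ℝ) < k := by exact_mod_cast hk
  set lam : ℝ := 1 / k with hlam
  have hl0 : 0 < lam := by positivity
  have hθ : ∀ j : ℕ, Real.exp (-lam) ^ j ≤ 1 := fun j =>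
    pow_le_one₀ (Real.exp_pos _).le (Real.exp_le_one_iff.2 (by linarith))
  have hle : ∀ j, μ j * Real.exp (-lam) ^ j ≤ μ j := fun j =>
    mul_le_of_le_one_right (h.nonneg j) (hθ j)
  have hs : Summable fun j => μ j * Real.exp (-lam) ^ j :=
    Summable.of_nonneg_of_le (fun j => mul_nonneg (h.nonneg j) (by positivity)) hle
      h.total.summable
  rw [← hs.sum_add_tsum_nat_add k]
  have h1 : ∑' j, μ (j + k) * Real.exp (-lam) ^ (j + k) ≤ tl μ k :=
    hasSum_le (fun j => hle (j + k)) ((summable_nat_add_iff k).2 hs).hasSum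
      ((hasSum_nat_add_iff' k).2 h.total)
  have h2 : ∑ j ∈ range k, μ j * Real.exp (-lam) ^ j ≤
      ∑ j ∈ range k, (μ j - lam * (j * μ j) + lam ^ 2 * (j ^ 2 * μ j)) := by
    refine sum_le_sum fun j _ => ?_
    have a1 : Real.exp (-lam) ^ j ≤ 1 - j * lam + (j * lam) ^ 2 := by
      have hy : 0 ≤ j * lam := by positivity
      rw [← Real.exp_nat_mul, mul_neg, Real.exp_neg]
      generalize j * lam = y at hy
      refine (inv_anti₀ (by positivity) (Real.add_one_le_exp y)).trans ?_
      rw [inv_eq_one_div, div_le_iff₀ (by positivity)]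
      nlinarith [pow_nonneg hy 3]
    nlinarith [h.nonneg j]
  rw [sum_add_distrib, sum_sub_distrib, ← mul_sum, ← mul_sum] at h2
  have e1 : lam * (k : ℝ) ^ (1 - α) = (k : ℝ) ^ (-α) := by
    rw [hlam, one_div, ← Real.rpow_neg_one, ← Real.rpow_add hk0]; congr 1; ring
  have e2 : lam ^ 2 * (k : ℝ) ^ (2 - α) = (k : ℝ) ^ (-α) := by
    rw [hlam, sub_eq_add_neg, Real.rpow_add hk0, Real.rpow_two]; field_simp
  have h3 : lam * T1 μ k ≤ C₁ * (k : ℝ) ^ (-α) := by
    rw [← e1, mul_left_comm]; gcongr; exact h.first k hk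
  have h4 : lam ^ 2 * T2 μ k ≤ C₁ * (k : ℝ) ^ (-α) := by
    rw [← e2, mul_left_comm]; gcongr; exact h.second k
  have h5 : 0 ≤ C₁ * (k : ℝ) ^ (-α) := mul_nonneg (by linarith [h.C_ge]) (by positivity)
  rw [T1] at h3
  rw [T2] at h4
  rw [tl] at h1
  linarith [Real.add_one_le_exp (-lam + 3 * C₁ * (k : ℝ) ^ (-α))]

theorem Good.PT_size_large (h : Good μ α c₁ C₁) {k : ℕ} (hk : 1 ≤ k) (K n : ℕ) :
    PT μ (fun c => c.size + 1 = n ∧ ¬c.small (K + 1)) ≤
      n * Real.exp (-((K + 1) / k) + n * (3 * C₁ * (k : ℝ) ^ (-α))) := by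
  have hk0 : (0 : ℝ) < k := by exact_mod_cast hk
  set θ := Real.exp (-(1 / k)) with hθ
  set x := 3 * C₁ * (k : ℝ) ^ (-α) with hx
  have hx0 : 0 ≤ x := mul_nonneg (by linarith [h.C_ge]) (by positivity)
  set φ := Real.exp (-(1 / k) + x) with hφ
  have hθ0 : 0 < θ := Real.exp_pos _
  have hθ1 : θ ≤ 1 := Real.exp_le_one_iff.2 (by simp)
  have h1 : ∑' j, μe μ j * ENNReal.ofReal θ ^ j ≤ ENNReal.ofReal φ := by
    have : ∀ j, μe μ j * ENNReal.ofReal θ ^ j = ENNReal.ofReal (μ j * θ ^ j) := fun j => by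
      rw [ENNReal.ofReal_mul (h.nonneg j), ENNReal.ofReal_pow hθ0.le, μe]
    simp only [this]
    rw [← ENNReal.ofReal_tsum_of_nonneg (fun j => mul_nonneg (h.nonneg j) (by positivity))
      (Summable.of_nonneg_of_le (fun j => mul_nonneg (h.nonneg j) (by positivity))
        (fun j => mul_le_of_le_one_right (h.nonneg j) (pow_le_one₀ hθ0.le hθ1)) h.total.summable)]
    exact ENNReal.ofReal_le_ofReal (h.laplace hk)
  have h2 := E_size_large h.tsum_e (ENNReal.ofReal_le_one.2 hθ1)
    (ENNReal.ofReal_le_ofReal (Real.exp_le_exp.2 (by linarith))) h1 K n 1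
  have h3 := ENNReal.toReal_mono (by finiteness) h2
  simp only [ENNReal.toReal_mul, ENNReal.toReal_pow, ENNReal.toReal_ofReal hθ0.le,
    ENNReal.toReal_ofReal (Real.exp_pos _).le, ENNReal.toReal_natCast] at h3
  rw [PT, ET_eq_E_one' (ψ := fun f => ind (f.size = n ∧ ¬f.smallF (K + 1))) fun c => by
    simp only [size, smallF, small, and_true, add_zero]]
  rw [← le_div_iff₀ (by positivity)] at h3
  refine h3.trans (le_of_eq ?_)
  rw [div_eq_iff (by positivity), hθ, mul_assoc, mul_assoc]
  simp only [← Real.exp_nat_mul, ← Real.exp_add]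
  congr 2
  push_cast
  ring

end Pool.Agent.MP_8702f5_pr

end

-- part MP_8702f5_pr.UTail
section

/-! Estimates for one tree: survival, tail of the size, moments of the offspring law. -/

namespace Pool.Agent.MP_8702f5_pr

open Finset F Filter
open scoped ENNReal

variable {ν : ℕ → ℝ≥0∞} {μ : ℕ → ℝ} {α c C : ℝ}

theorem ET_le_of_ht {φ : F → ℝ≥0∞} {b : ℝ≥0∞}
    (h : ∀ k, ET ν (fun f => φ f * ind (f.ht < k)) ≤ b) : ET ν φ ≤ b := by
  rw [ET, ENNReal.tsum_eq_iSup_sum]
  refine iSup_le fun s => le_trans ?_ (h (s.sup F.ht + 1))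
  refine le_trans (le_of_eq (sum_congr rfl fun c hc => ?_)) (ENNReal.sum_le_tsum s)
  beta_reduce
  rw [ind_pos (Nat.lt_add_one_of_le (le_sup (f := F.ht) hc)), mul_one]

theorem ht_lt_succ_iff (h : ℕ) (f : F) : f.ht < h + 1 ↔ f.all fun c => c.ht < h := by
  induction f with
  | nil => simp [F.ht, all]
  | cons a b _ ihb => simp [F.ht, all, ← ihb]

theorem ET_trunc (hν : ∑' l, ν l ≤ 1) {φ : F → ℝ≥0∞} {K : ℕ} {a b : ℝ≥0∞}
    (h : ∀ l < K, E ν l φ ≤ a + l * b) (h0 : ∀ f, K ≤ f.len → φ f = 0) :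
    ET ν φ ≤ a + (∑ l ∈ range K, l * ν l) * b := by
  rw [ET_eq, tsum_eq_sum (s := range K)]
  · calc _ ≤ ∑ l ∈ range K, (ν l * a + l * ν l * b) := by
          refine sum_le_sum fun l hl => ?_
          calc _ ≤ ν l * (a + l * b) := by gcongr; exact h l (mem_range.1 hl)
            _ = _ := by ring
      _ ≤ _ := by
          rw [sum_add_distrib, ← sum_mul, ← sum_mul]
          exact add_le_add (mul_le_of_le_one_left' ((ENNReal.sum_le_tsum _).trans hν)) le_rfl
  · intro l hl
    rw [E_congr (ψ := fun _ => 0) fun f hf => h0 f (by simpa [hf] using hl), E_const_zero,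
      mul_zero]

theorem ET_small_ht (hν : ∑' l, ν l ≤ 1) (K h : ℕ) :
    ET ν (fun f => ind (f.small K ∧ h ≤ f.ht)) ≤ (∑ l ∈ range K, l * ν l) ^ h := by
  induction h with
  | zero => rw [pow_zero]; exact ET_ind_le hν _
  | succ h ih =>
    refine (ET_trunc hν (K := K) (a := 0) (b := (∑ l ∈ range K, l * ν l) ^ h) (fun l _ => ?_)
      fun f hf => ind_neg fun h1 => absurd h1.1.1 (not_lt.2 hf)).trans
      (by rw [zero_add, pow_succ'])
    rw [zero_add]
    refine le_trans (E_mono fun f _ => ind_mono fun h1 => ?_)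
      ((E_ex_le hν (fun f => f.small K ∧ h ≤ f.ht) l).trans (by gcongr))
    have h2 : ¬f.all fun c => c.ht < h := fun h3 =>
      absurd ((ht_lt_succ_iff h f).2 h3) (not_lt.2 h1.2)
    simp only [all_iff, not_forall, not_lt] at h2
    obtain ⟨i, hi, h3⟩ := h2
    exact (ex_iff _ _).2 ⟨i, hi, all_child ((smallF_iff K f).1 h1.1.2) hi, h3⟩

/-- The sum of `φ` over the trees of a forest. -/
noncomputable def sumF (φ : F → ℝ≥0∞) : F → ℝ≥0∞
  | F.nil => 0
  | F.cons c r => φ c + sumF φ r

theorem E_sumF_le (hν : ∑' l, ν l ≤ 1) (φ : F → ℝ≥0∞) (l : ℕ) :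
    E ν l (sumF φ) ≤ l * ET ν φ := by
  induction l with
  | zero => simp [E_zero, sumF]
  | succ l ih =>
    rw [E_succ]
    simp only [sumF, E_add, ET_add]
    push_cast
    rw [add_mul, one_mul, add_comm]
    exact add_le_add ((ET_mono fun _ => ih).trans (ET_const_le hν _))
      (ET_mono fun c => E_const_le hν l _)

theorem size_le_sumF {A : F → Prop} {f : F} (h : f.all A) :
    (f.size : ℝ≥0∞) ≤ sumF (fun c => ((c.size + 1 : ℕ) : ℝ≥0∞) * ind (A c)) f := by
  induction f with
  | nil => simp [size]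
  | cons a b _ ihb =>
    rw [sumF, ind_pos h.1, mul_one, size, add_right_comm, Nat.cast_add]
    exact add_le_add le_rfl (ihb h.2)

theorem ET_size_small (hν : ∑' l, ν l ≤ 1) (K : ℕ) {B : ℝ≥0∞}
    (hB : 1 + (∑ l ∈ range K, l * ν l) * B ≤ B) :
    ET ν (fun f => ((f.size + 1 : ℕ) : ℝ≥0∞) * ind (f.small K)) ≤ B := by
  refine ET_le_of_ht fun h => ?_
  simp only [mul_assoc, ← ind_and]
  induction h with
  | zero => simp [ET, ind]
  | succ h ih =>
    refine (ET_trunc hν (K := K) (a := 1) (b := B) (fun l _ => ?_) fun f hf => by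
      rw [ind_neg fun h1 => absurd h1.1.1 (not_lt.2 hf), mul_zero]).trans hB
    refine le_trans (E_mono (ψ := fun f => 1 + sumF (fun c => ((c.size + 1 : ℕ) : ℝ≥0∞) *
      ind (c.small K ∧ c.ht < h)) f) fun f _ => ?_) ?_
    · by_cases h1 : f.small K ∧ f.ht < h + 1
      · rw [ind_pos h1, mul_one, Nat.cast_add, Nat.cast_one, add_comm]
        refine add_le_add le_rfl (size_le_sumF ((all_iff _ _).2 fun i hi => ?_))
        exact ⟨all_child ((smallF_iff K f).1 h1.1.2) hi,
          all_child ((ht_lt_succ_iff h f).1 h1.2) hi⟩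
      · rw [ind_neg h1, mul_zero]; exact zero_le
    · rw [E_add]
      exact add_le_add (E_one_le hν l) ((E_sumF_le hν _ l).trans (by gcongr))

theorem Good.sum_range_e (h : Good μ α c C) (K : ℕ) :
    ∑ l ∈ range K, (l : ℝ≥0∞) * μe μ l = ENNReal.ofReal (1 - T1 μ K) := by
  rw [T1, sub_sub_cancel, ENNReal.ofReal_sum_of_nonneg fun l _ =>
    mul_nonneg (Nat.cast_nonneg l) (h.nonneg l)]
  refine sum_congr rfl fun l _ => ?_
  rw [ENNReal.ofReal_mul (Nat.cast_nonneg l), ENNReal.ofReal_natCast, μe]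

theorem Good.T1_le_one (h : Good μ α c C) (K : ℕ) : T1 μ K ≤ 1 :=
  sub_le_self _ (sum_nonneg fun l _ => mul_nonneg (Nat.cast_nonneg l) (h.nonneg l))

theorem Good.T1_ge (h : Good μ α c C) {K : ℕ} (hK : 1 ≤ K) :
    c * (K : ℝ) ^ (1 - α) ≤ T1 μ K := by
  have hK0 : (0 : ℝ) < K := by exact_mod_cast hK
  refine le_trans ?_ (mul_tl_le_T1 h.nonneg h.total h.mean K)
  rw [sub_eq_add_neg, Real.rpow_add hK0, Real.rpow_one, mul_left_comm]
  exact mul_le_mul_of_nonneg_left (h.lower K hK) hK0.le

theorem Good.ET_not_small (h : Good μ α c C) {K : ℕ} (hK : 1 ≤ K) :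
    ET (μe μ) (fun f => ind ¬f.small K) ≤ ENNReal.ofReal (1 / K) := by
  have h1 := h.PT_small hK
  have h2 := (h.PT_add_le (A := fun _ => True) (B := small K) (C := fun f => ¬f.small K)
    (fun _ _ => trivial) (fun _ _ => trivial) fun _ h1 h2 => h2 h1).trans (h.PT_le_one _)
  exact (ENNReal.le_ofReal_iff_toReal_le (h.ET_ne fun f => ¬f.small K) (by positivity)).2
    (show PT μ (fun f => ¬f.small K) ≤ _ by linarith)

/-- The survival probability. -/
theorem Good.surv (h : Good μ α c C) {κ η : ℝ} (hκ : 0 < κ) (hη : κ * (α - 1) < η) :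
    ∀ᶠ x : ℝ in atTop,
      ET (μe μ) (fun f => ind (⌈x ^ η⌉₊ ≤ f.ht)) ≤ ENNReal.ofReal (2 * x ^ (-κ)) := by
  have hc := h.c_pos
  have hd : 0 < η - κ * (α - 1) := sub_pos.2 hη
  filter_upwards [(isLittleO_log_rpow_atTop hd).bound (show 0 < c / 2 / κ by positivity),
    eventually_ge_atTop 1] with x h1 hx
  have hx0 : 0 < x := by linarith
  rw [Real.norm_of_nonneg (Real.log_nonneg hx), Real.norm_of_nonneg (by positivity)] at h1
  set K := ⌈x ^ κ⌉₊ with hK
  have a1 : 1 ≤ x ^ κ := Real.one_le_rpow hx hκ.le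
  have hK1 : 1 ≤ K := Nat.one_le_ceil_iff.2 (by linarith)
  have a2 : x ^ κ ≤ K := Nat.le_ceil _
  have a3 : (K : ℝ) ≤ 2 * x ^ κ := by
    linarith [Nat.ceil_lt_add_one (show 0 ≤ x ^ κ by positivity)]
  refine le_trans (ET_mono fun f => ind_or_le (B := ¬f.small K)
    (C := f.small K ∧ ⌈x ^ η⌉₊ ≤ f.ht) fun hf => by tauto) ?_
  rw [ET_add, two_mul, ENNReal.ofReal_add (by positivity) (by positivity)]
  refine add_le_add ((h.ET_not_small hK1).trans (ENNReal.ofReal_le_ofReal ?_))
    ((ET_small_ht h.tsum_e K _).trans ?_)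
  · rw [Real.rpow_neg hx0.le, one_div]
    exact inv_anti₀ (by positivity) a2
  · rw [h.sum_range_e, ← ENNReal.ofReal_pow (sub_nonneg.2 (h.T1_le_one K))]
    refine ENNReal.ofReal_le_ofReal ?_
    have b1 : (1 - T1 μ K) ^ ⌈x ^ η⌉₊ ≤ Real.exp (-T1 μ K) ^ ⌈x ^ η⌉₊ := by
      gcongr
      · exact sub_nonneg.2 (h.T1_le_one K)
      · linarith [Real.add_one_le_exp (-T1 μ K)]
    refine b1.trans ?_
    rw [← Real.exp_nat_mul, Real.rpow_def_of_pos hx0 (-κ)]
    refine Real.exp_le_exp.2 ?_
    have b2 : (2 * x ^ κ) ^ (1 - α) ≤ (K : ℝ) ^ (1 - α) :=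
      Real.rpow_le_rpow_of_nonpos (by linarith) a3 (by linarith [h.one_lt])
    have b3 : (1 / 2 : ℝ) ≤ 2 ^ (1 - α) := by
      have := Real.rpow_le_rpow_of_exponent_le (show (1 : ℝ) ≤ 2 by norm_num)
        (show (-1 : ℝ) ≤ 1 - α by linarith [h.lt_two])
      rw [Real.rpow_neg_one] at this
      linarith
    rw [Real.mul_rpow (by norm_num) (by positivity), ← Real.rpow_mul hx0.le] at b2
    have b4 : x ^ (η - κ * (α - 1)) = x ^ η * x ^ (κ * (1 - α)) := by
      rw [← Real.rpow_add hx0]; congr 1; ring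
    have b5 : c * (1 / 2 * x ^ (κ * (1 - α))) ≤ T1 μ K := by
      refine le_trans ?_ (h.T1_ge hK1)
      gcongr
      exact le_trans (by gcongr) b2
    have b6 : x ^ η * (c * (1 / 2 * x ^ (κ * (1 - α)))) ≤ ⌈x ^ η⌉₊ * T1 μ K := by
      gcongr; exact Nat.le_ceil _
    have b7 : Real.log x * κ ≤ c / 2 / κ * x ^ (η - κ * (α - 1)) * κ := by gcongr
    have b8 : c / 2 / κ * x ^ (η - κ * (α - 1)) * κ =
        x ^ η * (c * (1 / 2 * x ^ (κ * (1 - α)))) := by
      rw [b4]; field_simp
    linarith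

/-- The natural scale of the maximal degree of a tree. -/
noncomputable def Yf (α : ℝ) (f : F) : ℝ := ((f.size + 1 : ℕ) : ℝ) ^ (1 / α)

theorem one_le_Yf (hα : 1 < α) (f : F) : 1 ≤ Yf α f :=
  Real.one_le_rpow (by exact_mod_cast Nat.succ_pos _) (by positivity)

theorem Yf_rpow (hα : 1 < α) (f : F) : Yf α f ^ α = ((f.size + 1 : ℕ) : ℝ) := by
  rw [Yf, ← Real.rpow_mul (by positivity), one_div_mul_cancel (by positivity), Real.rpow_one]

theorem Yf_mono (hα : 1 < α) {f g : F} (h : f.size ≤ g.size) : Yf α f ≤ Yf α g :=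
  Real.rpow_le_rpow (by positivity) (by exact_mod_cast Nat.succ_le_succ h) (by positivity)

theorem Good.Yf_tail (h : Good μ α c C) {K : ℕ} (hK : 1 ≤ K) :
    ET (μe μ) (fun f => ind ((K : ℝ) ≤ Yf α f)) ≤ ENNReal.ofReal (2 / c * (1 / K)) := by
  have hc := h.c_pos
  have hα := h.one_lt
  have hK0 : (0 : ℝ) < K := by exact_mod_cast hK
  have hT := h.T1_ge hK
  have hT0 : 0 < T1 μ K := lt_of_lt_of_le (by positivity) hT
  have h1 := ET_size_small h.tsum_e K (B := ENNReal.ofReal (1 / T1 μ K)) (by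
    rw [h.sum_range_e, ← ENNReal.ofReal_mul (sub_nonneg.2 (h.T1_le_one K)), ← ENNReal.ofReal_one,
      ← ENNReal.ofReal_add zero_le_one (mul_nonneg (sub_nonneg.2 (h.T1_le_one K)) (by positivity))]
    exact ENNReal.ofReal_le_ofReal (le_of_eq (by field_simp; ring)))
  calc _ ≤ ET (μe μ) fun f => ind (¬f.small K) + ((f.size + 1 : ℕ) : ℝ≥0∞) * ind (f.small K) *
        ENNReal.ofReal ((K : ℝ) ^ (-α)) := by
        refine ET_mono fun f => ?_
        by_cases hf : (K : ℝ) ≤ Yf α f
        · by_cases hs : f.small K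
          · refine le_add_left ?_
            rw [ind_pos hf, ind_pos hs, mul_one, ← ENNReal.ofReal_natCast,
              ← ENNReal.ofReal_mul (by positivity), ← ENNReal.ofReal_one, ← Yf_rpow hα,
              Real.rpow_neg hK0.le, ← div_eq_mul_inv]
            refine ENNReal.ofReal_le_ofReal ((one_le_div (by positivity)).2 ?_)
            exact Real.rpow_le_rpow hK0.le hf (by positivity)
          · rw [ind_pos hf, ind_pos hs]; exact le_self_add
        · rw [ind_neg hf]; exact zero_le
    _ ≤ ENNReal.ofReal (1 / K) + ENNReal.ofReal (1 / T1 μ K) *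
        ENNReal.ofReal ((K : ℝ) ^ (-α)) := by
        rw [ET_add, ET_mul]
        gcongr
        exact h.ET_not_small hK
    _ ≤ _ := by
        rw [← ENNReal.ofReal_mul (by positivity),
          ← ENNReal.ofReal_add (by positivity) (by positivity)]
        refine ENNReal.ofReal_le_ofReal ?_
        have a1 : 1 / T1 μ K * (K : ℝ) ^ (-α) ≤ 1 / c * (1 / K) := by
          refine le_trans (mul_le_mul_of_nonneg_right
            (one_div_le_one_div_of_le (by positivity) hT) (by positivity)) (le_of_eq ?_)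
          rw [sub_eq_add_neg, Real.rpow_add hK0, Real.rpow_one]
          field_simp
        have a2 : 1 * (1 / (K : ℝ)) ≤ 1 / c * (1 / K) := by
          gcongr
          exact one_le_one_div hc h.c_le
        have a3 : 2 / c * (1 / (K : ℝ)) = 1 / c * (1 / K) + 1 / c * (1 / K) := by ring
        linarith

theorem Good.Yf_mean (h : Good μ α c C) (n : ℕ) :
    ET (μe μ) (fun f => ENNReal.ofReal (Yf α f) * ind (Yf α f ≤ n)) ≤
      ENNReal.ofReal (1 + 2 / c * (1 + Real.log n)) := by
  have hc := h.c_pos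
  calc _ ≤ ET (μe μ) fun f => 1 + ∑ K ∈ range n, ind (((K + 1 : ℕ) : ℝ) ≤ Yf α f) := by
        refine ET_mono fun f => ?_
        by_cases hf : Yf α f ≤ n
        · have h0 : 0 ≤ Yf α f := by linarith [one_le_Yf h.one_lt f]
          have a1 : ⌊Yf α f⌋₊ ≤ n := Nat.floor_le_of_le hf
          rw [ind_pos hf, mul_one]
          calc _ ≤ ENNReal.ofReal ((1 + ⌊Yf α f⌋₊ : ℕ) : ℝ) := by
                refine ENNReal.ofReal_le_ofReal ?_
                push_cast
                linarith [Nat.lt_floor_add_one (Yf α f)]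
            _ = 1 + ∑ _K ∈ range ⌊Yf α f⌋₊, 1 := by rw [ENNReal.ofReal_natCast]; simp
            _ ≤ _ := by
                refine add_le_add le_rfl (le_trans (sum_le_sum fun K hK => ?_)
                  (sum_le_sum_of_subset (range_mono a1)))
                rw [ind_pos ((Nat.le_floor_iff h0).1 (mem_range.1 hK))]
        · rw [ind_neg hf, mul_zero]; exact zero_le
    _ ≤ 1 + ∑ K ∈ range n, ENNReal.ofReal (2 / c * (1 / (K + 1 : ℕ))) := by
        rw [ET_add, ET_sum]
        exact add_le_add (ET_one_le h.tsum_e) (sum_le_sum fun K _ => h.Yf_tail (Nat.succ_pos K))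
    _ ≤ _ := by
        have a1 := harmonic_le_one_add_log n
        have a2 : 0 ≤ Real.log n := Real.log_natCast_nonneg n
        rw [← ENNReal.ofReal_sum_of_nonneg fun _ _ => by positivity,
          ENNReal.ofReal_add zero_le_one (by positivity), ENNReal.ofReal_one, ← mul_sum]
        gcongr
        refine le_trans (le_of_eq ?_) a1
        simp [harmonic]

theorem rpow_le_sum {β : ℝ} (h1 : 1 ≤ β) (h2 : β ≤ 2) (l : ℕ) :
    (l : ℝ) ^ β ≤ ∑ K ∈ range l, 2 * ((K + 1 : ℕ) : ℝ) ^ (β - 1) := by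
  induction l with
  | zero => simp [Real.zero_rpow (show β ≠ 0 by linarith)]
  | succ l ih =>
    rw [sum_range_succ]
    have h0 : (0 : ℝ) < (l + 1 : ℕ) := by positivity
    have a1 := one_add_mul_self_le_rpow_one_add (s := -(1 / ((l + 1 : ℕ) : ℝ)))
      (neg_le_neg ((div_le_one h0).2 (by exact_mod_cast Nat.succ_pos l))) h1
    have a2 : 1 + -(1 / ((l + 1 : ℕ) : ℝ)) = l / (l + 1 : ℕ) := by
      push_cast; field_simp; ring
    rw [a2, Real.div_rpow (by positivity) h0.le, le_div_iff₀ (by positivity)] at a1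
    have a3 : ((l + 1 : ℕ) : ℝ) ^ (β - 1) = 1 / ((l + 1 : ℕ) : ℝ) * ((l + 1 : ℕ) : ℝ) ^ β := by
      rw [Real.rpow_sub h0, Real.rpow_one]; ring
    have a4 : 0 ≤ 1 / ((l + 1 : ℕ) : ℝ) * ((l + 1 : ℕ) : ℝ) ^ β := by positivity
    rw [a3]
    nlinarith

theorem Good.tail_e (h : Good μ α c C) (K : ℕ) :
    ∑' l, ind (K ≤ l) * μe μ l = ENNReal.ofReal (tl μ K) := by
  have h1 : HasSum (fun l => if K ≤ l then μ l else 0) (tl μ K) := by
    have := (hasSum_nat_add_iff (f := fun l => if K ≤ l then μ l else 0) (g := tl μ K) K).1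
      (by simpa [tl] using (hasSum_nat_add_iff' K).2 h.total)
    rwa [sum_eq_zero fun i hi => if_neg (by simpa using hi), add_zero] at this
  rw [← h1.tsum_eq, ENNReal.ofReal_tsum_of_nonneg (fun l => by
    split_ifs; exacts [h.nonneg l, le_rfl]) h1.summable]
  refine tsum_congr fun l => ?_
  by_cases hl : K ≤ l <;> simp [ind, hl, μe]

theorem Good.moment (h : Good μ α c C) {β : ℝ} (h1 : 1 ≤ β) (h2 : β < α) :
    ∃ M : ℝ, 0 ≤ M ∧ ∑' l : ℕ, ENNReal.ofReal ((l : ℝ) ^ β) * μe μ l ≤ ENNReal.ofReal M := by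
  have hC : 0 ≤ C := by linarith [h.C_ge]
  have hs : Summable fun K : ℕ => 2 * C * ((K + 1 : ℕ) : ℝ) ^ (β - 1 - α) :=
    ((summable_nat_add_iff 1).2 (Real.summable_nat_rpow.2 (by linarith))).mul_left _
  refine ⟨_, tsum_nonneg fun _ => by positivity, le_trans ?_
    (ENNReal.ofReal_tsum_of_nonneg (fun _ => by positivity) hs).ge⟩
  calc _ ≤ ∑' l : ℕ, ∑' K : ℕ, ENNReal.ofReal (2 * ((K + 1 : ℕ) : ℝ) ^ (β - 1)) *
        (ind (K + 1 ≤ l) * μe μ l) := by
        refine ENNReal.tsum_le_tsum fun l => ?_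
        simp only [← mul_assoc]
        rw [ENNReal.tsum_mul_right]
        gcongr
        refine le_trans (ENNReal.ofReal_le_ofReal (rpow_le_sum h1 (by linarith [h.lt_two]) l)) ?_
        rw [ENNReal.ofReal_sum_of_nonneg fun _ _ => by positivity]
        refine le_trans (le_of_eq (sum_congr rfl fun K hK => ?_)) (ENNReal.sum_le_tsum (range l))
        rw [ind_pos (show K + 1 ≤ l from mem_range.1 hK), mul_one]
    _ ≤ _ := by
        rw [ENNReal.tsum_comm]
        refine ENNReal.tsum_le_tsum fun K => ?_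
        rw [ENNReal.tsum_mul_left, h.tail_e, ← ENNReal.ofReal_mul (by positivity)]
        refine ENNReal.ofReal_le_ofReal ?_
        have h0 : (0 : ℝ) < (K + 1 : ℕ) := by positivity
        rw [sub_eq_add_neg (β - 1), Real.rpow_add h0]
        have := h.upper (K + 1) (Nat.succ_pos K)
        have h3 : 0 ≤ 2 * ((K + 1 : ℕ) : ℝ) ^ (β - 1) := by positivity
        nlinarith

end Pool.Agent.MP_8702f5_pr

end

-- part MP_8702f5_pr.SDet
section

/-! Deterministic part of the sharp upper bound: the mass of the badly matched small subtrees, the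
hubs of the large part of a tree. -/

namespace Pool.Agent.MP_8702f5_pr

open Finset F
open scoped NNReal

open Classical in
/-- The largest mass of a matching made of bad pairs whose first tree is not large. -/
noncomputable def Md (lg : F → Prop) (bad : F → F → Prop) (W : F → ℝ≥0) : F → F → ℝ≥0
  | F.nil, _ => 0
  | F.cons c r, f => max (Md lg bad W r f)
      (((range f.len).filter fun j => ¬lg c ∧ bad c (f.child j)).sup
        fun j => W c + Md lg bad W r (f.del j))

open Classical in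
/-- The largest total of such masses along a pair of paths made of large trees. -/
noncomputable def Am (lg : F → Prop) (bad : F → F → Prop) (W : F → ℝ≥0) : F → F → ℝ≥0
  | F.nil, _ => 0
  | F.cons c r, f => max (Am lg bad W r f) (max
      (((range f.len).filter fun j => ¬lg c ∧ bad c (f.child j)).sup
        fun j => W c + Am lg bad W r (f.del j))
      (((range f.len).filter fun _ => lg c).sup
        fun j => Am lg bad W c (f.child j) + Md lg bad W r (f.del j)))

theorem sup_cases (s : Finset ℕ) (φ : ℕ → ℝ≥0) : s.sup φ = 0 ∨ ∃ j ∈ s, s.sup φ = φ j := by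
  rcases s.eq_empty_or_nonempty with rfl | h
  · exact Or.inl rfl
  · exact Or.inr (exists_mem_eq_sup s h φ)

variable {lg : F → Prop} {bad : F → F → Prop} {W : F → ℝ≥0}

theorem Md_tail_le (c r f : F) : Md lg bad W r f ≤ Md lg bad W (cons c r) f := le_max_left _ _

theorem Md_pick_le {c f : F} (r : F) {j : ℕ} (hj : j < f.len) (h1 : ¬lg c)
    (h2 : bad c (f.child j)) : W c + Md lg bad W r (f.del j) ≤ Md lg bad W (cons c r) f := by
  classical
  refine le_trans ?_ (le_max_right _ _)
  exact le_sup (f := fun j => W c + Md lg bad W r (f.del j))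
    (mem_filter.2 ⟨mem_range.2 hj, h1, h2⟩)

theorem Md_cases (c r f : F) : Md lg bad W (cons c r) f ≤ Md lg bad W r f ∨
    ∃ j < f.len, ¬lg c ∧ bad c (f.child j) ∧
      Md lg bad W (cons c r) f ≤ W c + Md lg bad W r (f.del j) := by
  classical
  rw [Md]
  rcases le_total (((range f.len).filter fun j => ¬lg c ∧ bad c (f.child j)).sup
    fun j => W c + Md lg bad W r (f.del j)) (Md lg bad W r f) with h | h
  · exact Or.inl (max_le le_rfl h)
  · rw [max_eq_right h]
    rcases sup_cases ((range f.len).filter fun j => ¬lg c ∧ bad c (f.child j))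
      fun j => W c + Md lg bad W r (f.del j) with e | ⟨j, hj, e⟩
    · exact Or.inl (e.le.trans zero_le)
    · obtain ⟨h1, h2, h3⟩ := mem_filter.1 hj
      exact Or.inr ⟨j, mem_range.1 h1, h2, h3, e.le⟩

theorem Am_tail_le (c r f : F) : Am lg bad W r f ≤ Am lg bad W (cons c r) f := le_max_left _ _

theorem Am_pick_le {c f : F} (r : F) {j : ℕ} (hj : j < f.len) (h1 : ¬lg c)
    (h2 : bad c (f.child j)) : W c + Am lg bad W r (f.del j) ≤ Am lg bad W (cons c r) f := by
  classical
  refine le_trans ?_ ((le_max_left _ _).trans (le_max_right _ _))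
  exact le_sup (f := fun j => W c + Am lg bad W r (f.del j))
    (mem_filter.2 ⟨mem_range.2 hj, h1, h2⟩)

theorem Am_path_le {c f : F} (r : F) {j : ℕ} (hj : j < f.len) (h1 : lg c) :
    Am lg bad W c (f.child j) + Md lg bad W r (f.del j) ≤ Am lg bad W (cons c r) f := by
  classical
  refine le_trans ?_ ((le_max_right _ _).trans (le_max_right _ _))
  exact le_sup (f := fun j => Am lg bad W c (f.child j) + Md lg bad W r (f.del j))
    (mem_filter.2 ⟨mem_range.2 hj, h1⟩)

theorem Am_cases (c r f : F) : Am lg bad W (cons c r) f ≤ Am lg bad W r f ∨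
    (∃ j < f.len, ¬lg c ∧ bad c (f.child j) ∧
      Am lg bad W (cons c r) f ≤ W c + Am lg bad W r (f.del j)) ∨
    ∃ j < f.len, lg c ∧
      Am lg bad W (cons c r) f ≤ Am lg bad W c (f.child j) + Md lg bad W r (f.del j) := by
  classical
  rw [Am]
  rcases max_cases (Am lg bad W r f) (max
      (((range f.len).filter fun j => ¬lg c ∧ bad c (f.child j)).sup
        fun j => W c + Am lg bad W r (f.del j))
      (((range f.len).filter fun _ => lg c).sup
        fun j => Am lg bad W c (f.child j) + Md lg bad W r (f.del j))) with ⟨h, -⟩ | ⟨h, -⟩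
  · exact Or.inl h.le
  rw [h]
  rcases max_cases (((range f.len).filter fun j => ¬lg c ∧ bad c (f.child j)).sup
        fun j => W c + Am lg bad W r (f.del j))
      (((range f.len).filter fun _ => lg c).sup
        fun j => Am lg bad W c (f.child j) + Md lg bad W r (f.del j)) with ⟨h, -⟩ | ⟨h, -⟩
  · rw [h]
    rcases sup_cases ((range f.len).filter fun j => ¬lg c ∧ bad c (f.child j))
      fun j => W c + Am lg bad W r (f.del j) with e | ⟨j, hj, e⟩
    · exact Or.inl (e.le.trans zero_le)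
    · obtain ⟨h1, h2, h3⟩ := mem_filter.1 hj
      exact Or.inr (Or.inl ⟨j, mem_range.1 h1, h2, h3, e.le⟩)
  · rw [h]
    rcases sup_cases ((range f.len).filter fun _ => lg c)
      fun j => Am lg bad W c (f.child j) + Md lg bad W r (f.del j) with e | ⟨j, hj, e⟩
    · exact Or.inl (e.le.trans zero_le)
    · obtain ⟨h1, h2⟩ := mem_filter.1 hj
      exact Or.inr (Or.inr ⟨j, mem_range.1 h1, h2, e.le⟩)

theorem Md_mono (g : F) : ∀ {f f' : F}, Sub f f' → Md lg bad W g f ≤ Md lg bad W g f' := by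
  induction g with
  | nil => intro _ _ _; exact le_rfl
  | cons c r _ ih =>
    intro f f' h
    rcases Md_cases (lg := lg) (bad := bad) (W := W) c r f with e | ⟨j, hj, h1, h2, e⟩
    · exact e.trans ((ih h).trans (Md_tail_le c r f'))
    · obtain ⟨j', a1, a2, a3⟩ := h.pick j hj
      exact e.trans ((add_le_add le_rfl (ih a3)).trans (Md_pick_le r a1 h1 (a2 ▸ h2)))

theorem Am_mono (g : F) : ∀ {f f' : F}, Sub f f' → Am lg bad W g f ≤ Am lg bad W g f' := by
  induction g with
  | nil => intro _ _ _; exact le_rfl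
  | cons c r _ ih =>
    intro f f' h
    rcases Am_cases (lg := lg) (bad := bad) (W := W) c r f with
      e | ⟨j, hj, h1, h2, e⟩ | ⟨j, hj, h1, e⟩
    · exact e.trans ((ih h).trans (Am_tail_le c r f'))
    · obtain ⟨j', a1, a2, a3⟩ := h.pick j hj
      exact e.trans ((add_le_add le_rfl (ih a3)).trans (Am_pick_le r a1 h1 (a2 ▸ h2)))
    · obtain ⟨j', a1, a2, a3⟩ := h.pick j hj
      rw [a2] at e
      exact e.trans ((add_le_add le_rfl (Md_mono r a3)).trans (Am_path_le r a1 h1))

theorem Md_le_Am (g : F) : ∀ f : F, Md lg bad W g f ≤ Am lg bad W g f := by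
  induction g with
  | nil => intro _; exact le_rfl
  | cons c r _ ih =>
    intro f
    rcases Md_cases (lg := lg) (bad := bad) (W := W) c r f with e | ⟨j, hj, h1, h2, e⟩
    · exact e.trans ((ih f).trans (Am_tail_le c r f))
    · exact e.trans ((add_le_add le_rfl (ih _)).trans (Am_pick_le r hj h1 h2))

variable {φ : F → ℝ}

theorem core2 {T' T : F → Prop} (hT' : Her T') (hT : Her T) {G : ℝ} (hG : 0 ≤ G)
    (hφ : ∀ c, 0 ≤ φ c) (h : ∀ c' c, ¬bad c' c → (Rm c' c : ℝ) + 1 ≤ φ c')
    (hW : ∀ c' c, T' c' → T c → (Rm c' c : ℝ) + 1 ≤ G * W c') (g : F) :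
    ∀ (f : F) (D s : ℝ), g.all T' → f.all T → 0 ≤ D → 0 ≤ s →
      g.all (fun c => acc φ c + 1 ≤ D + φ c ∧ φ c ≤ s) →
      (Rm g f : ℝ) ≤ sumY φ g + Lm (fun c' c => ¬(lg c' ∧ bad c' c)) g f * D +
        ((Lm (fun c' c => ¬(lg c' ∧ bad c' c)) g f - 1 : ℕ) : ℝ) * s +
        G * max (Md lg bad W g f : ℝ)
          (Lm (fun c' c => ¬(lg c' ∧ bad c' c)) g f * Am lg bad W g f) := by
  set gd : F → F → Prop := fun c' c => ¬(lg c' ∧ bad c' c) with hgd
  induction g with
  | nil => intro f D s _ _ _ _ _; simp [Rm, sumY, Lm, Md, Am]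
  | cons c r ihc ihr =>
    intro f D s hg hf hD hs ha
    have mono : ∀ {L L' : ℕ}, L ≤ L' →
        (L : ℝ) * D + ((L - 1 : ℕ) : ℝ) * s ≤ L' * D + ((L' - 1 : ℕ) : ℝ) * s := by
      intro L L' hL
      gcongr
    have mono2 : ∀ {f' : F}, Sub f' f → G * max (Md lg bad W r f' : ℝ)
        (Lm gd r f' * Am lg bad W r f') ≤ G * max (Md lg bad W (cons c r) f : ℝ)
        (Lm gd (cons c r) f * Am lg bad W (cons c r) f) := by
      intro f' hs
      have a1 := (Md_mono (lg := lg) (bad := bad) (W := W) r hs).trans (Md_tail_le c r f)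
      have a2 := (Am_mono (lg := lg) (bad := bad) (W := W) r hs).trans (Am_tail_le c r f)
      have a3 := (Lm_mono gd r hs).trans (Lm_tail_le gd c r f)
      gcongr
    rcases Rm_cases c r f with e | ⟨j, hj, e⟩
    · rw [e]
      refine (ihr f D s hg.2 hf hD hs ha.2).trans ?_
      have := mono (Lm_tail_le gd c r f)
      have := mono2 (Sub.refl f)
      rw [sumY]
      linarith [hφ c]
    · have h1 := ihr (f.del j) D s hg.2 (all_del hf j) hD hs ha.2
      have hfj : T (f.child j) := all_child hf hj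
      have h3 := mono ((Lm_mono gd r (sub_del f j)).trans (Lm_tail_le gd c r f))
      rw [e]
      push_cast
      by_cases hb : bad c (f.child j)
      swap
      · have h2 := h c _ hb
        have h4 := mono2 (sub_del f j)
        rw [sumY]
        linarith only [h1, h3, h2, h4]
      by_cases hl : lg c
      swap
      · have h2 := hW c _ hg.1 hfj
        have a1 : (W c : ℝ) + Md lg bad W r (f.del j) ≤ Md lg bad W (cons c r) f := by
          exact_mod_cast Md_pick_le r hj hl hb
        have a2 : (W c : ℝ) + Am lg bad W r (f.del j) ≤ Am lg bad W (cons c r) f := by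
          exact_mod_cast Am_pick_le r hj hl hb
        have a3 : (Lm gd r (f.del j) : ℝ) ≤ Lm gd (cons c r) f := by
          exact_mod_cast (Lm_mono gd r (sub_del f j)).trans (Lm_tail_le gd c r f)
        have a4 : (W c : ℝ) + max (Md lg bad W r (f.del j) : ℝ)
            (Lm gd r (f.del j) * Am lg bad W r (f.del j)) ≤ max (Md lg bad W (cons c r) f : ℝ)
            (Lm gd (cons c r) f * Am lg bad W (cons c r) f) := by
          rcases Nat.eq_zero_or_pos (Lm gd r (f.del j)) with h0 | h0
          · rw [h0, Nat.cast_zero, zero_mul, max_eq_left (NNReal.coe_nonneg _)]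
            exact a1.trans (le_max_left _ _)
          · have b1 : (1 : ℝ) ≤ Lm gd r (f.del j) := by exact_mod_cast h0
            have b2 : (Md lg bad W r (f.del j) : ℝ) ≤ Am lg bad W r (f.del j) := Md_le_Am r _
            have b3 := (W c).coe_nonneg
            have b4 := (Am lg bad W r (f.del j)).coe_nonneg
            rw [max_eq_right (by nlinarith only [b2, b1])]
            refine le_trans ?_ (le_max_right _ _)
            calc _ ≤ Lm gd r (f.del j) * ((W c : ℝ) + Am lg bad W r (f.del j)) := by nlinarith only [b1]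
              _ ≤ _ := by gcongr
        have a5 := mul_le_mul_of_nonneg_left a4 hG
        rw [sumY]
        linarith only [hφ c, h1, h3, h2, a5]
      have hb' : ¬gd c (f.child j) := fun h => h ⟨hl, hb⟩
      have h2 := ihc (f.child j) (acc φ c - sumY φ c) (sumY φ c) (hT' c hg.1) (hT _ hfj)
        (sub_nonneg.2 (sumY_le_acc c)) (sumY_nonneg hφ c) (acc_all hφ c)
      have h3' := Lm_pick_le r hj hb'
      have h3 := mono h3'
      have a1 : (Am lg bad W c (f.child j) : ℝ) + Md lg bad W r (f.del j) ≤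
          Am lg bad W (cons c r) f := by exact_mod_cast Am_path_le r hj hl
      have a2 : (Am lg bad W r (f.del j) : ℝ) ≤ Am lg bad W (cons c r) f :=
        (Am_mono r (sub_del f j)).trans (Am_tail_le c r f)
      have a3 : (Md lg bad W c (f.child j) : ℝ) ≤ Am lg bad W c (f.child j) := Md_le_Am c _
      have a3' : (Md lg bad W r (f.del j) : ℝ) ≤ Am lg bad W r (f.del j) := Md_le_Am r _
      set L := Lm gd c (f.child j)
      set L' := Lm gd r (f.del j)
      have hacc : 0 ≤ acc φ c := (sumY_nonneg hφ c).trans (sumY_le_acc c)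
      obtain ⟨M, hM⟩ : ∃ M, max 1 L = M + 1 := ⟨max 1 L - 1, by omega⟩
      have hM0 : (0 : ℝ) ≤ M := Nat.cast_nonneg M
      have h4 : sumY φ c + L * (acc φ c - sumY φ c) + ((L - 1 : ℕ) : ℝ) * sumY φ c ≤
          (M + 1) * acc φ c := by
        rcases Nat.eq_zero_or_pos L with h0 | h0
        · have : M = 0 := by omega
          simp [h0, this, sumY_le_acc]
        · have : L = M + 1 := by omega
          rw [this, Nat.add_sub_cancel]
          push_cast
          linarith only []
      have b0 := (Am lg bad W c (f.child j)).coe_nonneg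
      have b0' := (Md lg bad W r (f.del j)).coe_nonneg
      have a4 : max (Md lg bad W c (f.child j) : ℝ) (L * Am lg bad W c (f.child j)) ≤
          (M + 1) * Am lg bad W c (f.child j) := by
        refine max_le (by nlinarith only [a3]) (mul_le_mul_of_nonneg_right ?_ b0)
        exact_mod_cast (by omega)
      rw [hM] at h3 h3'
      have a5 : (M : ℝ) + 1 + L' ≤ Lm gd (cons c r) f := by exact_mod_cast h3'
      have a6 : (M + 1) * (Am lg bad W c (f.child j) : ℝ) + max (Md lg bad W r (f.del j) : ℝ)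
          (L' * Am lg bad W r (f.del j)) ≤ max (Md lg bad W (cons c r) f : ℝ)
          (Lm gd (cons c r) f * Am lg bad W (cons c r) f) := by
        refine le_trans ?_ ((mul_le_mul_of_nonneg_right a5 (NNReal.coe_nonneg _)).trans
          (le_max_right _ _))
        rcases Nat.eq_zero_or_pos L' with h0 | h0
        · rw [h0, Nat.cast_zero, zero_mul, max_eq_left b0']
          nlinarith only [a1]
        · have b1 : (1 : ℝ) ≤ L' := by exact_mod_cast h0
          rw [max_eq_right (by nlinarith only [a3', b1])]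
          nlinarith only [a1, a2]
      have h5 : (Rm c (f.child j) : ℝ) + 1 ≤ (M + 1) * (D + φ c) +
          G * ((M + 1) * Am lg bad W c (f.child j)) := by
        have b1 := mul_le_mul_of_nonneg_left a4 hG
        have b2 : (M + 1) * (acc φ c + 1) ≤ (M + 1) * (D + φ c) :=
          mul_le_mul_of_nonneg_left ha.1.1 (by linarith only [])
        nlinarith only [h2, h4, b1, b2]
      have h6 : (M : ℝ) + ((L' - 1 : ℕ) : ℝ) ≤ ((M + 1 + L' - 1 : ℕ) : ℝ) := by
        exact_mod_cast (by omega)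
      have h7 : (M : ℝ) * φ c ≤ M * s := mul_le_mul_of_nonneg_left ha.1.2 hM0
      have h8 : ((M : ℝ) + ((L' - 1 : ℕ) : ℝ)) * s ≤ ((M + 1 + L' - 1 : ℕ) : ℝ) * s :=
        mul_le_mul_of_nonneg_right h6 hs
      have h9 := mul_le_mul_of_nonneg_left a6 hG
      rw [sumY]
      push_cast at h3
      linarith only [h1, h5, h7, h8, h9, h3]

theorem core2_tree {T' T : F → Prop} (hT' : Her T') (hT : Her T) {G : ℝ} (hG : 0 ≤ G)
    (hφ : ∀ c, 0 ≤ φ c) (h : ∀ c' c, ¬bad c' c → (Rm c' c : ℝ) + 1 ≤ φ c')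
    (hW : ∀ c' c, T' c' → T c → (Rm c' c : ℝ) + 1 ≤ G * W c') {g f : F} (hg : T' g) (hf : T f)
    {m : ℕ} (hm : 1 ≤ m) (hL : Lm (fun c' c => ¬(lg c' ∧ bad c' c)) g f ≤ m) :
    (Rm g f : ℝ) + 1 ≤ m * (acc φ g + 1 + G * Am lg bad W g f) := by
  have h2 := core2 (lg := lg) hT' hT hG hφ h hW g f (acc φ g - sumY φ g) (sumY φ g) (hT' g hg)
    (hT f hf) (sub_nonneg.2 (sumY_le_acc g)) (sumY_nonneg hφ g) (acc_all hφ g)
  set L := Lm (fun c' c => ¬(lg c' ∧ bad c' c)) g f
  have h3 := sumY_nonneg hφ g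
  have h4 := sumY_le_acc (Y := φ) g
  have h5 : (L : ℝ) ≤ m := by exact_mod_cast hL
  have h6 : ((L - 1 : ℕ) : ℝ) ≤ m - 1 := by
    have : L - 1 + 1 ≤ m := by omega
    have : ((L - 1 : ℕ) : ℝ) + 1 ≤ m := by exact_mod_cast this
    linarith only [this]
  have h7 : (1 : ℝ) ≤ m := by exact_mod_cast hm
  have h8 : sumY φ g + L * (acc φ g - sumY φ g) + ((L - 1 : ℕ) : ℝ) * sumY φ g ≤
      m * acc φ g := by nlinarith only [h3, h6, h4, h5]
  have h9 : max (Md lg bad W g f : ℝ) (L * Am lg bad W g f) ≤ m * Am lg bad W g f := by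
    have a1 : (Md lg bad W g f : ℝ) ≤ Am lg bad W g f := Md_le_Am g f
    have a2 := (Am lg bad W g f).coe_nonneg
    exact max_le (by nlinarith only [a1, h6]) (by gcongr)
  nlinarith only [mul_le_mul_of_nonneg_left h9 hG, h2, h6, h8, h9, hG]

open Classical in
/-- The mass of the trees that are not large. -/
noncomputable def sW (lg : F → Prop) (Y : F → ℝ) (g : F) : ℝ :=
  sumY (fun c => if lg c then 0 else Y c) g

open Classical in
/-- The number of hubs among the large descendants. -/
noncomputable def hubsF (lg hub : F → Prop) : F → ℕ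
  | F.nil => 0
  | F.cons c r =>
    (if lg c then (if hub c then 1 else 0) + hubsF lg hub c else 0) + hubsF lg hub r

open Classical in
/-- The number of hubs in the large part of a tree. -/
noncomputable def hubs (lg hub : F → Prop) (g : F) : ℕ := (if hub g then 1 else 0) + hubsF lg hub g

/-- The vertices of the second forest at the height of a hub have out-degree at most `Z`. -/
def okF (lg hub : F → Prop) (Z : ℕ) : F → F → Prop
  | F.nil, _ => True
  | F.cons c r, f =>
    (lg c → f.all fun d => (hub c → d.len ≤ Z) ∧ okF lg hub Z c d) ∧ okF lg hub Z r f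

/-- The vertices of the second tree at the height of a hub have out-degree at most `Z`. -/
def okT (lg hub : F → Prop) (Z : ℕ) (g f : F) : Prop := (hub g → f.len ≤ Z) ∧ okF lg hub Z g f

variable {hub : F → Prop} {Z : ℕ} {Y : F → ℝ}

theorem okF_del (g : F) {f : F} (h : okF lg hub Z g f) (j : ℕ) : okF lg hub Z g (f.del j) := by
  induction g with
  | nil => trivial
  | cons c r _ ih => exact ⟨fun hc => all_del (h.1 hc) j, ih h.2⟩

theorem okF_of_size (g : F) : ∀ {f : F}, f.size ≤ Z → okF lg hub Z g f := by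
  induction g with
  | nil => intro _ _; trivial
  | cons c r ihc ihr =>
    intro f hf
    refine ⟨fun _ => (all_iff _ _).2 fun i hi => ?_, ihr hf⟩
    have := size_child_lt hi
    exact ⟨fun _ => (len_le_size _).trans (by omega), ihc (by omega)⟩

theorem okT_of_size (g : F) {f : F} (h : f.size ≤ Z) : okT lg hub Z g f :=
  ⟨fun _ => (len_le_size f).trans h, okF_of_size g h⟩

theorem sW_nonneg (hY : ∀ c, 0 ≤ Y c) (g : F) : 0 ≤ sW lg Y g :=
  sumY_nonneg (fun c => by split_ifs; exacts [le_rfl, hY c]) g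

theorem sW_add_le {a : ℝ} (hl : ∀ c, lg c → a ≤ Y c) (g : F) :
    sW lg Y g + g.cnt lg * a ≤ sumY Y g := by
  induction g with
  | nil => simp [sW, sumY, cnt]
  | cons c r _ ih =>
    simp only [sW, sumY, cnt] at ih ⊢
    split_ifs with hc
    · push_cast; linarith [hl c hc]
    · push_cast; linarith

theorem acc_child_le (hY : ∀ c, 0 ≤ Y c) (g : F) : g.all fun c => acc Y c + 1 ≤ acc Y g :=
  all_mono (fun c hc => by linarith [hc.1, hc.2]) (acc_all hY g)

/-- A large child leaves the mass of the other children outside its own path. -/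
theorem acc_large {a : ℝ} (hY : ∀ c, 0 ≤ Y c) (hl : ∀ c, lg c → a ≤ Y c) (g : F) :
    g.all fun c => lg c → acc Y c + sW lg Y g + (g.cnt lg - 1) * a ≤ acc Y g := by
  have key : ∀ g : F, g.all fun c => lg c →
      Y c + sW lg Y g + (g.cnt lg - 1) * a ≤ sumY Y g := by
    intro g
    induction g with
    | nil => trivial
    | cons c r _ ih =>
      have h1 := sW_add_le hl r
      refine ⟨fun hc => ?_, all_mono (fun d hd hd' => ?_) ih⟩
      · simp only [sW, sumY, cnt, if_pos hc] at h1 ⊢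
        push_cast; linarith
      · have h2 := hd hd'
        simp only [sW, sumY, cnt] at h2 ⊢
        split_ifs with hc
        · push_cast; linarith [hl c hc]
        · push_cast; linarith
  refine (all_iff _ _).2 fun i hi hc => ?_
  linarith [(all_child (acc_all hY g) hi).1, all_child (key g) hi hc]

theorem hubsF_le {a b : ℝ} (ha : 0 < a) (hb : 0 < b) (hY : ∀ c, 0 ≤ Y c)
    (hl : ∀ c, lg c → a ≤ Y c) (hs : ∀ c, lg c → b ≤ c.size + 1)
    (hh : ∀ c, hub c → a ≤ sW lg Y c ∨ 2 ≤ c.cnt lg) (g : F) : ∀ p : ℝ, 0 ≤ p →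
      (g.all fun c => lg c → acc Y c ≤ p * a) → (hubsF lg hub g : ℝ) * b ≤ p * g.size := by
  induction g with
  | nil => intro p _ _; simp [hubsF, size]
  | cons c r ihc ihr =>
    intro p hp h
    have h1 := ihr p hp h.2
    simp only [hubsF, size]
    have h0 : (0 : ℝ) ≤ c.size := Nat.cast_nonneg _
    by_cases hc : lg c
    · have h2 := h.1 hc
      have h3 := hs c hc
      have h4 := acc_large hY hl c
      have h5 := sW_nonneg (lg := lg) hY c
      rw [if_pos hc]
      by_cases hb' : hub c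
      · have a0 : a ≤ sW lg Y c + ((c.cnt lg - 1 : ℕ) : ℝ) * a := by
          rcases hh c hb' with e | e
          · have : 0 ≤ ((c.cnt lg - 1 : ℕ) : ℝ) * a := by positivity
            linarith
          · have : (1 : ℝ) ≤ ((c.cnt lg - 1 : ℕ) : ℝ) := by exact_mod_cast (by omega)
            nlinarith only [h5, ha, this]
        have a1 : 1 ≤ p := by
          have b1 := (sW_add_le hl c).trans (sumY_le_acc c)
          have b2 : ((c.cnt lg - 1 : ℕ) : ℝ) ≤ c.cnt lg := by exact_mod_cast Nat.sub_le _ _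
          have b3 : 1 * a ≤ p * a := by nlinarith only [h2, a0, b1, ha, b2]
          exact le_of_mul_le_mul_right b3 ha
        have a2 := ihc (p - 1) (by linarith) ((all_iff _ _).2 fun i hi hd => by
          have b1 := all_child h4 hi hd
          have b2 : 1 ≤ c.cnt lg := by
            classical
            rw [cnt_eq]
            exact card_pos.2 ⟨i, mem_filter.2 ⟨mem_range.2 hi, hd⟩⟩
          rw [Nat.cast_sub b2, Nat.cast_one] at a0
          linarith only [h2, a0, b1])
        rw [if_pos hb']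
        push_cast
        nlinarith only [h1, h3, a1, a2]
      · have a2 := ihc p hp ((all_iff _ _).2 fun i hi hd => by
          linarith [all_child (acc_child_le hY c) hi])
        rw [if_neg hb']
        push_cast
        nlinarith only [hp, h1, a2]
    · rw [if_neg hc]
      push_cast
      nlinarith only [hp, h1]

theorem hubs_le {a b p : ℝ} (ha : 0 < a) (hb : 0 < b) (hY : ∀ c, 0 ≤ Y c)
    (hl : ∀ c, lg c → a ≤ Y c) (hs : ∀ c, lg c → b ≤ c.size + 1) (g : F) (hp : 0 ≤ p)
    (hh : ∀ c, hub c → a ≤ sW lg Y c ∨ 2 ≤ c.cnt lg) (hg : acc Y g ≤ p * a) :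
    (hubs lg hub g : ℝ) ≤ 1 + p * (g.size / b) := by
  have h1 := hubsF_le ha hb hY hl hs hh g p hp ((all_iff _ _).2 fun i hi _ => by
    linarith [all_child (acc_child_le hY g) hi])
  rw [← le_div_iff₀ hb, mul_div_assoc] at h1
  rw [hubs]
  split_ifs <;> push_cast <;> linarith only [h1]

theorem size_del {f : F} {j : ℕ} (h : j < f.len) :
    (f.child j).size + 1 + (f.del j).size = f.size := by
  induction f generalizing j with
  | nil => simp [len] at h
  | cons c r _ ih =>
    rcases j with _ | j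
    · simp only [child, del, size]; omega
    · have := ih (Nat.lt_of_succ_lt_succ h)
      simp only [child, del, size]; omega

theorem Rm_le_size (g : F) : ∀ f : F, Rm g f ≤ f.size := by
  induction g with
  | nil => intro f; simp [Rm]
  | cons c r ihc ihr =>
    intro f
    rcases Rm_cases c r f with e | ⟨j, hj, e⟩
    · exact e ▸ ihr f
    · have := ihc (f.child j)
      have := ihr (f.del j)
      have := size_del hj
      omega

end Pool.Agent.MP_8702f5_pr

end

-- part MP_8702f5_pr.UAcc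
section

/-! The exponential moment of the mass hanging along a path. -/

namespace Pool.Agent.MP_8702f5_pr

open Finset F Filter
open scoped ENNReal

variable {ν : ℕ → ℝ≥0∞} {μ : ℕ → ℝ} {α c C : ℝ}

theorem ET_laplace {t u : ℝ≥0∞} (h : t * ∑' l, ν l * u ^ l ≤ u) :
    ET ν (fun f => t ^ (f.size + 1)) ≤ u := by
  refine ET_le_of_ht fun k => ?_
  induction k with
  | zero => simp [ET, ind]
  | succ k ih =>
    refine le_trans ?_ h
    simp only [pow_succ' t, mul_assoc, ET_mul', ht_lt_succ_iff] at ih ⊢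
    rw [ET_eq]
    refine mul_le_mul_right (ENNReal.tsum_le_tsum fun l => mul_le_mul_right ?_ _) _
    rw [E_prod (fun f => t * (t ^ f.size * ind (f.ht < k))) _ (by simp [size, all, ind])
      (fun a b => by simp only [size, all, ind_and]; ring), ET_mul']
    exact pow_le_pow_left' ih l

theorem Good.laplace_e (h : Good μ α c C) {k : ℕ} (hk : 1 ≤ k) :
    ET (μe μ) (fun f => ENNReal.ofReal (Real.exp (-(3 * C * (k : ℝ) ^ (-α)))) ^ (f.size + 1)) ≤
      ENNReal.ofReal (Real.exp (-(1 / k))) := by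
  refine ET_laplace ?_
  set θ := Real.exp (-(1 / k)) with hθ
  have hθ0 : 0 < θ := Real.exp_pos _
  have hθ1 : θ ≤ 1 := Real.exp_le_one_iff.2 (by simp)
  have : ∀ j, μe μ j * ENNReal.ofReal θ ^ j = ENNReal.ofReal (μ j * θ ^ j) := fun j => by
    rw [ENNReal.ofReal_mul (h.nonneg j), ENNReal.ofReal_pow hθ0.le, μe]
  simp only [this]
  rw [← ENNReal.ofReal_tsum_of_nonneg (fun j => mul_nonneg (h.nonneg j) (by positivity))
    (Summable.of_nonneg_of_le (fun j => mul_nonneg (h.nonneg j) (by positivity))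
      (fun j => mul_le_of_le_one_right (h.nonneg j) (pow_le_one₀ hθ0.le hθ1)) h.total.summable),
    ← ENNReal.ofReal_mul (Real.exp_pos _).le]
  refine ENNReal.ofReal_le_ofReal ((mul_le_mul_of_nonneg_left (h.laplace hk)
    (Real.exp_pos _).le).trans (le_of_eq ?_))
  rw [← Real.exp_add, hθ]
  congr 1; ring

theorem E_rec {Φ P W K : F → ℝ≥0∞} {κ w : ℝ≥0∞} (h0 : Φ nil ≤ 1) (hP0 : P nil = 1)
    (hP : ∀ a r, P (cons a r) = K a * P r)
    (h : ∀ a r, Φ (cons a r) ≤ W a * P r + K a * Φ r) (hK : ET ν K ≤ κ) (hκ : κ ≤ 1)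
    (hW : ET ν W ≤ w) (l : ℕ) : E ν l Φ ≤ l * κ ^ (l - 1) * w + 1 := by
  induction l with
  | zero => rw [E_zero]; exact le_add_left h0
  | succ l ih =>
    rw [E_succ]
    refine (ET_mono fun a => E_mono fun r _ => h a r).trans ?_
    simp only [E_add, E_mul, ET_add, ET_mul, E_prod K P hP0 hP]
    calc _ ≤ w * κ ^ l + κ * (l * κ ^ (l - 1) * w + 1) := by gcongr
      _ = w * κ ^ l + (l * κ ^ l * w + κ) := by
          rcases l with _ | l
          · simp
          · rw [Nat.add_sub_cancel]; ring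
      _ ≤ w * κ ^ l + (l * κ ^ l * w + 1) := by gcongr
      _ = _ := by rw [Nat.add_sub_cancel]; push_cast; ring

theorem Good.deriv_le (h : Good μ α c C) {u : ℝ} (h0 : 0 ≤ u) (h1 : u ≤ 1) :
    ∑' l : ℕ, μe μ l * (l * ENNReal.ofReal (1 - u) ^ (l - 1)) ≤ ENNReal.ofReal (1 - μ 0 * u) := by
  have hr : 0 ≤ 1 - u := sub_nonneg.2 h1
  have a1 : HasSum (fun l : ℕ => l * μ l - u * (l * μ l - if l = 1 then μ 1 else 0))
      (1 - u * (1 - μ 1)) := h.mean.sub ((h.mean.sub (hasSum_ite_eq 1 (μ 1))).mul_left u)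
  have a2 : ∀ l : ℕ, μ l * (l * (1 - u) ^ (l - 1)) ≤
      l * μ l - u * (l * μ l - if l = 1 then μ 1 else 0) := by
    rintro (_ | _ | l)
    · simp
    · simp
    · have b1 : (1 - u) ^ (l + 1) ≤ 1 - u := by
        rw [pow_succ]
        exact mul_le_of_le_one_left hr (pow_le_one₀ hr (by linarith))
      have b2 : 0 ≤ ((l + 1 + 1 : ℕ) : ℝ) * μ (l + 1 + 1) := mul_nonneg (by positivity) (h.nonneg _)
      rw [if_neg (by omega), Nat.add_sub_cancel]
      nlinarith only [b1, b2]
  have a3 : ∀ l : ℕ, 0 ≤ μ l * (l * (1 - u) ^ (l - 1)) := fun l =>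
    mul_nonneg (h.nonneg l) (by positivity)
  have a4 : μ 0 + μ 1 ≤ 1 := by
    simpa [sum_range_succ] using sum_le_hasSum (range 2) (fun i _ => h.nonneg i) h.total
  calc _ ≤ ∑' l : ℕ, ENNReal.ofReal (l * μ l - u * (l * μ l - if l = 1 then μ 1 else 0)) := by
        refine ENNReal.tsum_le_tsum fun l => le_trans (le_of_eq ?_)
          (ENNReal.ofReal_le_ofReal (a2 l))
        rw [ENNReal.ofReal_mul (h.nonneg l), ENNReal.ofReal_mul (Nat.cast_nonneg l),
          ENNReal.ofReal_natCast, ENNReal.ofReal_pow hr, μe]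
    _ ≤ _ := by
        rw [← ENNReal.ofReal_tsum_of_nonneg (fun l => (a3 l).trans (a2 l)) a1.summable, a1.tsum_eq]
        exact ENNReal.ofReal_le_ofReal (by nlinarith only [h0, a4])

theorem exp_le_one_add_two {x : ℝ} (h0 : 0 ≤ x) (h1 : x ≤ 1) : Real.exp x ≤ 1 + 2 * x := by
  have := Real.abs_exp_sub_one_le (x := x) (by rwa [abs_of_nonneg h0])
  rw [abs_of_nonneg h0] at this
  linarith [le_abs_self (Real.exp x - 1)]

theorem Good.mu_zero_le (h : Good μ α c C) : μ 0 ≤ 1 := by
  simpa using sum_le_hasSum {0} (fun i _ => h.nonneg i) h.total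

theorem Good.acc_moment (h : Good μ α c C) {k : ℕ} (hk : 1 ≤ k) {D : ℝ} (hD : 1 ≤ D)
    (hY : ET (μe μ) (fun f => ENNReal.ofReal (Yf α f) * ind (Yf α f ≤ k)) ≤ ENNReal.ofReal D) :
    ET (μe μ) (fun f => ENNReal.ofReal (Real.exp (μ 0 / (16 * k * D) * (acc (Yf α) f + 1))) *
      ENNReal.ofReal (Real.exp (-(3 * C * (k : ℝ) ^ (-α)))) ^ (f.size + 1) * ind (Yf α f ≤ k)) ≤
      ENNReal.ofReal (16 * k / μ 0) := by
  have hα := h.one_lt
  have h00 := h.zero_pos
  have h01 := h.mu_zero_le
  have hk1 : (1 : ℝ) ≤ k := by exact_mod_cast hk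
  set lam := μ 0 / (16 * k * D) with hlam
  have hl0 : 0 < lam := by positivity
  set x := μ 0 / (8 * k) with hx
  have hx0 : 0 < x := by positivity
  have hlx : 2 * lam * D = x := by rw [hlam, hx]; field_simp; ring
  have hxk : x * k ≤ 1 / 8 := by
    rw [hx, div_mul_eq_mul_div, div_le_div_iff₀ (by positivity) (by norm_num)]; nlinarith only [h01]
  have hl1 : 2 * lam ≤ x := by nlinarith only [hlx, hD, hl0]
  have hx8 : x ≤ 1 / 8 := by nlinarith only [hxk, hk1, hx0]
  set t := ENNReal.ofReal (Real.exp (-(3 * C * (k : ℝ) ^ (-α)))) with ht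
  have ht1 : t ≤ 1 := ENNReal.ofReal_le_one.2 (Real.exp_le_one_iff.2 (neg_nonpos.2
    (mul_nonneg (by linarith only [h.C_ge, hl0, hl1, hx8]) (by positivity))))
  set e : ℝ → ℝ≥0∞ := fun y => ENNReal.ofReal (Real.exp (lam * y)) with he
  have eadd : ∀ y z, e (y + z) = e y * e z := fun y z => by
    simp only [he, mul_add, Real.exp_add, ENNReal.ofReal_mul (Real.exp_pos _).le]
  have e0 : e 0 = 1 := by simp [he]
  set K : F → ℝ≥0∞ := fun f => e (Yf α f) * t ^ (f.size + 1) * ind (Yf α f ≤ k) with hK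
  have hκ : ET (μe μ) K ≤ ENNReal.ofReal (1 - 1 / (4 * k)) := by
    calc _ ≤ ET (μe μ) fun f => t ^ (f.size + 1) + ENNReal.ofReal (2 * lam) *
          (ENNReal.ofReal (Yf α f) * ind (Yf α f ≤ k)) := by
          refine ET_mono fun f => ?_
          by_cases hf : Yf α f ≤ k
          · have h0 : 0 ≤ Yf α f := by linarith only [one_le_Yf hα f, hl0, hl1, hx8, hα]
            have a1 : e (Yf α f) ≤ 1 + ENNReal.ofReal (2 * lam) * ENNReal.ofReal (Yf α f) := by
              rw [← ENNReal.ofReal_mul (by positivity), ← ENNReal.ofReal_one,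
                ← ENNReal.ofReal_add zero_le_one (by positivity), mul_assoc]
              exact ENNReal.ofReal_le_ofReal (exp_le_one_add_two (by positivity) (by nlinarith only [hxk, hl1, hx8, hl0, hf]))
            simp only [hK, ind_pos hf, mul_one]
            refine (mul_le_mul_left a1 _).trans ?_
            rw [add_mul, one_mul]
            exact add_le_add le_rfl (mul_le_of_le_one_right' (pow_le_one' ht1 _))
          · simp only [hK, ind_neg hf, mul_zero]; exact zero_le
      _ ≤ ENNReal.ofReal (Real.exp (-(1 / k))) + ENNReal.ofReal (2 * lam) * ENNReal.ofReal D := by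
          rw [ET_add, ET_mul']
          exact add_le_add (h.laplace_e hk) (mul_le_mul_right hY _)
      _ ≤ _ := by
          rw [← ENNReal.ofReal_mul (by positivity),
            ← ENNReal.ofReal_add (by positivity) (by positivity), hlx]
          refine ENNReal.ofReal_le_ofReal ?_
          have a1 : Real.exp (-(1 / k)) ≤ 1 - 1 / (2 * k) := by
            rw [Real.exp_neg]
            refine (inv_anti₀ (by positivity) (Real.add_one_le_exp (1 / k))).trans ?_
            rw [inv_eq_one_div, div_le_iff₀ (by positivity)]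
            have : (1 - 1 / (2 * (k : ℝ))) * (1 / k + 1) = 1 + (k - 1) / (2 * k ^ 2) := by
              field_simp; ring
            rw [this]
            have : 0 ≤ ((k : ℝ) - 1) / (2 * k ^ 2) := div_nonneg (by linarith only [hk1]) (by positivity)
            linarith only [this]
          have a2 : x ≤ 1 / (4 * k) := by
            rw [le_div_iff₀ (by positivity)]; nlinarith only [hl0, hxk, hl1, hx8]
          have a3 : 1 / (2 * (k : ℝ)) = 1 / (4 * k) + 1 / (4 * k) := by field_simp; ring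
          linarith only [a1, a2, a3]
  have hu0 : (0 : ℝ) ≤ 1 / (4 * k) := by positivity
  have hu1 : 1 / (4 * (k : ℝ)) ≤ 1 := (div_le_one (by positivity)).2 (by linarith only [hk1, hl0, hl1, hx8])
  refine ET_le_of_ht fun m => ?_
  induction m with
  | zero => simp [ET, ind]
  | succ m ih =>
    set B := ENNReal.ofReal (16 * k / μ 0) with hB
    have key := E_rec (ν := μe μ)
      (Φ := fun f => e (acc (Yf α) f) * t ^ f.size * ind (f.all fun a => Yf α a ≤ k ∧ a.ht < m))
      (P := fun f => e (sumY (Yf α) f) * t ^ f.size * ind (f.all fun a => Yf α a ≤ k))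
      (W := fun f => e (acc (Yf α) f + 1) * t ^ (f.size + 1) * ind (Yf α f ≤ k) * ind (f.ht < m))
      (K := K) (by simp [acc, size, all, ind, e0]) (by simp [sumY, size, all, ind, e0])
      (fun a r => by simp only [hK, sumY, size, all, ind_and, eadd]; ring)
      (fun a r => by
        simp only [hK, acc, size, all, ind_and]
        rcases le_total (acc (Yf α) a + 1 + sumY (Yf α) r) (Yf α a + acc (Yf α) r) with h1 | h1
        · rw [max_eq_right h1, eadd]
          refine le_add_left ?_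
          calc _ = e (Yf α a) * t ^ (a.size + 1) * ind (Yf α a ≤ k) * (e (acc (Yf α) r) *
                t ^ r.size * ind (r.all fun a => Yf α a ≤ k ∧ a.ht < m)) * ind (a.ht < m) := by ring
            _ ≤ _ := mul_le_of_le_one_right' (ind_le_one _)
        · rw [max_eq_left h1, eadd]
          refine le_add_right ?_
          calc _ = e (acc (Yf α) a + 1) * t ^ (a.size + 1) * ind (Yf α a ≤ k) * ind (a.ht < m) *
                (e (sumY (Yf α) r) * t ^ r.size *
                  ind (r.all fun a => Yf α a ≤ k ∧ a.ht < m)) := by ring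
            _ ≤ _ := mul_le_mul_right (mul_le_mul_right
                (ind_mono fun ha => all_mono (fun _ => And.left) ha) _) _)
      hκ (ENNReal.ofReal_le_one.2 (by linarith only [hu0])) ih
    calc _ ≤ ET (μe μ) fun f => e 1 * (e (acc (Yf α) f) * t ^ f.size *
          ind (f.all fun a => Yf α a ≤ k ∧ a.ht < m)) := by
          refine ET_mono fun f => ?_
          calc _ = e 1 * (e (acc (Yf α) f) * (t ^ f.size * t) *
                ind (Yf α f ≤ k ∧ f.ht < m + 1)) := by
                rw [ind_and, show ENNReal.ofReal (Real.exp (lam * (acc (Yf α) f + 1))) =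
                  e (acc (Yf α) f) * e 1 from eadd _ _]
                ring
            _ ≤ _ := by
                gcongr
                · exact mul_le_of_le_one_right' ht1
                · refine ind_mono fun hf => (all_iff _ _).2 fun i hi => ⟨?_, ?_⟩
                  · exact (Yf_mono hα (size_child_lt hi).le).trans hf.1
                  · exact all_child ((ht_lt_succ_iff m f).1 hf.2) hi
      _ ≤ e 1 * (ENNReal.ofReal (1 - μ 0 * (1 / (4 * k))) * B + 1) := by
          rw [ET_mul', ET_eq]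
          refine mul_le_mul_right ?_ _
          calc _ ≤ ∑' l : ℕ, (μe μ l * (l * ENNReal.ofReal (1 - 1 / (4 * k)) ^ (l - 1)) * B +
                μe μ l) := ENNReal.tsum_le_tsum fun l =>
                  (mul_le_mul_right (key l) _).trans (le_of_eq (by ring))
            _ ≤ _ := by
                rw [ENNReal.tsum_add, ENNReal.tsum_mul_right]
                exact add_le_add (mul_le_mul_left (h.deriv_le hu0 hu1) _) h.tsum_e
      _ ≤ B := by
          have a1 : μ 0 * (1 / (4 * k)) = 2 * x := by rw [hx]; field_simp; ring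
          have a2 : 16 * k / μ 0 = 2 / x := by rw [hx]; field_simp; ring
          rw [hB, a1, a2, he, ← ENNReal.ofReal_mul (by linarith only [hl0, hl1, hx8]), ← ENNReal.ofReal_one,
            ← ENNReal.ofReal_add (mul_nonneg (by linarith only [hl0, hl1, hx8]) (by positivity)) zero_le_one,
            ← ENNReal.ofReal_mul (Real.exp_pos _).le, mul_one]
          refine ENNReal.ofReal_le_ofReal ?_
          have a3 := exp_le_one_add_two hl0.le (by linarith only [hl0, hl1, hx8])
          have a4 : (1 - 2 * x) * (2 / x) + 1 = 2 / x - 3 := by field_simp; ring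
          have a5 : x * (2 / x) = 2 := by field_simp
          have a6 : 16 ≤ 2 / x := by rw [le_div_iff₀ hx0]; linarith only [hx8]
          rw [a4]
          nlinarith only [hl1, a3, hl0, hx8, a4]

theorem Good.acc_tail (h : Good μ α c C) (n : ℕ) {L : ℝ} (hL : 0 ≤ L) :
    ET (μe μ) (fun f => ind (f.size < n ∧ L * Yf α f < acc (Yf α) f + 1)) ≤
      ENNReal.ofReal (n * (16 * n / μ 0 *
        Real.exp (3 * C - μ 0 * L / (32 * (1 + 2 / c * (1 + Real.log n)))))) := by
  have hα := h.one_lt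
  have h00 := h.zero_pos
  have hc := h.c_pos
  have hlog : 0 ≤ Real.log n := Real.log_natCast_nonneg n
  set D := 1 + 2 / c * (1 + Real.log n) with hD
  have hD1 : 1 ≤ D := le_add_of_nonneg_right (by positivity)
  set y := Real.exp (3 * C - μ 0 * L / (32 * D)) with hy
  have hy0 : 0 < y := Real.exp_pos _
  calc _ ≤ ET (μe μ) fun f => ∑ k ∈ Icc 1 n,
        ENNReal.ofReal (Real.exp (μ 0 / (16 * k * D) * (acc (Yf α) f + 1))) *
        ENNReal.ofReal (Real.exp (-(3 * C * (k : ℝ) ^ (-α)))) ^ (f.size + 1) * ind (Yf α f ≤ k) *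
        ENNReal.ofReal y := by
        refine ET_mono fun f => ?_
        by_cases hf : f.size < n ∧ L * Yf α f < acc (Yf α) f + 1
        · have a1 := one_le_Yf hα f
          have a2 : Yf α f ≤ n := by
            have b1 : (1 : ℝ) ≤ ((f.size + 1 : ℕ) : ℝ) := by exact_mod_cast Nat.succ_pos _
            have b2 : ((f.size + 1 : ℕ) : ℝ) ≤ n := by exact_mod_cast hf.1
            refine le_trans ?_ b2
            simpa [Yf] using Real.rpow_le_rpow_of_exponent_le b1
              ((div_le_one (by linarith only [hα])).2 hα.le)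
          set k := ⌈Yf α f⌉₊ with hk
          have a3 : Yf α f ≤ k := Nat.le_ceil _
          have a4 : (k : ℝ) ≤ 2 * Yf α f := by
            linarith only [Nat.ceil_lt_add_one (show 0 ≤ Yf α f by linarith only [a1]), a1]
          have hk0 : (0 : ℝ) < k := by linarith
          refine le_trans ?_ (single_le_sum (f := fun k : ℕ =>
            ENNReal.ofReal (Real.exp (μ 0 / (16 * k * D) * (acc (Yf α) f + 1))) *
            ENNReal.ofReal (Real.exp (-(3 * C * (k : ℝ) ^ (-α)))) ^ (f.size + 1) *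
            ind (Yf α f ≤ k) * ENNReal.ofReal y) (fun _ _ => zero_le)
            (mem_Icc.2 ⟨Nat.one_le_ceil_iff.2 (by linarith), Nat.ceil_le.2 a2⟩))
          rw [ind_pos hf, ind_pos a3, mul_one, ← ENNReal.ofReal_pow (Real.exp_pos _).le,
            ← ENNReal.ofReal_mul (Real.exp_pos _).le, ← ENNReal.ofReal_mul (by positivity), hy,
            ← Real.exp_nat_mul, ← Real.exp_add, ← Real.exp_add, ← ENNReal.ofReal_one]
          refine ENNReal.ofReal_le_ofReal (Real.one_le_exp ?_)
          have b1 : ((f.size + 1 : ℕ) : ℝ) * (k : ℝ) ^ (-α) ≤ 1 := by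
            rw [← Yf_rpow hα, Real.rpow_neg hk0.le, ← div_eq_mul_inv, div_le_one (by positivity)]
            exact Real.rpow_le_rpow (by linarith) a3 (by linarith)
          have b2 : μ 0 * L / (32 * D) ≤ μ 0 / (16 * k * D) * (acc (Yf α) f + 1) := by
            calc _ = μ 0 / (16 * k * D) * (L * (k / 2)) := by field_simp; ring
              _ ≤ μ 0 / (16 * k * D) * (L * Yf α f) := by gcongr; linarith only [a4]
              _ ≤ _ := by gcongr; exact hf.2.le
          nlinarith only [h.C_ge, b1, b2]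
        · rw [ind_neg hf]; exact zero_le
    _ ≤ ∑ k ∈ Icc 1 n, ENNReal.ofReal (16 * n / μ 0 * y) := by
        rw [ET_sum]
        refine sum_le_sum fun k hk => ?_
        obtain ⟨h1, h2⟩ := mem_Icc.1 hk
        have h3 : (k : ℝ) ≤ n := by exact_mod_cast h2
        rw [ET_mul, ENNReal.ofReal_mul (by positivity)]
        refine mul_le_mul_left ((h.acc_moment h1 hD1 (le_trans (ET_mono fun f =>
          mul_le_mul_right (ind_mono fun hf => hf.trans h3) _) (h.Yf_mean n))).trans
          (ENNReal.ofReal_le_ofReal (by gcongr))) _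
    _ = _ := by
        rw [sum_const, Nat.card_Icc, Nat.add_sub_cancel, nsmul_eq_mul,
          ENNReal.ofReal_mul (Nat.cast_nonneg n), ENNReal.ofReal_natCast]

end Pool.Agent.MP_8702f5_pr

end

-- part MP_8702f5_pr.SExp
section

/-! The first tree is fixed and the second one is random: exponential moments of the branching
number and of the mass of the badly matched small subtrees. -/

namespace Pool.Agent.MP_8702f5_pr

open Finset F
open scoped ENNReal NNReal

variable {ν : ℕ → ℝ≥0∞} {lg hub : F → Prop} {bad : F → F → Prop} {Z : ℕ}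

theorem ET_not_okF (hν : ∑' l, ν l ≤ 1) (hm : ∑' l : ℕ, l * ν l ≤ 1) {t : ℝ≥0∞}
    (ht : ET ν (fun f => ind (Z < f.len)) ≤ t) (g : F) :
    ET ν (fun f => ind ¬okF lg hub Z g f) ≤ hubsF lg hub g * t := by
  classical
  induction g with
  | nil => simp [okF, ET, ind]
  | cons c r ihc ihr =>
    rw [hubsF]
    by_cases hc : lg c
    · rw [if_pos hc]
      have h1 : ET ν (fun d => ind ¬((hub c → d.len ≤ Z) ∧ okF lg hub Z c d)) ≤
          (((if hub c then 1 else 0) + hubsF lg hub c : ℕ) : ℝ≥0∞) * t := by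
        by_cases hh : hub c
        · refine le_trans (ET_mono fun d => ind_or_le (B := Z < d.len)
            (C := ¬okF lg hub Z c d) fun h => ?_) ?_
          · by_contra h'
            push Not at h'
            exact h ⟨fun _ => h'.1, h'.2⟩
          · rw [ET_add, if_pos hh]
            push_cast
            rw [add_mul, one_mul]
            exact add_le_add ht ihc
        · rw [if_neg hh, zero_add]
          exact le_trans (ET_mono fun d => ind_mono fun h h' => h ⟨fun h'' => absurd h'' hh, h'⟩) ihc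
      refine le_trans (ET_mono fun f => ind_or_le
        (B := f.ex fun d => ¬((hub c → d.len ≤ Z) ∧ okF lg hub Z c d))
        (C := ¬okF lg hub Z r f) fun h => ?_) ?_
      · by_contra h'
        push Not at h'
        refine h ⟨fun _ => (all_iff _ _).2 fun i hi => ?_, h'.2⟩
        by_contra h''
        exact h'.1 ((ex_iff _ _).2 ⟨i, hi, by tauto⟩)
      · rw [ET_add, Nat.cast_add, add_mul]
        refine add_le_add ?_ ihr
        rw [ET_eq]
        calc _ ≤ ∑' l : ℕ, l * ν l * ((((if hub c then 1 else 0) + hubsF lg hub c : ℕ) : ℝ≥0∞) *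
              t) := by
              refine ENNReal.tsum_le_tsum fun l => ?_
              rw [mul_comm (l : ℝ≥0∞), mul_assoc]
              gcongr
              exact (E_ex_le hν _ l).trans (by gcongr)
          _ ≤ _ := by
              rw [ENNReal.tsum_mul_right]
              exact mul_le_of_le_one_left' hm
    · rw [if_neg hc, zero_add]
      exact le_trans (ET_mono fun f => ind_mono fun h h' => h ⟨fun h'' => absurd h'' hc, h'⟩) ihr

theorem ET_not_okT (hν : ∑' l, ν l ≤ 1) (hm : ∑' l : ℕ, l * ν l ≤ 1) {t : ℝ≥0∞}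
    (ht : ET ν (fun f => ind (Z < f.len)) ≤ t) (g : F) :
    ET ν (fun f => ind ¬okT lg hub Z g f) ≤ hubs lg hub g * t := by
  have h1 := ET_not_okF (lg := lg) (hub := hub) hν hm ht g
  rw [hubs]
  by_cases hh : hub g
  · refine le_trans (ET_mono fun d => ind_or_le (B := Z < d.len)
      (C := ¬okF lg hub Z g d) fun h => ?_) ?_
    · by_contra h'
      push Not at h'
      exact h ⟨fun _ => h'.1, h'.2⟩
    · rw [ET_add, if_pos hh]
      push_cast
      rw [add_mul, one_mul]
      exact add_le_add ht h1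
  · rw [if_neg hh, zero_add]
    exact le_trans (ET_mono fun d => ind_mono fun h h' => h ⟨fun h'' => absurd h'' hh, h'⟩) h1

variable {gd : F → F → Prop} {B : ℝ≥0∞}

theorem powB_le_T1f {χ : F → F → ℝ≥0∞} (g : F) : ∀ f : F,
    (g.all fun c' => f.all fun c => ¬gd c' c → B ^ max 1 (Lm gd c' c) ≤ χ c' c) →
    1 ≤ Lm gd g f → B ^ Lm gd g f ≤ T1f χ g f := by
  induction g with
  | nil => intro f _ h; simp [Lm] at h
  | cons c r _ ih =>
    intro f h h1
    rcases Lm_cases gd c r f with e | ⟨j, hj, hb, e⟩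
    · rw [e] at h1 ⊢
      exact (ih f h.2 h1).trans le_self_add
    · rw [e, pow_add]
      refine le_add_left (le_trans ?_ (single_le_sum (f := fun j => χ c (f.child j) * 1 +
        χ c (f.child j) * T1f χ r (f.del j)) (fun _ _ => zero_le) (mem_range.2 hj)))
      have h2 := all_child h.1 hj hb
      rcases Nat.eq_zero_or_pos (Lm gd r (f.del j)) with h0 | h0
      · rw [h0, pow_zero]
        exact le_add_right (by gcongr)
      · refine le_add_left ?_
        gcongr
        exact ih _ (all_mono (fun _ ha => all_del ha j) h.2) h0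

theorem powB_le_Uf {ψ χ : F → F → ℝ≥0∞} (g : F) : ∀ f : F,
    (g.all fun c' => f.all fun c => ¬gd c' c → B ^ max 1 (Lm gd c' c) ≤ χ c' c ∧
      (2 ≤ Lm gd c' c → B ^ Lm gd c' c ≤ ψ c' c)) →
    2 ≤ Lm gd g f → B ^ Lm gd g f ≤ Uf ψ χ g f := by
  induction g with
  | nil => intro f _ h; simp [Lm] at h
  | cons c r _ ih =>
    intro f h h1
    rcases Lm_cases gd c r f with e | ⟨j, hj, hb, e⟩
    · rw [e] at h1 ⊢
      exact (ih f h.2 h1).trans le_self_add
    · rw [e] at h1 ⊢
      refine le_add_left (le_trans ?_ (single_le_sum (f := fun j => ψ c (f.child j) * 1 +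
        χ c (f.child j) * T1f χ r (f.del j)) (fun _ _ => zero_le) (mem_range.2 hj)))
      obtain ⟨h2, h3⟩ := all_child h.1 hj hb
      rcases Nat.eq_zero_or_pos (Lm gd r (f.del j)) with h0 | h0
      · rw [h0, add_zero] at h1 ⊢
        have h4 : 2 ≤ Lm gd c (f.child j) := by omega
        rw [mul_one, max_eq_right (by omega)]
        exact le_add_right (h3 h4)
      · refine le_add_left ?_
        rw [pow_add]
        gcongr
        exact powB_le_T1f r _ (all_mono (fun _ ha => all_del
          (all_mono (fun _ h hb => (h hb).1) ha) j) h.2) h0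

theorem E_peel2 (l : ℕ) (Ψ χ₁ Φ₁ χ₂ Φ₂ : F → ℝ≥0∞) :
    E ν l (fun f => Ψ f + ∑ j ∈ range f.len,
      (χ₁ (f.child j) * Φ₁ (f.del j) + χ₂ (f.child j) * Φ₂ (f.del j))) =
      E ν l Ψ + (l * (ET ν χ₁ * E ν (l - 1) Φ₁) + l * (ET ν χ₂ * E ν (l - 1) Φ₂)) := by
  simp only [sum_add_distrib, E_add, E_peel]

theorem E_T1f (hν : ∑' l, ν l ≤ 1) {χ : F → F → ℝ≥0∞} {x : ℝ≥0∞} (g : F)
    (hx : g.all fun c => ET ν (χ c) ≤ ind (lg c) * x) : ∀ l : ℕ, 2 * (g.cnt lg * l * x) ≤ 1 →
      E ν l (T1f χ g) ≤ 2 * (g.cnt lg * l * x) := by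
  induction g with
  | nil => intro l _; simp [T1f, E_const_zero]
  | cons c r _ ih =>
    intro l hl
    have h0 : r.cnt lg ≤ (cons c r).cnt lg := Nat.le_add_right _ _
    have h1 : 2 * (r.cnt lg * l * x) ≤ 1 := le_trans (by gcongr) hl
    have h2 : E ν (l - 1) (T1f χ r) ≤ 1 := by
      have : 2 * (r.cnt lg * (l - 1 : ℕ) * x) ≤ 1 := le_trans (by gcongr; simp) h1
      exact (ih hx.2 _ this).trans this
    have e := E_peel2 (ν := ν) l (T1f χ r) (χ c) (fun _ => 1) (χ c) (T1f χ r)
    refine le_trans (le_of_eq e) ?_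
    calc _ ≤ 2 * (r.cnt lg * l * x) +
          (l * (ind (lg c) * x * 1) + l * (ind (lg c) * x * 1)) := by
          gcongr
          · exact ih hx.2 l h1
          · exact hx.1
          · exact E_one_le hν _
          · exact hx.1
      _ = _ := by
          rw [cnt]
          by_cases hc : lg c
          · rw [ind_pos hc, if_pos hc]; push_cast; ring
          · rw [ind_neg hc, if_neg hc]; simp

theorem E_Uf (hν : ∑' l, ν l ≤ 1) {ψ χ : F → F → ℝ≥0∞} {e : F → ℝ≥0∞} {x : ℝ≥0∞} (l : ℕ) (g : F)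
    (he : g.all fun c => ET ν (ψ c) ≤ e c) (hx : g.all fun c => ET ν (χ c) ≤ ind (lg c) * x)
    (hl : g.cnt lg ≤ 1 ∨ 2 * (g.cnt lg * l * x) ≤ 1) :
    E ν l (Uf ψ χ g) ≤ l * sumF e g + ind (2 ≤ g.cnt lg) * (2 * (g.cnt lg * l * x) ^ 2) := by
  induction g with
  | nil => simp [Uf, E_const_zero]
  | cons c r _ ih =>
    have h0 : r.cnt lg ≤ (cons c r).cnt lg := Nat.le_add_right _ _
    have h1 := ih he.2 hx.2 (hl.imp h0.trans fun h => le_trans (by gcongr) h)
    have e1 := E_peel2 (ν := ν) l (Uf ψ χ r) (ψ c) (fun _ => 1) (χ c) (T1f χ r)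
    refine le_trans (le_of_eq e1) ?_
    have h2 : l * (ET ν (ψ c) * E ν (l - 1) fun _ => 1) ≤ l * (e c * 1) := by
      gcongr
      · exact he.1
      · exact E_one_le hν _
    rw [sumF, mul_add, mul_one] at *
    by_cases hc : lg c
    · have e2 : (cons c r).cnt lg = r.cnt lg + 1 := by rw [cnt, if_pos hc]
      rw [e2] at hl ⊢
      have h3 : 2 * (r.cnt lg * (l - 1 : ℕ) * x) ≤ 1 := by
        rcases hl with hl | hl
        · rw [show r.cnt lg = 0 by omega]; simp
        · exact le_trans (by gcongr <;> simp) hl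
      have h4 : E ν (l - 1) (T1f χ r) ≤ 2 * (r.cnt lg * l * x) :=
        (E_T1f hν r hx.2 _ h3).trans (by gcongr; simp)
      have h5 : ET ν (χ c) ≤ x := by simpa [ind_pos hc] using hx.1
      rcases Nat.eq_zero_or_pos (r.cnt lg) with h6 | h6
      · rw [h6] at h1 h4 ⊢
        simp only [Nat.cast_zero, zero_mul, mul_zero, nonpos_iff_eq_zero] at h4
        rw [ind_neg (show ¬2 ≤ 0 by omega), zero_mul, add_zero] at h1
        rw [h4, mul_zero, mul_zero, add_zero, ind_neg (show ¬2 ≤ 0 + 1 by omega), zero_mul,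
          add_zero, add_comm]
        exact add_le_add h2 h1
      · rw [ind_pos (show 2 ≤ r.cnt lg + 1 by omega), one_mul]
        calc _ ≤ l * sumF e r + 1 * (2 * (r.cnt lg * l * x) ^ 2) +
              (l * e c + l * (x * (2 * (r.cnt lg * l * x)))) := by
              gcongr
              exact h1.trans (by gcongr; exact ind_le_one _)
          _ ≤ l * sumF e r + 1 * (2 * (r.cnt lg * l * x) ^ 2) +
              (l * e c + l * (x * (2 * (r.cnt lg * l * x)))) +
              2 * (r.cnt lg + 1) * (l * x) ^ 2 := le_self_add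
          _ = _ := by push_cast; ring
    · have e2 : (cons c r).cnt lg = r.cnt lg := by rw [cnt, if_neg hc, add_zero]
      have h5 : ET ν (χ c) = 0 := by simpa [ind_neg hc] using hx.1
      rw [e2, h5, zero_mul, mul_zero, add_zero]
      calc _ ≤ l * sumF e r + ind (2 ≤ r.cnt lg) * (2 * (r.cnt lg * l * x) ^ 2) + l * e c :=
            add_le_add h1 h2
        _ = _ := by ring

theorem hubs_child_le (g : F) : g.all fun c => lg c → hubs lg hub c ≤ hubsF lg hub g := by
  induction g with
  | nil => trivial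
  | cons c r _ ih =>
    refine ⟨fun hc => ?_, all_mono (fun d hd hd' => (hd hd').trans ?_) ih⟩
    · rw [hubsF, if_pos hc, hubs]; omega
    · rw [hubsF]; omega

theorem sumF_hubs (β : ℝ≥0∞) (g : F) :
    sumF (fun c => ind (lg c) * (hubs lg hub c * β)) g = hubsF lg hub g * β := by
  induction g with
  | nil => simp [sumF, hubsF]
  | cons c r _ ih =>
    rw [sumF, ih, hubsF]
    by_cases hc : lg c
    · rw [ind_pos hc, if_pos hc, hubs]; push_cast; ring
    · rw [ind_neg hc, if_neg hc]; simp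

theorem okF_all {g f : F} (h : okF lg hub Z g f) :
    g.all fun c' => f.all fun c => lg c' → okT lg hub Z c' c := by
  induction g with
  | nil => trivial
  | cons c r _ ih =>
    exact ⟨(all_iff _ _).2 fun i hi hc => all_child (h.1 hc) hi, ih h.2⟩

/-- Strong induction over the subtrees. -/
theorem tree_ind {A : F → Prop} (h : ∀ g : F, g.all A → A g) (g : F) : A g := by
  have key : ∀ g : F, g.all A := by
    intro g
    induction g with
    | nil => trivial
    | cons c r ihc ihr => exact ⟨h c ihc, ihr⟩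
  exact h g (key g)

theorem ET_LmB (hν : ∑' l, ν l ≤ 1) (hm : ∑' l : ℕ, l * ν l ≤ 1) {T' : F → Prop} (hT' : Her T')
    {q S : ℝ≥0∞} {H p : ℕ} (hp : ∀ c, T' c → c.cnt lg ≤ p) (hh : ∀ c, 2 ≤ c.cnt lg → hub c)
    (hq : ∀ c, ET ν (fun f => ind (bad c f)) ≤ q)
    (hS : ∑' l : ℕ, ν l * (ind (l ≤ Z) * l ^ 2) ≤ S) (h1 : 4 * p * Z * B * q ≤ 1)
    (h2 : 8 * H * p ^ 2 * S * B * q ≤ 1) (g : F) : T' g → hubs lg hub g ≤ H →
      ET ν (fun f => ind (2 ≤ Lm (fun c' c => ¬(lg c' ∧ bad c' c)) g f ∧ okT lg hub Z g f) *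
        B ^ Lm (fun c' c => ¬(lg c' ∧ bad c' c)) g f) ≤
        hubs lg hub g * (8 * p ^ 2 * S * (B * q) ^ 2) := by
  set gd : F → F → Prop := fun c' c => ¬(lg c' ∧ bad c' c) with hgd
  set β := 8 * p ^ 2 * S * (B * q) ^ 2 with hβ
  induction g using tree_ind with
  | h g ih =>
  intro hg hH
  have hHF : hubsF lg hub g ≤ H := le_trans (Nat.le_add_left _ _) hH
  set ψ : F → F → ℝ≥0∞ := fun c' c =>
    ind (lg c') * (ind (2 ≤ Lm gd c' c ∧ okT lg hub Z c' c) * B ^ Lm gd c' c) with hψ
  set χ : F → F → ℝ≥0∞ := fun c' c => ψ c' c + ind (lg c') * (ind (bad c' c) * B) with hχ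
  have a1 : g.all fun c => ET ν (ψ c) ≤ ind (lg c) * (hubs lg hub c * β) := by
    refine (all_iff _ _).2 fun i hi => ?_
    simp only [hψ, ET_mul']
    by_cases hc : lg (g.child i)
    · exact mul_le_mul_right (all_child ih hi (all_child (hT' g hg) hi)
        ((all_child (hubs_child_le g) hi hc).trans hHF)) _
    · simp [ind_neg hc]
  have a2 : g.all fun c => ET ν (χ c) ≤ ind (lg c) * (2 * (B * q)) := by
    refine (all_iff _ _).2 fun i hi => ?_
    simp only [hχ, ET_add, ET_mul', ET_mul]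
    refine (add_le_add (all_child a1 hi) le_rfl).trans ?_
    by_cases hc : lg (g.child i)
    · rw [← mul_add, two_mul]
      refine mul_le_mul_right (add_le_add ?_ ?_) _
      · calc _ ≤ H * β := by gcongr; exact (all_child (hubs_child_le g) hi hc).trans hHF
          _ = 8 * H * p ^ 2 * S * B * q * (B * q) := by rw [hβ]; ring
          _ ≤ 1 * (B * q) := by gcongr
          _ = _ := one_mul _
      · rw [mul_comm]; gcongr; exact hq _
    · simp [ind_neg hc]
  have a3 : ∀ f, ind (2 ≤ Lm gd g f ∧ okT lg hub Z g f) * B ^ Lm gd g f ≤ Uf ψ χ g f := by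
    intro f
    by_cases hf : 2 ≤ Lm gd g f ∧ okT lg hub Z g f
    swap
    · rw [ind_neg hf, zero_mul]; exact zero_le
    rw [ind_pos hf, one_mul]
    refine powB_le_Uf g f (all_mono (fun c' hc' => all_mono (fun c hc hb => ?_) hc')
      (okF_all hf.2.2)) hf.1
    obtain ⟨b1, b2⟩ := not_not.1 hb
    simp only [hχ, hψ, ind_pos b1, ind_pos b2, one_mul]
    refine ⟨?_, fun b3 => by rw [ind_pos ⟨b3, hc b1⟩, one_mul]⟩
    by_cases b3 : 2 ≤ Lm gd c' c
    · rw [ind_pos ⟨b3, hc b1⟩, one_mul, max_eq_right (by omega)]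
      exact le_self_add
    · rw [max_eq_left (by omega), pow_one]
      exact le_add_self
  have a4 : ∀ l, E ν l (fun f => ind (2 ≤ Lm gd g f ∧ okT lg hub Z g f) * B ^ Lm gd g f) ≤
      l * (hubsF lg hub g * β) + ind (l ≤ Z) * l ^ 2 *
        (ind (hub g) * (8 * p ^ 2 * (B * q) ^ 2)) := by
    intro l
    have b0 : (g.cnt lg : ℝ≥0∞) ≤ p := by exact_mod_cast hp g hg
    by_cases b1 : 2 ≤ g.cnt lg
    · by_cases b2 : l ≤ Z
      · have b3 : (l : ℝ≥0∞) ≤ Z := by exact_mod_cast b2
        refine le_trans (E_mono fun f _ => a3 f) ((E_Uf hν l g a1 a2 (Or.inr ?_)).trans ?_)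
        · calc _ ≤ 2 * (p * Z * (2 * (B * q))) := by gcongr
            _ = 4 * p * Z * B * q := by ring
            _ ≤ 1 := h1
        · rw [sumF_hubs, ind_pos b1, ind_pos b2, ind_pos (hh g b1)]
          refine add_le_add le_rfl ?_
          calc _ ≤ 1 * (2 * (p * l * (2 * (B * q))) ^ 2) := by gcongr
            _ = _ := by ring
      · refine le_trans (E_mono (ψ := fun _ => 0) fun f hf => ?_) (by rw [E_const_zero]; simp)
        rw [ind_neg fun h => b2 (hf ▸ h.2.1 (hh g b1)), zero_mul]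
    · refine le_trans (E_mono fun f _ => a3 f) ((E_Uf hν l g a1 a2 (Or.inl (by omega))).trans ?_)
      rw [sumF_hubs, ind_neg b1, zero_mul, add_zero]
      exact le_self_add
  rw [ET_eq]
  calc _ ≤ ∑' l : ℕ, (l * ν l * (hubsF lg hub g * β) + ν l * (ind (l ≤ Z) * l ^ 2) *
        (ind (hub g) * (8 * p ^ 2 * (B * q) ^ 2))) :=
        ENNReal.tsum_le_tsum fun l => (mul_le_mul_right (a4 l) _).trans (le_of_eq (by ring))
    _ ≤ 1 * (hubsF lg hub g * β) + S * (ind (hub g) * (8 * p ^ 2 * (B * q) ^ 2)) := by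
        rw [ENNReal.tsum_add, ENNReal.tsum_mul_right, ENNReal.tsum_mul_right]
        gcongr
    _ = _ := by
        rw [hubs]
        by_cases hb : hub g
        · rw [ind_pos hb, if_pos hb, hβ]; push_cast; ring
        · rw [ind_neg hb, if_neg hb]; simp

theorem ET_LmB_tail (hν : ∑' l, ν l ≤ 1) (hm : ∑' l : ℕ, l * ν l ≤ 1) {T' : F → Prop}
    (hT' : Her T') {q S : ℝ≥0∞} {H p : ℕ} (hp : ∀ c, T' c → c.cnt lg ≤ p)
    (hh : ∀ c, 2 ≤ c.cnt lg → hub c) (hq : ∀ c, ET ν (fun f => ind (bad c f)) ≤ q) (hq1 : q ≤ 1)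
    (hS : ∑' l : ℕ, ν l * (ind (l ≤ Z) * l ^ 2) ≤ S) (h1 : 4 * p * Z * B * q ≤ 1)
    (h2 : 8 * H * p ^ 2 * S * B * q ≤ 1) (hB : 1 ≤ B) (hB' : B ≠ ⊤) {g : F} (hg : T' g)
    (hH : hubs lg hub g ≤ H) {m : ℕ} (hm1 : 1 ≤ m) :
    ET ν (fun f => ind (okT lg hub Z g f ∧ m < Lm (fun c' c => ¬(lg c' ∧ bad c' c)) g f)) ≤
      B⁻¹ ^ m := by
  have h3 := ET_LmB hν hm hT' hp hh hq hS h1 h2 g hg hH
  have hB0 : B ≠ 0 := (zero_lt_one.trans_le hB).ne'
  have h4 : (hubs lg hub g : ℝ≥0∞) * (8 * p ^ 2 * S * (B * q) ^ 2) ≤ B := by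
    calc _ ≤ H * (8 * p ^ 2 * S * (B * q) ^ 2) := by gcongr
      _ = 8 * H * p ^ 2 * S * B * q * (B * q) := by ring
      _ ≤ 1 * (B * 1) := by gcongr
      _ = B := by simp
  calc _ ≤ ET ν fun f => ind (2 ≤ Lm (fun c' c => ¬(lg c' ∧ bad c' c)) g f ∧ okT lg hub Z g f) *
        B ^ Lm (fun c' c => ¬(lg c' ∧ bad c' c)) g f * B⁻¹ ^ (m + 1) := by
        refine ET_mono fun f => ?_
        by_cases hf : okT lg hub Z g f ∧ m < Lm (fun c' c => ¬(lg c' ∧ bad c' c)) g f
        · rw [ind_pos hf, ind_pos ⟨by omega, hf.1⟩, one_mul]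
          calc (1 : ℝ≥0∞) = B ^ (m + 1) * B⁻¹ ^ (m + 1) := by
                rw [← mul_pow, ENNReal.mul_inv_cancel hB0 hB', one_pow]
            _ ≤ _ := mul_le_mul_left (pow_le_pow_right₀ hB hf.2) _
        · rw [ind_neg hf]; exact zero_le
    _ ≤ B * B⁻¹ ^ (m + 1) := by
        rw [ET_mul]
        exact mul_le_mul_left (h3.trans h4) _
    _ = _ := by rw [pow_succ', ← mul_assoc, ENNReal.mul_inv_cancel hB0 hB', one_mul]

variable {W : F → ℝ≥0} {θ κ q : ℝ}

/-- The exponential function with values in the extended reals. -/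
noncomputable def ee (x : ℝ) : ℝ≥0∞ := ENNReal.ofReal (Real.exp x)

theorem ee_add (x y : ℝ) : ee (x + y) = ee x * ee y := by
  simp only [ee, Real.exp_add, ENNReal.ofReal_mul (Real.exp_pos _).le]

theorem ee_zero : ee 0 = 1 := by simp [ee]

theorem ee_mono {x y : ℝ} (h : x ≤ y) : ee x ≤ ee y :=
  ENNReal.ofReal_le_ofReal (Real.exp_le_exp.2 h)

theorem one_le_ee {x : ℝ} (h : 0 ≤ x) : 1 ≤ ee x := ee_zero.ge.trans (ee_mono h)

theorem ee_eq {x : ℝ} (h : 0 ≤ x) : ee x = 1 + ENNReal.ofReal (Real.exp x - 1) := by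
  rw [← ENNReal.ofReal_one, ← ENNReal.ofReal_add zero_le_one (by linarith [Real.one_le_exp h]), ee]
  congr 1; ring

/-- Adding one small tree. -/
theorem E_small {A : F → Prop} {Ψ Φ O : F → ℝ≥0∞} {a : F → ℝ} {w : ℝ} {b : ℝ≥0∞} {l l₀ : ℕ}
    (hθ : 0 ≤ θ) (hw : 0 ≤ w) (hq0 : 0 ≤ q) (hq : ET ν (fun f => ind (A f)) ≤ ENNReal.ofReal q)
    (hκ : θ ≤ κ ∨ l₀ * q * (Real.exp (θ * w) - 1) + 1 ≤ Real.exp (κ * w)) (hκ0 : 0 ≤ κ)
    (hl : l ≤ l₀) (hΦ : ∀ f, Φ f = ee (θ * a f) * O f) (ha : ∀ f j, a (f.del j) ≤ a f)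
    (h : ∀ f, Ψ f ≤ Φ f ∨ ∃ j < f.len, A (f.child j) ∧ O f = O (f.del j) ∧
      Ψ f ≤ ee (θ * w) * Φ (f.del j))
    (h1 : E ν l Φ ≤ b) (h2 : E ν (l - 1) Φ ≤ b) : E ν l Ψ ≤ ee (κ * w) * b := by
  have key : ∀ f j, O f = O (f.del j) → Φ (f.del j) ≤ Φ f := fun f j e => by
    rw [hΦ, hΦ, e]
    exact mul_le_mul_left (ee_mono (mul_le_mul_of_nonneg_left (ha f j) hθ)) _
  have h0 : 0 ≤ θ * w := mul_nonneg hθ hw
  rcases hκ with hκ | hκ
  · calc _ ≤ E ν l fun f => ee (κ * w) * Φ f := by
          refine E_mono fun f _ => ?_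
          rcases h f with e | ⟨j, -, -, e1, e2⟩
          · exact e.trans (le_mul_of_one_le_left' (one_le_ee (mul_nonneg hκ0 hw)))
          · exact e2.trans (mul_le_mul' (ee_mono (by gcongr)) (key f j e1))
      _ ≤ _ := by rw [E_mul]; gcongr
  · set v := ENNReal.ofReal (Real.exp (θ * w) - 1) with hv
    calc _ ≤ E ν l fun f => Φ f + ∑ j ∈ range f.len, (ind (A (f.child j)) * v) * Φ (f.del j) := by
          refine E_mono fun f _ => ?_
          rcases h f with e | ⟨j, hj, e0, e1, e2⟩
          · exact e.trans le_self_add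
          · refine e2.trans ?_
            rw [ee_eq h0, add_mul, one_mul]
            refine add_le_add (key f j e1) (le_trans ?_ (single_le_sum
              (f := fun j => (ind (A (f.child j)) * v) * Φ (f.del j)) (fun _ _ => zero_le)
              (mem_range.2 hj)))
            rw [ind_pos e0, one_mul]
      _ ≤ b + l₀ * (ENNReal.ofReal q * v * b) := by
          rw [E_add, E_peel l (fun d => ind (A d) * v) Φ, ET_mul]
          gcongr
      _ = (1 + l₀ * (ENNReal.ofReal q * v)) * b := by ring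
      _ ≤ _ := by
          refine mul_le_mul_left ?_ _
          have a1 : 0 ≤ Real.exp (θ * w) - 1 := by linarith [Real.one_le_exp h0]
          rw [hv, ← ENNReal.ofReal_mul hq0, ← ENNReal.ofReal_natCast,
            ← ENNReal.ofReal_mul (Nat.cast_nonneg _), ← ENNReal.ofReal_one,
            ← ENNReal.ofReal_add zero_le_one (by positivity)]
          exact ENNReal.ofReal_le_ofReal (by linarith)

theorem E_Md (hν : ∑' l, ν l ≤ 1) (hθ : 0 ≤ θ) (hq0 : 0 ≤ q)
    (hq : ∀ c, ET ν (fun f => ind (bad c f)) ≤ ENNReal.ofReal q) {l₀ : ℕ} (hκ0 : 0 ≤ κ)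
    (hκ : ∀ c, ¬lg c → θ ≤ κ ∨ l₀ * q * (Real.exp (θ * W c) - 1) + 1 ≤ Real.exp (κ * W c))
    (g : F) : ∀ l ≤ l₀, E ν l (fun f => ee (θ * Md lg bad W g f)) ≤
      ee (κ * sW lg (fun c => W c) g) := by
  induction g with
  | nil => intro l _; simpa [Md, sW, sumY, ee_zero] using E_one_le hν l
  | cons c r _ ih =>
    intro l hl
    by_cases hc : lg c
    · refine le_trans (E_mono fun f _ => ee_mono ?_) ((ih l hl).trans (le_of_eq ?_))
      · rcases Md_cases (lg := lg) (bad := bad) (W := W) c r f with e | ⟨j, -, h1, -⟩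
        · exact mul_le_mul_of_nonneg_left e hθ
        · exact absurd hc h1
      · simp only [sW, sumY, if_pos hc, zero_add]
    · refine (E_small (O := fun _ => 1) (a := fun f => Md lg bad W r f) hθ (W c).coe_nonneg hq0
        (hq c) (hκ c hc) hκ0 hl (fun f => (mul_one _).symm) (fun f j => Md_mono r (sub_del f j))
        (fun f => ?_) (ih l hl) (ih _ (by omega))).trans (le_of_eq ?_)
      · rcases Md_cases (lg := lg) (bad := bad) (W := W) c r f with e | ⟨j, hj, -, h2, e⟩
        · exact Or.inl (ee_mono (mul_le_mul_of_nonneg_left e hθ))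
        · refine Or.inr ⟨j, hj, h2, rfl, ?_⟩
          rw [← ee_add, ← mul_add]
          exact ee_mono (mul_le_mul_of_nonneg_left (by exact_mod_cast e) hθ)
      · simp only [sW, sumY, if_neg hc, mul_add, ee_add]

theorem E_Am (hν : ∑' l, ν l ≤ 1) (hθ : 0 ≤ θ) (hq0 : 0 ≤ q)
    (hq : ∀ c, ET ν (fun f => ind (bad c f)) ≤ ENNReal.ofReal q) {l₀ : ℕ} (hκ0 : 0 ≤ κ)
    (hκ : ∀ c, ¬lg c → θ ≤ κ ∨ l₀ * q * (Real.exp (θ * W c) - 1) + 1 ≤ Real.exp (κ * W c))
    {u : F → ℝ≥0∞} (g : F) (hu : g.all fun c => lg c →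
      ET ν (fun f => ee (θ * Am lg bad W c f) * ind (okT lg hub Z c f)) ≤ u c) :
    ∀ l ≤ l₀, E ν l (fun f => ee (θ * Am lg bad W g f) * ind (okF lg hub Z g f)) ≤
      ee (κ * sW lg (fun c => W c) g) * (1 + l₀ * sumF (fun c => ind (lg c) * u c) g) := by
  induction g with
  | nil => intro l _; simpa [Am, sW, sumY, ee_zero, okF, sumF, ind] using E_one_le hν l
  | cons c r _ ih =>
    intro l hl
    by_cases hc : lg c
    · calc _ ≤ E ν l fun f => ee (θ * Am lg bad W r f) * ind (okF lg hub Z r f) +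
            ∑ j ∈ range f.len, (ee (θ * Am lg bad W c (f.child j)) *
              ind (okT lg hub Z c (f.child j))) * ee (θ * Md lg bad W r (f.del j)) := by
            refine E_mono fun f _ => ?_
            by_cases hf : okF lg hub Z (cons c r) f
            swap
            · rw [ind_neg hf, mul_zero]; exact zero_le
            rw [ind_pos hf, ind_pos hf.2, mul_one, mul_one]
            rcases Am_cases (lg := lg) (bad := bad) (W := W) c r f with
              e | ⟨j, -, h1, -⟩ | ⟨j, hj, -, e⟩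
            · exact (ee_mono (mul_le_mul_of_nonneg_left e hθ)).trans le_self_add
            · exact absurd hc h1
            · refine le_add_left (le_trans ?_ (single_le_sum
                (f := fun j => (ee (θ * Am lg bad W c (f.child j)) *
                  ind (okT lg hub Z c (f.child j))) * ee (θ * Md lg bad W r (f.del j)))
                (fun _ _ => zero_le) (mem_range.2 hj)))
              rw [ind_pos (show okT lg hub Z c (f.child j) from all_child (hf.1 hc) hj), mul_one,
                ← ee_add, ← mul_add]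
              exact ee_mono (mul_le_mul_of_nonneg_left (by exact_mod_cast e) hθ)
        _ ≤ ee (κ * sW lg (fun c => W c) r) * (1 + l₀ * sumF (fun c => ind (lg c) * u c) r) +
            l₀ * (u c * ee (κ * sW lg (fun c => W c) r)) := by
            rw [E_add, E_peel l (fun d => ee (θ * Am lg bad W c d) * ind (okT lg hub Z c d))
              fun d => ee (θ * Md lg bad W r d)]
            gcongr
            · exact ih hu.2 l hl
            · exact hu.1 hc
            · exact E_Md hν hθ hq0 hq hκ0 hκ r _ (by omega)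
        _ = _ := by
            simp only [sW, sumY, if_pos hc, zero_add, sumF, ind_pos hc]
            ring
    · refine (E_small (O := fun f => ind (okF lg hub Z r f)) (a := fun f => Am lg bad W r f) hθ
        (W c).coe_nonneg hq0 (hq c) (hκ c hc) hκ0 hl (fun f => rfl)
        (fun f j => Am_mono r (sub_del f j)) (fun f => ?_) (ih hu.2 l hl)
        (ih hu.2 _ (by omega))).trans (le_of_eq ?_)
      · by_cases hf : okF lg hub Z (cons c r) f
        swap
        · rw [ind_neg hf, mul_zero]; exact Or.inl zero_le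
        rw [ind_pos hf, ind_pos hf.2, mul_one, mul_one]
        rcases Am_cases (lg := lg) (bad := bad) (W := W) c r f with
          e | ⟨j, hj, -, h2, e⟩ | ⟨j, -, h1, -⟩
        · exact Or.inl (ee_mono (mul_le_mul_of_nonneg_left e hθ))
        · refine Or.inr ⟨j, hj, h2, (ind_pos (okF_del r hf.2 j)).symm, ?_⟩
          rw [ind_pos (okF_del r hf.2 j), mul_one, ← ee_add, ← mul_add]
          exact ee_mono (mul_le_mul_of_nonneg_left (by exact_mod_cast e) hθ)
        · exact absurd h1 hc
      · simp only [sW, sumY, if_neg hc, mul_add, ee_add, sumF, ind_neg hc, zero_mul, zero_add]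
        ring

theorem sumF_le_size {φ : F → ℝ≥0∞} {a b : ℝ≥0∞} (g : F)
    (h : g.all fun c => a * φ c ≤ ((c.size + 1 : ℕ) : ℝ≥0∞) * b) : a * sumF φ g ≤ g.size * b := by
  induction g with
  | nil => simp [sumF]
  | cons c r _ ih =>
    rw [sumF, mul_add, size]
    refine (add_le_add h.1 (ih h.2)).trans (le_of_eq ?_)
    push_cast; ring

theorem ET_Am (hν : ∑' l, ν l ≤ 1) (hm : ∑' l : ℕ, l * ν l ≤ 1) (hθ : 0 ≤ θ) (hq0 : 0 ≤ q)
    (hq : ∀ c, ET ν (fun f => ind (bad c f)) ≤ ENNReal.ofReal q) {T ω : ℝ} (hT0 : 0 ≤ T)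
    (hT : ∑' l : ℕ, ind (Z < l) * (l * ν l) ≤ ENNReal.ofReal T) (hω : Z * q + T ≤ ω)
    (h1 : ∀ c, ¬lg c → θ * W c ≤ 1) (h2 : ∀ c, ¬hub c → θ * sW lg (fun c => W c) c ≤ 1) (g : F) :
    ET ν (fun f => ee (θ * Am lg bad W g f) * ind (okT lg hub Z g f)) ≤
      ((g.size + 1 : ℕ) : ℝ≥0∞) * ee (2 * θ * ω * acc (fun c => W c) g) := by
  induction g using tree_ind with
  | h g ih =>
  have hu : g.all fun c => lg c →
      ET ν (fun f => ee (θ * Am lg bad W c f) * ind (okT lg hub Z c f)) ≤
        ((c.size + 1 : ℕ) : ℝ≥0∞) * ee (2 * θ * ω * acc (fun c => W c) c) :=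
    (all_iff _ _).2 fun i hi _ => all_child ih hi
  have key := fun (κ : ℝ) (l₀ : ℕ) h0 h1 => E_Am (κ := κ) (l₀ := l₀) hν hθ hq0 hq h0 h1
    (u := fun c => ((c.size + 1 : ℕ) : ℝ≥0∞) * ee (2 * θ * ω * acc (fun c => W c) c)) g hu l₀ le_rfl
  set s := sW lg (fun c => W c) g with hs
  have hs0 : 0 ≤ s := sW_nonneg (fun c => (W c).coe_nonneg) g
  set U := sumF (fun c => ind (lg c) *
    (((c.size + 1 : ℕ) : ℝ≥0∞) * ee (2 * θ * ω * acc (fun c => W c) c))) g with hU
  set v := ENNReal.ofReal (2 * (θ * s)) with hv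
  have hZq : 0 ≤ 2 * θ * (Z * q) := by positivity
  have a1 : ∀ l, E ν l (fun f => ee (θ * Am lg bad W g f) * ind (okT lg hub Z g f)) ≤
      ee (2 * θ * (Z * q) * s) * ((1 + ind (Z < l) * v) * (1 + l * U)) := by
    intro l
    by_cases hl : l ≤ Z
    · refine le_trans (E_mono fun f _ => mul_le_mul_right (ind_mono fun h => h.2) _)
        ((key _ l hZq fun c hc => Or.inr ?_).trans ?_)
      · have b0 : 0 ≤ θ * W c := mul_nonneg hθ (W c).coe_nonneg
        have b1 := exp_le_one_add_two b0 (h1 c hc)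
        have b2 : (l : ℝ) ≤ Z := by exact_mod_cast hl
        have b3 : l * q * (Real.exp (θ * W c) - 1) ≤ Z * q * (2 * (θ * W c)) := by
          gcongr
          · linarith [Real.one_le_exp b0]
          · linarith
        linarith [Real.add_one_le_exp (2 * θ * (Z * q) * W c)]
      · exact mul_le_mul_right (le_mul_of_one_le_left' le_self_add) _
    · by_cases hh : hub g
      · refine le_trans (E_mono (ψ := fun _ => 0) fun f hf => ?_) (by rw [E_const_zero]; simp)
        rw [ind_neg fun h => hl (hf ▸ h.1 hh), mul_zero]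
      · refine le_trans (E_mono fun f _ => mul_le_mul_right (ind_mono fun h => h.2) _)
          ((key _ l hθ fun c hc => Or.inl le_rfl).trans ?_)
        refine le_trans (mul_le_mul_left ?_ _)
          (le_mul_of_one_le_left' (one_le_ee (mul_nonneg hZq hs0)))
        rw [ind_pos (not_le.1 hl), one_mul, hv, ← ENNReal.ofReal_one,
          ← ENNReal.ofReal_add zero_le_one (by positivity)]
        exact ENNReal.ofReal_le_ofReal (exp_le_one_add_two (by positivity) (h2 g hh))
  have a2 : ∑' l : ℕ, ν l * ((1 + ind (Z < l) * v) * (1 + l * U)) ≤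
      (1 + ENNReal.ofReal T * v) * (1 + U) := by
    calc _ ≤ ∑' l : ℕ, (ν l + l * ν l * U + ind (Z < l) * (l * ν l) * (v * (1 + U))) := by
          refine ENNReal.tsum_le_tsum fun l => ?_
          by_cases hl : Z < l
          · have b1 : (1 : ℝ≥0∞) ≤ l := by exact_mod_cast (by omega)
            rw [ind_pos hl]
            calc _ = ν l + l * ν l * U + (1 * (ν l * v) + l * ν l * (v * U)) := by ring
              _ ≤ ν l + l * ν l * U + (l * (ν l * v) + l * ν l * (v * U)) := by gcongr
              _ = _ := by ring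
          · rw [ind_neg hl]
            exact le_of_eq (by ring)
      _ ≤ 1 + 1 * U + ENNReal.ofReal T * (v * (1 + U)) := by
          rw [ENNReal.tsum_add, ENNReal.tsum_add, ENNReal.tsum_mul_right, ENNReal.tsum_mul_right]
          gcongr
      _ = _ := by ring
  have hω0 : 0 ≤ 2 * θ * ω := by
    have : 0 ≤ Z * q + T := by positivity
    exact mul_nonneg (by positivity) (this.trans hω)
  have a3 : ee (2 * θ * (Z * q) * s) * (1 + ENNReal.ofReal T * v) ≤ ee (2 * θ * ω * s) := by
    have b1 : 1 + ENNReal.ofReal T * v ≤ ee (T * (2 * (θ * s))) := by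
      rw [hv, ← ENNReal.ofReal_mul hT0, ← ENNReal.ofReal_one,
        ← ENNReal.ofReal_add zero_le_one (by positivity)]
      exact ENNReal.ofReal_le_ofReal (by linarith [Real.add_one_le_exp (T * (2 * (θ * s)))])
    refine (mul_le_mul_right b1 _).trans ?_
    rw [← ee_add]
    refine ee_mono ?_
    calc _ = 2 * θ * (Z * q + T) * s := by ring
      _ ≤ _ := by gcongr
  rw [ET_eq]
  calc _ ≤ ∑' l : ℕ, ee (2 * θ * (Z * q) * s) * (ν l * ((1 + ind (Z < l) * v) * (1 + l * U))) :=
        ENNReal.tsum_le_tsum fun l => (mul_le_mul_right (a1 l) _).trans (le_of_eq (by ring))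
    _ ≤ ee (2 * θ * ω * s) * (1 + U) := by
        rw [ENNReal.tsum_mul_left]
        refine (mul_le_mul_right a2 _).trans ?_
        rw [← mul_assoc]
        exact mul_le_mul_left a3 _
    _ ≤ _ := by
        have b0 : ∀ c, 0 ≤ ((W c : ℝ≥0) : ℝ) := fun c => (W c).coe_nonneg
        have b1 := sW_add_le (lg := lg) (a := 0) (fun c _ => b0 c) g
        have b2 := sumY_le_acc (Y := fun c => W c) g
        rw [mul_add, mul_one, Nat.cast_add, Nat.cast_one, add_mul, one_mul, add_comm]
        refine add_le_add (sumF_le_size g (all_mono (fun c hc => ?_)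
          (acc_large (lg := lg) (a := 0) b0 (fun c _ => b0 c) g)))
          (ee_mono (mul_le_mul_of_nonneg_left (by linarith) hω0))
        by_cases hl : lg c
        · rw [ind_pos hl, one_mul, mul_left_comm, ← ee_add, ← mul_add]
          exact mul_le_mul_right (ee_mono (mul_le_mul_of_nonneg_left (by linarith [hc hl]) hω0)) _
        · simp [ind_neg hl]

end Pool.Agent.MP_8702f5_pr

end
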