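import Mathlib
import Pool.Agent.MP_8702f5_pr.Mg.SExp
import Pool.Agent.MP_8702f5_pr.Mg.Prob

-- part MP_8702f5_pr.SWeak
section

/-! The weak type inequality for the mass hanging along a path. -/

namespace Pool.Agent.MP_8702f5_pr

open Finset F Filter
open scoped ENNReal

variable {μ : ℕ → ℝ} {α c C : ℝ}

/-- The largest number of vertices hanging on the right of a path. -/
def accR : F → ℕ
  | F.nil => 0
  | F.cons a r => max (accR a + r.len) (max (accR r) (r.len + 1))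

/-- The largest number of vertices hanging on the left of a path. -/
def accL : F → ℕ
  | F.nil => 0
  | F.cons a r => max (accL a) (accL r + 1)

theorem sumY_one (f : F) : sumY (fun _ => 1) f = f.len := by
  induction f with
  | nil => simp [sumY, len]
  | cons a r _ ih => rw [sumY, ih, len]; push_cast; ring

theorem acc_one_le (f : F) : acc (fun _ => 1) f ≤ (accR f + accL f + f.ht : ℕ) := by
  induction f with
  | nil => simp [acc]
  | cons a r iha ihr =>
    rw [acc, sumY_one]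
    refine max_le ?_ ?_
    · have : accR a + accL a + a.ht + 1 + r.len ≤
          accR (cons a r) + accL (cons a r) + (cons a r).ht := by
        simp only [accR, accL, F.ht]; omega
      refine le_trans ?_ (Nat.cast_le.2 this)
      push_cast at iha ⊢
      linarith
    · have : 1 + (accR r + accL r + r.ht) ≤
          accR (cons a r) + accL (cons a r) + (cons a r).ht := by
        simp only [accR, accL, F.ht]; omega
      refine le_trans ?_ (Nat.cast_le.2 this)
      push_cast at ihr ⊢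
      linarith only [ihr]

theorem ht_le_acc (f : F) : (f.ht : ℝ) ≤ acc (fun _ => 1) f := by
  induction f with
  | nil => simp [acc, F.ht]
  | cons a r iha ihr =>
    rw [acc, sumY_one, F.ht]
    push_cast
    have : (0 : ℝ) ≤ r.len := Nat.cast_nonneg _
    exact max_le_max (by linarith) (by linarith)

theorem acc_mono {Y Y' : F → ℝ} (h : ∀ c, Y c ≤ Y' c) (f : F) : acc Y f ≤ acc Y' f := by
  have key : ∀ f, sumY Y f ≤ sumY Y' f := fun f => by
    induction f with
    | nil => exact le_rfl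
    | cons a r _ ih => exact add_le_add (h a) ih
  induction f with
  | nil => exact le_rfl
  | cons a r iha ihr =>
    exact max_le_max (add_le_add (add_le_add iha le_rfl) (key r)) (add_le_add (h a) ihr)

theorem Good.P_le_one (h : Good μ α c C) (l : ℕ) (A : F → Prop) : P μ l A ≤ 1 := by
  simpa [P] using ENNReal.toReal_mono ENNReal.one_ne_top (E_ind_le h.tsum_e l A)

theorem Good.P_succ_le (h : Good μ α c C) {l : ℕ} {X A B : F → Prop} {p b : ℝ}
    (hX : ∀ a r, r.len = l → X (cons a r) → A a ∨ B r) (hp : PT μ A ≤ p) (hb : P μ l B ≤ b)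
    (hp1 : p ≤ 1) (hb1 : b ≤ 1) : P μ (l + 1) X ≤ p + (1 - p) * b := by
  have h1 : E (μe μ) (l + 1) (fun f => ind (X f)) ≤ ET (μe μ) (fun a => ind (A a)) +
      ET (μe μ) (fun a => ind ¬A a) * E (μe μ) l fun r => ind (B r) := by
    rw [E_succ, ← ET_mul, ← ET_add]
    refine ET_mono fun a => ?_
    by_cases ha : A a
    · rw [ind_pos ha]
      exact (E_ind_le h.tsum_e l _).trans le_self_add
    · rw [ind_neg ha, ind_pos ha, zero_add, one_mul]
      exact E_mono fun r hr => ind_mono fun hx => (hX a r hr hx).resolve_left ha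
  have h2 := ENNReal.toReal_mono (ENNReal.add_ne_top.2 ⟨h.ET_ne A,
    ENNReal.mul_ne_top (h.ET_ne fun a => ¬A a) (h.E_ne l B)⟩) h1
  rw [ENNReal.toReal_add (h.ET_ne A) (ENNReal.mul_ne_top (h.ET_ne fun a => ¬A a) (h.E_ne l B)),
    ENNReal.toReal_mul] at h2
  have h3 := (h.PT_add_le (A := fun _ => True) (B := A) (C := fun f => ¬A f)
    (fun _ _ => trivial) (fun _ _ => trivial) fun _ h1 h2 => h2 h1).trans (h.PT_le_one _)
  have h4 : PT μ (fun f => ¬A f) * P μ l B ≤ (1 - PT μ A) * b :=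
    mul_le_mul (by linarith) hb (P_nonneg _ _) (by linarith [PT_nonneg (μ := μ) fun f => ¬A f])
  have h5 : P μ (l + 1) X ≤ PT μ A + PT μ (fun f => ¬A f) * P μ l B := h2
  nlinarith only [h4, h5, hp, hb1]

theorem Good.PT_le_of_mul (h : Good μ α c C) {A : F → Prop} {x : ℝ} (hx : 0 ≤ x)
    (hA : ∀ l, P μ l A ≤ l * x) : PT μ A ≤ x := by
  refine ENNReal.toReal_le_of_le_ofReal hx ?_
  rw [ET_eq]
  calc _ ≤ ∑' l : ℕ, l * μe μ l * ENNReal.ofReal x := by
        refine ENNReal.tsum_le_tsum fun l => ?_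
        rw [mul_comm (l : ℝ≥0∞), mul_assoc, ← ENNReal.ofReal_natCast,
          ← ENNReal.ofReal_mul (Nat.cast_nonneg l)]
        exact mul_le_mul_right
          ((ENNReal.le_ofReal_iff_toReal_le (h.E_ne l A) (by positivity)).2 (hA l)) _
    _ ≤ _ := by
        rw [ENNReal.tsum_mul_right]
        exact mul_le_of_le_one_left' h.mean_e

theorem Good.PT_le_of_ht (h : Good μ α c C) {A : F → Prop} {x : ℝ} (hx : 0 ≤ x)
    (hA : ∀ k, PT μ (fun f => A f ∧ f.ht < k) ≤ x) : PT μ A ≤ x := by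
  refine ENNReal.toReal_le_of_le_ofReal hx (ET_le_of_ht fun k => ?_)
  simp only [← ind_and]
  exact (ENNReal.le_ofReal_iff_toReal_le (h.ET_ne _) hx).2 (hA k)

theorem PT_false {A : F → Prop} (hA : ∀ f, ¬A f) : PT μ A = 0 := by
  simp [PT, ET, ind, hA]

theorem Good.accR_tail (h : Good μ α c C) {D : ℕ} (hD : 1 ≤ D) :
    PT μ (fun f => D ≤ accR f) ≤ 1 / D := by
  refine h.PT_le_of_ht (by positivity) fun k => ?_
  induction k generalizing D with
  | zero => rw [PT_false (by simp)]; positivity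
  | succ k ih =>
    have hD0 : (0 : ℝ) < D := by exact_mod_cast hD
    refine h.PT_le_of_mul (by positivity) fun l => ?_
    induction l with
    | zero =>
      rw [P, E_zero, ind_neg (by simp [accR]; omega)]
      simp
    | succ l ihl =>
      rcases le_or_gt D (l + 1) with h1 | h1
      · refine (h.P_le_one _ _).trans ?_
        rw [mul_one_div, le_div_iff₀ hD0, one_mul]
        exact_mod_cast h1
      have h2 : (l : ℝ) + 1 < D := by exact_mod_cast h1
      have h3 : ((D - l : ℕ) : ℝ) = D - l := Nat.cast_sub (by omega)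
      have h4 : (0 : ℝ) ≤ l := Nat.cast_nonneg l
      refine (h.P_succ_le (A := fun a => D - l ≤ accR a ∧ a.ht < k) (fun a r hr hx => ?_)
        (ih (by omega)) ihl ?_ ?_).trans (le_of_eq ?_)
      · simp only [accR, F.ht] at hx
        omega
      · rw [h3, div_le_one (by linarith only [h2])]; linarith
      · rw [mul_one_div, div_le_one hD0]; linarith
      · have : (D : ℝ) - l ≠ 0 := by linarith
        rw [h3]
        push_cast
        field_simp
        ring

theorem Good.accL_tail (h : Good μ α c C) {D : ℕ} (hD : 1 ≤ D) :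
    PT μ (fun f => D ≤ accL f) ≤ 1 / D := by
  refine h.PT_le_of_ht (by positivity) fun k => ?_
  induction k generalizing D with
  | zero => rw [PT_false (by simp)]; positivity
  | succ k ih =>
    refine h.PT_le_of_mul (by positivity) fun l => ?_
    induction l generalizing D with
    | zero =>
      rw [P, E_zero, ind_neg (by simp [accL]; omega)]
      simp
    | succ l ihl =>
      have hD0 : (0 : ℝ) < D := by exact_mod_cast hD
      rcases le_or_gt D (l + 1) with h1 | h1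
      · refine (h.P_le_one _ _).trans ?_
        rw [mul_one_div, le_div_iff₀ hD0, one_mul]
        exact_mod_cast h1
      have h2 : (l : ℝ) + 1 < D := by exact_mod_cast h1
      have h3 : ((D - 1 : ℕ) : ℝ) = D - 1 := by rw [Nat.cast_sub hD, Nat.cast_one]
      have h4 : (0 : ℝ) ≤ l := Nat.cast_nonneg l
      refine (h.P_succ_le (A := fun a => D ≤ accL a ∧ a.ht < k) (fun a r hr hx => ?_)
        (ih hD) (ihl (D := D - 1) (by omega)) ?_ ?_).trans (le_of_eq ?_)
      · simp only [accL, F.ht] at hx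
        omega
      · rw [div_le_one hD0]; linarith
      · rw [h3, mul_one_div, div_le_one (by linarith)]; linarith
      · have : (D : ℝ) - 1 ≠ 0 := by linarith
        rw [h3]
        push_cast
        field_simp
        ring

theorem Good.acc_one_tail (h : Good μ α c C) : ∃ C₀ : ℝ, 1 ≤ C₀ ∧ ∀ s : ℝ, 0 < s →
    PT μ (fun f => s ≤ acc (fun _ => 1) f) ≤ C₀ / s := by
  obtain ⟨x₀, hx₀⟩ := eventually_atTop.1
    (h.surv (κ := 1) (η := 1) one_pos (by linarith [h.lt_two]))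
  refine ⟨max 12 (3 * x₀), le_max_of_le_left (by norm_num), fun s hs => ?_⟩
  rcases le_total s (3 * x₀) with h1 | h1
  · exact (h.PT_le_one _).trans ((one_le_div hs).2 (h1.trans (le_max_right _ _)))
  have h2 := hx₀ (s / 3) (by linarith)
  rw [Real.rpow_one, Real.rpow_neg_one] at h2
  have h3 := ENNReal.toReal_le_of_le_ofReal (by positivity) h2
  have h4 : 1 ≤ ⌈s / 3⌉₊ := Nat.one_le_ceil_iff.2 (by positivity)
  have h5 : 1 / (⌈s / 3⌉₊ : ℝ) ≤ 3 / s := by
    rw [← one_div_div s 3]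
    exact one_div_le_one_div_of_le (show 0 < s / 3 by positivity) (Nat.le_ceil _)
  have h6 := h.PT_or_le (A := fun f => s ≤ acc (fun _ => 1) f) (B := fun f => ⌈s / 3⌉₊ ≤ accR f)
    (C := fun f => ⌈s / 3⌉₊ ≤ accL f ∨ ⌈s / 3⌉₊ ≤ f.ht) fun f hf => by
      have := hf.trans (acc_one_le f)
      push_cast at this
      by_contra hc
      simp only [not_or, Nat.ceil_le, not_le] at hc
      linarith only [hc.1, hc.2.1, hc.2.2, this, hc]
  have h7 := h.PT_or_le (A := fun f => ⌈s / 3⌉₊ ≤ accL f ∨ ⌈s / 3⌉₊ ≤ f.ht) fun _ hf => hf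
  have h8 : 2 * (s / 3)⁻¹ = 2 * (3 / s) := by rw [inv_div]
  have h9 : 12 / s ≤ max 12 (3 * x₀) / s := by gcongr; exact le_max_left _ _
  have h10 : 12 / s = 4 * (3 / s) := by ring
  have h11 : PT μ (fun f => ⌈s / 3⌉₊ ≤ f.ht) ≤ 2 * (s / 3)⁻¹ := h3
  linarith only [h.accR_tail h4, h.accL_tail h4, h5, h6, h7, h8, h9, h10, h11, h4]

/-- A bounded monotone functional with weak first moment `γ`. -/
structure Lvl (μ : ℕ → ℝ) (φ : F → ℝ) (γ Λ : ℝ) : Prop where
  nonneg : ∀ g, 0 ≤ φ g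
  le : ∀ g, φ g ≤ Real.exp Λ
  mono : ∀ g : F, g.all fun a => φ a ≤ φ g
  weak : ∀ s, 0 < s → PT μ (fun g => s ≤ φ g) ≤ γ / s
  one_le : 1 ≤ γ
  one_le' : 1 ≤ Λ

variable {φ : F → ℝ} {γ Λ : ℝ}

theorem Lvl.weaken (h : Lvl μ φ γ Λ) {γ' Λ' : ℝ} (h1 : γ ≤ γ') (h2 : Λ ≤ Λ') : Lvl μ φ γ' Λ' :=
  ⟨h.nonneg, fun g => (h.le g).trans (Real.exp_le_exp.2 h2), h.mono,
    fun s hs => (h.weak s hs).trans (by gcongr), h.one_le.trans h1, h.one_le'.trans h2⟩

theorem Lvl.mean (h : Good μ α c C) (hφ : Lvl μ φ γ Λ) :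
    ET (μe μ) (fun f => ENNReal.ofReal (φ f)) ≤ ENNReal.ofReal (4 * γ * Λ) := by
  have h1 := hφ.one_le
  have h2 := hφ.one_le'
  set n := ⌊Real.exp Λ⌋₊ with hn
  calc _ ≤ ET (μe μ) fun f => 1 + ∑ K ∈ range n, ind (((K + 1 : ℕ) : ℝ) ≤ φ f) := by
        refine ET_mono fun f => ?_
        have a1 : ⌊φ f⌋₊ ≤ n := Nat.floor_le_floor (hφ.le f)
        calc _ ≤ ENNReal.ofReal ((1 + ⌊φ f⌋₊ : ℕ) : ℝ) := by
              refine ENNReal.ofReal_le_ofReal ?_
              push_cast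
              linarith [Nat.lt_floor_add_one (φ f)]
          _ = 1 + ∑ _K ∈ range ⌊φ f⌋₊, 1 := by rw [ENNReal.ofReal_natCast]; simp
          _ ≤ _ := by
              refine add_le_add le_rfl (le_trans (sum_le_sum fun K hK => ?_)
                (sum_le_sum_of_subset (range_mono a1)))
              rw [ind_pos ((Nat.le_floor_iff (hφ.nonneg f)).1 (mem_range.1 hK))]
    _ ≤ 1 + ∑ K ∈ range n, ENNReal.ofReal (γ * (1 / (K + 1 : ℕ))) := by
        rw [ET_add, ET_sum]
        refine add_le_add (ET_one_le h.tsum_e) (sum_le_sum fun K _ => ?_)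
        rw [mul_one_div]
        exact (ENNReal.le_ofReal_iff_toReal_le (h.ET_ne _) (by positivity)).2
          (hφ.weak _ (by positivity))
    _ ≤ _ := by
        have a1 := harmonic_le_one_add_log n
        have a2 : Real.log n ≤ Λ := by
          rw [Real.log_le_iff_le_exp (by
            exact_mod_cast Nat.floor_pos.2 (Real.one_le_exp (by linarith)))]
          exact Nat.floor_le (Real.exp_pos _).le
        have a3 : ∑ K ∈ range n, (1 / (K + 1 : ℕ) : ℝ) ≤ 1 + Λ := by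
          refine le_trans (le_of_eq ?_) (a1.trans (by linarith))
          simp [harmonic]
        rw [← ENNReal.ofReal_sum_of_nonneg fun _ _ => by positivity, ← mul_sum,
          ← ENNReal.ofReal_one, ← ENNReal.ofReal_add zero_le_one (by positivity)]
        refine ENNReal.ofReal_le_ofReal ?_
        nlinarith only [mul_le_mul_of_nonneg_left a3 (by linarith : 0 ≤ γ), h1, h2, a3]

theorem Lvl.exp_moment (h : Good μ α c C) (hφ : Lvl μ φ γ Λ) {t : ℝ} (ht : 0 < t) (m : ℕ) :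
    ET (μe μ) (fun f => ee (1 / t * acc φ f - 8 * γ * Λ / t * acc (fun _ => 1) f) *
      ind (φ f ≤ t ∧ f.ht < m)) ≤ m := by
  have h1 := hφ.one_le
  have h2 := hφ.one_le'
  set θ := 1 / t with hθ
  set η := 8 * γ * Λ / t with hη
  have hθ0 : 0 < θ := by positivity
  have hη0 : 0 < η := by positivity
  have hηθ : η = 2 * θ * (4 * γ * Λ) := by rw [hη, hθ]; ring
  have hθη : θ ≤ η := by rw [hηθ]; nlinarith only [mul_le_mul h1 h2 zero_le_one (by linarith), hθ0, h1, h2]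
  set K : F → ℝ≥0∞ := fun a => ee (θ * φ a - η) * ind (φ a ≤ t) with hK
  have hκ : ET (μe μ) K ≤ 1 := by
    calc _ ≤ ET (μe μ) fun f => ee (-η) *
          (1 + ENNReal.ofReal (2 * θ) * ENNReal.ofReal (φ f)) := by
          refine ET_mono fun f => ?_
          by_cases hf : φ f ≤ t
          · have h0 := hφ.nonneg f
            simp only [hK, ind_pos hf, mul_one]
            rw [sub_eq_neg_add, ee_add, ← ENNReal.ofReal_mul (by positivity), ← ENNReal.ofReal_one,
              ← ENNReal.ofReal_add zero_le_one (by positivity), mul_assoc]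
            refine mul_le_mul_right (ENNReal.ofReal_le_ofReal
              (exp_le_one_add_two (by positivity) ?_)) _
            rw [hθ, one_div_mul_eq_div, div_le_one ht]
            exact hf
          · simp only [hK, ind_neg hf, mul_zero]; exact zero_le
      _ ≤ ee (-η) * (1 + ENNReal.ofReal (2 * θ) * ENNReal.ofReal (4 * γ * Λ)) := by
          rw [ET_mul', ET_add, ET_mul']
          gcongr
          · exact ET_one_le h.tsum_e
          · exact hφ.mean h
      _ ≤ ee (-η) * ee η := by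
          refine mul_le_mul_right ?_ _
          rw [← ENNReal.ofReal_mul (by positivity), ← hηθ, ← ENNReal.ofReal_one,
            ← ENNReal.ofReal_add zero_le_one hη0.le]
          exact ENNReal.ofReal_le_ofReal (by linarith [Real.add_one_le_exp η])
      _ = 1 := by rw [← ee_add, neg_add_cancel, ee_zero]
  induction m with
  | zero => simp [ET, ind]
  | succ m ih =>
    have key := E_rec (ν := μe μ)
      (Φ := fun f => ee (θ * acc φ f - η * acc (fun _ => 1) f) *
        ind (f.all fun a => φ a ≤ t ∧ a.ht < m))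
      (P := fun f => ee (θ * sumY φ f - η * sumY (fun _ => 1) f) * ind (f.all fun a => φ a ≤ t))
      (W := fun f => ee (θ * acc φ f - η * acc (fun _ => 1) f) * ind (φ f ≤ t ∧ f.ht < m))
      (K := K) (by simp [acc, all, ind, ee_zero]) (by simp [sumY, all, ind, ee_zero])
      (fun a r => by
        simp only [hK, sumY, all, ind_and]
        rw [show θ * (φ a + sumY φ r) - η * (1 + sumY (fun _ => 1) r) =
          θ * φ a - η + (θ * sumY φ r - η * sumY (fun _ => 1) r) by ring, ee_add]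
        ring)
      (fun a r => by
        by_cases hf : (cons a r).all fun a => φ a ≤ t ∧ a.ht < m
        swap
        · rw [ind_neg hf, mul_zero]; exact zero_le
        have b1 : acc (fun _ => 1) a + 1 + sumY (fun _ => 1) r ≤ acc (fun _ => 1) (cons a r) :=
          le_max_left _ _
        have b2 : 1 + acc (fun _ => 1) r ≤ acc (fun _ => 1) (cons a r) := le_max_right _ _
        simp only [hK, ind_pos hf, ind_pos hf.1, ind_pos hf.2, ind_pos hf.1.1,
          ind_pos (all_mono (fun _ => And.left) hf.2), mul_one, ← ee_add]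
        rw [acc]
        rcases le_total (acc φ a + 1 + sumY φ r) (φ a + acc φ r) with h1 | h1
        · rw [max_eq_right h1]
          exact le_add_left (ee_mono (by nlinarith only [hη0, b2]))
        · rw [max_eq_left h1]
          exact le_add_right (ee_mono (by nlinarith only [hθη, hη0, b1])))
      hκ le_rfl ih
    calc _ ≤ ET (μe μ) fun f => ee (θ * acc φ f - η * acc (fun _ => 1) f) *
          ind (f.all fun a => φ a ≤ t ∧ a.ht < m) := by
          refine ET_mono fun f => mul_le_mul_right (ind_mono fun hf => ?_) _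
          exact (all_iff _ _).2 fun i hi => ⟨(all_child (hφ.mono f) hi).trans hf.1,
            all_child ((ht_lt_succ_iff m f).1 hf.2) hi⟩
      _ ≤ ∑' l : ℕ, (l * μe μ l * m + μe μ l) := by
          rw [ET_eq]
          refine ENNReal.tsum_le_tsum fun l => (mul_le_mul_right (key l) _).trans (le_of_eq ?_)
          rw [one_pow]; ring
      _ ≤ _ := by
          rw [ENNReal.tsum_add, ENNReal.tsum_mul_right]
          push_cast
          exact add_le_add (mul_le_of_le_one_left' h.mean_e) h.tsum_e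

theorem Lvl.exp_tail (h : Good μ α c C) (hφ : Lvl μ φ γ Λ) {t D : ℝ} (ht : 0 < t) (hD : 0 ≤ D)
    (s : ℝ) : PT μ (fun f => φ f ≤ t ∧ acc (fun _ => 1) f ≤ D ∧ s ≤ acc φ f) ≤
      (D + 1) * Real.exp ((8 * γ * Λ * D - s) / t) := by
  have h1 := hφ.one_le
  have h2 := hφ.one_le'
  refine ENNReal.toReal_le_of_le_ofReal (by positivity) ?_
  calc _ ≤ ET (μe μ) fun f => ee (1 / t * acc φ f - 8 * γ * Λ / t * acc (fun _ => 1) f) *
        ind (φ f ≤ t ∧ f.ht < ⌊D⌋₊ + 1) * ee ((8 * γ * Λ * D - s) / t) := by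
        refine ET_mono fun f => ?_
        by_cases hf : φ f ≤ t ∧ acc (fun _ => 1) f ≤ D ∧ s ≤ acc φ f
        swap
        · rw [ind_neg hf]; exact zero_le
        rw [ind_pos hf, ind_pos ⟨hf.1, Nat.lt_succ_of_le (Nat.le_floor
          ((ht_le_acc f).trans hf.2.1))⟩, mul_one, ← ee_add]
        refine one_le_ee ?_
        have a1 : 0 ≤ acc φ f - s + 8 * γ * Λ * (D - acc (fun _ => 1) f) :=
          add_nonneg (sub_nonneg.2 hf.2.2) (mul_nonneg (by positivity) (sub_nonneg.2 hf.2.1))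
        refine le_trans (div_nonneg a1 ht.le) (le_of_eq ?_)
        ring
    _ ≤ _ := by
        rw [ET_mul, ENNReal.ofReal_mul (by positivity)]
        refine mul_le_mul_left ((hφ.exp_moment h ht _).trans ?_) _
        rw [← ENNReal.ofReal_natCast]
        refine ENNReal.ofReal_le_ofReal ?_
        push_cast
        linarith [Nat.floor_le hD]

theorem Good.weak_acc (h : Good μ α c C) : ∃ C₁ : ℝ, 1 ≤ C₁ ∧ ∀ (φ : F → ℝ) (γ Λ : ℝ),
    Lvl μ φ γ Λ → ∀ s, 0 < s → s ≤ Real.exp Λ →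
      PT μ (fun f => s ≤ acc φ f) ≤ C₁ * Λ * γ / s := by
  obtain ⟨C₀, hC₀, h0⟩ := h.acc_one_tail
  refine ⟨9 + 16 * C₀, by linarith, fun φ γ Λ hφ s hs hs' => ?_⟩
  have h1 := hφ.one_le
  have h2 := hφ.one_le'
  have h3 : 1 ≤ Λ * γ := one_le_mul_of_one_le_of_one_le h2 h1
  rcases le_total s 1 with hs1 | hs1
  · refine (h.PT_le_one _).trans ((one_le_div hs).2 (hs1.trans ?_))
    nlinarith only [hC₀, h3]
  have a1 := hφ.weak (s / (8 * Λ)) (by positivity)
  have a2 := h0 (s / (16 * γ * Λ)) (by positivity)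
  have a3 := hφ.exp_tail h (t := s / (8 * Λ)) (D := s / (16 * γ * Λ)) (by positivity)
    (by positivity) s
  have a4 := h.PT_or_le (A := fun f => s ≤ acc φ f) (B := fun f => s / (8 * Λ) ≤ φ f)
    (C := fun f => s / (16 * γ * Λ) ≤ acc (fun _ => 1) f ∨ (φ f ≤ s / (8 * Λ) ∧
      acc (fun _ => 1) f ≤ s / (16 * γ * Λ) ∧ s ≤ acc φ f)) fun f hf => by
        by_contra hc
        push Not at hc
        exact absurd hf (not_le.2 (hc.2.2 hc.1.le hc.2.1.le))
  have a5 := h.PT_or_le (A := fun f => s / (16 * γ * Λ) ≤ acc (fun _ => 1) f ∨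
    (φ f ≤ s / (8 * Λ) ∧ acc (fun _ => 1) f ≤ s / (16 * γ * Λ) ∧ s ≤ acc φ f)) fun _ hf => hf
  have a6 : (s / (16 * γ * Λ) + 1) * Real.exp ((8 * γ * Λ * (s / (16 * γ * Λ)) - s) /
      (s / (8 * Λ))) ≤ Λ * γ / s := by
    rw [show (8 * γ * Λ * (s / (16 * γ * Λ)) - s) / (s / (8 * Λ)) = -(4 * Λ) by field_simp; ring,
      le_div_iff₀ hs]
    have b1 : s / (16 * γ * Λ) ≤ s := div_le_self hs.le (by nlinarith only [h3])
    have b2 : 2 ≤ Real.exp Λ := by linarith only [Real.add_one_le_exp Λ, h2]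
    calc _ ≤ (Real.exp Λ * Real.exp Λ) * Real.exp (-(4 * Λ)) * Real.exp Λ := by
          gcongr; nlinarith only [hs1, b1, hs, hs', b2]
      _ = Real.exp (-Λ) := by simp only [← Real.exp_add]; congr 1; ring
      _ ≤ _ := (Real.exp_le_one_iff.2 (by linarith only [h2])).trans h3
  have a7 : γ / (s / (8 * Λ)) = 8 * (Λ * γ / s) := by field_simp
  have a8 : C₀ / (s / (16 * γ * Λ)) = 16 * C₀ * (Λ * γ / s) := by field_simp
  have a9 : (9 + 16 * C₀) * Λ * γ / s = (9 + 16 * C₀) * (Λ * γ / s) := by ring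
  linarith only [a1, a2, a3, a4, a5, a6, a7, a8, a9]

theorem Good.Yf_weak (h : Good μ α c C) {s : ℝ} (hs : 1 ≤ s) :
    PT μ (fun f => s ≤ Yf α f) ≤ 4 / c / s := by
  have hc := h.c_pos
  have h1 : 1 ≤ ⌊s⌋₊ := Nat.le_floor (by simpa using hs)
  have h2 := ENNReal.toReal_le_of_le_ofReal (by positivity) (h.Yf_tail h1)
  refine (h.PT_mono fun f hf => (Nat.floor_le (by linarith only [hs])).trans hf).trans (le_trans h2 ?_)
  have h3 : (1 : ℝ) ≤ ⌊s⌋₊ := by exact_mod_cast h1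
  have h4 : s / 2 ≤ ⌊s⌋₊ := by linarith only [Nat.lt_floor_add_one s, h3]
  calc _ ≤ 2 / c * (1 / (s / 2)) := by gcongr
    _ = _ := by field_simp; ring

open Classical in
/-- The functional of the next level. -/
noncomputable def nxt (α : ℝ) (φ : F → ℝ) (irr : F → Prop) (m Λ : ℝ) (g : F) : ℝ :=
  if irr g then Real.exp Λ else min (Real.exp Λ) (m * (acc φ g + 1 + Yf α g))

theorem Good.lvl_step (h : Good μ α c C) : ∃ C₂ : ℝ, 1 ≤ C₂ ∧ ∀ (φ : F → ℝ) (γ Λ m : ℝ)
    (irr : F → Prop), Lvl μ φ γ Λ → 1 ≤ m → (∀ g : F, g.all fun a => irr a → irr g) →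
      PT μ irr ≤ Real.exp (-Λ) → Lvl μ (nxt α φ irr m Λ) (C₂ * m * Λ * γ) Λ := by
  obtain ⟨C₁, hC₁, h0⟩ := h.weak_acc
  have hc := h.c_pos
  have hα := h.one_lt
  have hc' : 0 < 12 / c := by positivity
  refine ⟨3 + 3 * C₁ + 12 / c, by linarith, fun φ γ Λ m irr hφ hm hi hp => ?_⟩
  have h1 := hφ.one_le
  have h2 := hφ.one_le'
  have h3 : 1 ≤ Λ * γ := one_le_mul_of_one_le_of_one_le h2 h1
  have h4 : m ≤ m * (Λ * γ) := le_mul_of_one_le_right (by linarith) h3
  have hacc : ∀ g, 0 ≤ acc φ g := fun g => (sumY_nonneg hφ.nonneg g).trans (sumY_le_acc g)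
  have hle : ∀ g, nxt α φ irr m Λ g ≤ Real.exp Λ := fun g => by
    rw [nxt]; split_ifs; exacts [le_rfl, min_le_left _ _]
  refine ⟨fun g => ?_, hle, fun g => (all_iff _ _).2 fun i hi' => ?_, fun s hs => ?_, ?_, h2⟩
  · rw [nxt]
    split_ifs
    · positivity
    · exact le_min (by positivity) (mul_nonneg (by linarith)
        (by linarith [hacc g, one_le_Yf hα g]))
  · by_cases hg : irr g
    · rw [nxt.eq_1 α φ irr m Λ g, if_pos hg]; exact hle _
    · rw [nxt, nxt, if_neg hg, if_neg fun h' => hg (all_child (hi g) hi' h')]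
      refine min_le_min le_rfl (mul_le_mul_of_nonneg_left ?_ (by linarith))
      linarith [all_child (acc_child_le hφ.nonneg g) hi', Yf_mono hα (size_child_lt hi').le]
  · rcases lt_or_ge (Real.exp Λ) s with hs' | hs'
    · rw [PT_false fun g hg => absurd (hg.trans (hle g)) (not_le.2 hs')]
      positivity
    rcases le_or_gt s (3 * m) with hs1 | hs1
    · refine (h.PT_le_one _).trans ((one_le_div hs).2 (hs1.trans ?_))
      nlinarith only [mul_nonneg (by linarith : 0 ≤ 3 * C₁ + 12 / c) (by linarith : 0 ≤ m * (Λ * γ)), h4, hC₁, hc', hm]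
    have hu : 1 < s / (3 * m) := (one_lt_div (by linarith)).2 hs1
    have a1 := h0 φ γ Λ hφ (s / (3 * m)) (by positivity)
      ((div_le_self hs.le (by linarith)).trans hs')
    have a2 := h.Yf_weak hu.le
    have a3 := h.PT_or_le (A := fun g => s ≤ nxt α φ irr m Λ g) (B := irr)
      (C := fun g => s / (3 * m) ≤ acc φ g ∨ s / (3 * m) ≤ Yf α g) fun g hg => by
        by_contra hc
        push Not at hc
        rw [nxt, if_neg hc.1] at hg
        have b1 := hg.trans (min_le_right _ _)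
        have b2 : s = m * (3 * (s / (3 * m))) := by field_simp
        have b3 : m * (acc φ g + 1 + Yf α g) < m * (3 * (s / (3 * m))) :=
          mul_lt_mul_of_pos_left (by linarith only [hc.2.1, hc.2.2, hu, hc]) (by linarith only [hm])
        linarith only [b1, b2, b3]
    have a4 := h.PT_or_le (A := fun g => s / (3 * m) ≤ acc φ g ∨ s / (3 * m) ≤ Yf α g)
      fun _ hf => hf
    have a5 : Real.exp (-Λ) ≤ 1 / s := by
      rw [Real.exp_neg, ← one_div]
      exact one_div_le_one_div_of_le hs hs'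
    have a6 : C₁ * Λ * γ / (s / (3 * m)) = 3 * C₁ * (m * (Λ * γ)) / s := by field_simp
    have a7 : 4 / c / (s / (3 * m)) = 12 / c * m / s := by field_simp; ring
    have a8 : 1 / s + (3 * C₁ * (m * (Λ * γ)) / s + 12 / c * m / s) ≤
        (3 + 3 * C₁ + 12 / c) * m * Λ * γ / s := by
      rw [← add_div, ← add_div]
      gcongr ?_ / _
      nlinarith only [mul_le_mul_of_nonneg_left h4 hc'.le, hm, h4, hc']
    linarith only [hp, a1, a2, a3, a4, a5, a6, a7, a8]
  · nlinarith only [mul_nonneg (by linarith : 0 ≤ 3 * C₁ + 12 / c) (by linarith : 0 ≤ m * (Λ * γ)), hm, h4, hC₁, hc']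

end Pool.Agent.MP_8702f5_pr

end

-- part MP_8702f5_pr.Transfer
section

/-! From the inductive coding to plane trees; events of negligible probability. -/

namespace Pool.Agent.MP_8702f5_pr

open Finset F Filter Topology
open scoped ENNReal

variable {μ μ' : ℕ → ℝ} {α α' c C c' C' : ℝ}

theorem finite_Fn (n : ℕ) : {f : F | f.size + 1 = n}.Finite :=
  (finite_size n).subset fun f hf => by simp only [Set.mem_ofPred_eq] at hf ⊢; omega

/-- The codes of the trees with `n` vertices. -/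
noncomputable def Fn (n : ℕ) : Finset F := (finite_Fn n).toFinset

theorem mem_Fn {n : ℕ} {f : F} : f ∈ Fn n ↔ f.size + 1 = n := by simp [Fn]

theorem weight_nonneg (h0 : ∀ k, 0 ≤ μ k) (t : PlaneTree) : 0 ≤ weight μ t :=
  prod_nonneg fun _ _ => h0 _

theorem weight_toPT (h0 : ∀ k, 0 ≤ μ k) (f : F) :
    μe μ f.len * wF (μe μ) f = ENNReal.ofReal (weight μ (toPT f)) := by
  rw [← prod_V, weight, ENNReal.ofReal_prod_of_nonneg fun _ _ => h0 _]
  refine prod_congr rfl fun u hu => ?_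
  rw [outdeg_toPT ((mem_V _ _).1 hu)]
  split_ifs with h
  · rw [h]; rfl
  · rfl

open Classical in
theorem PT_eq_sum (h0 : ∀ k, 0 ≤ μ k) (n : ℕ) (A : F → Prop) :
    PT μ (fun f => f.size + 1 = n ∧ A f) = ∑ f ∈ (Fn n).filter A, weight μ (toPT f) := by
  rw [PT, ET, tsum_eq_sum (s := (Fn n).filter A), sum_congr rfl (g := fun f =>
    ENNReal.ofReal (weight μ (toPT f))), ← ENNReal.ofReal_sum_of_nonneg
    fun _ _ => weight_nonneg h0 _, ENNReal.toReal_ofReal (sum_nonneg fun _ _ => weight_nonneg h0 _)]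
  · intro f hf
    rw [mem_filter, mem_Fn] at hf
    rw [ind_pos hf, mul_one, weight_toPT h0]
  · intro f hf
    rw [mem_filter, mem_Fn] at hf
    rw [ind_neg hf, mul_zero]

theorem card_toPT (f : F) : (toPT f).verts.card = f.size + 1 := card_V f

theorem sizeProb_eq_sum (n : ℕ) : sizeProb μ n = ∑ f ∈ Fn n, weight μ (toPT f) := by
  have : {t : PlaneTree | t.verts.card = n} = toPT '' (Fn n) := by
    ext t
    obtain ⟨f, rfl⟩ := toPT_surjective t
    simp [card_toPT, toPT_injective.eq_iff, mem_Fn]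
  rw [sizeProb, this, finsum_mem_image toPT_injective.injOn, finsum_mem_coe_finset]

theorem sizeProb_eq (h0 : ∀ k, 0 ≤ μ k) (n : ℕ) :
    sizeProb μ n = PT μ fun f => f.size + 1 = n := by
  have := PT_eq_sum h0 n fun _ => True
  simp only [and_true, filter_true] at this
  rw [this, sizeProb_eq_sum]

open Classical in
theorem pairProb_eq (n : ℕ) (A : PlaneTree → PlaneTree → Prop) : pairProb μ μ' n A =
    (∑ p ∈ (Fn n ×ˢ Fn n).filter (fun p => A (toPT p.1) (toPT p.2)),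
      weight μ (toPT p.1) * weight μ' (toPT p.2)) / (sizeProb μ n * sizeProb μ' n) := by
  have : {p : PlaneTree × PlaneTree | p.1.verts.card = n ∧ p.2.verts.card = n ∧ A p.1 p.2} =
      Prod.map toPT toPT '' ↑((Fn n ×ˢ Fn n).filter fun p => A (toPT p.1) (toPT p.2)) := by
    ext ⟨t, t'⟩
    obtain ⟨f, rfl⟩ := toPT_surjective t
    obtain ⟨f', rfl⟩ := toPT_surjective t'
    rw [show (toPT f, toPT f') = Prod.map toPT toPT (f, f') from rfl,
      (toPT_injective.prodMap toPT_injective).mem_set_image]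
    simp [card_toPT, mem_Fn, and_assoc]
  rw [pairProb, this, finsum_mem_image (toPT_injective.prodMap toPT_injective).injOn,
    finsum_mem_coe_finset]
  rfl

theorem pairProb_le_one (h0 : ∀ k, 0 ≤ μ k) (h0' : ∀ k, 0 ≤ μ' k) (n : ℕ)
    (A : PlaneTree → PlaneTree → Prop) : pairProb μ μ' n A ≤ 1 := by
  classical
  rw [pairProb_eq]
  refine div_le_one_of_le₀ ?_ (by
    rw [sizeProb_eq h0, sizeProb_eq h0']; exact mul_nonneg (PT_nonneg _) (PT_nonneg _))
  rw [sizeProb_eq_sum, sizeProb_eq_sum, sum_mul_sum, ← sum_product']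
  exact sum_le_sum_of_subset_of_nonneg (filter_subset _ _) fun _ _ _ =>
    mul_nonneg (weight_nonneg h0 _) (weight_nonneg h0' _)

theorem le_pairProb (h : Good μ α c C) (h' : Good μ' α' c' C') {n : ℕ} (hn : 0 < sizeProb μ n)
    (hn' : 0 < sizeProb μ' n) {A : PlaneTree → PlaneTree → Prop} {B B' : F → Prop} {ε : ℝ}
    (hε : ε ≤ 1) (hB : PT μ (fun f => f.size + 1 = n ∧ B f) ≤ ε * sizeProb μ n)
    (hB' : PT μ' (fun f => f.size + 1 = n ∧ B' f) ≤ ε * sizeProb μ' n)
    (hA : ∀ f f', f.size + 1 = n → f'.size + 1 = n → ¬B f → ¬B' f' → A (toPT f) (toPT f')) :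
    (1 - ε) ^ 2 ≤ pairProb μ μ' n A := by
  classical
  have h1 : (1 - ε) * sizeProb μ n ≤ PT μ (fun f => f.size + 1 = n ∧ ¬B f) := by
    have := h.PT_or_le (A := fun f => f.size + 1 = n) (B := fun f => f.size + 1 = n ∧ B f)
      (C := fun f => f.size + 1 = n ∧ ¬B f) fun f hf => by tauto
    rw [← sizeProb_eq h.nonneg] at this
    linarith
  have h2 : (1 - ε) * sizeProb μ' n ≤ PT μ' (fun f => f.size + 1 = n ∧ ¬B' f) := by
    have := h'.PT_or_le (A := fun f => f.size + 1 = n) (B := fun f => f.size + 1 = n ∧ B' f)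
      (C := fun f => f.size + 1 = n ∧ ¬B' f) fun f hf => by tauto
    rw [← sizeProb_eq h'.nonneg] at this
    linarith
  rw [pairProb_eq, le_div_iff₀ (mul_pos hn hn')]
  calc _ = (1 - ε) * sizeProb μ n * ((1 - ε) * sizeProb μ' n) := by ring
    _ ≤ PT μ (fun f => f.size + 1 = n ∧ ¬B f) * PT μ' (fun f => f.size + 1 = n ∧ ¬B' f) :=
        mul_le_mul h1 h2 (mul_nonneg (by linarith) hn'.le) (PT_nonneg _)
    _ ≤ _ := by
        rw [PT_eq_sum h.nonneg, PT_eq_sum h'.nonneg, sum_mul_sum, ← sum_product']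
        refine sum_le_sum_of_subset_of_nonneg (fun p hp => ?_) fun _ _ _ =>
          mul_nonneg (weight_nonneg h.nonneg _) (weight_nonneg h'.nonneg _)
        simp only [mem_product, mem_filter, mem_Fn] at hp ⊢
        exact ⟨⟨hp.1.1, hp.2.1⟩, hA _ _ hp.1.1 hp.2.1 hp.1.2 hp.2.2⟩

theorem tendsto_log_nat : Tendsto (fun n : ℕ => Real.log n) atTop atTop :=
  Real.tendsto_log_atTop.comp tendsto_natCast_atTop_atTop

/-- Smaller than every quasi-polynomial rate. -/
def Negl (f : ℕ → ℝ) : Prop := ∀ A : ℝ, ∀ᶠ n : ℕ in atTop, f n ≤ Real.exp (-(A * Real.log n ^ 2))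

theorem Negl.of_le {f g : ℕ → ℝ} (h : Negl f) (hg : ∀ᶠ n in atTop, g n ≤ f n) : Negl g := by
  intro A
  filter_upwards [h A, hg] with n h1 h2 using h2.trans h1

theorem Negl.mul_nat {f : ℕ → ℝ} (h : Negl f) : Negl fun n => n * f n := fun A => by
  filter_upwards [h (A + 1), tendsto_log_nat.eventually_ge_atTop 1, eventually_ge_atTop 1]
    with n h1 h2 h3
  have h4 : (0 : ℝ) < n := by exact_mod_cast h3
  calc _ ≤ Real.exp (Real.log n) * Real.exp (-((A + 1) * Real.log n ^ 2)) := by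
        rw [Real.exp_log h4]; gcongr
    _ ≤ _ := by rw [← Real.exp_add]; exact Real.exp_le_exp.2 (by nlinarith)

theorem Negl.add {f g : ℕ → ℝ} (h : Negl f) (hg : Negl g) : Negl fun n => f n + g n := by
  have : Negl fun n => max (max (f n) (g n)) 0 := fun A => by
    filter_upwards [h A, hg A] with n h1 h2 using max_le (max_le h1 h2) (Real.exp_pos _).le
  refine this.mul_nat.of_le ?_
  filter_upwards [eventually_ge_atTop 2] with n hn
  have h1 : (2 : ℝ) ≤ n := by exact_mod_cast hn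
  have h2 : f n ≤ max (max (f n) (g n)) 0 := le_max_of_le_left (le_max_left _ _)
  have h3 : g n ≤ max (max (f n) (g n)) 0 := le_max_of_le_left (le_max_right _ _)
  nlinarith [le_max_right (max (f n) (g n)) 0]

theorem negl_cube {a : ℝ} (ha : 0 < a) : Negl fun n => Real.exp (-(a * Real.log n ^ 3)) :=
  fun A => by
  filter_upwards [tendsto_log_nat.eventually_ge_atTop (A / a)] with n h1
  rw [div_le_iff₀ ha] at h1
  exact Real.exp_le_exp.2 (by nlinarith [sq_nonneg (Real.log n)])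

theorem log_pow_le_rpow {γ : ℝ} (hγ : 0 < γ) (k : ℕ) :
    ∀ᶠ n : ℕ in atTop, Real.log n ^ k ≤ (n : ℝ) ^ γ := by
  have := tendsto_natCast_atTop_atTop.eventually
    ((isLittleO_log_rpow_rpow_atTop (k : ℝ) hγ).bound one_pos)
  filter_upwards [this] with n hn
  rw [Real.rpow_natCast, one_mul, Real.norm_of_nonneg (r := (n : ℝ) ^ γ) (by positivity)] at hn
  exact (le_abs_self _).trans hn

theorem negl_rpow {a γ : ℝ} (ha : 0 < a) (hγ : 0 < γ) :
    Negl fun n => Real.exp (-(a * (n : ℝ) ^ γ)) := by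
  refine (negl_cube ha).of_le ?_
  filter_upwards [log_pow_le_rpow hγ 3] with n hn
  gcongr

theorem Good.negl_small (h : Good μ α c C) : Negl fun n =>
    PT μ fun f => f.size + 1 = n ∧ f.small ⌈(n : ℝ) ^ (1 / α) / Real.log n ^ 3⌉₊ := by
  have hc := h.c_pos
  have hα := h.one_lt
  refine (negl_cube (show 0 < c / 4 by positivity)).of_le ?_
  filter_upwards [log_pow_le_rpow (show 0 < 1 / α by positivity) 3,
    tendsto_log_nat.eventually_ge_atTop 1, eventually_ge_atTop 1] with n h1 h2 h3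
  have hn : (0 : ℝ) < n := by exact_mod_cast h3
  refine (h.PT_size_small _ n).trans (Real.exp_le_exp.2 (neg_le_neg ?_))
  set x := (n : ℝ) ^ (1 / α) / Real.log n ^ 3 with hx
  have hx1 : 1 ≤ x := by rw [hx, le_div_iff₀ (by positivity)]; linarith
  have hK : 1 ≤ ⌈x⌉₊ := Nat.one_le_ceil_iff.2 (by linarith)
  have hK' : (1 : ℝ) ≤ ⌈x⌉₊ := by exact_mod_cast hK
  have a1 : (2 * x) ^ (-α) ≤ (⌈x⌉₊ : ℝ) ^ (-α) :=
    Real.rpow_le_rpow_of_nonpos (by positivity)
      (by linarith [Nat.ceil_lt_add_one (show 0 ≤ x by positivity)]) (by linarith)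
  have a2 : (1 / 4 : ℝ) ≤ 2 ^ (-α) := by
    have := Real.rpow_le_rpow_of_exponent_le (show (1 : ℝ) ≤ 2 by norm_num)
      (show (-2 : ℝ) ≤ -α by linarith [h.lt_two])
    rw [Real.rpow_neg (by norm_num) 2, Real.rpow_two] at this
    linarith
  have a3 : n * x ^ (-α) = (Real.log n ^ 3) ^ α := by
    rw [hx, Real.div_rpow (by positivity) (by positivity), ← Real.rpow_mul hn.le,
      show 1 / α * -α = -1 by field_simp, Real.rpow_neg_one, Real.rpow_neg (by positivity)]
    field_simp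
  have a4 : Real.log n ^ 3 ≤ (Real.log n ^ 3) ^ α := by
    simpa using Real.rpow_le_rpow_of_exponent_le (one_le_pow₀ h2 : 1 ≤ Real.log n ^ 3) hα.le
  rw [Real.mul_rpow (by norm_num) (by positivity)] at a1
  calc c / 4 * Real.log n ^ 3 ≤ c * (1 / 4) * (n * x ^ (-α)) := by
        rw [a3, mul_one_div]; gcongr
    _ ≤ c * 2 ^ (-α) * (n * x ^ (-α)) := by gcongr
    _ = n * (c * (2 ^ (-α) * x ^ (-α))) := by ring
    _ ≤ n * (c * (⌈x⌉₊ : ℝ) ^ (-α)) := by gcongr
    _ ≤ _ := by gcongr; exact h.lower _ hK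

theorem Good.negl_large (h : Good μ α c C) {θ : ℝ} (hθ : 1 / α < θ) : Negl fun n =>
    PT μ fun f => f.size + 1 = n ∧ ¬f.small (⌊(n : ℝ) ^ θ⌋₊ + 1) := by
  have hα := h.one_lt
  have hC := h.C_ge
  refine (negl_rpow (show (0 : ℝ) < 1 / 2 by norm_num) (sub_pos.2 hθ)).mul_nat.mul_nat.of_le ?_
  filter_upwards [tendsto_log_nat.eventually_ge_atTop (3 * C), eventually_ge_atTop 1] with n h2 h3
  have hn : (1 : ℝ) ≤ n := by exact_mod_cast h3
  set x := (n : ℝ) ^ (1 / α) with hx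
  have hx1 : 1 ≤ x := Real.one_le_rpow hn (by positivity)
  have hK : 1 ≤ ⌈x⌉₊ := Nat.one_le_ceil_iff.2 (by linarith)
  have hK' : (1 : ℝ) ≤ ⌈x⌉₊ := by exact_mod_cast hK
  refine (h.PT_size_large hK _ n).trans ?_
  gcongr
  have a1 : n * (⌈x⌉₊ : ℝ) ^ (-α) ≤ 1 := by
    have b1 : (⌈x⌉₊ : ℝ) ^ (-α) ≤ x ^ (-α) :=
      Real.rpow_le_rpow_of_nonpos (by positivity) (Nat.le_ceil x) (by linarith)
    rw [hx, ← Real.rpow_mul (by positivity), show 1 / α * -α = -1 by field_simp,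
      Real.rpow_neg_one, ← hx] at b1
    calc _ ≤ (n : ℝ) * (n : ℝ)⁻¹ := by gcongr
      _ = 1 := mul_inv_cancel₀ (by positivity)
  have a2 : 1 / 2 * (n : ℝ) ^ (θ - 1 / α) ≤ (⌊(n : ℝ) ^ θ⌋₊ + 1) / ⌈x⌉₊ := by
    rw [Real.rpow_sub (by positivity), ← hx, le_div_iff₀ (by positivity)]
    have b1 : (⌈x⌉₊ : ℝ) ≤ 2 * x := by linarith [Nat.ceil_lt_add_one (show 0 ≤ x by positivity)]
    calc _ ≤ 1 / 2 * ((n : ℝ) ^ θ / x) * (2 * x) := by gcongr
      _ = (n : ℝ) ^ θ := by field_simp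
      _ ≤ _ := (Nat.lt_floor_add_one _).le
  calc _ ≤ Real.exp (Real.log n + -(1 / 2 * (n : ℝ) ^ (θ - 1 / α))) :=
        Real.exp_le_exp.2 (by nlinarith)
    _ = _ := by rw [Real.exp_add, Real.exp_log (by positivity)]

theorem Good.negl_any (h : Good μ α c C) (G : ℕ → ℕ → F → Prop) (a : ℕ → ℕ → Prop)
    (hG : ∀ᶠ n : ℕ in atTop, ∀ M : ℕ, (n : ℝ) ^ (1 / 4 : ℝ) ≤ M → ∀ l, a M l →
      P μ l (fun f => ¬G n M f) ≤ Real.exp (-(M : ℝ) ^ (1 / 4 : ℝ))) :
    Negl fun n => PT μ (anyV (fun g => ∃ M ∈ Icc ⌈(n : ℝ) ^ (1 / 4 : ℝ)⌉₊ n,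
      a M g.len ∧ ¬G n M g) n) := by
  refine (negl_rpow one_pos (show (0 : ℝ) < 1 / 16 by norm_num)).mul_nat.mul_nat.of_le ?_
  have t1 : Tendsto (fun M : ℕ => (M : ℝ) ^ (1 / 4 : ℝ)) atTop atTop :=
    (tendsto_rpow_atTop (by norm_num)).comp tendsto_natCast_atTop_atTop
  filter_upwards [hG, t1.eventually_gt_atTop 0] with n hG h2
  refine (h.PT_anyV_le _ n).trans ?_
  gcongr
  refine h.PT_le_of_P_le (by positivity) fun l => ?_
  refine (h.P_exists_le (Icc ⌈(n : ℝ) ^ (1 / 4 : ℝ)⌉₊ n) (fun M g => a M l ∧ ¬G n M g)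
    fun g hg hg' => by rwa [← hg]).trans ?_
  refine (sum_le_card_nsmul _ _ (Real.exp (-(1 * (n : ℝ) ^ (1 / 16 : ℝ)))) fun M hM => ?_).trans ?_
  · have a1 : (n : ℝ) ^ (1 / 4 : ℝ) ≤ M := Nat.ceil_le.1 (mem_Icc.1 hM).1
    by_cases ha : a M l
    · refine (h.P_mono fun g _ hg => hg.2).trans ((hG M a1 l ha).trans
        (Real.exp_le_exp.2 (neg_le_neg ?_)))
      refine le_trans (le_of_eq ?_) (Real.rpow_le_rpow (by positivity) a1 (by norm_num))
      rw [← Real.rpow_mul (by positivity)]; norm_num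
    · refine (h.P_exists_le (∅ : Finset ℕ) (fun _ _ => True) fun f _ hf' =>
        absurd hf'.1 ha).trans ?_
      rw [sum_empty]; positivity
  · rw [nsmul_eq_mul, Nat.card_Icc]
    gcongr
    have := Nat.one_le_ceil_iff.2 h2
    omega

theorem Good.negl_le (h : Good μ α c C) {f : ℕ → ℝ} (hf : Negl f) {ε : ℝ} (hε : 0 < ε) :
    ∀ᶠ n : ℕ in atTop, 0 < sizeProb μ n → f n ≤ ε * sizeProb μ n := by
  obtain ⟨A, hA, h1⟩ := h.q_lower
  filter_upwards [h1, hf.mul_nat (A + 1), tendsto_log_nat.eventually_ge_atTop 1,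
    tendsto_log_nat.eventually_ge_atTop (-Real.log ε), eventually_ge_atTop 1] with n h1 h2 h3 h4 h5
    hpos
  have hn : (0 : ℝ) < n := by exact_mod_cast h5
  rw [sizeProb_eq h.nonneg, h.PT_size h5] at hpos ⊢
  rw [← mul_div_assoc, le_div_iff₀ hn, mul_comm]
  refine h2.trans (le_trans ?_ (mul_le_mul_of_nonneg_left
    (h1 ((div_pos_iff_of_pos_right hn).1 hpos)) hε.le))
  rw [← Real.exp_log hε, ← Real.exp_add]
  exact Real.exp_le_exp.2 (by nlinarith)

end Pool.Agent.MP_8702f5_pr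

end

-- part MP_8702f5_pr.Level
section

/-! The recursive matching: two large forests have a common rooted subforest of size at least
`M (log M) ^ m`, with overwhelming probability. -/

namespace Pool.Agent.MP_8702f5_pr

open Finset F Filter Topology

variable {μ μ' : ℕ → ℝ} {α α' c C ρ η : ℝ} {r : ℕ}

theorem Good.weaken {c₁ C₁ : ℝ} (h : Good μ α c₁ C₁) (hc0 : 0 < c) (hc : c ≤ c₁) (hC : C₁ ≤ C) :
    Good μ α c C :=
  ⟨h.nonneg, h.total, h.mean, h.zero_pos, h.one_lt, h.lt_two, hc0, hc.trans h.c_le,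
    h.C_ge.trans hC,
    fun k hk => le_trans (by gcongr) (h.lower k hk),
    fun k hk => (h.upper k hk).trans (by gcongr),
    fun k hk => (h.first k hk).trans (by gcongr),
    fun k => (h.second k).trans (by gcongr)⟩

theorem Bev.com {k K k' K' : ℕ} {G G' : F → Prop} {x : ℝ}
    (hG : ∀ g g', G g → G' g' → Com g g' x) :
    ∀ {h : ℕ} {f f' : F}, Bev k K G h f → Bev k' K' G' h f' → Com f f' x
  | 0, _, _, hf, hf' => hG _ _ hf.2.2 hf'.2.2
  | _ + 1, f, f', hf, hf' => by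
    obtain ⟨i, hi, h1⟩ := (ex_iff _ f).1 hf.2.2
    obtain ⟨j, hj, h2⟩ := (ex_iff _ f').1 hf'.2.2
    exact com_lift hi hj (Bev.com hG h1 h2)

theorem Bev.index_eq {k K : ℕ → ℕ} {G : ℕ → F → Prop} (h1 : ∀ j, k j ≤ K j)
    (h2 : ∀ j j', j < j' → K j ≤ k j') {i i' : Σ _ : ℕ, ℕ} {f : F}
    (hf : Bev (k i.1) (K i.1) (G i.1) i.2 f) (hf' : Bev (k i'.1) (K i'.1) (G i'.1) i'.2 f) :
    i = i' := by
  obtain ⟨j, h⟩ := i
  obtain ⟨j', h'⟩ := i'
  rcases lt_trichotomy j j' with hj | rfl | hj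
  · exact absurd (small_mono (h2 j j' hj) (hf.small (h1 j))) hf'.not_small
  · rw [show h = h' from hf.height_eq (h1 j) hf']
  · exact absurd (small_mono (h2 j' j hj) (hf'.small (h1 j'))) hf.not_small

/-- Good events for forests with at least `M ^ ρ`, respectively `M`, trees, which force a common
rooted subforest of size `x`. -/
def Lev (μ μ' : ℕ → ℝ) (ρ : ℝ) (M : ℕ) (x : ℝ) : Prop :=
  ∃ G G' : F → Prop,
    (∀ l : ℕ, (M : ℝ) ^ ρ ≤ l → P μ l (fun f => ¬G f) ≤ Real.exp (-(M : ℝ) ^ (1 / 4 : ℝ))) ∧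
    (∀ l : ℕ, M ≤ l → P μ' l (fun f => ¬G' f) ≤ Real.exp (-(M : ℝ) ^ (1 / 4 : ℝ))) ∧
    ∀ f f', G f → G' f' → Com f f' x

theorem level_zero (h : Good μ α c C) (h' : Good μ' α' c C) (hρ : 1 ≤ ρ) {M : ℕ} (hM : 1 ≤ M) :
    Lev μ μ' ρ M M := by
  refine ⟨fun f => M ≤ f.len, fun f => M ≤ f.len, fun l hl => ?_, fun l hl => ?_,
    fun f f' hf hf' => ?_⟩
  · have : M ≤ l := by
      have h1 : (1 : ℝ) ≤ M := by exact_mod_cast hM
      have h2 := Real.rpow_le_rpow_of_exponent_le h1 hρ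
      rw [Real.rpow_one] at h2
      exact_mod_cast h2.trans hl
    refine (h.P_exists_le (∅ : Finset ℕ) (fun _ _ => True) fun f hf hf' =>
      absurd (hf ▸ this) hf').trans ?_
    rw [sum_empty]; positivity
  · refine (h'.P_exists_le (∅ : Finset ℕ) (fun _ _ => True) fun f hf hf' =>
      absurd (hf ▸ hl) hf').trans ?_
    rw [sum_empty]; positivity
  · refine (com_combine (τ := Fin M) Fin.val Fin.val (fun _ => 0) (fun t => t.2.trans_le hf)
      (fun t => t.2.trans_le hf') Fin.val_injective Fin.val_injective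
      fun _ => com_zero _ _).mono ?_
    simp

theorem Good.P_count (h : Good μ α c C) {ι : Type*} (s : Finset ι) (B : ι → F → Prop) (x : ι → ℝ)
    (l : ℕ) {y : ℝ} (hx : ∀ i ∈ s, x i ≤ PT μ (B i) * l / 4) (hy : ∀ i ∈ s, y ≤ x i) :
    P μ l (fun f => ¬∀ i ∈ s, ⌈x i⌉₊ ≤ f.cnt (B i)) ≤ s.card * Real.exp (-y) := by
  refine (h.P_exists_le s (fun i f => (f.cnt (B i) : ℝ) < x i) fun f _ hf => ?_).trans ?_
  · push Not at hf
    obtain ⟨i, hi, h1⟩ := hf
    exact ⟨i, hi, Nat.lt_ceil.1 h1⟩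
  · rw [← nsmul_eq_mul]
    exact sum_le_card_nsmul _ _ _ fun i hi => (h.chernoff _ l (hx i hi)).trans
      (Real.exp_le_exp.2 (neg_le_neg (hy i hi)))

theorem eventually_exp_le {a : ℝ} (ha : 0 < a) : ∀ᶠ M : ℕ in atTop,
    2 * (M : ℝ) ^ 2 * Real.exp (-(a * (M : ℝ) ^ (1 / 2 : ℝ))) ≤
      Real.exp (-(M : ℝ) ^ (1 / 4 : ℝ)) := by
  have h1 : Tendsto (fun M : ℕ => (M : ℝ) ^ (1 / 4 : ℝ)) atTop atTop :=
    (tendsto_rpow_atTop (by norm_num)).comp tendsto_natCast_atTop_atTop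
  filter_upwards [h1.eventually_ge_atTop 1, h1.eventually_ge_atTop (10 / a)] with M h2 h3
  have e1 : (M : ℝ) ^ (1 / 2 : ℝ) = ((M : ℝ) ^ (1 / 4 : ℝ)) ^ 2 := by
    rw [← Real.rpow_natCast, ← Real.rpow_mul (Nat.cast_nonneg M)]; norm_num
  have e2 : (M : ℝ) ^ 2 = ((M : ℝ) ^ (1 / 4 : ℝ)) ^ 8 := by
    rw [← Real.rpow_natCast _ 8, ← Real.rpow_mul (Nat.cast_nonneg M), ← Real.rpow_natCast]
    norm_num
  rw [e1, e2]
  generalize (M : ℝ) ^ (1 / 4 : ℝ) = y at h2 h3
  have a1 := Real.add_one_le_exp y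
  calc _ ≤ Real.exp y * Real.exp y ^ 8 * Real.exp (-(a * y ^ 2)) := by
        gcongr <;> linarith only [h2, a1]
    _ = Real.exp (9 * y - a * y ^ 2) := by
        rw [← Real.exp_nat_mul, ← Real.exp_add, ← Real.exp_add]; congr 1; push_cast; ring
    _ ≤ _ := by
        refine Real.exp_le_exp.2 ?_
        rw [div_le_iff₀ ha] at h3
        nlinarith only [h3, h2]

theorem level_succ (h : Good μ α c C) (h' : Good μ' α' c C) (hr : 1 ≤ r) (hρ : ρ ≤ r)
    (hα : α' - 1 ≤ r * (α - 1)) (hη0 : 0 < η) (hη : η ≤ 1 / 4) (hηρ : η * (r * α - α') ≤ ρ - 1) :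
    ∃ a : ℝ, 0 < a ∧ ∀ᶠ M : ℕ in atTop, ∀ (κ : ℝ) (m : ℕ), 0 < κ →
      (∀ k : ℕ, η / 4 * Real.log M ≤ Real.log k → Lev μ μ' ρ k (κ * k * Real.log k ^ m)) →
      Lev μ μ' ρ M (a * κ * (η / 4) ^ m * M * Real.log M ^ (m + 1)) := by
  have hc := h.c_pos
  have hC := h.C_ge
  have hr' : (1 : ℝ) ≤ r := by exact_mod_cast hr
  have t1 : Tendsto (fun M : ℕ => Real.exp (-(M : ℝ) ^ (1 / 4 : ℝ))) atTop (𝓝 0) :=
    Real.tendsto_exp_neg_atTop_nhds_zero.comp
      ((tendsto_rpow_atTop (by norm_num)).comp tendsto_natCast_atTop_atTop)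
  obtain ⟨M₀, g4⟩ := eventually_atTop.1 (t1.eventually (ge_mem_nhds
    (show (0 : ℝ) < 1 / 4 by norm_num)))
  set L' := ⌈2 * C / c⌉₊ + 1 with hL'def
  have hL' : 2 * C / c ≤ L' := by
    rw [hL'def]; push_cast; linarith only [Nat.le_ceil (2 * C / c), hη0, hη]
  have hL'1 : 1 ≤ L' := by omega
  set L := 2 * L' with hLdef
  have hL2 : 2 ≤ L := by omega
  have hL1 : (1 : ℝ) < L := by exact_mod_cast (by omega : 1 < L)
  have hlg : 0 < Real.log L := Real.log_pos hL1
  set η₁ := η / (2 * Real.log L) with hη₁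
  have hη₁0 : 0 < η₁ := by positivity
  set δ := 1 / (6 * C) with hδ
  have hδ0 : 0 < δ := by positivity
  have hδ1 : δ ≤ 1 := by rw [hδ, div_le_one (by positivity)]; linarith only [hη0, hη, hC]
  refine ⟨η₁ / 2 * (δ * (c / 64)), by positivity, ?_⟩
  have t2 : Tendsto (fun M : ℕ => η₁ * Real.log M) atTop atTop :=
    (Real.tendsto_log_atTop.comp tendsto_natCast_atTop_atTop).const_mul_atTop hη₁0
  filter_upwards [t2.eventually_ge_atTop 2, t2.eventually_ge_atTop M₀, eventually_ge_atTop 1,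
    eventually_exp_le (show 0 < c / 64 by positivity)] with M e1 e2 e3 e4 κ m hκ hm
  choose! G G' g1 g2 g3 using hm
  have hM1 : (1 : ℝ) ≤ M := by exact_mod_cast e3
  have hM0 : (0 : ℝ) < M := by positivity
  have hlM : 0 ≤ Real.log M := Real.log_nonneg hM1
  set J := ⌊η₁ * Real.log M⌋₊ with hJ
  have hJ1 : (J : ℝ) ≤ η₁ * Real.log M := Nat.floor_le (by positivity)
  have hJ2 : η₁ * Real.log M / 2 ≤ J := by linarith only [Nat.lt_floor_add_one (η₁ * Real.log M), e1]
  have hJ3 : M₀ ≤ J := Nat.le_floor e2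
  have k1 : ∀ j, 1 ≤ L ^ j := fun j => Nat.one_le_pow _ _ (by omega)
  have k1' : ∀ j, (1 : ℝ) ≤ ((L ^ j : ℕ) : ℝ) := fun j => by exact_mod_cast k1 j
  have k2 : ∀ j ∈ Ico J (2 * J), J ≤ L ^ j := fun j hj =>
    (mem_Ico.1 hj).1.trans (Nat.lt_pow_self (by omega)).le
  have k3 : ∀ j ∈ Ico J (2 * J), ((L ^ j : ℕ) : ℝ) ≤ (M : ℝ) ^ η := by
    intro j hj
    rw [Real.le_rpow_iff_log_le (by linarith only [k1' j, hη0, hη]) hM0]
    push_cast
    rw [Real.log_pow]
    have a1 : (j : ℝ) ≤ 2 * J := by exact_mod_cast (mem_Ico.1 hj).2.le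
    calc (j : ℝ) * Real.log L ≤ 2 * (η₁ * Real.log M) * Real.log L := by gcongr; linarith only [hJ1, a1]
      _ = _ := by rw [hη₁]; field_simp
  have k4 : ∀ j ∈ Ico J (2 * J), η / 4 * Real.log M ≤ Real.log ((L ^ j : ℕ) : ℝ) := by
    intro j hj
    push_cast
    rw [Real.log_pow]
    have a1 : (J : ℝ) ≤ j := by exact_mod_cast (mem_Ico.1 hj).1
    calc _ = η₁ * Real.log M / 2 * Real.log L := by rw [hη₁]; field_simp; ring
      _ ≤ _ := by gcongr; linarith only [hJ2, a1]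
  have k5 : ∀ j ∈ Ico J (2 * J), ((L ^ j : ℕ) : ℝ) ≤ M := fun j hj => (k3 j hj).trans (by
    simpa using Real.rpow_le_rpow_of_exponent_le hM1 (show η ≤ 1 by linarith only [hη0, hη]))
  have k6 : ∀ j, ((L ^ (r * j) : ℕ) : ℝ) = ((L ^ j : ℕ) : ℝ) ^ (r : ℝ) := fun j => by
    rw [Real.rpow_natCast, mul_comm, pow_mul]; push_cast; rfl
  set s := (Ico J (2 * J)).sigma fun j => range ⌈δ * ((L ^ j : ℕ) : ℝ) ^ (α' - 1)⌉₊ with hs
  set x : (Σ _ : ℕ, ℕ) → ℝ := fun i => c / 64 * M * ((L ^ i.1 : ℕ) : ℝ) ^ (-α') with hx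
  have hy : ∀ i ∈ s, c / 64 * (M : ℝ) ^ (1 / 2 : ℝ) ≤ x i := by
    intro i hi
    have hj := (mem_sigma.1 hi).1
    simp only [hx]
    rw [mul_assoc]
    gcongr
    have a1 : ((M : ℝ) ^ η) ^ (-α') ≤ ((L ^ i.1 : ℕ) : ℝ) ^ (-α') :=
      Real.rpow_le_rpow_of_nonpos (by linarith only [k1' i.1, hη0, hη]) (k3 _ hj) (by linarith only [h'.one_lt, hη0, hη])
    refine le_trans ?_ (mul_le_mul_of_nonneg_left a1 hM0.le)
    rw [← Real.rpow_mul hM0.le, ← Real.rpow_one_add' hM0.le (by nlinarith only [h'.lt_two, hη, hη0])]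
    exact Real.rpow_le_rpow_of_exponent_le hM1 (by nlinarith only [h'.lt_two, hη, hη0])
  have hcard : (s.card : ℝ) ≤ 2 * (M : ℝ) ^ 2 := by
    rw [hs, card_sigma]
    push_cast
    have a1 : ∀ j ∈ Ico J (2 * J), ((range ⌈δ * ((L : ℝ) ^ j) ^ (α' - 1)⌉₊).card : ℝ) ≤ 2 * M := by
      intro j hj
      rw [card_range]
      have b1 := k1' j
      have b2 := k5 j hj
      push_cast at b1 b2
      have b3 : ((L : ℝ) ^ j) ^ (α' - 1) ≤ (L : ℝ) ^ j := by
        simpa using Real.rpow_le_rpow_of_exponent_le b1 (show α' - 1 ≤ 1 by linarith only [h'.lt_two])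
      have b4 : δ * ((L : ℝ) ^ j) ^ (α' - 1) ≤ 1 * (L : ℝ) ^ j := by gcongr
      have b5 := (Nat.ceil_lt_add_one (show 0 ≤ δ * ((L : ℝ) ^ j) ^ (α' - 1) by positivity)).le
      linarith only [hM1, b2, b4, b5]
    refine (sum_le_card_nsmul _ _ _ a1).trans ?_
    rw [Nat.card_Ico, nsmul_eq_mul, show 2 * J - J = J by omega]
    have a2 : (J : ℝ) ≤ M := by
      rcases Nat.eq_zero_or_pos J with h0 | h0
      · rw [h0]; simp
      · have hj : J ∈ Ico J (2 * J) := mem_Ico.2 ⟨le_rfl, by omega⟩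
        exact le_trans (by exact_mod_cast k2 J hj) (k5 J hj)
    nlinarith only [a2]
  refine ⟨fun f => ∀ i ∈ s, ⌈x i⌉₊ ≤ f.cnt
      (Bev (L ^ (r * i.1)) (L * L ^ (r * i.1)) (G (L ^ i.1)) i.2),
    fun f => ∀ i ∈ s, ⌈x i⌉₊ ≤ f.cnt (Bev (L ^ i.1) (L * L ^ i.1) (G' (L ^ i.1)) i.2),
    fun l hl => ?_, fun l hl => ?_, fun f f' hf hf' => ?_⟩
  · refine (h.P_count s _ x l (fun i hi => ?_) hy).trans (le_trans (by gcongr) e4)
    obtain ⟨hj, hh⟩ := mem_sigma.1 hi
    have b0 := k1' i.1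
    have b1 := h.PT_Bev hL' (k1 (r * i.1)) (G (L ^ i.1)) (fun l hl => (g1 _ (k4 _ hj) l
      (by
        refine le_trans ?_ (show ((L ^ (r * i.1) : ℕ) : ℝ) ≤ l by exact_mod_cast hl)
        rw [k6]
        exact Real.rpow_le_rpow_of_exponent_le b0 hρ)).trans (g4 _ (hJ3.trans (k2 _ hj)))) i.2 (by
        refine (Nat.lt_ceil.1 (mem_range.1 hh)).le.trans ?_
        rw [k6, ← Real.rpow_mul (by linarith only [hη0, hη, b0])]
        gcongr)
    rw [k6, ← Real.rpow_mul (by linarith only [hη0, hη, b0])] at b1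
    have b2 : M * ((L ^ i.1 : ℕ) : ℝ) ^ (-α') ≤ ((L ^ i.1 : ℕ) : ℝ) ^ (r * -α) * l := by
      have c1 : ((L ^ i.1 : ℕ) : ℝ) ^ (r * α - α') ≤ (M : ℝ) ^ (ρ - 1) := by
        refine (Real.rpow_le_rpow (by linarith only [hη0, hη, b0]) (k3 _ hj) (by nlinarith only [hα, hr'])).trans ?_
        rw [← Real.rpow_mul hM0.le]
        exact Real.rpow_le_rpow_of_exponent_le hM1 hηρ
      calc _ = ((L ^ i.1 : ℕ) : ℝ) ^ (r * -α) * (M * ((L ^ i.1 : ℕ) : ℝ) ^ (r * α - α')) := by
            rw [mul_left_comm, ← Real.rpow_add (by linarith only [hη0, hη, b0])]; congr 2; ring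
        _ ≤ ((L ^ i.1 : ℕ) : ℝ) ^ (r * -α) * (M * (M : ℝ) ^ (ρ - 1)) := by gcongr
        _ ≤ _ := by
            gcongr
            rw [Real.rpow_sub_one hM0.ne', mul_div_cancel₀ _ hM0.ne']
            exact hl
    calc x i = c / 64 * (M * ((L ^ i.1 : ℕ) : ℝ) ^ (-α')) := mul_assoc _ _ _
      _ ≤ c / 64 * (((L ^ i.1 : ℕ) : ℝ) ^ (r * -α) * l) := by gcongr
      _ = c / 16 * ((L ^ i.1 : ℕ) : ℝ) ^ (r * -α) * l / 4 := by ring
      _ ≤ _ := by gcongr
  · refine (h'.P_count s _ x l (fun i hi => ?_) hy).trans (le_trans (by gcongr) e4)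
    obtain ⟨hj, hh⟩ := mem_sigma.1 hi
    have b1 := h'.PT_Bev hL' (k1 i.1) (G' (L ^ i.1)) (fun l hl => (g2 _ (k4 _ hj) l
      hl).trans (g4 _ (hJ3.trans (k2 _ hj)))) i.2 (Nat.lt_ceil.1 (mem_range.1 hh)).le
    have b2 : (M : ℝ) ≤ l := by exact_mod_cast hl
    calc x i = c / 16 * ((L ^ i.1 : ℕ) : ℝ) ^ (-α') * M / 4 := by simp only [hx]; ring
      _ ≤ _ := by gcongr; exact PT_nonneg _
  · refine (com_match s (fun i => Bev (L ^ (r * i.1)) (L * L ^ (r * i.1)) (G (L ^ i.1)) i.2)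
      (fun i => Bev (L ^ i.1) (L * L ^ i.1) (G' (L ^ i.1)) i.2) (fun i => ⌈x i⌉₊)
      (fun i => κ * ((L ^ i.1 : ℕ) : ℝ) * Real.log ((L ^ i.1 : ℕ) : ℝ) ^ m)
      (fun i _ i' _ f => Bev.index_eq (k := fun j => L ^ (r * j)) (K := fun j => L * L ^ (r * j))
        (G := fun j => G (L ^ j)) (fun j => Nat.le_mul_of_pos_left _ (by omega)) fun j j' hj => ?_)
      (fun i _ i' _ f => Bev.index_eq (k := fun j => L ^ j) (K := fun j => L * L ^ j)
        (G := fun j => G' (L ^ j)) (fun j => Nat.le_mul_of_pos_left _ (by omega)) fun j j' hj => ?_)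
      hf hf' fun i hi f f' => Bev.com (g3 _ (k4 _ (mem_sigma.1 hi).1))).mono ?_
    · rw [← pow_succ']
      exact Nat.pow_le_pow_right (by omega) (by nlinarith only [hr, hj])
    · rw [← pow_succ']
      exact Nat.pow_le_pow_right (by omega) hj
    rw [hs, sum_sigma]
    have a1 : ∀ j ∈ Ico J (2 * J), δ * (c / 64) * κ * (η / 4) ^ m * M * Real.log M ^ m ≤
        ∑ h ∈ range ⌈δ * ((L ^ j : ℕ) : ℝ) ^ (α' - 1)⌉₊, (⌈x ⟨j, h⟩⌉₊ : ℝ) *
          (κ * ((L ^ j : ℕ) : ℝ) * Real.log ((L ^ j : ℕ) : ℝ) ^ m + 1) := by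
      intro j hj
      have b0 := k1' j
      have b1 : ((L ^ j : ℕ) : ℝ) ^ (α' - 1) * ((L ^ j : ℕ) : ℝ) ^ (-α') *
          ((L ^ j : ℕ) : ℝ) = 1 := by
        rw [← Real.rpow_add (by linarith only [hη0, hη, b0]), ← Real.rpow_add_one (by linarith only [hη0, hη, b0]),
          show α' - 1 + -α' + 1 = 0 by ring, Real.rpow_zero]
      simp only [hx, sum_const, card_range, nsmul_eq_mul]
      have b2 := k4 j hj
      generalize ((L ^ j : ℕ) : ℝ) = k at b0 b1 b2
      calc _ = δ * k ^ (α' - 1) *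
            (c / 64 * M * k ^ (-α') * (κ * k * (η / 4 * Real.log M) ^ m)) := by
            rw [mul_pow]
            linear_combination (-(δ * (c / 64) * κ * (η / 4) ^ m * M * Real.log M ^ m)) * b1
        _ ≤ _ := by
            gcongr
            · exact Nat.le_ceil _
            · exact Nat.le_ceil _
            · refine le_trans ?_ (le_add_of_nonneg_right zero_le_one)
              gcongr
    refine le_trans ?_ (card_nsmul_le_sum _ _ _ a1)
    rw [Nat.card_Ico, nsmul_eq_mul, show 2 * J - J = J by omega]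
    calc _ = η₁ * Real.log M / 2 * (δ * (c / 64) * κ * (η / 4) ^ m * M * Real.log M ^ m) := by ring
      _ ≤ _ := by gcongr

theorem level_all (h : Good μ α c C) (h' : Good μ' α' c C) (hr : 1 ≤ r) (hρ1 : 1 ≤ ρ)
    (hρ : ρ ≤ r) (hα : α' - 1 ≤ r * (α - 1)) (hη0 : 0 < η) (hη : η ≤ 1 / 4)
    (hηρ : η * (r * α - α') ≤ ρ - 1) : ∃ b T : ℝ, 0 < b ∧ b < 1 ∧ ∀ m M : ℕ,
      T ≤ Real.log M * b ^ m → Lev μ μ' ρ M (b ^ (m ^ 2) * M * Real.log M ^ m) := by
  obtain ⟨a, ha, h1⟩ := level_succ h h' hr hρ hα hη0 hη hηρ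
  obtain ⟨M₁, hM₁⟩ := eventually_atTop.1 (h1.and (eventually_ge_atTop 1))
  set b := min a (η / 4) with hb
  have hb0 : 0 < b := lt_min ha (by positivity)
  have hb1 : b < 1 := (min_le_right _ _).trans_lt (by linarith only [hη0, hη])
  refine ⟨b, Real.log M₁ + 1, hb0, hb1, fun m => ?_⟩
  have key : ∀ m M : ℕ, Real.log M₁ + 1 ≤ Real.log M * b ^ m → M₁ ≤ M := by
    intro m M hM
    by_contra hlt
    have a1 : Real.log M ≤ Real.log M₁ := by
      rcases Nat.eq_zero_or_pos M with rfl | h0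
      · simpa using Real.log_natCast_nonneg M₁
      · exact Real.log_le_log (by exact_mod_cast h0) (by exact_mod_cast (not_le.1 hlt).le)
    have a2 : Real.log M * b ^ m ≤ Real.log M :=
      mul_le_of_le_one_right (Real.log_natCast_nonneg M) (pow_le_one₀ hb0.le hb1.le)
    linarith only [hη0, hη, hM, a1, a2]
  induction m with
  | zero => intro M hM; simpa using level_zero h h' hρ1 (hM₁ M (key 0 M hM)).2
  | succ m ih =>
    intro M hM
    have hL := Real.log_natCast_nonneg M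
    obtain ⟨G, G', g1, g2, g3⟩ := (hM₁ M (key _ M hM)).1 (b ^ (m ^ 2)) m (by positivity)
      fun k hk => ih k (hM.trans (by
        rw [pow_succ', ← mul_assoc]
        gcongr
        exact le_trans (by rw [mul_comm]; gcongr; exact min_le_right _ _) hk))
    refine ⟨G, G', g1, g2, fun f f' hf hf' => (g3 f f' hf hf').mono ?_⟩
    gcongr
    calc b ^ ((m + 1) ^ 2) ≤ b ^ (1 + m ^ 2 + m) :=
          pow_le_pow_of_le_one hb0.le hb1.le (by nlinarith only [])
      _ = b * b ^ (m ^ 2) * b ^ m := by rw [pow_add, pow_add, pow_one]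
      _ ≤ _ := by
          gcongr
          · exact min_le_left _ _
          · exact min_le_right _ _

end Pool.Agent.MP_8702f5_pr

end

-- part MP_8702f5_pr.Final
section

/-! The assembly. -/

namespace Pool.Agent.MP_8702f5_pr

open Finset F Filter Topology

variable {μ μ' : ℕ → ℝ} {α α' c C c' C' : ℝ}

theorem exists_params (h1 : 1 < α) (h2 : α ≤ α') (h3 : α' < 2) : ∃ (r : ℕ) (ρ η θ : ℝ),
    1 ≤ r ∧ 1 ≤ ρ ∧ ρ ≤ r ∧ α' - 1 ≤ r * (α - 1) ∧ 0 < η ∧ η ≤ 1 / 4 ∧
      η * (r * α - α') ≤ ρ - 1 ∧ 1 / α' < θ ∧ (ρ = 1 ∨ θ * ρ < 1 / α) := by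
  rcases h2.eq_or_lt with rfl | h2
  · refine ⟨1, 1, 1 / 4, 1, le_rfl, le_rfl, by simp, by simp, by norm_num, le_rfl, by simp, ?_,
      Or.inl rfl⟩
    rw [div_lt_one (by linarith)]; exact h1
  have hα : 0 < α := by linarith
  set ρ := (1 + α' / α) / 2 with hρ
  have a1 : 1 < α' / α := (one_lt_div hα).2 h2
  have a2 : 1 < ρ := by linarith only [hρ, a1]
  have a3 : α * ρ < α' := by
    have : α * (α' / α) = α' := by field_simp
    nlinarith only [h2, hρ, this, h1]
  obtain ⟨θ, b1, b2⟩ := exists_between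
    (one_div_lt_one_div_of_lt (show 0 < α * ρ by positivity) a3)
  obtain ⟨r, hr⟩ := exists_nat_ge (max ρ ((α' - 1) / (α - 1)))
  have c1 : ρ ≤ r := (le_max_left _ _).trans hr
  have c2 : (α' - 1) / (α - 1) ≤ r := (le_max_right _ _).trans hr
  have c3 : (0 : ℝ) < r := by linarith only [h1, h3, h2, a2, c1]
  refine ⟨r, ρ, min (1 / 4) ((ρ - 1) / (r * α)), θ, by exact_mod_cast c3, a2.le, c1,
    (div_le_iff₀ (by linarith only [h1])).1 c2, lt_min (by norm_num) (div_pos (by linarith only [a2]) (by positivity)),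
    min_le_left _ _, ?_, b1, Or.inr ?_⟩
  · have d1 : min (1 / 4) ((ρ - 1) / (r * α)) * (r * α) ≤ ρ - 1 :=
      (le_div_iff₀ (by positivity)).1 (min_le_right _ _)
    have d2 : 0 < min (1 / 4) ((ρ - 1) / (r * α)) :=
      lt_min (by norm_num) (div_pos (by linarith only [a2]) (by positivity))
    nlinarith
  · rw [lt_div_iff₀ (by positivity)] at b2 ⊢
    linarith only [b2]

theorem exists_hub' {f : F} {x : ℝ} (h : ¬f.small ⌈x⌉₊) :
    ∃ u, mem u f ∧ f.small ((f.sub u).len + 1) ∧ x ≤ (f.sub u).len := by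
  obtain ⟨u, h1, h2⟩ := exists_hub f
  refine ⟨u, h1, h2, Nat.ceil_le.1 ?_⟩
  by_contra h3
  exact h (small_mono (by omega) h2)

theorem exists_depth {b : ℝ} (T : ℝ) (hb0 : 0 < b) (hb1 : b < 1) : ∃ (γ : ℝ) (m : ℕ → ℕ), 0 < γ ∧
    ∀ᶠ n : ℕ in atTop, ∀ y : ℝ, Real.log n / 4 ≤ y → T ≤ y * b ^ m n ∧
      Real.exp (γ * Real.log (Real.log n) ^ 2) * (2 * Real.log n ^ 3) ≤
        b ^ (m n ^ 2) * y ^ m n := by
  set B := -Real.log b with hB
  have hB0 : 0 < B := neg_pos.2 (Real.log_neg hb0 hb1)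
  have hb : b = Real.exp (-B) := by rw [hB, neg_neg, Real.exp_log hb0]
  set β := 1 / (2 * B) with hβ
  have hβ0 : 0 < β := by positivity
  have hβB : β * B = 1 / 2 := by rw [hβ]; field_simp
  refine ⟨β / 16, fun n => ⌊β * Real.log (Real.log n)⌋₊, by positivity, ?_⟩
  have t1 := Real.tendsto_log_atTop.comp tendsto_log_nat
  filter_upwards [t1.eventually_ge_atTop 8, t1.eventually_ge_atTop (64 / β),
    t1.eventually_ge_atTop (8 * T), tendsto_log_nat.eventually_gt_atTop 0] with n e1 e2 e3 e4 y hy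
  simp only [Function.comp] at e1 e2 e3
  set l := Real.log (Real.log n) with hl
  have hL : Real.log n = Real.exp l := (Real.exp_log e4).symm
  rw [div_le_iff₀ hβ0] at e2
  set m := ⌊β * l⌋₊ with hm
  have m1 : (m : ℝ) ≤ β * l := Nat.floor_le (by positivity)
  have m2 : β * l / 2 ≤ m := by linarith only [Nat.lt_floor_add_one (β * l), hb0, hb1, e2]
  have m3 : m * B ≤ l / 2 := by nlinarith only [m1, hβB, hβ0]
  have m0 : (0 : ℝ) ≤ m := Nat.cast_nonneg m
  have y1 : Real.exp (l - 2) ≤ y := by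
    refine le_trans ?_ hy
    rw [hL, Real.exp_sub]
    gcongr
    have := Real.add_one_le_exp (1 : ℝ)
    rw [show (2 : ℝ) = 1 + 1 by norm_num, Real.exp_add]
    nlinarith only [this]
  constructor
  · calc T ≤ Real.exp (l / 2) / 4 := by linarith only [Real.add_one_le_exp (l / 2), hb0, hb1, e3]
      _ = Real.exp l / 4 * Real.exp (-(l / 2)) := by
          rw [div_mul_eq_mul_div, ← Real.exp_add]; congr 2; ring
      _ ≤ y * b ^ m := by
          rw [hb, ← Real.exp_nat_mul, ← hL]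
          gcongr
          · linarith only [Real.exp_pos (l - 2), e4, hy]
          · linarith only [m3]
  · calc _ ≤ Real.exp (β / 16 * l ^ 2) * (Real.exp l * Real.exp l ^ 3) := by
          rw [hL]; gcongr; linarith only [Real.add_one_le_exp l, hb0, hb1, e1]
      _ = Real.exp (β / 16 * l ^ 2 + 4 * l) := by
          rw [← Real.exp_nat_mul, ← Real.exp_add, ← Real.exp_add]; congr 1; push_cast; ring
      _ ≤ Real.exp ((m ^ 2 : ℕ) * -B + m * (l - 2)) := by
          refine Real.exp_le_exp.2 ?_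
          push_cast
          have a1 : m * (m * B) ≤ m * (l / 2) := by gcongr
          have a2 : β * l / 2 * (l / 4) ≤ m * (l / 2 - 2) := by gcongr; linarith only [e1]
          nlinarith only [e2, a1, a2, hb0, hb1, e1]
      _ ≤ _ := by
          rw [Real.exp_add, Real.exp_nat_mul, Real.exp_nat_mul, ← hb]
          gcongr

theorem main (h : Good μ α c C) (h' : Good μ' α' c C) (h2 : α ≤ α') : ∃ γ : ℝ, 0 < γ ∧
    ∀ ε : ℝ, 0 < ε → ε ≤ 1 → ∀ᶠ n : ℕ in atTop, 0 < sizeProb μ n → 0 < sizeProb μ' n →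
      (1 - ε) ^ 2 ≤ pairProb μ μ' n fun t t' =>
        Real.exp (γ * Real.log (Real.log n) ^ 2) * (min t.maxDeg t'.maxDeg : ℕ) ≤ LCS t t' ∧
        Real.exp (γ * Real.log (Real.log n) ^ 2) * (n : ℝ) ^ (1 / α') ≤ LCS t t' := by
  obtain ⟨r, ρ, η, θ, p1, p2, p3, p4, p5, p6, p7, p8, p9⟩ := exists_params h.one_lt h2 h'.lt_two
  have hα := h.one_lt
  have hα' := h'.one_lt
  obtain ⟨b, T, hb0, hb1, hlev⟩ := level_all h h' p1 p2 p3 p4 p5 p6 p7
  obtain ⟨γ, m, hγ, hm⟩ := exists_depth T hb0 hb1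
  refine ⟨γ, hγ, fun ε hε hε1 => ?_⟩
  choose! G G' g1 g2 g3 using fun n M => hlev (m n) M
  have hlog : ∀ n M : ℕ, 1 ≤ n → (n : ℝ) ^ (1 / 4 : ℝ) ≤ M → Real.log n / 4 ≤ Real.log M := by
    intro n M hn hM
    have hn0 : (0 : ℝ) < n := by exact_mod_cast hn
    have := Real.log_le_log (by positivity) hM
    rw [Real.log_rpow hn0] at this
    linarith only [this]
  have n1 := h.negl_le (h.negl_small.add (h.negl_any G (fun M l => (M : ℝ) ^ ρ ≤ l) (by
    filter_upwards [hm, eventually_ge_atTop 1] with n e1 e2 M hM using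
      g1 n M (e1 _ (hlog n M e2 hM)).1))) hε
  have n2 := h'.negl_le ((h'.negl_small.add (h'.negl_any G' (fun M l => M ≤ l) (by
    filter_upwards [hm, eventually_ge_atTop 1] with n e1 e2 M hM using
      g2 n M (e1 _ (hlog n M e2 hM)).1))).add (h'.negl_large p8)) hε
  have n3 : ∀ᶠ n : ℕ in atTop, ρ = 1 ∨ (n : ℝ) ^ (θ * ρ) ≤ (n : ℝ) ^ (1 / α) / Real.log n ^ 3 := by
    rcases p9 with p9 | p9
    · exact Eventually.of_forall fun _ => Or.inl p9
    filter_upwards [log_pow_le_rpow (sub_pos.2 p9) 3, tendsto_log_nat.eventually_ge_atTop 1,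
      eventually_gt_atTop 0] with n e1 e2 e3
    have hn : (0 : ℝ) < n := by exact_mod_cast e3
    refine Or.inr ?_
    rw [Real.rpow_sub hn, le_div_iff₀ (by positivity)] at e1
    rw [le_div_iff₀ (by positivity), mul_comm]
    exact e1
  filter_upwards [n1, n2, n3, log_pow_le_rpow (show (0 : ℝ) < 1 / 4 by norm_num) 3,
    tendsto_log_nat.eventually_ge_atTop 1, eventually_ge_atTop 1, hm] with n n1 n2 n3 e1 e2 e3 e4
    hn hn'
  have hn1 : (1 : ℝ) ≤ n := by exact_mod_cast e3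
  refine le_pairProb h h' hn hn' hε1
    (B := fun f => f.small ⌈(n : ℝ) ^ (1 / α) / Real.log n ^ 3⌉₊ ∨
      anyV (fun g => ∃ M ∈ Icc ⌈(n : ℝ) ^ (1 / 4 : ℝ)⌉₊ n, (M : ℝ) ^ ρ ≤ g.len ∧ ¬G n M g) n f)
    (B' := fun f => (f.small ⌈(n : ℝ) ^ (1 / α') / Real.log n ^ 3⌉₊ ∨
      anyV (fun g => ∃ M ∈ Icc ⌈(n : ℝ) ^ (1 / 4 : ℝ)⌉₊ n, M ≤ g.len ∧ ¬G' n M g) n f) ∨
      ¬f.small (⌊(n : ℝ) ^ θ⌋₊ + 1))
    (le_trans (h.PT_or_le fun f hf => by tauto) (n1 hn))
    (le_trans ?_ (n2 hn')) ?_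
  · refine (h'.PT_or_le (B := fun f => f.size + 1 = n ∧
      (f.small ⌈(n : ℝ) ^ (1 / α') / Real.log n ^ 3⌉₊ ∨
      anyV (fun g => ∃ M ∈ Icc ⌈(n : ℝ) ^ (1 / 4 : ℝ)⌉₊ n, M ≤ g.len ∧ ¬G' n M g) n f))
      (C := fun f => f.size + 1 = n ∧ ¬f.small (⌊(n : ℝ) ^ θ⌋₊ + 1)) fun f hf => by tauto).trans ?_
    exact add_le_add (h'.PT_or_le fun f hf => by tauto) le_rfl
  intro f f' hf hf' hB hB'
  push Not at hB hB'
  obtain ⟨u, u1, u2, u3⟩ := exists_hub' hB.1
  obtain ⟨u', u1', u2', u3'⟩ := exists_hub' hB'.1.1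
  set D := (f.sub u).len with hD
  set D' := (f'.sub u').len with hD'
  set M := min D D' with hM
  have hL0 : 0 < Real.log n := by linarith only [p5, p6, e2]
  have a1 : (n : ℝ) ^ (1 / α') / Real.log n ^ 3 ≤ M := by
    rw [hM, Nat.cast_min]
    refine le_min (le_trans ?_ u3) u3'
    gcongr
  have a2 : (n : ℝ) ^ (1 / 4 : ℝ) ≤ M := by
    refine le_trans ?_ a1
    rw [le_div_iff₀ (by positivity)]
    calc _ ≤ (n : ℝ) ^ (1 / 4 : ℝ) * (n : ℝ) ^ (1 / 4 : ℝ) := by gcongr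
      _ = (n : ℝ) ^ (1 / 2 : ℝ) := by rw [← Real.rpow_add (by positivity)]; norm_num
      _ ≤ _ := Real.rpow_le_rpow_of_exponent_le hn1
          (one_div_le_one_div_of_le (by linarith only [h2, p5, p6, hα]) h'.lt_two.le)
  have a3 : M ∈ Icc ⌈(n : ℝ) ^ (1 / 4 : ℝ)⌉₊ n := by
    refine mem_Icc.2 ⟨Nat.ceil_le.2 a2, ?_⟩
    have := len_sub_le_size u1
    omega
  have a4 : (M : ℝ) ^ ρ ≤ D := by
    rcases n3 with n3 | n3
    · rw [n3, Real.rpow_one]; exact_mod_cast min_le_left _ _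
    refine le_trans ?_ (n3.trans u3)
    rw [Real.rpow_mul (by positivity)]
    refine Real.rpow_le_rpow (by positivity) ?_ (by linarith only [p2, p5, p6])
    have b1 := (small_iff _ _).1 hB'.2 u' u1'
    have b2 : (M : ℝ) ≤ ⌊(n : ℝ) ^ θ⌋₊ := by exact_mod_cast (by omega)
    exact b2.trans (Nat.floor_le (by positivity))
  have a5 : G n M (f.sub u) := by
    by_contra hG
    exact hB.2 (anyV_of_mem u1 ⟨M, a3, a4, hG⟩ (by have := length_le_size u1; omega))
  have a6 : G' n M (f'.sub u') := by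
    by_contra hG
    exact hB'.1.2 (anyV_of_mem u1' ⟨M, a3, min_le_right _ _, hG⟩
      (by have := length_le_size u1'; omega))
  obtain ⟨a9, a9'⟩ := e4 _ (hlog n M e3 a2)
  have a7 := le_LCS u1 u1' (g3 n M a9 _ _ a5 a6)
  have a8 : (1 : ℝ) ≤ M := (Real.one_le_rpow hn1 (by norm_num)).trans a2
  have a10 : Real.exp (γ * Real.log (Real.log n) ^ 2) * (2 * M * Real.log n ^ 3) ≤
      LCS (toPT f) (toPT f') := by
    refine le_trans ?_ a7
    nlinarith only [a9']
  have a11 : 1 ≤ Real.log n ^ 3 := one_le_pow₀ e2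
  refine ⟨le_trans ?_ a10, le_trans ?_ a10⟩
  · gcongr
    have b1 := maxDeg_le u2
    have b2 := maxDeg_le u2'
    have b3 : ((min (toPT f).maxDeg (toPT f').maxDeg : ℕ) : ℝ) ≤ M + 1 := by
      exact_mod_cast (by omega)
    nlinarith only [a8, b3, a11]
  · gcongr
    rw [div_le_iff₀ (by positivity)] at a1
    nlinarith only [p5, p6, a1, a8, a11]

theorem q_self_ge (h0 : ∀ k, 0 ≤ μ k) (a j : ℕ) : μ a ^ j ≤ q μ j (a * j) := by
  induction j with
  | zero => simp [q_zero]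
  | succ j ih =>
    refine le_trans ?_ (q_mul_le h0 j 1 (a * j) a)
    rw [q_one, pow_succ]
    gcongr
    exact h0 a

theorem Good.exists_atom (h : Good μ α c C) : ∃ a, 1 ≤ a ∧ 0 < μ a := by
  by_contra hne
  push Not at hne
  have : (fun k : ℕ => (k : ℝ) * μ k) = fun _ => 0 := by
    funext k
    rcases Nat.eq_zero_or_pos k with rfl | hk
    · simp
    · rw [le_antisymm (hne k hk) (h.nonneg k), mul_zero]
  have h1 := h.mean
  rw [this] at h1
  exact one_ne_zero (h1.unique hasSum_zero)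

theorem Good.sizeProb_pos (h : Good μ α c C) {a : ℕ} (ha : 1 ≤ a) (hμ : 0 < μ a) (j : ℕ) :
    0 < sizeProb μ (a * j + 1) := by
  rw [sizeProb_eq h.nonneg, h.PT_size (by omega), Nat.add_sub_cancel]
  refine div_pos (h.q_pad (r := j) (by nlinarith only [ha]) ?_) (by positivity)
  exact lt_of_lt_of_le (pow_pos hμ j) (q_self_ge h.nonneg a j)

theorem infinite_admissible (h : Good μ α c C) (h' : Good μ' α' c' C') :
    {n | 0 < sizeProb μ n ∧ 0 < sizeProb μ' n}.Infinite := by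
  obtain ⟨a, ha, hμ⟩ := h.exists_atom
  obtain ⟨a', ha', hμ'⟩ := h'.exists_atom
  refine Set.infinite_of_injective_forall_mem (f := fun j => a * (a' * j) + 1) (fun i j hij => ?_)
    fun j => ⟨h.sizeProb_pos ha hμ _, ?_⟩
  · simp only [add_left_inj] at hij
    exact Nat.eq_of_mul_eq_mul_left ha' (Nat.eq_of_mul_eq_mul_left ha hij)
  · rw [mul_left_comm]
    exact h'.sizeProb_pos ha' hμ' _

theorem final {c c' : ℝ} (hμ : HeavyTailed μ c α) (hμ' : HeavyTailed μ' c' α') (hc : 0 < c)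
    (hc' : 0 < c') (h1 : 1 < α) (h2 : α ≤ α') (h3 : α' < 2) :
    {n | 0 < sizeProb μ n ∧ 0 < sizeProb μ' n}.Infinite ∧ ∃ γ : ℝ, 0 < γ ∧
      Tendsto (fun n : ℕ => pairProb μ μ' n fun t t' =>
        Real.exp (γ * Real.log (Real.log n) ^ 2) * (min t.maxDeg t'.maxDeg : ℕ) ≤ LCS t t' ∧
        Real.exp (γ * Real.log (Real.log n) ^ 2) * (n : ℝ) ^ (1 / α') ≤ LCS t t')
      (atTop ⊓ 𝓟 {n | 0 < sizeProb μ n ∧ 0 < sizeProb μ' n}) (𝓝 1) := by
  obtain ⟨c₁, C₁, g⟩ := hμ.good hc h1 (by linarith)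
  obtain ⟨c₂, C₂, g'⟩ := hμ'.good hc' (by linarith) h3
  have h := g.weaken (lt_min g.c_pos g'.c_pos) (min_le_left _ _) (le_max_left _ C₂)
  have h' := g'.weaken (lt_min g.c_pos g'.c_pos) (min_le_right _ _) (le_max_right C₁ _)
  obtain ⟨γ, hγ, hmain⟩ := main h h' h2
  refine ⟨infinite_admissible h h', γ, hγ, tendsto_order.2 ⟨fun a ha => ?_, fun a ha =>
    Eventually.of_forall fun n => (pairProb_le_one h.nonneg h'.nonneg _ _).trans_lt ha⟩⟩
  rw [eventually_inf_principal]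
  filter_upwards [hmain (min 1 ((1 - a) / 4)) (lt_min one_pos (by linarith))
    (min_le_left _ _)] with n hn hadm
  refine lt_of_lt_of_le ?_ (hn hadm.1 hadm.2)
  nlinarith only [min_le_right 1 ((1 - a) / 4), sq_nonneg (min 1 ((1 - a) / 4)), ha]

/-- Heavy-tailed critical offspring laws exist for every exponent. -/
theorem exists_heavyTailed (h1 : 1 < α) : ∃ μ c, 0 < c ∧ HeavyTailed μ c α := by
  have hs : Summable fun i : ℕ => ((i + 1 : ℕ) : ℝ) ^ (-α) :=
    (summable_nat_add_iff 1).2 (Real.summable_nat_rpow.2 (by linarith))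
  set Z := ∑' i : ℕ, ((i + 1 : ℕ) : ℝ) ^ (-α) with hZ
  have hZ1 : 1 < Z := by
    refine lt_of_lt_of_le ?_ (hs.sum_le_tsum (range 2) fun _ _ => by positivity)
    have : (0 : ℝ) < (1 + 1) ^ (-α) := by positivity
    simpa [sum_range_succ] using this
  set t : ℕ → ℝ := fun k => if k = 0 then 1 else Z⁻¹ * (k : ℝ) ^ (-α) with ht
  have hZ0 : 0 < Z⁻¹ := by positivity
  have ht1 : ∀ k : ℕ, t (k + 1) = Z⁻¹ * ((k + 1 : ℕ) : ℝ) ^ (-α) := fun k => if_neg (by omega)
  have hpos : 0 < t 0 - t 1 := by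
    simpa [ht] using inv_lt_one_of_one_lt₀ hZ1
  have h0 : ∀ k, 0 ≤ t k - t (k + 1) := by
    rintro (_ | k)
    · exact hpos.le
    rw [ht1, ht1, sub_nonneg]
    gcongr ?_ * ?_
    exact Real.rpow_le_rpow_of_nonpos (by positivity) (by simp) (by linarith)
  have hev : ∀ᶠ k : ℕ in atTop, Z⁻¹ * (k : ℝ) ^ (-α) = t k := by
    filter_upwards [eventually_ne_atTop 0] with k hk using (if_neg hk).symm
  have hlim : Tendsto t atTop (𝓝 0) := by
    refine Tendsto.congr' hev ?_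
    simpa using ((tendsto_rpow_neg_atTop (by linarith : 0 < α)).comp
      tendsto_natCast_atTop_atTop).const_mul Z⁻¹
  have htail : ∀ k, HasSum (fun i => t (i + k) - t (i + k + 1)) (t k) := by
    intro k
    rw [hasSum_iff_tendsto_nat_of_nonneg fun i => h0 _]
    have : ∀ n, ∑ i ∈ range n, (t (i + k) - t (i + k + 1)) = t k - t (n + k) := fun n => by
      simpa [add_right_comm] using sum_range_sub' (fun i => t (i + k)) n
    simp only [this]
    simpa using (hlim.comp (tendsto_add_atTop_nat k)).const_sub (t k)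
  refine ⟨fun k => t k - t (k + 1), Z⁻¹, hZ0, h0, by simpa [ht] using htail 0, ?_, hpos, ?_⟩
  · rw [hasSum_iff_tendsto_nat_of_nonneg fun i => mul_nonneg (Nat.cast_nonneg i) (h0 i)]
    have a1 : ∀ n : ℕ, ∑ i ∈ range n, (i : ℝ) * (t i - t (i + 1)) =
        ∑ i ∈ range n, t (i + 1) - n * t n := by
      intro n
      induction n with
      | zero => simp
      | succ n ih => rw [sum_range_succ, sum_range_succ, ih]; push_cast; ring
    simp only [a1]
    simp only [ht1]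
    have a2 := (hs.hasSum.mul_left Z⁻¹).tendsto_sum_nat
    rw [← hZ, inv_mul_cancel₀ (by positivity)] at a2
    have a3 : Tendsto (fun n : ℕ => n * t n) atTop (𝓝 0) := by
      have := ((tendsto_rpow_neg_atTop (by linarith : 0 < α - 1)).comp
        tendsto_natCast_atTop_atTop).const_mul Z⁻¹
      rw [mul_zero] at this
      refine this.congr' ?_
      filter_upwards [hev, eventually_gt_atTop 0] with k hk hk0
      have : (0 : ℝ) < k := by exact_mod_cast hk0
      rw [← hk, Function.comp, neg_sub, sub_eq_add_neg, Real.rpow_add this, Real.rpow_one]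
      ring
    simpa using a2.sub a3
  · simp only [(htail _).tsum_eq]
    exact Asymptotics.IsEquivalent.refl.congr_left hev

end Pool.Agent.MP_8702f5_pr

end

-- part MP_8702f5_pr.UGraph
section

/-! From common subtrees of the underlying graphs to rooted common subtrees. -/

namespace Pool.Agent.MP_8702f5_pr

open Finset F

theorem sub_append (f : F) (u v : List ℕ) : f.sub (u ++ v) = (f.sub u).sub v := by
  induction u generalizing f with
  | nil => rfl
  | cons i w ih => exact ih _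

theorem sub_concat (f : F) (u : List ℕ) (i : ℕ) : f.sub (u ++ [i]) = (f.sub u).child i :=
  sub_append f u [i]

theorem mem_concat {f : F} {u : List ℕ} {i : ℕ} :
    mem (u ++ [i]) f ↔ mem u f ∧ i < (f.sub u).len := by
  rw [F.mem_append]; simp [mem]

theorem her_sub (f : F) : Her fun c => ∃ u, mem u f ∧ c = f.sub u := by
  rintro c ⟨u, hu, rfl⟩
  exact (all_iff _ _).2 fun i hi => ⟨u ++ [i], mem_concat.2 ⟨hu, hi⟩, (sub_concat f u i).symm⟩

/-- A connected set of vertices of `g` with top vertex `x₀`, mapped injectively to vertices of `f`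
so that a parent and its child are mapped to adjacent vertices. -/
structure Cfg (g f : F) (ψ : List ℕ → List ℕ) (X : Finset (List ℕ)) (x₀ : List ℕ) : Prop where
  top : x₀ ∈ X
  memg : ∀ x ∈ X, mem x g
  memf : ∀ x ∈ X, mem (ψ x) f
  par : ∀ x ∈ X, x ≠ x₀ → ∃ y ∈ X, ∃ i, x = y ++ [i] ∧
    ((∃ j, ψ x = ψ y ++ [j]) ∨ ∃ j, ψ y = ψ x ++ [j])
  inj : ∀ x ∈ X, ∀ y ∈ X, ψ x = ψ y → x = y

variable {g f : F} {ψ : List ℕ → List ℕ} {X : Finset (List ℕ)} {x₀ : List ℕ}

/-- The part of `X` below the child number `i` of the top vertex. -/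
def part (X : Finset (List ℕ)) (x₀ : List ℕ) (i : ℕ) : Finset (List ℕ) :=
  X.filter fun x => x₀ ++ [i] <+: x

theorem top_notMem_part (i : ℕ) : x₀ ∉ part X x₀ i := fun h => by
  have := (mem_filter.1 h).2.length_le
  simp at this

theorem Cfg.part (h : Cfg g f ψ X x₀) {i : ℕ} (hi : x₀ ++ [i] ∈ X) :
    Cfg g f ψ (part X x₀ i) (x₀ ++ [i]) where
  top := mem_filter.2 ⟨hi, List.prefix_rfl⟩
  memg x hx := h.memg x (mem_filter.1 hx).1
  memf x hx := h.memf x (mem_filter.1 hx).1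
  par x hx hne := by
    obtain ⟨y, hy, k, rfl, h2⟩ := h.par x (mem_filter.1 hx).1 fun e => top_notMem_part i (e ▸ hx)
    refine ⟨y, mem_filter.2 ⟨hy, ?_⟩, k, rfl, h2⟩
    exact (List.prefix_concat_iff.1 (mem_filter.1 hx).2).resolve_left (Ne.symm hne)
  inj x hx y hy := h.inj x (mem_filter.1 hx).1 y (mem_filter.1 hy).1

theorem Cfg.card_part_lt (h : Cfg g f ψ X x₀) (i : ℕ) :
    (Pool.Agent.MP_8702f5_pr.part X x₀ i).card < X.card :=
  card_lt_card ⟨filter_subset _ _, fun hs => top_notMem_part i (hs h.top)⟩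

theorem Cfg.cover (h : Cfg g f ψ X x₀) : ∀ x ∈ X, x ≠ x₀ → ∃ i, x₀ ++ [i] ∈ X ∧ x₀ ++ [i] <+: x := by
  intro x
  induction x using List.reverseRecOn with
  | nil =>
    intro hx hne
    obtain ⟨y, -, i, e, -⟩ := h.par _ hx hne
    simp at e
  | append_singleton w k ih =>
    intro hx hne
    obtain ⟨y, hy, i, e, -⟩ := h.par _ hx hne
    obtain rfl : w = y := List.append_inj_left' e rfl
    by_cases hw : w = x₀
    · exact ⟨k, hw ▸ hx, hw ▸ List.prefix_rfl⟩
    · obtain ⟨j, h1, h2⟩ := ih hy hw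
      exact ⟨j, h1, h2.trans (List.prefix_append _ _)⟩

theorem Cfg.card_le (h : Cfg g f ψ X x₀) : X.card ≤ (∑ i ∈ range (g.sub x₀).len,
    if x₀ ++ [i] ∈ X then (Pool.Agent.MP_8702f5_pr.part X x₀ i).card else 0) + 1 := by
  rw [← sum_filter]
  refine le_trans (card_le_card (t := insert x₀ (((range (g.sub x₀).len).filter
    fun i => x₀ ++ [i] ∈ X).biUnion fun i => Pool.Agent.MP_8702f5_pr.part X x₀ i))
    fun x hx => ?_) ((card_insert_le _ _).trans (Nat.succ_le_succ card_biUnion_le))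
  by_cases hne : x = x₀
  · exact hne ▸ mem_insert_self _ _
  · obtain ⟨i, h1, h2⟩ := h.cover x hx hne
    exact mem_insert_of_mem (mem_biUnion.2 ⟨i, mem_filter.2
      ⟨mem_range.2 (mem_concat.1 (h.memg _ h1)).2, h1⟩, mem_filter.2 ⟨hx, h2⟩⟩)

theorem Cfg.step (h : Cfg g f ψ X x₀) {i : ℕ} (hi : x₀ ++ [i] ∈ X) :
    (∃ j, ψ (x₀ ++ [i]) = ψ x₀ ++ [j]) ∨ ∃ j, ψ x₀ = ψ (x₀ ++ [i]) ++ [j] := by
  obtain ⟨y, -, k, e, h2⟩ := h.par _ hi (by simp)
  obtain rfl : x₀ = y := List.append_inj_left' e rfl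
  exact h2

theorem Cfg.down_part (h : Cfg g f ψ X x₀) {i j : ℕ} (e : ψ (x₀ ++ [i]) = ψ x₀ ++ [j]) :
    ∀ x ∈ Pool.Agent.MP_8702f5_pr.part X x₀ i, ∀ k, ψ (x₀ ++ [i]) ≠ ψ x ++ [k] := by
  intro x hx k e'
  have := h.inj x (mem_filter.1 hx).1 x₀ h.top (List.append_inj_left' (e'.symm.trans e) rfl)
  exact top_notMem_part i (this ▸ hx)

theorem cfg_down (n : ℕ) : ∀ (X : Finset (List ℕ)) (x₀ : List ℕ), X.card ≤ n → Cfg g f ψ X x₀ →
    (∀ x ∈ X, ∀ j, ψ x₀ ≠ ψ x ++ [j]) → X.card ≤ Rm (g.sub x₀) (f.sub (ψ x₀)) + 1 := by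
  induction n with
  | zero => intro X _ h _ _; omega
  | succ n ih =>
    intro X x₀ hn h hd
    have h1 : ∀ i, x₀ ++ [i] ∈ X → ∃ j, ψ (x₀ ++ [i]) = ψ x₀ ++ [j] := fun i hi =>
      (h.step hi).resolve_right fun ⟨j, e⟩ => hd _ hi j e
    choose! σ hσ using h1
    refine h.card_le.trans (Nat.succ_le_succ (le_trans (sum_le_sum fun i _ => ?_)
      (le_Rm (g.sub x₀) (f.sub (ψ x₀)) (fun i => x₀ ++ [i] ∈ X) σ (fun i _ hi => ?_)
        fun i _ i' _ hi hi' e => ?_)))
    · split_ifs with hi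
      · have := ih _ _ (by have := h.card_part_lt i; omega) (h.part hi) (h.down_part (hσ i hi))
        rwa [hσ i hi, sub_concat, sub_concat] at this
      · exact le_rfl
    · have := h.memf _ hi
      rw [hσ i hi] at this
      exact (mem_concat.1 this).2
    · have := h.inj _ hi _ hi' (by rw [hσ i hi, hσ i' hi', e])
      simpa using this

theorem cfg_bound {Y : F → ℝ} (hY : ∀ c, 0 ≤ Y c) {G : ℝ} (hG : 1 ≤ G)
    (hR : ∀ u' u, mem u' g → mem u f → (Rm (g.sub u') (f.sub u) : ℝ) + 1 ≤ G * Y (g.sub u'))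
    (n : ℕ) : ∀ (X : Finset (List ℕ)) (x₀ : List ℕ), X.card ≤ n → Cfg g f ψ X x₀ →
      (X.card : ℝ) ≤ G * (acc Y (g.sub x₀) + 1) := by
  have hG0 : 0 ≤ G := by linarith
  induction n with
  | zero =>
    intro X x₀ h hc
    have := card_pos.2 ⟨_, hc.top⟩
    omega
  | succ n ih =>
    intro X x₀ hn h
    set t := g.sub x₀ with ht
    have h0 : (X.card : ℝ) ≤ (∑ i ∈ range t.len,
        if x₀ ++ [i] ∈ X then ((part X x₀ i).card : ℝ) else 0) + 1 := by
      exact_mod_cast h.card_le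
    have hdown : ∀ i, ¬(x₀ ++ [i] ∈ X ∧ ∃ j, ψ x₀ = ψ (x₀ ++ [i]) ++ [j]) →
        (if x₀ ++ [i] ∈ X then ((part X x₀ i).card : ℝ) else 0) ≤ G * Y (t.child i) := by
      intro i hi
      split_ifs with hX
      · obtain ⟨j, e⟩ := (h.step hX).resolve_right fun e => hi ⟨hX, e⟩
        have a1 := cfg_down _ _ _ le_rfl (h.part hX) (h.down_part e)
        have a2 := hR _ _ (h.memg _ hX) (h.memf _ hX)
        rw [sub_concat g] at a1 a2
        refine le_trans ?_ a2
        exact_mod_cast a1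
      · exact mul_nonneg hG0 (hY _)
    by_cases hup : ∃ i, x₀ ++ [i] ∈ X ∧ ∃ j, ψ x₀ = ψ (x₀ ++ [i]) ++ [j]
    · obtain ⟨i, hi, j, e⟩ := hup
      have hil : i < t.len := (mem_concat.1 (h.memg _ hi)).2
      have a1 := ih _ _ (by have := h.card_part_lt i; omega) (h.part hi)
      rw [sub_concat] at a1
      have a2 := (all_child (acc_all hY t) hil).1
      have a3 : ∑ k ∈ (range t.len).erase i,
          (if x₀ ++ [k] ∈ X then ((part X x₀ k).card : ℝ) else 0) ≤
          ∑ k ∈ (range t.len).erase i, G * Y (t.child k) := by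
        refine sum_le_sum fun k hk => hdown k ?_
        rintro ⟨hk', j', e'⟩
        have := h.inj _ hk' _ hi (List.append_inj_left' (e'.symm.trans e) rfl)
        exact (mem_erase.1 hk).1 (by simpa using this)
      rw [← mul_sum] at a3
      have a4 := add_sum_erase (range t.len) (fun k => Y (t.child k)) (mem_range.2 hil)
      rw [← sumY_eq] at a4
      rw [← add_sum_erase _ _ (mem_range.2 hil), if_pos hi] at h0
      have a5 : G * (acc Y (t.child i) + 1 + ∑ k ∈ (range t.len).erase i, Y (t.child k)) ≤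
          G * acc Y t := mul_le_mul_of_nonneg_left (by linarith) hG0
      nlinarith
    · push Not at hup
      have a3 : ∑ k ∈ range t.len, (if x₀ ++ [k] ∈ X then ((part X x₀ k).card : ℝ) else 0) ≤
          ∑ k ∈ range t.len, G * Y (t.child k) :=
        sum_le_sum fun k _ => hdown k fun ⟨h1, j, e⟩ => hup k h1 j e
      rw [← mul_sum, ← sumY_eq] at a3
      have a5 := mul_le_mul_of_nonneg_left (sumY_le_acc (Y := Y) t) hG0
      nlinarith

theorem exists_cfg {k : ℕ} {S : SimpleGraph (Fin k)} (hS : S.Connected)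
    (h : S.IsContained (toPT f).graph) (h' : S.IsContained (toPT g).graph) :
    ∃ ψ X x₀, Cfg g f ψ X x₀ ∧ X.card = k := by
  obtain ⟨φ⟩ := h
  obtain ⟨φ'⟩ := h'
  let a : Fin k → List ℕ := fun s => (φ s).1
  let b : Fin k → List ℕ := fun s => (φ' s).1
  have ha : a.Injective := fun s s' e => φ.injective (Subtype.ext e)
  have hb : b.Injective := fun s s' e => φ'.injective (Subtype.ext e)
  have adj : ∀ {t : F} (θ : S.Copy (toPT t).graph) {s s' : Fin k}, S.Adj s s' →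
      (∃ j, (θ s').1 = (θ s).1 ++ [j]) ∨ ∃ j, (θ s).1 = (θ s').1 ++ [j] := by
    intro t θ s s' hs
    exact ((SimpleGraph.fromRel_adj _ _ _).1 (θ.toHom.map_adj hs)).2
  obtain ⟨s₀, -, hs₀⟩ := exists_min_image univ (fun s => (b s).length)
    (univ_nonempty_iff.2 hS.nonempty)
  have hψ : ∀ s, Function.extend b a (fun _ => []) (b s) = a s := fun s => hb.extend_apply _ _ s
  have walk : ∀ (x : List ℕ) {s s' : Fin k} (_ : S.Walk s s'), x <+: b s → ¬x <+: b s' →
      ∃ s₁ s₂, S.Adj s₁ s₂ ∧ b s₁ = x ∧ ∃ i, x = b s₂ ++ [i] := by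
    intro x s s' p
    induction p with
    | nil => exact fun h1 h2 => absurd h1 h2
    | @cons u v w huv _ ih =>
      intro h1 h2
      by_cases hv : x <+: b v
      · exact ih hv h2
      · rcases adj φ' huv with ⟨j, e⟩ | ⟨j, e⟩
        · have e' : b v = b u ++ [j] := e
          exact absurd (h1.trans (e' ▸ List.prefix_append _ _)) hv
        · have e' : b u = b v ++ [j] := e
          have := (List.prefix_concat_iff.1 (e' ▸ h1)).resolve_right hv
          exact ⟨u, v, huv, e'.trans this.symm, j, this⟩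
  refine ⟨Function.extend b a fun _ => [], univ.image b, b s₀,
    ⟨mem_image_of_mem _ (mem_univ _), ?_, ?_, ?_, ?_⟩, by
      rw [card_image_of_injective _ hb, card_univ, Fintype.card_fin]⟩
  · intro x hx
    obtain ⟨s, -, rfl⟩ := mem_image.1 hx
    exact (mem_V _ _).1 (φ' s).2
  · intro x hx
    obtain ⟨s, -, rfl⟩ := mem_image.1 hx
    rw [hψ]
    exact (mem_V _ _).1 (φ s).2
  · intro x hx hne
    obtain ⟨s, -, rfl⟩ := mem_image.1 hx
    obtain ⟨p⟩ := hS.preconnected s s₀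
    obtain ⟨s₁, s₂, h1, h2, i, h3⟩ := walk (b s) p List.prefix_rfl fun hp =>
      hne (hp.eq_of_length_le (hs₀ s (mem_univ _)))
    obtain rfl := hb h2
    refine ⟨b s₂, mem_image_of_mem _ (mem_univ _), i, h3, ?_⟩
    rw [hψ, hψ]
    exact (adj φ h1).symm
  · intro x hx y hy e
    obtain ⟨s, -, rfl⟩ := mem_image.1 hx
    obtain ⟨s', -, rfl⟩ := mem_image.1 hy
    rw [hψ, hψ] at e
    rw [ha e]

theorem LCS_le {Y : F → ℝ} (hY : ∀ c, 0 ≤ Y c) {G B : ℝ} (hG : 1 ≤ G)
    (hR : ∀ u' u, mem u' g → mem u f → (Rm (g.sub u') (f.sub u) : ℝ) + 1 ≤ G * Y (g.sub u'))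
    (hB : ∀ u', mem u' g → G * (acc Y (g.sub u') + 1) ≤ B) :
    (LCS (toPT f) (toPT g) : ℝ) ≤ B := by
  have hB0 : 0 ≤ B := by
    refine le_trans (mul_nonneg (by linarith) ?_) (hB [] trivial)
    linarith [(sumY_nonneg hY (g.sub [])).trans (sumY_le_acc _)]
  refine le_trans ?_ (Nat.floor_le hB0)
  refine Nat.cast_le.2 (csSup_le' ?_)
  rintro k ⟨S, hS, h, h'⟩
  obtain ⟨ψ, X, x₀, hc, rfl⟩ := exists_cfg hS.connected h h'
  exact Nat.le_floor ((cfg_bound hY hG hR _ X x₀ le_rfl hc).trans (hB _ (hc.memg _ hc.top)))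

theorem len_le_maxDeg {u : List ℕ} (hu : mem u f) : (f.sub u).len ≤ (toPT f).maxDeg := by
  classical
  rw [PlaneTree.maxDeg]
  refine le_trans ?_ (SimpleGraph.degree_le_maxDegree _ ⟨u, (mem_V _ _).2 hu⟩)
  rw [← SimpleGraph.card_neighborFinset_eq_degree, ← card_range (f.sub u).len,
    ← card_image_of_injective (SimpleGraph.neighborFinset _ _) Subtype.val_injective]
  refine card_le_card_of_injOn (fun i => u ++ [i]) (fun i hi => ?_) fun i _ j _ e => by
    simpa using e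
  rw [mem_coe, mem_range] at hi
  refine mem_coe.2 (mem_image.2 ⟨⟨u ++ [i], (mem_V _ _).2 (mem_concat.2 ⟨hu, hi⟩)⟩, ?_, rfl⟩)
  rw [SimpleGraph.mem_neighborFinset, PlaneTree.graph, SimpleGraph.fromRel_adj]
  exact ⟨fun e => by simpa using congrArg Subtype.val e, Or.inl ⟨i, rfl⟩⟩

end Pool.Agent.MP_8702f5_pr

end

-- part MP_8702f5_pr.ULevel
section

/-! The choice of the scales for the upper bound. -/

namespace Pool.Agent.MP_8702f5_pr

open Finset F Filter Topology
open scoped ENNReal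

variable {μ μ' : ℕ → ℝ} {α α' c C c' C' : ℝ}

theorem M2_moment (h : Good μ α c C) (h' : Good μ' α' c' C') (h2 : α ≤ α') {β : ℝ} (b1 : 1 ≤ β)
    (b2 : β < α) : ∃ M : ℝ, 0 ≤ M ∧ ∀ x : ℝ, 0 < x →
      M2 (μe μ') (μe μ) (fun n => ind (⌊x⌋₊ < n)) ≤ ENNReal.ofReal (M * x ^ (-β)) ∧
      M2 (μe μ') (μe μ) (fun n => ind (n ≤ ⌊x⌋₊) * n ^ 2) ≤ ENNReal.ofReal (M * x ^ (2 - β)) := by
  obtain ⟨M, hM, h3⟩ := h.moment b1 b2
  obtain ⟨M', hM', h3'⟩ := h'.moment b1 (b2.trans_le h2)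
  have key : M2 (μe μ') (μe μ) (fun n => ENNReal.ofReal ((n : ℝ) ^ β)) ≤
      ENNReal.ofReal (M' * M) := by
    rw [M2_prod fun m n => by
      rw [Nat.cast_mul, Real.mul_rpow (by positivity) (by positivity),
        ENNReal.ofReal_mul (by positivity)], ENNReal.ofReal_mul hM']
    exact mul_le_mul' h3' h3
  have key2 : ∀ (a : ℕ → ℝ≥0∞) (y : ℝ), 0 ≤ y → (∀ n, a n ≤ ENNReal.ofReal ((n : ℝ) ^ β * y)) →
      M2 (μe μ') (μe μ) a ≤ ENNReal.ofReal (M' * M * y) := by
    intro a y _ ha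
    refine (M2_mono (b := fun n => ENNReal.ofReal ((n : ℝ) ^ β) * ENNReal.ofReal y)
      fun n => (ha n).trans (ENNReal.ofReal_mul (by positivity)).le).trans ?_
    rw [M2_mul, ENNReal.ofReal_mul (by positivity)]
    exact mul_le_mul_left key _
  refine ⟨M' * M, by positivity, fun x hx => ⟨key2 _ _ (by positivity) fun n => ?_,
    key2 _ _ (by positivity) fun n => ?_⟩⟩
  · by_cases hn : ⌊x⌋₊ < n
    · rw [ind_pos hn, ← ENNReal.ofReal_one, Real.rpow_neg hx.le, ← div_eq_mul_inv]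
      exact ENNReal.ofReal_le_ofReal ((one_le_div (by positivity)).2
        (Real.rpow_le_rpow hx.le ((Nat.floor_lt hx.le).1 hn).le (by linarith)))
    · rw [ind_neg hn]; exact zero_le
  · by_cases hn : n ≤ ⌊x⌋₊
    · rw [ind_pos hn, one_mul, ← ENNReal.ofReal_natCast, ← ENNReal.ofReal_pow (by positivity)]
      refine ENNReal.ofReal_le_ofReal ?_
      rcases Nat.eq_zero_or_pos n with rfl | h0
      · simp only [Nat.cast_zero, ne_eq, OfNat.ofNat_ne_zero, not_false_eq_true, zero_pow]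
        positivity
      have h0' : (0 : ℝ) < n := by exact_mod_cast h0
      calc (n : ℝ) ^ 2 = (n : ℝ) ^ β * (n : ℝ) ^ (2 - β) := by
            rw [← Real.rpow_add h0', ← Real.rpow_two]; congr 1; ring
        _ ≤ _ := by
            gcongr
            · linarith [h.lt_two]
            · exact (Nat.le_floor_iff hx.le).1 hn
    · rw [ind_neg hn, zero_mul]; exact zero_le

theorem level_prob (h : Good μ α c C) (h' : Good μ' α' c' C') (h2 : α ≤ α') :
    ∃ ρ η x₀ : ℝ, 1 < ρ ∧ 0 < η ∧ η ≤ 1 ∧ Real.exp 1 ≤ x₀ ∧ ∀ x, x₀ ≤ x → ∀ m : ℕ, 1 ≤ m →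
      ET2 (μe μ') (μe μ) (fun g f => ind (good ⌊x ^ ρ⌋₊ ⌈(x ^ ρ) ^ η⌉₊ g f ∧
        m < Lm (good ⌊x⌋₊ ⌈x ^ η⌉₊) g f)) ≤ 2⁻¹ ^ m := by
  obtain ⟨s, hs⟩ : ∃ s, s = α - 1 := ⟨_, rfl⟩
  have s0 : 0 < s := by linarith [h.one_lt]
  have s1 : s < 1 := by linarith [h.lt_two]
  set η := s * (1 - s / 5) with hη
  set β := 1 + s * (1 - s / 10) with hβ
  set κ := 1 - 3 * s / 10 with hκ
  set δ := s * s / 10 with hδ
  have η0 : 0 < η := mul_pos s0 (by linarith only [s0, s1])
  have η1 : η ≤ 1 := by nlinarith only [s1, hη]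
  have δ0 : 0 < δ := by positivity
  have κ0 : 0 < κ := by linarith only [s1, hκ]
  have e1 : η + -β = -(1 + δ) := by rw [hη, hβ, hδ]; ring
  have e2 : -η + -κ ≤ -(1 + δ) := by rw [hη, hκ, hδ]; nlinarith only [hδ, δ0, s0, s1]
  obtain ⟨M, hM, hM2⟩ := M2_moment h h' h2 (β := β) (by nlinarith only [hη, hβ, hκ, hδ, δ0, e2]) (by nlinarith only [hs, hβ, hδ, δ0])
  have t1 := h.surv κ0 (η := η) (by rw [← hs, hη, hκ]; nlinarith only [hδ, δ0])
  have t2 := h'.surv η0 (η := η) (by nlinarith only [h'.lt_two, η0])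
  have t3 : ∀ᶠ x : ℝ in atTop, (6 + 36 * M) * (4 + 2 * M) * x ^ (-(δ / 2)) ≤ 1 := by
    have := (tendsto_rpow_neg_atTop (half_pos δ0)).const_mul ((6 + 36 * M) * (4 + 2 * M))
    rw [mul_zero] at this
    exact this.eventually_le_const one_pos
  obtain ⟨x₀, hx₀⟩ := eventually_atTop.1 (t1.and (t2.and (t3.and (eventually_ge_atTop 1))))
  refine ⟨1 + δ / 2, η, max x₀ (Real.exp 1), by linarith only [δ0], η0, η1, le_max_right _ _,
    fun x hx m hm => ?_⟩
  obtain ⟨a1, a2, a3, hx1⟩ := hx₀ x ((le_max_left _ _).trans hx)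
  have hx0 : 0 < x := by linarith only [s1, hη, hκ, hδ, δ0, e2, hx1]
  set y := x ^ (1 + δ / 2) with hy
  have hy1 : 1 ≤ y := Real.one_le_rpow hx1 (by linarith only [s1, hη, hκ, hδ, δ0, e2])
  have hceil : ∀ z : ℝ, 1 ≤ z → (⌈z ^ η⌉₊ : ℝ) ≤ 2 * z ^ η := fun z hz => by
    linarith only [Nat.ceil_lt_add_one (show 0 ≤ z ^ η by positivity), Real.one_le_rpow hz η0.le, hz, η0]
  set q := (4 + 2 * M) * x ^ (-(1 + δ)) with hq
  have hq0 : 0 ≤ q := by positivity
  have hyq : (6 + 36 * M) * (y * q) ≤ 1 := by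
    refine le_trans (le_of_eq ?_) a3
    rw [hq, hy, mul_left_comm (x ^ _), ← Real.rpow_add hx0, mul_assoc]
    congr 3; ring
  have hq1 : q ≤ 1 := by
    have b1 : q ≤ y * q := le_mul_of_one_le_left hq0 hy1
    have b2 : 0 ≤ M * (y * q) := by positivity
    linarith only [s1, hη, hκ, hδ, δ0, e2, hyq, b1, b2]
  refine ET2_Lm_tail h'.tsum_e h.tsum_e h'.mean_e h.mean_e (q := ENNReal.ofReal q)
    (ENNReal.ofReal_le_one.2 hq1) ?_ (hM2 y (by linarith only [s1, hη, hκ, hδ, δ0, e2, hy1])).2 ?_ ?_ hm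
  · refine (ET2_not_good h'.tsum_e h.tsum_e h'.mean_e h.mean_e _ _).trans ?_
    refine (add_le_add (mul_le_mul' a2 a1) (mul_le_mul_right (hM2 x hx0).1 _)).trans ?_
    rw [← ENNReal.ofReal_natCast, ← ENNReal.ofReal_mul (by positivity),
      ← ENNReal.ofReal_mul (by positivity), ← ENNReal.ofReal_add (by positivity) (by positivity)]
    refine ENNReal.ofReal_le_ofReal ?_
    have b1 : x ^ (-η) * x ^ (-κ) ≤ x ^ (-(1 + δ)) := by
      rw [← Real.rpow_add hx0]
      exact Real.rpow_le_rpow_of_exponent_le hx1 e2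
    have b2 : (⌈x ^ η⌉₊ : ℝ) * (M * x ^ (-β)) ≤ 2 * x ^ η * (M * x ^ (-β)) := by
      gcongr; exact hceil x hx1
    have b3 : 2 * x ^ η * (M * x ^ (-β)) = 2 * M * x ^ (-(1 + δ)) := by
      rw [← e1, Real.rpow_add hx0]; ring
    rw [hq]
    nlinarith only [b1, b2, b3]
  · rw [← ENNReal.ofReal_natCast, ← ENNReal.ofReal_ofNat, ← ENNReal.ofReal_mul (by positivity),
      ← ENNReal.ofReal_mul (by positivity)]
    refine ENNReal.ofReal_le_one.2 ?_
    have b1 : (⌊y⌋₊ : ℝ) * q ≤ y * q := by gcongr; exact Nat.floor_le (by linarith only [s1, hη, hκ, hδ, δ0, e2, hy1])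
    have b2 : 0 ≤ M * (y * q) := by positivity
    nlinarith only [hyq, b1, b2]
  · rw [← ENNReal.ofReal_natCast, ← ENNReal.ofReal_ofNat, ← ENNReal.ofReal_mul (by positivity),
      ← ENNReal.ofReal_mul (by positivity), ← ENNReal.ofReal_mul (by positivity)]
    refine ENNReal.ofReal_le_one.2 ?_
    have b1 : y ^ η * y ^ (2 - β) ≤ y := by
      rw [← Real.rpow_add (by linarith only [s1, hη, hκ, hδ, δ0, e2, hy1])]
      simpa using Real.rpow_le_rpow_of_exponent_le hy1 (show η + (2 - β) ≤ 1 by linarith only [hη, hβ, hδ, δ0])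
    calc _ ≤ 18 * (2 * y ^ η) * (M * y ^ (2 - β)) * q := by gcongr; exact hceil y hy1
      _ = 36 * M * (y ^ η * y ^ (2 - β) * q) := by ring
      _ ≤ 36 * M * (y * q) := by gcongr
      _ ≤ 1 := by nlinarith only [mul_nonneg (show 0 ≤ y by linarith only [s1, hη, hκ, hδ, δ0, e2, hy1]) hq0, hyq, s1, hη, hκ, hδ, δ0, e2, hy1, hq0]

end Pool.Agent.MP_8702f5_pr

end

-- part MP_8702f5_pr.UFinal
section

/-! The upper bound and the two-sided statement. -/

namespace Pool.Agent.MP_8702f5_pr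

open Finset F Filter Topology
open scoped ENNReal

variable {μ μ' : ℕ → ℝ} {α α' c C c' C' : ℝ}

theorem pairProb_le_ET2 (h0 : ∀ k, 0 ≤ μ k) (h0' : ∀ k, 0 ≤ μ' k) {n : ℕ}
    {A : PlaneTree → PlaneTree → Prop} {B : F → F → Prop} {r : ℝ} (hr : 0 ≤ r)
    (hB : ET2 (μe μ') (μe μ) (fun g f => ind (B g f)) ≤ ENNReal.ofReal r)
    (hA : ∀ f g, f.size + 1 = n → g.size + 1 = n → A (toPT f) (toPT g) → B g f) :
    pairProb μ μ' n A ≤ r / (sizeProb μ n * sizeProb μ' n) := by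
  classical
  rw [pairProb_eq]
  refine div_le_div_of_nonneg_right ?_ (by
    rw [sizeProb_eq h0, sizeProb_eq h0']; exact mul_nonneg (PT_nonneg _) (PT_nonneg _))
  rw [← ENNReal.ofReal_le_ofReal_iff hr, ENNReal.ofReal_sum_of_nonneg fun _ _ =>
    mul_nonneg (weight_nonneg h0 _) (weight_nonneg h0' _)]
  refine le_trans ?_ hB
  rw [sum_filter, sum_product_right, ET2, ET]
  refine le_trans (sum_le_sum fun g hg => ?_) (ENNReal.sum_le_tsum (Fn n))
  rw [ET, ← ENNReal.tsum_mul_left]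
  refine le_trans (sum_le_sum fun f hf => ?_) (ENNReal.sum_le_tsum (Fn n))
  split_ifs with ha
  · rw [ind_pos (hA f g (mem_Fn.1 hf) (mem_Fn.1 hg) ha), mul_one, weight_toPT h0, weight_toPT h0',
      ENNReal.ofReal_mul (weight_nonneg h0 _), mul_comm]
  · exact zero_le

theorem pairProb_le_add (h0 : ∀ k, 0 ≤ μ k) (h0' : ∀ k, 0 ≤ μ' k) (n : ℕ)
    (A B : PlaneTree → PlaneTree → Prop) : pairProb μ μ' n A ≤
      pairProb μ μ' n (fun t t' => A t t' ∧ B t t') + pairProb μ μ' n fun t t' => ¬B t t' := by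
  classical
  simp only [pairProb_eq, sum_filter]
  rw [← add_div, ← sum_add_distrib]
  refine div_le_div_of_nonneg_right (sum_le_sum fun p _ => ?_) (by
    rw [sizeProb_eq h0, sizeProb_eq h0']; exact mul_nonneg (PT_nonneg _) (PT_nonneg _))
  have := mul_nonneg (weight_nonneg h0 (toPT p.1)) (weight_nonneg h0' (toPT p.2))
  by_cases ha : A (toPT p.1) (toPT p.2) <;> by_cases hb : B (toPT p.1) (toPT p.2) <;>
    simp [ha, hb, this]

theorem negl_le_pair (h : Good μ α c C) (h' : Good μ' α' c' C') {r : ℕ → ℝ} (hr : Negl r) {ε : ℝ}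
    (hε : 0 < ε) : ∀ᶠ n : ℕ in atTop, 0 < sizeProb μ n → 0 < sizeProb μ' n →
      r n / (sizeProb μ n * sizeProb μ' n) ≤ ε := by
  have h1 : Negl fun n => Real.sqrt (r n) := fun A => by
    filter_upwards [hr (2 * A)] with n hn
    refine Real.sqrt_le_iff.2 ⟨(Real.exp_pos _).le, hn.trans (le_of_eq ?_)⟩
    rw [← Real.exp_nat_mul]; congr 1; push_cast; ring
  filter_upwards [h.negl_le h1 hε, h'.negl_le h1 one_pos] with n a1 a2 hn hn'
  rw [div_le_iff₀ (mul_pos hn hn')]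
  calc r n ≤ Real.sqrt (r n) * Real.sqrt (r n) := by
        rcases le_total 0 (r n) with h0 | h0
        · exact (Real.mul_self_sqrt h0).ge
        · exact h0.trans (mul_self_nonneg _)
    _ ≤ ε * sizeProb μ n * (1 * sizeProb μ' n) :=
        mul_le_mul (a1 hn) (a2 hn') (Real.sqrt_nonneg _) (by positivity)
    _ = _ := by ring

theorem Negl.const_mul {f : ℕ → ℝ} (h : Negl f) (h0 : ∀ n, 0 ≤ f n) (K : ℝ) :
    Negl fun n => K * f n := by
  refine h.mul_nat.of_le ?_
  filter_upwards [tendsto_natCast_atTop_atTop.eventually_ge_atTop K] with n hn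
  exact mul_le_mul_of_nonneg_right hn (h0 n)

theorem size_sub_le {u : List ℕ} {f : F} (h : mem u f) : (f.sub u).size ≤ f.size := by
  induction u generalizing f with
  | nil => exact le_rfl
  | cons i w ih => exact (ih h.2).trans (size_child_lt h.1).le

theorem ind_exists_le {ι : Type*} (s : Finset ι) (A : ι → Prop) :
    ind (∃ i ∈ s, A i) ≤ ∑ i ∈ s, ind (A i) := by
  by_cases h : ∃ i ∈ s, A i
  · obtain ⟨i, hi, ha⟩ := h
    refine (ind_le_one _).trans (le_trans ?_ (single_le_sum (f := fun i => ind (A i))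
      (fun _ _ => zero_le) hi))
    rw [ind_pos ha]
  · rw [ind_neg h]; exact zero_le

theorem Good.ET_eq_PT (h : Good μ α c C) (A : F → Prop) :
    ET (μe μ) (fun f => ind (A f)) = ENNReal.ofReal (PT μ A) :=
  (ENNReal.ofReal_toReal (h.ET_ne A)).symm

theorem exists_levels {ρ η : ℝ} (hρ : 1 < ρ) (h0 : 0 < η) (h1 : η ≤ 1) :
    ∃ (K : ℝ) (N : ℕ → ℕ), 0 < K ∧ ∀ᶠ n : ℕ in atTop, N n ≤ n ∧
      (N n : ℝ) ≤ K * Real.log (Real.log n) ∧ ∀ x₀ : ℝ, Real.exp 1 ≤ x₀ →
        n * n ≤ ⌊x₀ ^ ρ ^ N n⌋₊ ∧ n ≤ ⌈(x₀ ^ ρ ^ N n) ^ η⌉₊ := by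
  have hl : 0 < Real.log ρ := Real.log_pos hρ
  refine ⟨2 / Real.log ρ + 1, fun n => ⌈Real.log (2 / η * Real.log n) / Real.log ρ⌉₊,
    by positivity, ?_⟩
  have t1 := Real.tendsto_log_atTop.comp tendsto_log_nat
  filter_upwards [t1.eventually_ge_atTop 1, t1.eventually_ge_atTop (Real.log (2 / η)),
    tendsto_log_nat.eventually_ge_atTop 1, tendsto_log_nat.eventually_ge_atTop (2 / Real.log ρ + 1),
    log_pow_le_rpow one_pos 2, eventually_ge_atTop 1] with n e1 e2 e3 e4 e5 e6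
  simp only [Function.comp] at e1 e2
  have hn : (1 : ℝ) ≤ n := by exact_mod_cast e6
  have h2 : 2 ≤ 2 / η := by rw [le_div_iff₀ h0]; linarith only [h1]
  set N := ⌈Real.log (2 / η * Real.log n) / Real.log ρ⌉₊ with hN
  have a0 : 0 ≤ Real.log (2 / η * Real.log n) := Real.log_nonneg (by nlinarith only [e3, h2])
  have a1 : (N : ℝ) ≤ (2 / Real.log ρ + 1) * Real.log (Real.log n) := by
    have b1 := Nat.ceil_lt_add_one (div_nonneg a0 hl.le)
    have b2 : Real.log (2 / η * Real.log n) / Real.log ρ ≤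
        2 / Real.log ρ * Real.log (Real.log n) := by
      rw [Real.log_mul (by positivity) (by positivity), div_mul_eq_mul_div]
      gcongr
      linarith only [e2]
    linarith only [e1, b1, b2]
  refine ⟨?_, a1, fun x₀ hx₀ => ?_⟩
  · have b1 : Real.log (Real.log n) ≤ Real.log n := Real.log_le_self (by linarith only [e3])
    have b2 : (2 / Real.log ρ + 1) * Real.log (Real.log n) ≤ Real.log n * Real.log n := by gcongr
    rw [Real.rpow_one] at e5
    exact_mod_cast (show (N : ℝ) ≤ n by linarith only [e5, a1, b2])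
  · have b1 : 2 / η * Real.log n ≤ ρ ^ N := by
      have := (div_le_iff₀ hl).1 (Nat.le_ceil (Real.log (2 / η * Real.log n) / Real.log ρ))
      rwa [← Real.log_pow, Real.log_le_log_iff (by positivity) (by positivity)] at this
    have b2 : Real.exp (2 / η * Real.log n) ≤ x₀ ^ ρ ^ N := by
      refine (Real.exp_le_exp.2 b1).trans ?_
      rw [← Real.exp_one_rpow]
      exact Real.rpow_le_rpow (Real.exp_pos _).le hx₀ (by positivity)
    have b3 : Real.exp (2 * Real.log n) = n * n := by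
      rw [two_mul, Real.exp_add, Real.exp_log (by linarith only [hn])]
    refine ⟨Nat.le_floor (le_trans ?_ b2), ?_⟩
    · push_cast
      rw [← b3]
      gcongr
    · have b4 := Real.rpow_le_rpow (Real.exp_pos _).le b2 h0.le
      rw [← Real.exp_mul, show 2 / η * Real.log n * η = 2 * Real.log n by field_simp, b3] at b4
      exact_mod_cast (show (n : ℝ) ≤ (⌈(x₀ ^ ρ ^ N) ^ η⌉₊ : ℝ) by
        nlinarith only [Nat.le_ceil ((x₀ ^ ρ ^ N) ^ η), b4, hn])

theorem upper (h : Good μ α c C) (h' : Good μ' α' c' C') (h2 : α ≤ α') : ∃ K : ℝ, 0 < K ∧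
    ∀ ε : ℝ, 0 < ε → ∀ᶠ n : ℕ in atTop, 0 < sizeProb μ n → 0 < sizeProb μ' n →
      (pairProb μ μ' n fun t t' => ¬(
        (LCS t t' : ℝ) ≤ Real.exp (K * Real.log (Real.log n) ^ 2) * (min t.maxDeg t'.maxDeg : ℕ) ∧
        (LCS t t' : ℝ) ≤ Real.exp (K * Real.log (Real.log n) ^ 2) * (n : ℝ) ^ (1 / α'))) ≤ ε := by
  obtain ⟨ρ, η, x₀, hρ, η0, η1, hx₀, hlev⟩ := level_prob h h' h2
  obtain ⟨K, N, hK, hN⟩ := exists_levels hρ η0 η1
  have hα := h.one_lt
  have hα' := h'.one_lt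
  have hc' := h'.c_pos
  have h00 := h'.zero_pos
  have hx1 : 1 ≤ x₀ := le_trans (Real.one_le_exp zero_le_one) hx₀
  refine ⟨9 * K + 9, by positivity, fun ε hε => ?_⟩
  set z : ℕ → ℕ := fun i => ⌊x₀ ^ ρ ^ i⌋₊ with hz
  set H : ℕ → ℕ := fun i => ⌈(x₀ ^ ρ ^ i) ^ η⌉₊ with hH
  set m : ℕ → ℕ := fun n => ⌈Real.log n ^ 3⌉₊ with hm
  set L : ℕ → ℝ := fun n => (1 + 2 / c' * (1 + Real.log n)) * Real.log n ^ 3 with hL
  have n1 : Negl fun n : ℕ => n * (n * (n * (16 / μ' 0 * Real.exp (3 * C') *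
      Real.exp (-(μ' 0 / 32 * Real.log n ^ 3))))) :=
    ((negl_cube (by positivity)).const_mul (fun _ => (Real.exp_pos _).le) _).mul_nat.mul_nat.mul_nat
  have n2 : Negl fun n : ℕ => n * (n * (n * Real.exp (-(1 / 2 * Real.log n ^ 3)))) :=
    (negl_cube (by norm_num)).mul_nat.mul_nat.mul_nat
  filter_upwards [negl_le_pair h h' (h.negl_small.add (h'.negl_small.add (n1.add n2))) hε, hN,
    tendsto_log_nat.eventually_ge_atTop 2, tendsto_log_nat.eventually_ge_atTop (1 + 4 / c'),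
    tendsto_log_nat.eventually_ge_atTop (((z 0 + 1) ^ H 0 : ℕ) : ℝ),
    (Real.tendsto_log_atTop.comp tendsto_log_nat).eventually_ge_atTop 1,
    eventually_ge_atTop 1] with n e0 ⟨e1, e2, e3⟩ e4 e5 e6 e7 e8 hn hn'
  simp only [Function.comp] at e7
  obtain ⟨e3, e3'⟩ := e3 x₀ hx₀
  have hn1 : (1 : ℝ) ≤ n := by exact_mod_cast e8
  have l3 : 1 ≤ Real.log n ^ 3 := one_le_pow₀ (by linarith only [e4])
  have hm1 : 1 ≤ m n := Nat.one_le_ceil_iff.2 (by linarith only [l3])
  have hD : 1 ≤ 1 + 2 / c' * (1 + Real.log n) := le_add_of_nonneg_right (by positivity)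
  have hL1 : 1 ≤ L n := one_le_mul_of_one_le_of_one_le hD l3
  refine le_trans (pairProb_le_ET2 h.nonneg h'.nonneg
    (B := fun g f => (f.size + 1 = n ∧ f.small ⌈(n : ℝ) ^ (1 / α) / Real.log n ^ 3⌉₊) ∨
      (g.size + 1 = n ∧ g.small ⌈(n : ℝ) ^ (1 / α') / Real.log n ^ 3⌉₊) ∨
      anyV (fun a => a.size < n ∧ L n * Yf α' a < acc (Yf α') a + 1) n g ∨
      ∃ i ∈ range (N n), anyV (fun a' => anyV (fun a => good (z (i + 1)) (H (i + 1)) a' a ∧
        m n < Lm (good (z i) (H i)) a' a) n f) n g)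
    (add_nonneg (PT_nonneg _) (add_nonneg (PT_nonneg _) (by positivity))) ?_ ?_) (e0 hn hn')
  · refine le_trans (ET2_mono fun g f => (ind_or_le id).trans (add_le_add (one_mul _).ge
      ((ind_or_le id).trans (add_le_add (mul_one _).ge ((ind_or_le id).trans
      (add_le_add (mul_one _).ge (ind_exists_le _ _))))))) ?_
    rw [ET2_add, ET2_add, ET2_add, ET2_sum, ET2_prod, ET2_prod, ET2_prod,
      ENNReal.ofReal_add (PT_nonneg _) (add_nonneg (PT_nonneg _) (by positivity)),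
      ENNReal.ofReal_add (PT_nonneg _) (by positivity),
      ENNReal.ofReal_add (by positivity) (by positivity), ← h.ET_eq_PT, ← h'.ET_eq_PT]
    refine add_le_add (mul_le_of_le_one_left' (ET_one_le h'.tsum_e)) (add_le_add
      (mul_le_of_le_one_right' (ET_one_le h.tsum_e)) (add_le_add
      ((mul_le_of_le_one_right' (ET_one_le h.tsum_e)).trans ?_) ?_))
    · refine (ET_anyV_le h'.tsum_e h'.mean_e _ n).trans ?_
      rw [ENNReal.ofReal_mul (Nat.cast_nonneg n), ENNReal.ofReal_natCast]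
      refine mul_le_mul_right ((h'.acc_tail n (by linarith only [hL1])).trans (le_of_eq ?_)) _
      rw [sub_eq_add_neg, Real.exp_add, show μ' 0 * L n / (32 * (1 + 2 / c' * (1 + Real.log n))) =
        μ' 0 / 32 * Real.log n ^ 3 by simp only [hL]; field_simp]
      congr 1; ring
    · refine (sum_le_card_nsmul _ _ (n * (n * ENNReal.ofReal (Real.exp
        (-(1 / 2 * Real.log n ^ 3))))) fun i _ => ?_).trans ?_
      · refine (ET2_anyV_le h'.tsum_e h.tsum_e h'.mean_e h.mean_e _ n).trans ?_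
        gcongr
        have a1 := hlev (x₀ ^ ρ ^ i) (by
          simpa using Real.rpow_le_rpow_of_exponent_le hx1 (one_le_pow₀ hρ.le (n := i))) (m n) hm1
        rw [← Real.rpow_mul (by linarith only [hx1]), ← pow_succ] at a1
        refine a1.trans ?_
        rw [show (2⁻¹ : ℝ≥0∞) = ENNReal.ofReal (1 / 2) by
          rw [one_div, ENNReal.ofReal_inv_of_pos two_pos, ENNReal.ofReal_ofNat],
          ← ENNReal.ofReal_pow (by norm_num)]
        refine ENNReal.ofReal_le_ofReal ?_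
        calc (1 / 2 : ℝ) ^ m n ≤ Real.exp (-(1 / 2)) ^ m n := by
              gcongr; linarith only [Real.add_one_le_exp (-(1 / 2) : ℝ)]
          _ ≤ _ := by
              rw [← Real.exp_nat_mul]
              exact Real.exp_le_exp.2 (by linarith only [Nat.le_ceil (Real.log n ^ 3)])
      · rw [card_range, nsmul_eq_mul, ENNReal.ofReal_mul (Nat.cast_nonneg n),
          ENNReal.ofReal_mul (Nat.cast_nonneg n), ENNReal.ofReal_mul (Nat.cast_nonneg n),
          ENNReal.ofReal_natCast]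
        gcongr
  · intro f g hf hg hA
    by_contra hB
    simp only [not_or, not_exists, not_and] at hB
    obtain ⟨b1, b2, b3, b4⟩ := hB
    refine hA ?_
    have hY := one_le_Yf hα'
    have c1 : ∀ a', (∃ u, mem u g ∧ a' = g.sub u) → acc (Yf α') a' + 1 ≤ L n * Yf α' a' := by
      rintro _ ⟨u, hu, rfl⟩
      by_contra hcon
      exact b3 (anyV_of_mem hu ⟨by have := size_sub_le hu; omega, not_le.1 hcon⟩
        (by have := length_le_size hu; omega))
    have c2 := levels (her_sub g) (her_sub f) hY z H hm1 hL1 (N := N n) (by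
      rintro i hi _ _ ⟨u', hu', rfl⟩ ⟨u, hu, rfl⟩ hgd
      by_contra hcon
      exact b4 i (mem_range.2 hi) (anyV_of_mem hu' (anyV_of_mem hu ⟨hgd, not_le.1 hcon⟩
        (by have := length_le_size hu; omega)) (by have := length_le_size hu'; omega))) c1
      (N n) le_rfl
    set G := (((z 0 + 1) ^ H 0 : ℕ) : ℝ) * (m n * L n) ^ N n with hG
    have hG1 : 1 ≤ G := one_le_mul_of_one_le_of_one_le
      (by exact_mod_cast Nat.one_le_pow _ _ (Nat.succ_pos _))
      (one_le_pow₀ (one_le_mul_of_one_le_of_one_le (by exact_mod_cast hm1) hL1))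
    have c3 : (LCS (toPT f) (toPT g) : ℝ) ≤ G * (L n * (n : ℝ) ^ (1 / α')) := by
      refine LCS_le (Y := Yf α') (fun a => by linarith only [hY a]) hG1 (fun u' u hu' hu => ?_) fun u' hu' => ?_
      · have d1 := size_sub_le hu'
        have d2 := size_sub_le hu
        exact c2 _ _ ⟨u', hu', rfl⟩ ⟨u, hu, rfl⟩
          (good_of_size e3 (lt_of_lt_of_le (by omega) e3') (by omega) (by omega))
      · refine mul_le_mul_of_nonneg_left ((c1 _ ⟨u', hu', rfl⟩).trans ?_) (by linarith only [hG1])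
        refine mul_le_mul_of_nonneg_left ((Yf_mono hα' (size_sub_le hu')).trans ?_) (by linarith only [hL1])
        rw [Yf, hg]
    set l := Real.log n with hl
    have l0 : 0 < l := by linarith only [e4]
    have c4 : G * L n * l ^ 3 ≤ Real.exp ((9 * K + 9) * Real.log l ^ 2) := by
      have d1 : (m n : ℝ) ≤ l ^ 4 := by
        have := Nat.ceil_lt_add_one (show 0 ≤ l ^ 3 by positivity)
        simp only [hm]
        nlinarith only [e4, l3, this]
      have d2 : L n ≤ l ^ 5 := by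
        have : 1 + 2 / c' * (1 + l) ≤ l ^ 2 := by
          have f1 : 2 / c' * (1 + l) ≤ 4 / c' * l := by
            rw [div_mul_eq_mul_div, div_mul_eq_mul_div]; gcongr ?_ / _; linarith only [e4]
          nlinarith only [e4, e5, f1]
        calc L n ≤ l ^ 2 * l ^ 3 := mul_le_mul_of_nonneg_right this (by positivity)
          _ = _ := by ring
      calc _ ≤ l * (l ^ 4 * l ^ 5) ^ N n * l ^ 5 * l ^ 3 := by rw [hG]; gcongr
        _ = Real.exp ((9 * N n + 9 : ℕ) * Real.log l) := by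
            rw [Real.exp_nat_mul, Real.exp_log l0]; ring
        _ ≤ _ := by
            refine Real.exp_le_exp.2 ?_
            push_cast
            nlinarith only [e2, e7, hK]
    have hGL : 0 ≤ G * L n := by positivity
    obtain ⟨u, u1, -, u3⟩ := exists_hub' (b1 hf)
    obtain ⟨u', u1', -, u3'⟩ := exists_hub' (b2 hg)
    have c5 : (n : ℝ) ^ (1 / α') ≤ l ^ 3 * (min (toPT f).maxDeg (toPT g).maxDeg : ℕ) := by
      rw [← div_le_iff₀' (by positivity), Nat.cast_min]
      refine le_min (le_trans ?_ (u3.trans (Nat.cast_le.2 (len_le_maxDeg u1))))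
        (u3'.trans (Nat.cast_le.2 (len_le_maxDeg u1')))
      gcongr
    refine ⟨c3.trans ?_, c3.trans ?_⟩
    · calc _ = G * L n * (n : ℝ) ^ (1 / α') := by ring
        _ ≤ G * L n * (l ^ 3 * (min (toPT f).maxDeg (toPT g).maxDeg : ℕ)) := by gcongr
        _ = G * L n * l ^ 3 * (min (toPT f).maxDeg (toPT g).maxDeg : ℕ) := by ring
        _ ≤ _ := by gcongr
    · rw [← mul_assoc]
      gcongr
      exact (le_mul_of_one_le_right hGL l3).trans c4

theorem final_two {c c' : ℝ} (hμ : HeavyTailed μ c α) (hμ' : HeavyTailed μ' c' α') (hc : 0 < c)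
    (hc' : 0 < c') (h1 : 1 < α) (h2 : α ≤ α') (h3 : α' < 2) :
    {n | 0 < sizeProb μ n ∧ 0 < sizeProb μ' n}.Infinite ∧ ∃ γ K : ℝ, 0 < γ ∧
      Tendsto (fun n : ℕ => pairProb μ μ' n fun t t' =>
        (Real.exp (γ * Real.log (Real.log n) ^ 2) * (min t.maxDeg t'.maxDeg : ℕ) ≤ LCS t t' ∧
        Real.exp (γ * Real.log (Real.log n) ^ 2) * (n : ℝ) ^ (1 / α') ≤ LCS t t') ∧
        (LCS t t' : ℝ) ≤ Real.exp (K * Real.log (Real.log n) ^ 2) * (min t.maxDeg t'.maxDeg : ℕ) ∧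
        (LCS t t' : ℝ) ≤ Real.exp (K * Real.log (Real.log n) ^ 2) * (n : ℝ) ^ (1 / α'))
      (atTop ⊓ 𝓟 {n | 0 < sizeProb μ n ∧ 0 < sizeProb μ' n}) (𝓝 1) := by
  obtain ⟨hinf, γ, hγ, hlow⟩ := final hμ hμ' hc hc' h1 h2 h3
  obtain ⟨c₁, C₁, h⟩ := hμ.good hc h1 (by linarith)
  obtain ⟨c₂, C₂, h'⟩ := hμ'.good hc' (by linarith) h3
  obtain ⟨K, -, hup⟩ := upper h h' h2
  refine ⟨hinf, γ, K, hγ, tendsto_order.2 ⟨fun a ha => ?_, fun a ha =>
    Eventually.of_forall fun n => (pairProb_le_one h.nonneg h'.nonneg _ _).trans_lt ha⟩⟩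
  have a1 := (tendsto_order.1 hlow).1 ((a + 1) / 2) (by linarith)
  rw [eventually_inf_principal] at a1 ⊢
  filter_upwards [a1, hup ((1 - a) / 2) (by linarith)] with n b1 b2 hadm
  linarith only [b1 hadm, b2 hadm.1 hadm.2, pairProb_le_add h.nonneg h'.nonneg n
    (fun t t' => Real.exp (γ * Real.log (Real.log n) ^ 2) * (min t.maxDeg t'.maxDeg : ℕ) ≤
      LCS t t' ∧ Real.exp (γ * Real.log (Real.log n) ^ 2) * (n : ℝ) ^ (1 / α') ≤ LCS t t')
    fun t t' =>
      (LCS t t' : ℝ) ≤ Real.exp (K * Real.log (Real.log n) ^ 2) * (min t.maxDeg t'.maxDeg : ℕ) ∧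
      (LCS t t' : ℝ) ≤ Real.exp (K * Real.log (Real.log n) ^ 2) * (n : ℝ) ^ (1 / α'), hadm]

end Pool.Agent.MP_8702f5_pr

end
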