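import Mathlib
import Pool.Agent.MP_8702f5_pr.Mg.UFinal

-- part MP_8702f5_pr.SStep
section

/-! One level of the sharp upper bound. -/

namespace Pool.Agent.MP_8702f5_pr

open Finset F Filter Topology
open scoped ENNReal NNReal

variable {μ μ' : ℕ → ℝ} {α α' c C c' C' : ℝ}

/-- Some pair of subtrees has a rooted common subtree larger than the crude bound. -/
def CB (α G : ℝ) (g f : F) : Prop :=
  ∃ u' u, mem u' g ∧ mem u f ∧ G * Yf α (g.sub u') < Rm (g.sub u') (f.sub u) + 1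

/-- Some subtree has a path carrying a large mass. -/
def AB (α L : ℝ) (g : F) : Prop :=
  ∃ u, mem u g ∧ L * Yf α (g.sub u) < acc (Yf α) (g.sub u) + 1

theorem crude (h : Good μ α c C) (h' : Good μ' α' c' C') (h2 : α ≤ α') : ∃ (K : ℝ) (r : ℕ → ℝ),
    0 < K ∧ Negl r ∧ (∀ n, 0 ≤ r n) ∧ ∀ᶠ n : ℕ in atTop,
      ET2 (μe μ') (μe μ) (fun g f => ind (g.size < n ∧ f.size < n ∧
        CB α' (Real.exp (K * Real.log (Real.log n) ^ 2)) g f)) ≤ ENNReal.ofReal (r n) ∧
      PT μ' (fun g => g.size < n ∧ AB α' (Real.log n ^ 5) g) ≤ r n := by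
  obtain ⟨ρ, η, x₀, hρ, η0, η1, hx₀, hlev⟩ := level_prob h h' h2
  obtain ⟨K, N, hK, hN⟩ := exists_levels hρ η0 η1
  have hα := h.one_lt
  have hα' := h'.one_lt
  have hc' := h'.c_pos
  have h00 := h'.zero_pos
  have hx1 : 1 ≤ x₀ := le_trans (Real.one_le_exp zero_le_one) hx₀
  set z : ℕ → ℕ := fun i => ⌊x₀ ^ ρ ^ i⌋₊ with hz
  set H : ℕ → ℕ := fun i => ⌈(x₀ ^ ρ ^ i) ^ η⌉₊ with hH
  set m : ℕ → ℕ := fun n => ⌈Real.log n ^ 3⌉₊ with hm
  set L : ℕ → ℝ := fun n => (1 + 2 / c' * (1 + Real.log n)) * Real.log n ^ 3 with hL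
  have n1 : Negl fun n : ℕ => n * (n * (n * (16 / μ' 0 * Real.exp (3 * C') *
      Real.exp (-(μ' 0 / 32 * Real.log n ^ 3))))) :=
    ((negl_cube (by positivity)).const_mul (fun _ => (Real.exp_pos _).le) _).mul_nat.mul_nat.mul_nat
  have n2 : Negl fun n : ℕ => n * (n * (n * Real.exp (-(1 / 2 * Real.log n ^ 3)))) :=
    (negl_cube (by norm_num)).mul_nat.mul_nat.mul_nat
  refine ⟨9 * K + 9, _, by positivity, n1.add n2, fun n => by positivity, ?_⟩
  filter_upwards [hN,
    tendsto_log_nat.eventually_ge_atTop 2, tendsto_log_nat.eventually_ge_atTop (1 + 4 / c'),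
    tendsto_log_nat.eventually_ge_atTop (((z 0 + 1) ^ H 0 : ℕ) : ℝ),
    (Real.tendsto_log_atTop.comp tendsto_log_nat).eventually_ge_atTop 1,
    eventually_ge_atTop 1] with n ⟨e1, e2, e3⟩ e4 e5 e6 e7 e8
  simp only [Function.comp] at e7
  obtain ⟨e3, e3'⟩ := e3 x₀ hx₀
  have hn1 : (1 : ℝ) ≤ n := by exact_mod_cast e8
  have l3 : 1 ≤ Real.log n ^ 3 := one_le_pow₀ (by linarith only [e4])
  have hm1 : 1 ≤ m n := Nat.one_le_ceil_iff.2 (by linarith only [l3])
  have hD : 1 ≤ 1 + 2 / c' * (1 + Real.log n) := le_add_of_nonneg_right (by positivity)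
  have hL1 : 1 ≤ L n := one_le_mul_of_one_le_of_one_le hD l3
  have hY := one_le_Yf hα'
  have p1 : ET (μe μ') (fun g => ind
      (anyV (fun a => a.size < n ∧ L n * Yf α' a < acc (Yf α') a + 1) n g)) ≤
      ENNReal.ofReal (n * (n * (n * (16 / μ' 0 * Real.exp (3 * C') *
        Real.exp (-(μ' 0 / 32 * Real.log n ^ 3)))))) := by
    refine (ET_anyV_le h'.tsum_e h'.mean_e _ n).trans ?_
    rw [ENNReal.ofReal_mul (Nat.cast_nonneg n), ENNReal.ofReal_natCast]
    refine mul_le_mul_right ((h'.acc_tail n (by linarith only [hL1])).trans (le_of_eq ?_)) _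
    rw [sub_eq_add_neg, Real.exp_add, show μ' 0 * L n / (32 * (1 + 2 / c' * (1 + Real.log n))) =
      μ' 0 / 32 * Real.log n ^ 3 by simp only [hL]; field_simp]
    congr 1; ring
  set l := Real.log n with hl
  have l0 : 0 < l := by linarith only [e4]
  have d2 : L n ≤ l ^ 5 := by
    have : 1 + 2 / c' * (1 + l) ≤ l ^ 2 := by
      have f1 : 2 / c' * (1 + l) ≤ 4 / c' * l := by
        rw [div_mul_eq_mul_div, div_mul_eq_mul_div]; gcongr ?_ / _; linarith only [e4]
      nlinarith only [e4, e5, f1]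
    calc L n ≤ l ^ 2 * l ^ 3 := mul_le_mul_of_nonneg_right this (by positivity)
      _ = _ := by ring
  have c1 : ∀ g : F, g.size < n →
      ¬anyV (fun a => a.size < n ∧ L n * Yf α' a < acc (Yf α') a + 1) n g →
      ∀ a', (∃ u, mem u g ∧ a' = g.sub u) → acc (Yf α') a' + 1 ≤ L n * Yf α' a' := by
    rintro g hg b3 _ ⟨u, hu, rfl⟩
    by_contra hcon
    exact b3 (anyV_of_mem hu ⟨by have := size_sub_le hu; omega, not_le.1 hcon⟩
      (by have := length_le_size hu; omega))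
  constructor
  · refine le_trans (ET2_mono (ψ := fun g f => ind
      (anyV (fun a => a.size < n ∧ L n * Yf α' a < acc (Yf α') a + 1) n g) * 1 +
      ∑ i ∈ range (N n), ind (anyV (fun a' => anyV (fun a => good (z (i + 1)) (H (i + 1)) a' a ∧
        m n < Lm (good (z i) (H i)) a' a) n f) n g)) fun g f => ?_) ?_
    · refine (ind_or_le ?_).trans (add_le_add (mul_one _).ge (ind_exists_le _ _))
      rintro ⟨hg, hf, u', u, hu', hu, hA⟩
      by_contra hB
      simp only [not_or, not_exists, not_and] at hB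
      obtain ⟨b3, b4⟩ := hB
      have c2 := levels (her_sub g) (her_sub f) hY z H hm1 hL1 (N := N n) (by
        rintro i hi _ _ ⟨u', hu', rfl⟩ ⟨u, hu, rfl⟩ hgd
        by_contra hcon
        exact b4 i (mem_range.2 hi) (anyV_of_mem hu' (anyV_of_mem hu ⟨hgd, not_le.1 hcon⟩
          (by have := length_le_size hu; omega)) (by have := length_le_size hu'; omega)))
        (c1 g hg b3) (N n) le_rfl
      have d3 := size_sub_le hu'
      have d4 := size_sub_le hu
      refine absurd hA (not_lt.2 ((c2 _ _ ⟨u', hu', rfl⟩ ⟨u, hu, rfl⟩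
        (good_of_size e3 (lt_of_lt_of_le (by omega) e3') (by omega) (by omega))).trans ?_))
      refine mul_le_mul_of_nonneg_right ?_ (by linarith only [hY (g.sub u')])
      have d1 : (m n : ℝ) ≤ l ^ 4 := by
        have := Nat.ceil_lt_add_one (show 0 ≤ l ^ 3 by positivity)
        simp only [hm]
        nlinarith only [e4, l3, this]
      calc _ ≤ l * (l ^ 4 * l ^ 5) ^ N n := by gcongr
        _ = Real.exp ((9 * N n + 1 : ℕ) * Real.log l) := by
            rw [Real.exp_nat_mul, Real.exp_log l0]; ring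
        _ ≤ _ := by
            refine Real.exp_le_exp.2 ?_
            push_cast
            nlinarith only [hK, e2, e7]
    rw [ET2_add, ET2_sum, ET2_prod, ENNReal.ofReal_add (by positivity) (by positivity)]
    refine add_le_add ((mul_le_of_le_one_right' (ET_one_le h.tsum_e)).trans p1) ?_
    refine (sum_le_card_nsmul _ _ (n * (n * ENNReal.ofReal (Real.exp
      (-(1 / 2 * l ^ 3))))) fun i _ => ?_).trans ?_
    · refine (ET2_anyV_le h'.tsum_e h.tsum_e h'.mean_e h.mean_e _ n).trans ?_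
      gcongr
      have a1 := hlev (x₀ ^ ρ ^ i) (by
        simpa using Real.rpow_le_rpow_of_exponent_le hx1 (one_le_pow₀ hρ.le (n := i))) (m n) hm1
      rw [← Real.rpow_mul (by linarith only [hx1]), ← pow_succ] at a1
      refine a1.trans ?_
      rw [show (2⁻¹ : ℝ≥0∞) = ENNReal.ofReal (1 / 2) by
        rw [one_div, ENNReal.ofReal_inv_of_pos two_pos, ENNReal.ofReal_ofNat],
        ← ENNReal.ofReal_pow (by norm_num)]
      refine ENNReal.ofReal_le_ofReal ?_
      calc (1 / 2 : ℝ) ^ m n ≤ Real.exp (-(1 / 2)) ^ m n := by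
            gcongr; linarith only [Real.add_one_le_exp (-(1 / 2) : ℝ)]
        _ ≤ _ := by
            rw [← Real.exp_nat_mul]
            exact Real.exp_le_exp.2 (by linarith only [Nat.le_ceil (l ^ 3)])
    · rw [card_range, nsmul_eq_mul, ENNReal.ofReal_mul (Nat.cast_nonneg n),
        ENNReal.ofReal_mul (Nat.cast_nonneg n), ENNReal.ofReal_mul (Nat.cast_nonneg n),
        ENNReal.ofReal_natCast]
      gcongr
  · refine le_trans (ENNReal.toReal_le_of_le_ofReal (by positivity)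
      (le_trans (ET_mono fun g => ind_mono ?_) p1)) (le_add_of_nonneg_right (by positivity))
    rintro ⟨hg, u, hu, hA⟩
    by_contra hB
    refine absurd hA (not_lt.2 ((c1 g hg hB _ ⟨u, hu, rfl⟩).trans ?_))
    exact mul_le_mul_of_nonneg_right d2 (by linarith only [hY (g.sub u)])

theorem eventually_mul_exp_le (K : ℝ) {a : ℝ} (ha : 0 < a) :
    ∀ᶠ y : ℝ in atTop, K * Real.exp (-(a * y)) ≤ 1 := by
  have := (Real.tendsto_exp_neg_atTop_nhds_zero.comp
    (tendsto_id.const_mul_atTop ha)).const_mul K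
  rw [mul_zero] at this
  exact this.eventually_le_const one_pos

theorem Good.PT_len (h : Good μ α c C) (Z : ℕ) :
    ET (μe μ) (fun f => ind (Z < f.len)) ≤ ENNReal.ofReal (tl μ (Z + 1)) := by
  rw [← h.tail_e, ET_eq]
  refine ENNReal.tsum_le_tsum fun l => ?_
  rw [mul_comm]
  refine mul_le_mul_left (le_trans (E_mono fun f hf => ?_) (E_const_le h.tsum_e l _)) _
  rw [hf]
  exact le_rfl

theorem Good.first_e (h : Good μ α c C) (Z : ℕ) :
    ∑' l : ℕ, ind (Z < l) * (l * μe μ l) ≤ ENNReal.ofReal (T1 μ (Z + 1)) := by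
  have h1 : HasSum (fun l : ℕ => if Z < l then l * μ l else 0) (T1 μ (Z + 1)) := by
    have := (hasSum_nat_add_iff (f := fun l : ℕ => if Z < l then l * μ l else 0)
      (g := T1 μ (Z + 1)) (Z + 1)).1 (by
        refine ((hasSum_nat_add_iff' (Z + 1)).2 h.mean).congr' ?_
        exact Eventually.of_forall fun s => sum_congr rfl fun i _ => (if_pos (by omega)).symm)
    rwa [sum_eq_zero fun i hi => if_neg (by simpa [Nat.lt_succ_iff] using hi), add_zero] at this
  rw [← h1.tsum_eq, ENNReal.ofReal_tsum_of_nonneg (fun l => by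
    split_ifs; exacts [mul_nonneg (Nat.cast_nonneg l) (h.nonneg l), le_rfl]) h1.summable]
  refine ENNReal.tsum_le_tsum fun l => ?_
  by_cases hl : Z < l
  · rw [ind_pos hl, if_pos hl, one_mul, ENNReal.ofReal_mul (Nat.cast_nonneg l),
      ENNReal.ofReal_natCast, μe]
  · rw [ind_neg hl, zero_mul]; exact zero_le

theorem Good.second_e (h : Good μ α c C) (Z : ℕ) :
    ∑' l : ℕ, μe μ l * (ind (l ≤ Z) * l ^ 2) ≤ ENNReal.ofReal (T2 μ (Z + 1)) := by
  rw [tsum_eq_sum (s := range (Z + 1)) fun l hl => by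
    rw [ind_neg (by simpa [Nat.lt_succ_iff] using hl), zero_mul, mul_zero], T2,
    ENNReal.ofReal_sum_of_nonneg fun l _ => mul_nonneg (sq_nonneg _) (h.nonneg l)]
  refine sum_le_sum fun l hl => ?_
  rw [ind_pos (Nat.lt_succ_iff.1 (mem_range.1 hl)), one_mul, ENNReal.ofReal_mul (sq_nonneg _),
    ENNReal.ofReal_pow (Nat.cast_nonneg l), ENNReal.ofReal_natCast, μe, mul_comm]

/-- For every first tree, the bound `φ` fails with probability at most `exp (-x)`. -/
def Pq (μ : ℕ → ℝ) (φ : F → ℝ) (x : ℝ) : Prop :=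
  ∀ g, PT μ (fun f => φ g < Rm g f + 1) ≤ Real.exp (-x)

theorem step (h : Good μ α c C) (hα' : 1 < α') (hα2 : α' < 2) {δ ε : ℝ} (hε : 0 < ε)
    (h1 : ε ≤ δ / 10) (h2 : δ < 1) (h3 : ε < (1 - δ) * (α - 1)) : ∀ᶠ y : ℝ in atTop,
    ∀ φ : F → ℝ, (∀ g, 0 ≤ φ g) → Pq μ φ y → ∀ (g : F) (Λ : ℝ), 1 ≤ Λ →
      acc (Yf α') g ≤ Λ * Yf α' g → ∃ ok : F → Prop,
        PT μ (fun f => ¬ok f) ≤ 2 * C * Real.exp ((3 * ε - α * (1 - δ)) * y) ∧
        (∀ f : F, f.size ≤ Real.exp ((1 - δ) * y) → ok f) ∧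
        ∀ (m : ℕ) (G L : ℝ), 1 ≤ m → 0 ≤ G → PT μ (fun f => ok f ∧ ¬CB α' G g f ∧
          m * (acc φ g + 1 + G * (L * (Real.exp (-(ε * y)) * Λ * Yf α' g))) < Rm g f + 1) ≤
          Real.exp (-(δ / 3 * y * m)) + (g.size + 1) * Real.exp (2 - L) := by
  have hC := h.C_ge
  have hα := h.one_lt
  have hδ : 0 < δ := by linarith
  filter_upwards [eventually_mul_exp_le 2 (show 0 < δ - ε by linarith),
    eventually_mul_exp_le (2 * C) (sub_pos.2 h3),
    eventually_mul_exp_le (32 * C) (show 0 < δ / 6 by linarith), eventually_ge_atTop 0]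
    with y e1 e2 e3 hy φ hφ hq g Λ hΛ hg
  have hY := one_le_Yf hα'
  have hY0 : ∀ d, 0 ≤ Yf α' d := fun d => zero_le_one.trans (hY d)
  set ω := Real.exp (-(ε * y)) with hω
  have hω0 : 0 < ω := Real.exp_pos _
  set a := ω * Λ * Yf α' g with ha
  have ha0 : 0 < a := mul_pos (by positivity) (by linarith [hY g])
  set p := Real.exp (ε * y) with hp
  have hp1 : 1 ≤ p := Real.one_le_exp (by positivity)
  have hpω : p * ω = 1 := by rw [hp, hω, ← Real.exp_add]; simp
  have hga : acc (Yf α') g ≤ p * a := by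
    rw [ha, ← mul_assoc, ← mul_assoc, hpω, one_mul]; exact hg
  set lg : F → Prop := fun d => a < Yf α' d with hlg
  set hub : F → Prop := fun d => a < sW lg (Yf α') d ∨ 2 ≤ d.cnt lg with hhub
  set z := Real.exp ((1 - δ) * y) with hz
  have hz1 : 1 ≤ z := Real.one_le_exp (mul_nonneg (by linarith) hy)
  set Z := ⌊z⌋₊ with hZ
  have hZ1 : (Z : ℝ) ≤ z := Nat.floor_le (by linarith only [hε, h1, h2, hz1])
  have hZ2 : z ≤ ((Z + 1 : ℕ) : ℝ) := by push_cast; exact (Nat.lt_floor_add_one z).le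
  have hH : (hubs lg hub g : ℝ) ≤ 2 * p ^ 3 := by
    have b1 := hubs_le (lg := lg) (hub := hub) (b := a ^ α') ha0 (by positivity) hY0
      (fun d hd => hd.le) (fun d hd => by
        have := Real.rpow_le_rpow ha0.le hd.le (by linarith only [hα', hε, h1, h2] : 0 ≤ α')
        rw [Yf_rpow hα'] at this
        exact_mod_cast this) g (by linarith) (fun d hd => hd.imp_left le_of_lt) hga
    have b2 : g.size / a ^ α' ≤ p ^ 2 := by
      rw [div_le_iff₀ (by positivity)]
      calc (g.size : ℝ) ≤ Yf α' g ^ α' := by rw [Yf_rpow hα']; push_cast; linarith only [hε, h1, h2]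
        _ ≤ (p * a) ^ α' := by
            refine Real.rpow_le_rpow (hY0 g) ?_ (by linarith only [hα', hε, h1, h2])
            rw [ha, ← mul_assoc, ← mul_assoc, hpω, one_mul]
            exact le_mul_of_one_le_left (hY0 g) hΛ
        _ ≤ _ := by
            rw [Real.mul_rpow (by linarith only [hε, h1, h2, hp1]) ha0.le, ← Real.rpow_two]
            gcongr
    have b3 : 1 ≤ p ^ 3 := one_le_pow₀ hp1
    nlinarith only [b1, b2, b3, hε, h1, h2, hp1]
  refine ⟨okT lg hub Z g, ?_, fun f hf => okT_of_size g (Nat.le_floor hf), fun m G L hm hG => ?_⟩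
  · refine ENNReal.toReal_le_of_le_ofReal (by positivity)
      ((ET_not_okT h.tsum_e h.mean_e (h.PT_len Z) g).trans ?_)
    rw [← ENNReal.ofReal_natCast, ← ENNReal.ofReal_mul (Nat.cast_nonneg _)]
    refine ENNReal.ofReal_le_ofReal ?_
    calc _ ≤ 2 * p ^ 3 * (C * z ^ (-α)) := by
          refine mul_le_mul hH ((h.upper _ (Nat.succ_pos Z)).trans ?_)
            (tl_nonneg h.nonneg h.total _) (by positivity)
          exact mul_le_mul_of_nonneg_left
            (Real.rpow_le_rpow_of_nonpos (by linarith only [hε, h1, h2, hz1]) hZ2 (by linarith only [hε, h1, h2, hα])) (by linarith only [hε, h1, h2, hC])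
      _ = _ := by
          rw [hp, hz, ← Real.exp_nat_mul, ← Real.exp_mul, mul_mul_mul_comm, ← Real.exp_add]
          congr 2
          push_cast
          ring
  set bad : F → F → Prop := fun d' d => φ d' < Rm d' d + 1 with hbad
  set W : F → ℝ≥0 := fun d => ⟨Yf α' d, hY0 d⟩ with hW
  have hq' : ∀ d, ET (μe μ) (fun f => ind (bad d f)) ≤ ENNReal.ofReal (Real.exp (-y)) := fun d =>
    (ENNReal.le_ofReal_iff_toReal_le (h.ET_ne _) (Real.exp_pos _).le).2 (hq d)
  refine (h.PT_or_le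
    (B := fun f => okT lg hub Z g f ∧ m < Lm (fun c' c => ¬(lg c' ∧ bad c' c)) g f)
    (C := fun f => okT lg hub Z g f ∧ L * a < Am lg bad W g f) fun f hf => ?_).trans
    (add_le_add ?_ ?_)
  · by_contra hc
    simp only [not_or, not_and (a := okT lg hub Z g f), not_lt] at hc
    refine absurd hf.2.2 (not_lt.2 ((core2_tree (lg := lg) (bad := bad) (W := W) (her_sub g)
      (her_sub f) hG hφ (fun _ _ hb => not_lt.1 hb) ?_ (g := g) (f := f) ⟨[], trivial, rfl⟩
      ⟨[], trivial, rfl⟩ hm (hc.1 hf.1)).trans ?_))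
    · rintro _ _ ⟨u', hu', rfl⟩ ⟨u, hu, rfl⟩
      exact not_lt.1 fun hlt => hf.2.1 ⟨u', u, hu', hu, hlt⟩
    · have := hc.2 hf.1
      gcongr
  · set B := Real.exp (δ / 3 * y) with hB
    have b0 : Real.exp (-(δ / 6 * y)) = p ^ 5 * z * B * Real.exp (-y) *
        Real.exp ((δ / 2 - 5 * ε) * y) := by
      rw [hp, hz, hB, ← Real.exp_nat_mul]
      simp only [← Real.exp_add]
      congr 1; push_cast; ring
    have b0' : 32 * C * (p ^ 5 * z * B * Real.exp (-y)) ≤ 1 := by
      refine le_trans ?_ e3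
      rw [b0]
      exact mul_le_mul_of_nonneg_left (le_mul_of_one_le_right (by positivity)
        (Real.one_le_exp (mul_nonneg (by linarith only [h1]) hy))) (by positivity)
    have b1 := ET_LmB_tail (lg := lg) (hub := hub) (bad := bad) (Z := Z) (B := ENNReal.ofReal B)
      h.tsum_e h.mean_e (T' := fun d => acc (Yf α') d ≤ p * a)
      (fun d hd => all_mono (fun _ hx => by linarith only [hε, h1, h2, hd, hx]) (acc_child_le hY0 d))
      (H := ⌊2 * p ^ 3⌋₊) (p := ⌊p⌋₊) (fun d hd => Nat.le_floor (by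
        have b1 := (sW_add_le (lg := lg) (a := a) (fun d hd => hd.le) d).trans (sumY_le_acc d)
        exact le_of_mul_le_mul_right (by linarith only [sW_nonneg (lg := lg) hY0 d, hd, b1]) ha0))
      (fun d hd => Or.inr hd) hq' (ENNReal.ofReal_le_one.2 (Real.exp_le_one_iff.2 (by linarith only [hy])))
      (h.second_e Z) ?_ ?_ (one_le_ee (by positivity)) ENNReal.ofReal_ne_top hga
      (Nat.le_floor hH) hm
    · refine ENNReal.toReal_le_of_le_ofReal (by positivity) (b1.trans (le_of_eq ?_))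
      rw [← ENNReal.ofReal_inv_of_pos (Real.exp_pos _), ← ENNReal.ofReal_pow (by positivity),
        ← Real.exp_neg, ← Real.exp_nat_mul]
      congr 2; ring
    · rw [← ENNReal.ofReal_natCast, ← ENNReal.ofReal_natCast Z, ← ENNReal.ofReal_ofNat,
        ← ENNReal.ofReal_mul (by positivity), ← ENNReal.ofReal_mul (by positivity),
        ← ENNReal.ofReal_mul (by positivity), ← ENNReal.ofReal_mul (by positivity)]
      refine ENNReal.ofReal_le_one.2 (le_trans ?_ b0')
      have c1 : (⌊p⌋₊ : ℝ) ≤ p ^ 5 :=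
        (Nat.floor_le (by linarith only [hε, h1, h2, hp1])).trans (le_self_pow₀ hp1 (by norm_num))
      calc _ ≤ 32 * C * p ^ 5 * z * B * Real.exp (-y) := by gcongr; linarith only [hε, h1, h2, hC]
        _ = _ := by ring
    · have c0 := T2_nonneg h.nonneg (Z + 1)
      rw [← ENNReal.ofReal_natCast, ← ENNReal.ofReal_natCast ⌊p⌋₊, ← ENNReal.ofReal_ofNat,
        ← ENNReal.ofReal_pow (by positivity), ← ENNReal.ofReal_mul (by positivity),
        ← ENNReal.ofReal_mul (by positivity), ← ENNReal.ofReal_mul (by positivity),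
        ← ENNReal.ofReal_mul (by positivity), ← ENNReal.ofReal_mul (by positivity)]
      refine ENNReal.ofReal_le_one.2 (le_trans ?_ b0')
      have c1 : (⌊p⌋₊ : ℝ) ≤ p := Nat.floor_le (by linarith only [hε, h1, h2, hp1])
      have c2 : (⌊2 * p ^ 3⌋₊ : ℝ) ≤ 2 * p ^ 3 := Nat.floor_le (by positivity)
      have c3 : T2 μ (Z + 1) ≤ C * (2 * z) := by
        refine (h.second _).trans (mul_le_mul_of_nonneg_left ?_ (by linarith only [hε, h1, h2, hC]))
        have d1 : (1 : ℝ) ≤ ((Z + 1 : ℕ) : ℝ) := hz1.trans hZ2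
        refine (Real.rpow_le_rpow_of_exponent_le d1 (show 2 - α ≤ 1 by linarith only [hα])).trans ?_
        rw [Real.rpow_one]
        push_cast
        linarith only [hz1, hZ1]
      calc _ ≤ 8 * (2 * p ^ 3) * p ^ 2 * (C * (2 * z)) * B * Real.exp (-y) := by gcongr
        _ = _ := by ring
  · have b1 := ET_Am (lg := lg) (hub := hub) (bad := bad) (Z := Z) (W := W) (θ := 1 / a) (ω := ω)
      h.tsum_e h.mean_e (by positivity) (Real.exp_pos _).le hq'
      (T1_nonneg h.nonneg h.mean _) (h.first_e Z) ?_ (fun d hd => ?_) (fun d hd => ?_) g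
    · refine ENNReal.toReal_le_of_le_ofReal (by positivity) ?_
      calc _ ≤ ET (μe μ) fun f => ee (1 / a * Am lg bad W g f) * ind (okT lg hub Z g f) *
            ee (-L) := by
            refine ET_mono fun f => ?_
            by_cases hf : okT lg hub Z g f ∧ L * a < Am lg bad W g f
            swap
            · rw [ind_neg hf]; exact zero_le
            rw [ind_pos hf, ind_pos hf.1, mul_one, ← ee_add]
            refine one_le_ee ?_
            rw [one_div_mul_eq_div, ← sub_eq_add_neg, sub_nonneg, le_div_iff₀ ha0]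
            exact hf.2.le
        _ ≤ ((g.size + 1 : ℕ) : ℝ≥0∞) * ee 2 * ee (-L) := by
            rw [ET_mul]
            refine mul_le_mul_left (b1.trans (mul_le_mul_right (ee_mono ?_) _)) _
            calc _ ≤ 2 * (1 / a) * ω * (p * a) := mul_le_mul_of_nonneg_left hga (by positivity)
              _ = 2 * (p * ω) := by field_simp
              _ = 2 := by rw [hpω, mul_one]
        _ = _ := by
            rw [mul_assoc, ← ee_add, ← ENNReal.ofReal_natCast, ee,
              ← ENNReal.ofReal_mul (Nat.cast_nonneg _), ← sub_eq_add_neg]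
            push_cast
            rfl
    · have c1 : Z * Real.exp (-y) ≤ Real.exp (-((δ - ε) * y)) * ω := by
        calc _ ≤ z * Real.exp (-y) := by gcongr
          _ = _ := by rw [hz, hω]; simp only [← Real.exp_add]; congr 1; ring
      have c2 : T1 μ (Z + 1) ≤ C * Real.exp (-(((1 - δ) * (α - 1) - ε) * y)) * ω := by
        calc _ ≤ C * z ^ (1 - α) := (h.first _ (Nat.succ_pos Z)).trans (mul_le_mul_of_nonneg_left
              (Real.rpow_le_rpow_of_nonpos (by linarith only [hε, h1, h2, hz1]) hZ2 (by linarith only [hα])) (by linarith only [hε, h1, h2, hC]))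
          _ = _ := by
              rw [hz, hω, ← Real.exp_mul, mul_assoc C, ← Real.exp_add]
              congr 2; ring
      linarith only [mul_le_mul_of_nonneg_right e1 hω0.le, mul_le_mul_of_nonneg_right e2 hω0.le, c1, c2, e1, hω0, e2]
    · rw [one_div_mul_eq_div, div_le_one ha0]
      exact not_lt.1 hd
    · rw [one_div_mul_eq_div, div_le_one ha0]
      exact not_lt.1 fun hlt => hd (Or.inl hlt)

theorem Good.size_tail (h : Good μ α c C) {s : ℝ} (hs : 0 ≤ s) :
    PT μ (fun f => Real.exp (2 * s) ≤ f.size + 1) ≤ 4 / c * Real.exp (-s) := by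
  have hα := h.one_lt
  rw [Real.exp_neg, ← div_eq_mul_inv]
  refine le_trans (h.PT_mono fun f hf => ?_) (h.Yf_weak (Real.one_le_exp hs))
  refine le_trans ?_ (Real.rpow_le_rpow (Real.exp_pos _).le (by exact_mod_cast hf)
    (by positivity))
  rw [← Real.exp_mul, mul_one_div, Real.exp_le_exp, le_div_iff₀ (by linarith)]
  nlinarith only [h.lt_two, hs]

theorem eventually_log_sq (K : ℝ) {a b : ℝ} (ha : 0 < a) (hb : 0 < b) :
    ∀ᶠ y : ℝ in atTop, K * Real.log (b * y) ^ 2 ≤ a * y := by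
  have h1 := (Real.isLittleO_pow_log_id_atTop (n := 2)).bound
    (show 0 < a / (b * (|K| + 1)) by positivity)
  filter_upwards [(tendsto_id.const_mul_atTop hb).eventually h1, eventually_ge_atTop 0]
    with y h2 hy
  simp only [id] at h2
  rw [Real.norm_of_nonneg (sq_nonneg _), Real.norm_of_nonneg (by positivity)] at h2
  calc _ ≤ (|K| + 1) * (a / (b * (|K| + 1)) * (b * y)) :=
        mul_le_mul (by linarith [le_abs_self K]) h2 (sq_nonneg _) (by positivity)
    _ = _ := by field_simp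

theorem exists_eps {ρ : ℝ} (h0 : 1 < ρ) (h1 : ρ < α) : ∃ δ ε : ℝ, 0 < ε ∧ ε ≤ δ / 10 ∧
    δ ≤ 1 / 2 ∧ ε < (1 - δ) * (α - 1) ∧ 3 * ε - α * (1 - δ) < -ρ := by
  have hα : 0 < α := by linarith
  set δ := (α - ρ) / (2 * α) with hδ
  have a1 : α * δ = (α - ρ) / 2 := by rw [hδ]; field_simp
  have a2 : 0 < δ := div_pos (by linarith) (by linarith)
  have a3 : δ ≤ 1 / 2 := by rw [hδ, div_le_iff₀ (by linarith)]; linarith only [h0]
  have a4 : 0 < (1 - δ) * (α - 1) := mul_pos (by linarith) (by linarith)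
  refine ⟨δ, min (δ / 10) (min ((1 - δ) * (α - 1) / 2) ((α - ρ) / 12)),
    lt_min (by linarith only [a2]) (lt_min (by linarith only [h0, h1, a1, a2]) (by linarith only [h1])), min_le_left _ _, a3,
    ((min_le_right _ _).trans (min_le_left _ _)).trans_lt (by linarith only [h0, h1, a1, a2]), ?_⟩
  have := (min_le_right (δ / 10) _).trans (min_le_right ((1 - δ) * (α - 1) / 2) ((α - ρ) / 12))
  nlinarith only [h1, a1, this]

theorem level_up (h : Good μ α c C) (h' : Good μ' α' c' C') (h2 : α ≤ α') {ρ : ℝ} (h0 : 1 < ρ)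
    (h1 : ρ < α) : ∃ (m K : ℝ) (R : ℝ → ℝ), 1 ≤ m ∧ 1 ≤ K ∧
      (∀ A, ∀ᶠ y in atTop, R y ≤ Real.exp (-(A * y ^ 2))) ∧ ∀ᶠ y : ℝ in atTop,
      ∀ (φ : F → ℝ) (γ : ℝ), Lvl μ' φ γ (3 * y) → Pq μ φ y → ∃ φ' : F → ℝ,
        Lvl μ' φ' (K * y * γ) (3 * (ρ * y)) ∧ Pq μ φ' (ρ * y) ∧
        PT μ' (fun g => g.size < Real.exp (7 * (ρ * y)) ∧
          m * (acc φ g + 1 + Yf α' g) < φ' g) ≤ R y := by
  obtain ⟨δ, ε, p1, p2, p3, p4, p5⟩ := exists_eps h0 h1
  obtain ⟨K, r, hK, hr, hr0, hcr⟩ := crude h h' h2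
  obtain ⟨C₂, hC₂, hstep⟩ := h'.lvl_step
  have hα' := h'.one_lt
  have hc := h.c_pos
  have hc' := h'.c_pos
  have hδ : 0 < δ := by linarith
  set m := ⌈3 * ρ / δ⌉₊ + 1 with hm
  have hm1 : (1 : ℝ) ≤ m := by exact_mod_cast (by omega)
  set N : ℝ → ℕ := fun y => ⌈Real.exp (7 * (ρ * y))⌉₊ with hN
  have tx : Tendsto (fun y : ℝ => ρ * y) atTop atTop := tendsto_id.const_mul_atTop (by linarith only [h0, p1, p2, p3])
  have tN : Tendsto N atTop atTop := tendsto_nat_ceil_atTop.comp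
    (Real.tendsto_exp_atTop.comp (tx.const_mul_atTop (by norm_num)))
  have hN1 : ∀ y, Real.exp (7 * (ρ * y)) ≤ N y := fun y => Nat.le_ceil _
  have hN2 : ∀ y, 7 * (ρ * y) ≤ Real.log (N y) := fun y =>
    (Real.le_log_iff_exp_le ((Real.exp_pos _).trans_le (hN1 y))).2 (hN1 y)
  have hR : ∀ A, ∀ᶠ y in atTop, 7 * Real.exp (ρ * y) * r (N y) ≤ Real.exp (-(A * y ^ 2)) := by
    intro A
    filter_upwards [tN.eventually (hr (|A| + 1)), eventually_ge_atTop 7] with y e1 e2
    have a1 : y ≤ ρ * y := le_mul_of_one_le_left (by linarith only [p1, p2, p3, e2]) h0.le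
    have a2 := hN2 y
    calc _ ≤ Real.exp (ρ * y) * Real.exp (ρ * y) *
          Real.exp (-((|A| + 1) * Real.log (N y) ^ 2)) := by
          gcongr
          · exact hr0 _
          · linarith only [Real.add_one_le_exp (ρ * y), p1, p2, p3, e2, a1]
      _ ≤ _ := by
          simp only [← Real.exp_add]
          refine Real.exp_le_exp.2 ?_
          have b1 : (7 * (ρ * y)) ^ 2 ≤ Real.log (N y) ^ 2 := by gcongr
          have b2 : y ^ 2 ≤ (ρ * y) ^ 2 := by gcongr
          have b3 : A * y ^ 2 ≤ |A| * (ρ * y) ^ 2 :=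
            mul_le_mul (le_abs_self A) b2 (sq_nonneg _) (abs_nonneg A)
          have b4 : (|A| + 1) * (7 * (ρ * y)) ^ 2 ≤ (|A| + 1) * Real.log (N y) ^ 2 := by gcongr
          nlinarith only [abs_nonneg A, mul_nonneg (abs_nonneg A) (sq_nonneg (ρ * y)), h0, e2, b3, b4, p1, p2, p3, a1]
  refine ⟨m, C₂ * m * (3 * ρ), fun y => 7 * Real.exp (ρ * y) * r (N y), hm1,
    one_le_mul_of_one_le_of_one_le (one_le_mul_of_one_le_of_one_le hC₂ hm1) (by linarith only [h0, p1, p2, p3]), hR, ?_⟩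
  filter_upwards [step h hα' h'.lt_two p1 p2 (by linarith only [p1, p2, p3]) p4, tN.eventually hcr, hR 1,
    eventually_ge_atTop 10, tx.eventually (eventually_mul_exp_le (24 / c) (half_pos one_pos)),
    tx.eventually (eventually_mul_exp_le (8 / c') (half_pos one_pos)),
    eventually_mul_exp_le (12 * C) (show 0 < -ρ - (3 * ε - α * (1 - δ)) by linarith only [p5]),
    eventually_mul_exp_le 6 (show 0 < δ / 3 by linarith only [p1, p2]),
    eventually_log_sq (K + 6) p1 (show 0 < 9 * ρ by linarith only [h0, p1, p2, p3])]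
    with y e1 ⟨e2, e2'⟩ e3 e4 e5 e6 e7 e8 e9 φ γ hφ hq
  set x := ρ * y with hx
  have a1 : y ≤ x := le_mul_of_one_le_left (by linarith only [p1, p2, p3, e4]) h0.le
  have a1' : x ≤ 2 * y := mul_le_mul_of_nonneg_right (by linarith only [h.lt_two, h1]) (by linarith only [p1, p2, p3, e4])
  set n := N y with hn
  set G := Real.exp (K * Real.log (Real.log n) ^ 2) with hG
  have a2 : (n : ℝ) ≤ 2 * Real.exp (7 * x) := by
    linarith only [Nat.ceil_lt_add_one (Real.exp_pos (7 * x)).le, Real.one_le_exp (show 0 ≤ 7 * x by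
      linarith only [p1, p2, p3, e4, a1]), p1, p2, p3, e4, a1]
  have a3 : Real.log n ≤ 9 * x := by
    rw [Real.log_le_iff_le_exp ((Real.exp_pos _).trans_le (hN1 y)),
      show 9 * x = 2 * x + 7 * x by ring, Real.exp_add]
    refine a2.trans ?_
    gcongr
    linarith only [Real.add_one_le_exp (2 * x), p1, p2, p3, e4, a1]
  have a4 : 7 * x ≤ Real.log n := hN2 y
  set irr : F → Prop := fun g => n ≤ g.size ∨ AB α' (Real.log n ^ 5) g ∨
    Real.exp (-x) / 6 < PT μ fun f => f.size < n ∧ CB α' G g f with hirr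
  have b1 : PT μ' (fun g => g.size < n ∧ irr g) ≤ 7 * Real.exp x * r n := by
    refine (h'.PT_or_le (B := fun g => g.size < n ∧ AB α' (Real.log n ^ 5) g)
      (C := fun g => g.size < n ∧ Real.exp (-x) / 6 < PT μ fun f => f.size < n ∧ CB α' G g f)
      fun g hg => ?_).trans ?_
    · rcases hg.2 with h3 | h3 | h3
      · omega
      · exact Or.inl ⟨hg.1, h3⟩
      · exact Or.inr ⟨hg.1, h3⟩
    have c1 : PT μ' (fun g => g.size < n ∧
        Real.exp (-x) / 6 < PT μ fun f => f.size < n ∧ CB α' G g f) ≤ 6 * Real.exp x * r n := by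
      refine ENNReal.toReal_le_of_le_ofReal (mul_nonneg (by positivity) (hr0 n)) ?_
      rw [ENNReal.ofReal_mul (by positivity)]
      refine le_trans ?_ (mul_le_mul_right e2 _)
      rw [ET2, ← ET_mul']
      refine ET_mono fun g => ?_
      by_cases hg : g.size < n ∧ Real.exp (-x) / 6 < PT μ fun f => f.size < n ∧ CB α' G g f
      swap
      · rw [ind_neg hg]; exact zero_le
      simp only [hg.1, true_and]
      rw [ind_pos hg.2, h.ET_eq_PT, ← ENNReal.ofReal_mul (by positivity), ← ENNReal.ofReal_one]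
      refine ENNReal.ofReal_le_ofReal ?_
      calc (1 : ℝ) = 6 * Real.exp x * (Real.exp (-x) / 6) := by
            rw [Real.exp_neg]; field_simp
        _ ≤ _ := by gcongr; exact hg.2.le
    linarith only [le_mul_of_one_le_left (hr0 n) (Real.one_le_exp (show 0 ≤ x by linarith only [p1, p2, p3, e4, a1])), e2', c1, p1, p2, p3, e4, a1]
  have b2 : PT μ' irr ≤ Real.exp (-(3 * x)) := by
    refine (h'.PT_or_le (B := fun g => Real.exp (2 * (7 / 2 * x)) ≤ g.size + 1)
      (C := fun g => g.size < n ∧ irr g) fun g hg => ?_).trans ?_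
    · rcases lt_or_ge g.size n with h3 | h3
      · exact Or.inr ⟨h3, hg⟩
      · refine Or.inl ?_
        have c1 : (n : ℝ) ≤ g.size := by exact_mod_cast h3
        rw [show 2 * (7 / 2 * x) = 7 * x by ring]
        linarith only [hN1 y, p1, p2, p3, c1]
    have c1 := h'.size_tail (show 0 ≤ 7 / 2 * x by linarith only [p1, p2, p3, e4, a1])
    rw [show -(7 / 2 * x) = -(1 / 2 * x) + -(3 * x) by ring, Real.exp_add] at c1
    have c2 : Real.exp (-(1 * y ^ 2)) ≤ Real.exp (-(3 * x)) / 2 := by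
      rw [le_div_iff₀ two_pos]
      calc _ ≤ Real.exp (-(1 * y ^ 2)) * Real.exp 1 := by
            gcongr; linarith only [Real.add_one_le_exp (1 : ℝ)]
        _ ≤ _ := by
            rw [← Real.exp_add]
            exact Real.exp_le_exp.2 (by
              linarith only [mul_le_mul_of_nonneg_right e4 (show 0 ≤ y by linarith only [p1, p2, p3, e4]), p1, p2, p3, e4, a1'])
    have c3 := mul_le_mul_of_nonneg_right e6 (Real.exp_pos (-(3 * x))).le
    have c4 : 8 / c' * Real.exp (-(1 / 2 * x)) * Real.exp (-(3 * x)) =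
      2 * (4 / c' * (Real.exp (-(1 / 2 * x)) * Real.exp (-(3 * x)))) := by ring
    linarith only [e3, b1, c1, c2, c3, c4]
  have b3 : ∀ g : F, g.all fun a => irr a → irr g := by
    refine fun g => (all_iff _ _).2 fun i hi hg => ?_
    rcases hg with h3 | ⟨u, h3, h4⟩ | h3
    · exact Or.inl (h3.trans (size_child_lt hi).le)
    · exact Or.inr (Or.inl ⟨i :: u, ⟨hi, h3⟩, h4⟩)
    · refine Or.inr (Or.inr (h3.trans_le (h.PT_mono ?_)))
      rintro f ⟨h4, u', u, h5, h6⟩
      exact ⟨h4, i :: u', u, ⟨hi, h5⟩, h6⟩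
  refine ⟨nxt α' φ irr m (3 * x), (hstep φ γ (3 * x) m irr (hφ.weaken le_rfl (by linarith only [a1])) hm1 b3
    b2).weaken (le_of_eq (by rw [hx]; ring)) le_rfl, fun g => ?_, le_trans (h'.PT_mono ?_) b1⟩
  swap
  · rintro g ⟨h3, h4⟩
    refine ⟨by exact_mod_cast h3.trans_le (hN1 y), ?_⟩
    by_contra h5
    rw [nxt, if_neg h5] at h4
    exact absurd (min_le_right _ _) (not_le.2 h4)
  have c1 : PT μ (fun f => Real.exp (3 * x) ≤ f.size + 1) ≤ Real.exp (-x) / 6 := by
    have d1 := h.size_tail (show 0 ≤ 3 / 2 * x by linarith only [p1, p2, p3, e4, a1])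
    rw [show -(3 / 2 * x) = -(1 / 2 * x) + -x by ring, Real.exp_add,
      show 2 * (3 / 2 * x) = 3 * x by ring] at d1
    have d2 := mul_le_mul_of_nonneg_right e5 (Real.exp_pos (-x)).le
    have d3 : 24 / c * Real.exp (-(1 / 2 * x)) * Real.exp (-x) =
      6 * (4 / c * (Real.exp (-(1 / 2 * x)) * Real.exp (-x))) := by ring
    linarith only [d1, d2, d3]
  have c2 : ∀ f : F, (Rm g f : ℝ) ≤ f.size := fun f => by exact_mod_cast Rm_le_size g f
  by_cases hg : irr g
  · refine le_trans (h.PT_mono fun f hf => ?_) (c1.trans (by linarith only [Real.exp_pos (-x)]))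
    rw [nxt, if_pos hg] at hf
    linarith only [c2 f, hf]
  have hg' := hg
  simp only [hirr, not_or, not_lt, not_le] at hg'
  obtain ⟨g1, g2, g3⟩ := hg'
  have l1 : 1 ≤ Real.log n ^ 5 := one_le_pow₀ (by linarith only [p1, p2, p3, e4, a1, a4])
  obtain ⟨ok, o1, -, o2⟩ := e1 φ hφ.nonneg hq g _ l1 (by
    have : acc (Yf α') g + 1 ≤ Real.log n ^ 5 * Yf α' g :=
      not_lt.1 fun hlt => g2 ⟨[], trivial, hlt⟩
    linarith only [p1, p2, p3, this])
  have o3 := o2 m G (9 * x) (by omega) (Real.exp_pos _).le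
  have c3 : G * (9 * x * (Real.exp (-(ε * y)) * Real.log n ^ 5)) ≤ 1 := by
    have d1 : Real.log (Real.log n) ≤ Real.log (9 * x) := Real.log_le_log (by linarith only [p1, p2, p3, e4, a1, a4]) a3
    have d2 : 0 ≤ Real.log (Real.log n) := Real.log_nonneg (by linarith only [p1, p2, p3, e4, a1, a4])
    have d3 : 1 ≤ Real.log (9 * x) := by
      rw [Real.le_log_iff_exp_le (by linarith only [p1, p2, p3, e4, a1])]
      linarith only [Real.exp_one_lt_d9, p1, p2, p3, e4, a1]
    rw [mul_assoc 9 ρ y, ← hx] at e9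
    calc _ ≤ Real.exp (K * Real.log (9 * x) ^ 2) *
          (9 * x * (Real.exp (-(ε * y)) * (9 * x) ^ 5)) := by rw [hG]; gcongr
      _ = Real.exp (K * Real.log (9 * x) ^ 2 + (6 : ℕ) * Real.log (9 * x) + -(ε * y)) := by
          rw [Real.exp_add, Real.exp_add, Real.exp_nat_mul, Real.exp_log (by linarith only [p1, p2, p3, e4, a1])]; ring
      _ ≤ 1 := Real.exp_le_one_iff.2 (by
          push_cast; linarith only [le_self_pow₀ d3 two_ne_zero, e9, d3])
  have c4 := h.PT_or_le (A := fun f => nxt α' φ irr m (3 * x) g < Rm g f + 1)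
    (B := fun f => Real.exp (3 * x) ≤ f.size + 1)
    (C := fun f => (f.size < n ∧ CB α' G g f) ∨ ¬ok f ∨ (ok f ∧ ¬CB α' G g f ∧
      m * (acc φ g + 1 + G * (9 * x * (Real.exp (-(ε * y)) * Real.log n ^ 5 * Yf α' g))) <
        Rm g f + 1)) fun f hf => by
      by_contra hc
      simp only [not_or, not_and, not_le, not_lt, not_not] at hc
      obtain ⟨d1, d2, d3, d4⟩ := hc
      have d5 : f.size < n := by
        have : Real.exp (3 * x) ≤ Real.exp (7 * x) := Real.exp_le_exp.2 (by linarith only [p1, p2, p3, e4, a1])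
        exact_mod_cast (show (f.size : ℝ) < n by linarith only [hN1 y, p1, p2, p3, d1, this])
      rw [nxt, if_neg hg] at hf
      refine absurd hf (not_lt.2 (le_min (by linarith only [c2 f, d1]) ((d4 d3 (d2 d5)).trans ?_)))
      have d6 := mul_le_mul_of_nonneg_right c3 (zero_le_one.trans (one_le_Yf hα' g))
      gcongr
      linarith only [d6]
  have c5 := h.PT_or_le (A := fun f => (f.size < n ∧ CB α' G g f) ∨ ¬ok f ∨
    (ok f ∧ ¬CB α' G g f ∧ m * (acc φ g + 1 + G * (9 * x * (Real.exp (-(ε * y)) *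
      Real.log n ^ 5 * Yf α' g))) < Rm g f + 1)) fun _ hf => hf
  have c6 := h.PT_or_le (A := fun f => ¬ok f ∨ (ok f ∧ ¬CB α' G g f ∧ m * (acc φ g + 1 +
    G * (9 * x * (Real.exp (-(ε * y)) * Real.log n ^ 5 * Yf α' g))) < Rm g f + 1)) fun _ hf => hf
  have c7 : 2 * C * Real.exp ((3 * ε - α * (1 - δ)) * y) ≤ Real.exp (-x) / 6 := by
    rw [show (3 * ε - α * (1 - δ)) * y = -((-ρ - (3 * ε - α * (1 - δ))) * y) + -x by rw [hx]; ring,
      Real.exp_add]
    linarith only [mul_le_mul_of_nonneg_right e7 (Real.exp_pos (-x)).le, e7]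
  have c8 : Real.exp (-(δ / 3 * y * m)) ≤ Real.exp (-x) / 6 := by
    have d1 : 3 * ρ / δ + 1 ≤ m := by rw [hm]; push_cast; linarith only [Nat.le_ceil (3 * ρ / δ)]
    have d2 : δ / 3 * y * (3 * ρ / δ + 1) ≤ δ / 3 * y * m := by gcongr
    have d3 : δ / 3 * y * (3 * ρ / δ + 1) = δ / 3 * y + x := by rw [hx]; field_simp; ring
    have d4 : Real.exp (-(δ / 3 * y * m)) ≤ Real.exp (-(δ / 3 * y)) * Real.exp (-x) := by
      rw [← Real.exp_add]; exact Real.exp_le_exp.2 (by linarith only [d2, d3])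
    linarith only [mul_le_mul_of_nonneg_right e8 (Real.exp_pos (-x)).le, d4, e8]
  have c9 : (g.size + 1) * Real.exp (2 - 9 * x) ≤ Real.exp (-x) / 6 := by
    have d1 : (g.size : ℝ) + 1 ≤ n := by exact_mod_cast g1
    have d2 : 12 ≤ Real.exp (x - 2) := by
      rw [show x - 2 = (x - 2) / 2 + (x - 2) / 2 by ring, Real.exp_add]
      have d3 : 4 ≤ Real.exp ((x - 2) / 2) := by linarith only [Real.add_one_le_exp ((x - 2) / 2), p1, p2, p3, e4, a1]
      linarith only [mul_le_mul d3 d3 (by norm_num) (Real.exp_pos _).le, p1, p2, p3, d3]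
    rw [le_div_iff₀ (by norm_num)]
    calc _ ≤ 2 * Real.exp (7 * x) * Real.exp (2 - 9 * x) * 6 := by gcongr; linarith only [a2, d1]
      _ = 12 * Real.exp (7 * x) * Real.exp (2 - 9 * x) := by ring
      _ ≤ Real.exp (x - 2) * Real.exp (7 * x) * Real.exp (2 - 9 * x) := by gcongr
      _ = _ := by simp only [← Real.exp_add]; congr 1; ring
  linarith only [Real.exp_pos (-x), c1, g3, o1, o3, c4, c5, c6, c7, c8, c9]

end Pool.Agent.MP_8702f5_pr

end

-- part MP_8702f5_pr.STop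
section

/-! The sharp upper bound. -/

namespace Pool.Agent.MP_8702f5_pr

open Finset F Filter Topology
open scoped ENNReal

variable {μ μ' : ℕ → ℝ} {α α' c C c' C' : ℝ}

theorem levels_seq (h : Good μ α c C) (h' : Good μ' α' c' C') (h2 : α ≤ α') {ρ : ℝ} (h0 : 1 < ρ)
    (h1 : ρ < α) : ∃ (x m K : ℝ) (R : ℝ → ℝ) (φ : ℕ → F → ℝ), 1 ≤ x ∧ 1 ≤ m ∧ 0 ≤ K ∧
      (∀ A, ∀ᶠ y in atTop, R y ≤ Real.exp (-(A * y ^ 2))) ∧ ∀ j : ℕ,
        Lvl μ' (φ j) (Real.exp (K * (j + 1) + j ^ 2 / 2 * Real.log ρ)) (3 * (ρ ^ j * x)) ∧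
        Pq μ (φ j) (ρ ^ j * x) ∧ PT μ' (fun g => g.size < Real.exp (7 * (ρ ^ (j + 1) * x)) ∧
          m * (acc (φ j) g + 1 + Yf α' g) < φ (j + 1) g) ≤ R (ρ ^ j * x) := by
  obtain ⟨m, K, R, hm, hK, hR, hlev⟩ := level_up h h' h2 h0 h1
  obtain ⟨x, hx⟩ := eventually_atTop.1 (hlev.and ((eventually_ge_atTop 1).and
    (eventually_mul_exp_le (4 / c) (half_pos one_pos))))
  obtain ⟨-, hx1, hx2⟩ := hx x le_rfl
  choose! f hf using fun y hy => (hx y hy).1
  set K' := 3 * x + Real.log (K * x) with hK'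
  have hKx : 1 ≤ K * x := one_le_mul_of_one_le_of_one_le hK hx1
  have hl := Real.log_nonneg hKx
  have hρ := Real.log_pos h0
  set γ : ℕ → ℝ := fun j => Real.exp (K' * (j + 1) + j ^ 2 / 2 * Real.log ρ) with hγ
  set φ : ℕ → F → ℝ := fun j => Nat.rec (fun _ => Real.exp (3 * x))
    (fun j ψ => f (ρ ^ j * x) ψ (γ j)) j with hφ
  have hy : ∀ j : ℕ, x ≤ ρ ^ j * x := fun j =>
    le_mul_of_one_le_left (by linarith) (one_le_pow₀ h0.le)
  have key : ∀ j : ℕ, Lvl μ' (φ j) (γ j) (3 * (ρ ^ j * x)) ∧ Pq μ (φ j) (ρ ^ j * x) := by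
    intro j
    induction j with
    | zero =>
      have a1 : Real.exp (3 * x) ≤ γ 0 := Real.exp_le_exp.2 (by simp [hK', hl])
      rw [pow_zero, one_mul]
      refine ⟨⟨fun _ => (Real.exp_pos _).le, fun _ => le_rfl,
        fun g => (all_iff _ _).2 fun _ _ => le_rfl, fun s hs => ?_,
        (Real.one_le_exp (by linarith only [hx1])).trans a1, by linarith only [hx1]⟩, fun g => ?_⟩
      · rcases le_or_gt s (Real.exp (3 * x)) with h3 | h3
        · exact (h'.PT_le_one _).trans ((one_le_div hs).2 (h3.trans a1))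
        · exact (PT_false fun g hg => absurd hg (not_le.2 h3)).le.trans (by positivity)
      · have d1 := h.size_tail (show 0 ≤ 3 / 2 * x by linarith only [hx1])
        rw [show -(3 / 2 * x) = -(1 / 2 * x) + -x by ring, Real.exp_add,
          show 2 * (3 / 2 * x) = 3 * x by ring, ← mul_assoc] at d1
        refine le_trans (h.PT_mono fun f hf => ?_)
          (d1.trans (mul_le_of_le_one_left (Real.exp_pos _).le hx2))
        have d2 : (Rm g f : ℝ) ≤ f.size := by exact_mod_cast Rm_le_size g f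
        have d3 : Real.exp (3 * x) < Rm g f + 1 := hf
        linarith only [d2, d3]
    | succ j ih =>
      obtain ⟨a1, a2, -⟩ := hf _ (hy j) _ _ ih.1 ih.2
      rw [pow_succ', mul_assoc]
      refine ⟨a1.weaken ?_ le_rfl, a2⟩
      have a3 : K * (ρ ^ j * x) = Real.exp (Real.log (K * x) + j * Real.log ρ) := by
        rw [Real.exp_add, Real.exp_log (by linarith), Real.exp_nat_mul, Real.exp_log (by linarith only [h0])]
        ring
      simp only [hγ]
      rw [a3, ← Real.exp_add]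
      refine Real.exp_le_exp.2 ?_
      push_cast
      nlinarith only [hx1, hρ]
  refine ⟨x, m, K', R, φ, hx1, hm, by linarith, hR, fun j => ⟨(key j).1, (key j).2, ?_⟩⟩
  rw [pow_succ', mul_assoc]
  exact (hf _ (hy j) _ _ (key j).1 (key j).2).2.2

theorem Yf_le (hα : 1 < α) {g : F} {n : ℕ} (h : g.size < n) : Yf α g ≤ (n : ℝ) ^ (1 / α) :=
  Real.rpow_le_rpow (by positivity) (by exact_mod_cast h) (by positivity)

theorem Good.tailstep (h : Good μ α c C) : ∃ r : ℕ → ℝ, Negl r ∧ ∀ᶠ n : ℕ in atTop,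
    ∀ (φ : F → ℝ) (γ Λ b : ℝ), Lvl μ φ γ Λ → Λ ≤ Real.log n ^ 2 → γ * (n : ℝ) ^ (1 / α) ≤ b →
      PT μ (fun g => g.size < n ∧ φ g ≤ b ∧ Real.log n ^ 8 * b ≤ acc φ g) ≤ r n := by
  obtain ⟨K, r, -, hr, -, hcr⟩ := crude h h le_rfl
  have hα := h.one_lt
  refine ⟨_, hr.add (negl_cube one_pos).mul_nat.mul_nat.mul_nat, ?_⟩
  filter_upwards [hcr, tendsto_log_nat.eventually_ge_atTop 9, log_pow_le_rpow one_pos 5,
    eventually_ge_atTop 2] with n ⟨_, e1⟩ e2 e3 e4 φ γ Λ b hφ hΛ hb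
  have hn : (2 : ℝ) ≤ n := by exact_mod_cast e4
  set l := Real.log n with hl
  have a0 := hφ.one_le
  have a0' := hφ.one_le'
  have a1 : 0 < (n : ℝ) ^ (1 / α) := by positivity
  have a2 : 0 < b := lt_of_lt_of_le (by positivity) hb
  refine (h.PT_or_le (B := fun g => g.size < n ∧ AB α (l ^ 5) g) (C := fun g => φ g ≤ b ∧
    acc (fun _ => 1) g ≤ l ^ 5 * (n : ℝ) ^ (1 / α) ∧ l ^ 8 * b ≤ acc φ g) fun g hg => ?_).trans
    (add_le_add e1 ((hφ.exp_tail h a2 (by positivity) _).trans ?_))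
  · by_cases hA : AB α (l ^ 5) g
    · exact Or.inl ⟨hg.1, hA⟩
    · refine Or.inr ⟨hg.2.1, (acc_mono (one_le_Yf hα) g).trans ?_, hg.2.2⟩
      have b1 : acc (Yf α) g + 1 ≤ l ^ 5 * Yf α g := not_lt.1 fun hlt => hA ⟨[], trivial, hlt⟩
      linarith only [mul_le_mul_of_nonneg_left (Yf_le hα hg.1) (show 0 ≤ l ^ 5 by positivity), b1, hα, hg, e2]
  · rw [← mul_assoc (n : ℝ), ← mul_assoc ((n : ℝ) * n)]
    rw [Real.rpow_one] at e3
    have b1 : (n : ℝ) ^ (1 / α) ≤ n := by
      simpa using Real.rpow_le_rpow_of_exponent_le (show (1 : ℝ) ≤ n by linarith)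
        ((div_le_one (by linarith)).2 hα.le)
    have b2 : l ^ 5 * (n : ℝ) ^ (1 / α) ≤ n * n := by gcongr
    refine mul_le_mul (by nlinarith only [hn, b2]) (Real.exp_le_exp.2 ?_) (Real.exp_pos _).le (by positivity)
    rw [div_le_iff₀ a2]
    have b3 : 8 * γ * Λ * (l ^ 5 * (n : ℝ) ^ (1 / α)) ≤ 8 * l ^ 7 * b := by
      calc _ = 8 * (Λ * l ^ 5) * (γ * (n : ℝ) ^ (1 / α)) := by ring
        _ ≤ 8 * (l ^ 2 * l ^ 5) * b := by gcongr
        _ = _ := by ring
    have b4 : l ^ 3 ≤ l ^ 7 := pow_le_pow_right₀ (by linarith only [e2]) (by norm_num)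
    have b5 : 9 * l ^ 7 ≤ l ^ 8 := by rw [pow_succ' l 7]; gcongr
    nlinarith only [mul_le_mul_of_nonneg_right (show 8 * l ^ 7 + l ^ 3 ≤ l ^ 8 by linarith only [b4, b5]) a2.le, b3, b4, b5, a2]

/-- Events for pairs of trees with negligible probability. -/
def NeglE (μ' μ : ℕ → ℝ) (B : ℕ → F → F → Prop) : Prop := ∃ r : ℕ → ℝ, Negl r ∧
  ∀ᶠ n : ℕ in atTop, 0 ≤ r n ∧ ET2 (μe μ') (μe μ) (fun g f => ind (B n g f)) ≤ ENNReal.ofReal (r n)

theorem NeglE.or {B D : ℕ → F → F → Prop} (h : NeglE μ' μ B) (h' : NeglE μ' μ D) :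
    NeglE μ' μ fun n g f => B n g f ∨ D n g f := by
  obtain ⟨r, h1, h2⟩ := h
  obtain ⟨s, h3, h4⟩ := h'
  refine ⟨_, h1.add h3, ?_⟩
  filter_upwards [h2, h4] with n a b
  refine ⟨add_nonneg a.1 b.1, le_trans (ET2_mono fun g f => ind_or_le id) ?_⟩
  rw [ET2_add, ENNReal.ofReal_add a.1 b.1]
  exact add_le_add a.2 b.2

theorem neglE_left (h : Good μ α c C) (h' : Good μ' α' c' C') {A : ℕ → F → Prop}
    (hA : Negl fun n => PT μ' (A n)) : NeglE μ' μ fun n g _ => A n g :=
  ⟨_, hA, Eventually.of_forall fun n => ⟨PT_nonneg _,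
    (ET_mono fun _ => ET_const_le h.tsum_e _).trans (h'.ET_eq_PT _).le⟩⟩

theorem neglE_right (h : Good μ α c C) (h' : Good μ' α' c' C') {A : ℕ → F → Prop}
    (hA : Negl fun n => PT μ (A n)) : NeglE μ' μ fun n _ f => A n f :=
  ⟨_, hA, Eventually.of_forall fun n => ⟨PT_nonneg _,
    (ET_const_le h'.tsum_e _).trans (h.ET_eq_PT _).le⟩⟩

theorem NeglE.pair (h : Good μ α c C) (h' : Good μ' α' c' C') {B : ℕ → F → F → Prop}
    (hB : NeglE μ' μ B) {A : ℕ → PlaneTree → PlaneTree → Prop}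
    (hA : ∀ᶠ n : ℕ in atTop, ∀ f g : F, f.size + 1 = n → g.size + 1 = n →
      A n (toPT f) (toPT g) → B n g f) {ε : ℝ} (hε : 0 < ε) : ∀ᶠ n : ℕ in atTop,
      0 < sizeProb μ n → 0 < sizeProb μ' n → pairProb μ μ' n (A n) ≤ ε := by
  obtain ⟨r, h1, h2⟩ := hB
  filter_upwards [negl_le_pair h h' h1 hε, h2, hA] with n a b d hn hn'
  exact (pairProb_le_ET2 h.nonneg h'.nonneg b.1 b.2 d).trans (a hn hn')

theorem acc_sub_le {Y : F → ℝ} (hY : ∀ c, 0 ≤ Y c) {u : List ℕ} {f : F} (h : mem u f) :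
    acc Y (f.sub u) ≤ acc Y f := by
  induction u generalizing f with
  | nil => exact le_rfl
  | cons i w ih =>
    refine (ih h.2).trans ?_
    linarith [all_child (acc_child_le hY f) h.1]

theorem exists_start {ρ x : ℝ} (h0 : 1 < ρ) (hx : 1 ≤ x) : ∃ j : ℕ → ℕ, ∀ᶠ n : ℕ in atTop,
    ρ ^ j n * x ≤ Real.log n / 6 ∧ Real.log n / 6 < ρ ^ (j n + 1) * x ∧
      j n * Real.log ρ ≤ Real.log (Real.log n) := by
  have key : ∀ n : ℕ, 6 * x ≤ Real.log n → ∃ j : ℕ, ρ ^ j * x ≤ Real.log n / 6 ∧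
      Real.log n / 6 < ρ ^ (j + 1) * x ∧ j * Real.log ρ ≤ Real.log (Real.log n) := by
    intro n hn
    obtain ⟨j, h1, h2⟩ := exists_nat_pow_near (x := Real.log n / 6 / x)
      ((one_le_div (by linarith)).2 (by linarith)) h0
    rw [le_div_iff₀ (by linarith)] at h1
    rw [div_lt_iff₀ (by linarith)] at h2
    refine ⟨j, h1, h2, ?_⟩
    rw [← Real.log_pow]
    refine Real.log_le_log (by positivity) ?_
    have : ρ ^ j ≤ ρ ^ j * x := le_mul_of_one_le_right (by positivity) hx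
    linarith
  choose! j hj using key
  exact ⟨j, (tendsto_log_nat.eventually_ge_atTop _).mono hj⟩

theorem upper_rho (h : Good μ α c C) (h' : Good μ' α' c' C') (h2 : α ≤ α') {ρ : ℝ} (h0 : 1 < ρ)
    (h1 : ρ < α) {η : ℝ} (hη : 0 < η) {ε : ℝ} (hε : 0 < ε) : ∀ᶠ n : ℕ in atTop,
    0 < sizeProb μ n → 0 < sizeProb μ' n → (pairProb μ μ' n fun t t' => ¬(
      (LCS t t' : ℝ) ≤ Real.exp ((1 / (2 * Real.log ρ) + η) * Real.log (Real.log n) ^ 2) *
        (min t.maxDeg t'.maxDeg : ℕ) ∧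
      (LCS t t' : ℝ) ≤ Real.exp ((1 / (2 * Real.log ρ) + η) * Real.log (Real.log n) ^ 2) *
        (n : ℝ) ^ (1 / α'))) ≤ ε := by
  obtain ⟨x, m, K, R, φ, hx, hm, hK, hR, hφ⟩ := levels_seq h h' h2 h0 h1
  obtain ⟨j, hj⟩ := exists_start h0 hx
  obtain ⟨r, hr, htail⟩ := h'.tailstep
  obtain ⟨K₁, r₁, hK₁, hr₁, hr₁', hcr⟩ := crude h h' h2
  obtain ⟨δ, ε', p1, p2, p3, p4, -⟩ := exists_eps h0 h1
  obtain ⟨C₂, hC₂, hstep⟩ := h'.lvl_step
  obtain ⟨I, hI⟩ := pow_unbounded_of_one_lt 12 h0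
  have hα := h.one_lt
  have hα' := h'.one_lt
  have hρ := Real.log_pos h0
  have hρ2 : ρ ≤ 2 := by linarith [h.lt_two]
  set γ : ℕ → ℝ := fun j => Real.exp (K * (j + 1) + j ^ 2 / 2 * Real.log ρ) with hγ
  have hγ1 : ∀ i, γ i ≤ γ (i + 1) := fun i => Real.exp_le_exp.2 (by push_cast; gcongr <;> linarith only [p1, p2, p3])
  have hy : ∀ i : ℕ, ∀ᶠ n : ℕ in atTop, Real.log n / 12 ≤ ρ ^ (j n + i) * x ∧
      3 * (ρ ^ (j n + i) * x) ≤ Real.log n ^ 2 := by
    intro i
    filter_upwards [hj, tendsto_log_nat.eventually_ge_atTop (ρ ^ i)] with n ⟨e1, e2, _⟩ e3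
    have a1 : 1 ≤ ρ ^ i := one_le_pow₀ h0.le
    have a2 : 0 ≤ ρ ^ j n * x := by positivity
    rw [pow_succ] at e2
    rw [pow_add]
    constructor <;> nlinarith only [h0, p1, e2, p2, p3, hρ2, e1, a1, e3]
  have ty : ∀ i : ℕ, Tendsto (fun n => ρ ^ (j n + i) * x) atTop atTop := fun i =>
    tendsto_atTop_mono' _ ((hy i).mono fun _ h => h.1)
      (tendsto_log_nat.atTop_div_const (by norm_num))
  set b : ℕ → ℕ → ℝ := fun i n => Real.log n ^ (9 * i) * γ (j n + i) * (n : ℝ) ^ (1 / α') with hb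
  have hb1 : ∀ i, ∀ᶠ n : ℕ in atTop, γ (j n + i) * (n : ℝ) ^ (1 / α') ≤ b i n ∧
      (n : ℝ) ^ (1 / α') ≤ b i n ∧ 1 ≤ b i n := by
    intro i
    filter_upwards [tendsto_log_nat.eventually_ge_atTop 1, eventually_ge_atTop 1] with n e1 e2
    have a1 : γ (j n + i) * (n : ℝ) ^ (1 / α') ≤ b i n := by
      simp only [hb]
      rw [mul_assoc]
      exact le_mul_of_one_le_left (by positivity) (one_le_pow₀ e1)
    have a2 := (le_mul_of_one_le_left (by positivity) (hφ (j n + i)).1.one_le).trans a1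
    exact ⟨a1, a2, (Real.one_le_rpow (by exact_mod_cast e2) (by positivity)).trans a2⟩
  have hS : ∀ i, Negl fun n => PT μ' fun g => g.size < n ∧ b i n < φ (j n + i) g := by
    intro i
    induction i with
    | zero =>
      refine (negl_cube one_pos).of_le ?_
      filter_upwards [hj, hb1 0, eventually_ge_atTop 1] with n ⟨e1, _, _⟩ ⟨_, e2, _⟩ e3
      have hn : (1 : ℝ) ≤ n := by exact_mod_cast e3
      rw [PT_false fun g hg => absurd hg.2 (not_lt.2 (((hφ _).1.le g).trans (le_trans ?_ e2)))]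
      · positivity
      rw [Real.rpow_def_of_pos (by linarith only [p1, p2, p3, hn]), add_zero]
      have a1 : (1 / 2 : ℝ) ≤ 1 / α' := one_div_le_one_div_of_le (by linarith only [h2, h0, h1, p1, p2, p3]) h'.lt_two.le
      exact Real.exp_le_exp.2 (by nlinarith only [Real.log_nonneg hn, e1, p1, p2, p3, a1, hn])
    | succ i ih =>
      have a0 : Negl fun n => R (ρ ^ (j n + i) * x) := fun A => by
        filter_upwards [(ty i).eventually (hR (144 * |A|)), hy i] with n e1 e2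
        refine e1.trans (Real.exp_le_exp.2 (neg_le_neg ?_))
        have b1 : (Real.log n / 12) ^ 2 ≤ (ρ ^ (j n + i) * x) ^ 2 := by
          gcongr
          exact e2.1
        nlinarith only [le_abs_self A, abs_nonneg A, sq_nonneg (Real.log n), p1, p2, p3, b1]
      refine (ih.add (hr.add a0)).of_le ?_
      filter_upwards [htail, hj, hy i, hb1 i, tendsto_log_nat.eventually_ge_atTop (3 * m),
        eventually_ge_atTop 1] with n e1 ⟨_, e2, _⟩ ⟨_, e3⟩ ⟨e4, e5, e6⟩ e7 e8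
      refine (h'.PT_or_le (C := fun g => (g.size < n ∧ φ (j n + i) g ≤ b i n ∧
        Real.log n ^ 8 * b i n ≤ acc (φ (j n + i)) g) ∨
        (g.size < Real.exp (7 * (ρ ^ (j n + i + 1) * x)) ∧ m * (acc (φ (j n + i)) g + 1 + Yf α' g) <
          φ (j n + i + 1) g)) fun g hg => ?_).trans (add_le_add le_rfl ((h'.PT_or_le
        fun _ hf => hf).trans (add_le_add (e1 _ _ _ _ (hφ _).1 e3 e4) (hφ _).2.2)))
      by_contra hc
      simp only [not_or, not_and, not_le, not_lt] at hc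
      obtain ⟨c1, c2, c3⟩ := hc
      have c4 := c2 hg.1 (c1 hg.1)
      have c5 : (g.size : ℝ) < Real.exp (7 * (ρ ^ (j n + i + 1) * x)) := by
        refine lt_of_lt_of_le (show (g.size : ℝ) < n by exact_mod_cast hg.1) ?_
        rw [← Real.log_le_iff_le_exp (by exact_mod_cast e8)]
        have : ρ ^ (j n + 1) * x ≤ ρ ^ (j n + i + 1) * x := by gcongr; exacts [h0.le, by omega]
        linarith only [Real.log_natCast_nonneg n, hm, p1, p2, p3, e2, e7, this]
      refine absurd hg.2 (not_lt.2 ((c3 c5).trans ?_))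
      have c6 : b i n ≤ Real.log n ^ 8 * b i n :=
        le_mul_of_one_le_left (by linarith only [p1, p2, p3, e6]) (one_le_pow₀ (by linarith only [hm, p1, p2, p3, e7]))
      calc _ ≤ m * (3 * (Real.log n ^ 8 * b i n)) := by
            gcongr; linarith only [Yf_le hα' hg.1, e5, e6, c4, c6, hα', hg]
        _ = 3 * m * (Real.log n ^ 8 * b i n) := by ring
        _ ≤ Real.log n * (Real.log n ^ 8 * (Real.log n ^ (9 * i) * γ (j n + i + 1) *
              (n : ℝ) ^ (1 / α'))) := by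
            simp only [hb]
            gcongr
            exact hγ1 _
        _ = _ := by simp only [hb, ← add_assoc]; ring
  set y : ℕ → ℝ := fun n => ρ ^ (j n + (I + 1)) * x with hyd
  set ψ : ℕ → F → ℝ := fun n => φ (j n + (I + 1)) with hψ
  set M : ℕ → ℕ := fun n => ⌈Real.log n ^ 3⌉₊ with hM
  set Φ : ℕ → F → ℝ := fun n => nxt α' (ψ n) (fun _ => False) (M n) (3 * y n) with hΦ
  set G : ℕ → ℝ := fun n => Real.exp (K₁ * Real.log (Real.log n) ^ 2) with hG
  have hy2 : ∀ᶠ n : ℕ in atTop, 2 * Real.log n ≤ y n := by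
    filter_upwards [hj] with n ⟨_, e2, _⟩
    have a1 : y n = ρ ^ I * (ρ ^ (j n + 1) * x) := by simp only [hyd]; ring
    nlinarith only [Real.log_natCast_nonneg n, a1, p1, e2, p2, p3, hI]
  have hM1 : ∀ᶠ n : ℕ in atTop, 1 ≤ M n ∧ Real.log n ^ 3 ≤ M n ∧ (M n : ℝ) ≤ 2 * Real.log n ^ 3 := by
    filter_upwards [tendsto_log_nat.eventually_ge_atTop 1] with n e1
    have a1 : 1 ≤ Real.log n ^ 3 := one_le_pow₀ e1
    exact ⟨Nat.one_le_ceil_iff.2 (by linarith), Nat.le_ceil _,
      by linarith only [Nat.ceil_lt_add_one (show 0 ≤ Real.log n ^ 3 by linarith), a1, p1, p2, p3]⟩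
  have hΦ1 : ∀ᶠ n : ℕ in atTop, Lvl μ' (Φ n) (Real.log n ^ 12 * γ (j n + (I + 1))) (3 * y n) := by
    filter_upwards [hM1, hy (I + 1), tendsto_log_nat.eventually_ge_atTop (2 * C₂)]
      with n ⟨e1, _, e2⟩ ⟨_, e3⟩ e4
    refine (hstep _ _ _ _ _ (hφ _).1 (by exact_mod_cast e1)
      (fun g => (all_iff _ _).2 fun _ _ hf => hf) (by
        rw [PT_false fun _ => not_false]; positivity)).weaken ?_ le_rfl
    refine mul_le_mul_of_nonneg_right ?_ (Real.exp_pos _).le
    calc _ ≤ C₂ * (2 * Real.log n ^ 3) * Real.log n ^ 2 := by gcongr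
      _ = 2 * C₂ * Real.log n ^ 5 := by ring
      _ ≤ Real.log n * Real.log n ^ 5 := by gcongr
      _ = Real.log n ^ 6 := by ring
      _ ≤ _ := pow_le_pow_right₀ (by linarith only [p1, p2, p3, hC₂, e4]) (by norm_num)
  have n3 : NeglE μ' μ fun n g f => g.size < n ∧ f.size < n ∧ CB α' (G n) g f :=
    ⟨r₁, hr₁, hcr.mono fun n hn => ⟨hr₁' n, hn.1⟩⟩
  have n4 := neglE_left h h' (hr₁.of_le (hcr.mono fun n hn => hn.2))
  have n5 : NeglE μ' μ fun n g f => anyV (fun a' => anyV (fun a => a'.size < n ∧ a.size < n ∧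
      acc (Yf α') a' ≤ Real.log n ^ 5 * Yf α' a' ∧ ¬CB α' (G n) a' a ∧
        Φ n a' < Rm a' a + 1) n f) n g := by
    refine ⟨_, ((negl_cube (show 0 < δ / 3 by linarith only [p1, p2])).add ((negl_cube one_pos).const_mul
      (fun _ => (Real.exp_pos _).le) (Real.exp 2)).mul_nat).mul_nat.mul_nat, ?_⟩
    filter_upwards [(ty (I + 1)).eventually (step h hα' h'.lt_two p1 p2 (by linarith only [p1, p2, p3]) p4), hy2,
      hM1, tendsto_log_nat.eventually_ge_atTop 3, eventually_ge_atTop 1,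
      tendsto_log_nat.eventually (eventually_log_sq (K₁ + 8) p1 one_pos)]
      with n e1 e2 ⟨e3, e3', _⟩ e4 e5 e6
    refine ⟨by positivity, (ET2_anyV_le h'.tsum_e h.tsum_e h'.mean_e h.mean_e _ n).trans ?_⟩
    rw [ENNReal.ofReal_mul (Nat.cast_nonneg n), ENNReal.ofReal_mul (Nat.cast_nonneg n),
      ENNReal.ofReal_natCast]
    refine mul_le_mul_right (mul_le_mul_right (le_trans (ET_mono fun g => ?_)
      (ET_const_le h'.tsum_e _)) _) _
    rw [h.ET_eq_PT]
    refine ENNReal.ofReal_le_ofReal ?_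
    by_cases hg : g.size < n ∧ acc (Yf α') g ≤ Real.log n ^ 5 * Yf α' g
    swap
    · rw [PT_false fun f hf => hg ⟨hf.1, hf.2.2.1⟩]; positivity
    have hn : (0 : ℝ) < n := by exact_mod_cast e5
    set l := Real.log n with hl
    obtain ⟨ok, -, o1, o2⟩ := e1 (ψ n) (hφ _).1.nonneg (hφ _).2.1 g _
      (one_le_pow₀ (by linarith only [p1, p2, p3, e4])) hg.2
    have a1 : G n * (l ^ 3 * (Real.exp (-(ε' * y n)) * l ^ 5)) ≤ 1 := by
      have d3 : 1 ≤ Real.log l := by
        rw [Real.le_log_iff_exp_le (by linarith only [p1, p2, p3, e4])]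
        linarith only [Real.exp_one_lt_d9, p1, p2, p3, e4]
      rw [one_mul] at e6
      calc _ = Real.exp (K₁ * Real.log l ^ 2 + (8 : ℕ) * Real.log l + -(ε' * y n)) := by
            rw [Real.exp_add, Real.exp_add, Real.exp_nat_mul, Real.exp_log (by linarith only [p1, p2, p3, e4])]
            simp only [hG]
            ring
        _ ≤ 1 := Real.exp_le_one_iff.2 (by
            push_cast
            linarith only [le_self_pow₀ d3 two_ne_zero,
              mul_le_mul_of_nonneg_left (show l ≤ y n by linarith only [p1, p2, p3, e2, e4]) p1.le, e6, d3, p1, p2, p3, e2, e4])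
    refine le_trans (h.PT_mono fun f hf => ?_) ((o2 (M n) (G n) (l ^ 3) e3
      (Real.exp_pos _).le).trans (add_le_add (Real.exp_le_exp.2 (neg_le_neg ?_)) ?_))
    · have d1 : (f.size : ℝ) + 1 ≤ n := by exact_mod_cast hf.2.1
      have d2 : ∀ z, l ≤ z → (n : ℝ) ≤ Real.exp z := fun z hz =>
        (Real.log_le_iff_le_exp hn).1 hz
      refine ⟨o1 f (le_trans (by linarith only [p1, p2, p3, d1]) (d2 _ ?_)), hf.2.2.2.1, ?_⟩
      · exact le_trans (by linarith only []) (mul_le_mul (show 1 / 2 ≤ 1 - δ by linarith only [p3]) e2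
          (by linarith only [p1, p2, p3, e4]) (by linarith only [p1, p2, p3]))
      by_contra hc
      have d3 := hf.2.2.2.2
      simp only [hΦ, nxt, if_false] at d3
      have d4 : (Rm g f : ℝ) ≤ f.size := by exact_mod_cast Rm_le_size g f
      refine absurd d3 (not_lt.2 (le_min (by linarith only [d2 (3 * y n) (by linarith only [p1, p2, p3, e2, e4]), d1, d4, p1, p2, p3, e2, e4])
        ((not_lt.1 hc).trans ?_)))
      have d6 := mul_le_mul_of_nonneg_right a1 (zero_le_one.trans (one_le_Yf hα' g))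
      gcongr
      linarith only [d6]
    · rw [mul_assoc]
      refine mul_le_mul_of_nonneg_left (e3'.trans ?_) (by linarith only [p1, p2])
      exact le_mul_of_one_le_left (Nat.cast_nonneg _) (show 1 ≤ y n by linarith only [p1, p2, p3, e2, e4])
    · rw [sub_eq_add_neg, Real.exp_add, one_mul]
      gcongr
      exact_mod_cast hg.1
  have n7 : Negl fun n => PT μ' fun g => g.size < n ∧ ψ n g ≤ b (I + 1) n ∧
      Real.log n ^ 8 * b (I + 1) n ≤ acc (ψ n) g := by
    refine hr.of_le ?_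
    filter_upwards [htail, hy (I + 1), hb1 (I + 1)] with n e1 e2 e3
    exact e1 _ _ _ _ (hφ _).1 e2.2 e3.1
  have n8 : Negl fun n => PT μ' fun g => g.size < n ∧ Φ n g ≤ Real.log n ^ 12 * b (I + 1) n ∧
      Real.log n ^ 8 * (Real.log n ^ 12 * b (I + 1) n) ≤ acc (Φ n) g := by
    refine hr.of_le ?_
    filter_upwards [htail, hy (I + 1), hb1 (I + 1), hΦ1] with n e1 e2 e3 e4
    refine e1 _ _ _ _ e4 e2.2 ?_
    rw [mul_assoc]
    exact mul_le_mul_of_nonneg_left e3.1 (by positivity)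
  refine NeglE.pair h h' ((neglE_right h h' h.negl_small).or ((neglE_left h h' h'.negl_small).or
    (n3.or (n4.or (n5.or ((neglE_left h h' (hS (I + 1))).or ((neglE_left h h' n7).or
    (neglE_left h h' n8)))))))) ?_ hε
  filter_upwards [hj, hM1, hΦ1, hb1 (I + 1), tendsto_log_nat.eventually_ge_atTop 6,
    (Real.tendsto_log_atTop.comp tendsto_log_nat).eventually_ge_atTop 1,
    (Real.tendsto_log_atTop.comp tendsto_log_nat).eventually_ge_atTop ((9 * (I + 1) + 24 +
      K * (1 / Real.log ρ + (I + 2)) + (I + 1) + (I + 1) ^ 2 / 2 * Real.log ρ) / η),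
    eventually_ge_atTop 1] with n ⟨_, _, e1⟩ ⟨_, _, e2⟩ e3 ⟨_, e4, e5⟩ e6 e7 e8 e9 f g hf hg hA
  simp only [Function.comp] at e7 e8
  by_contra hB
  simp only [not_or, not_and, not_le, not_lt] at hB
  obtain ⟨b1, b2, b3, b4, b5, b6, b7, b8⟩ := hB
  refine hA ?_
  have hn1 : (1 : ℝ) ≤ n := by exact_mod_cast e9
  have hg' : g.size < n := by omega
  set l := Real.log n with hl
  have l0 : 0 < l := by linarith only [p1, p2, p3, e6]
  have c1 : Φ n g ≤ l ^ 12 * b (I + 1) n := by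
    have d1 := b7 hg' (b6 hg')
    have d2 : b (I + 1) n ≤ l ^ 8 * b (I + 1) n :=
      le_mul_of_one_le_left (by linarith only [p1, p2, p3, e5]) (one_le_pow₀ (by linarith only [p1, p2, p3, e6]))
    simp only [hΦ, nxt, if_false]
    refine (min_le_right _ _).trans ?_
    have d3 : 0 ≤ acc (ψ n) g := (sumY_nonneg (hφ _).1.nonneg g).trans (sumY_le_acc g)
    calc _ ≤ 2 * l ^ 3 * (3 * (l ^ 8 * b (I + 1) n)) := by
          gcongr
          · linarith only [one_le_Yf hα' g, p1, p2, p3, d3, hα']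
          · linarith only [Yf_le hα' hg', e4, e5, d1, d2, hα', hg']
      _ = 6 * (l ^ 11 * b (I + 1) n) := by ring
      _ ≤ l * (l ^ 11 * b (I + 1) n) := by gcongr
      _ = _ := by ring
  have c3 : (LCS (toPT f) (toPT g) : ℝ) ≤ l ^ 21 * b (I + 1) n := by
    refine LCS_le (Y := Φ n) e3.nonneg le_rfl (fun u' u hu' hu => ?_) fun u' hu' => ?_
    · rw [one_mul]
      by_contra hc
      have d1 := size_sub_le hu'
      have d2 := size_sub_le hu
      refine b5 (anyV_of_mem hu' (anyV_of_mem hu ⟨by omega, by omega, ?_, ?_, not_le.1 hc⟩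
        (by have := length_le_size hu; omega)) (by have := length_le_size hu'; omega))
      · have : acc (Yf α') (g.sub u') + 1 ≤ l ^ 5 * Yf α' (g.sub u') :=
          not_lt.1 fun hlt => b4 hg' ⟨u', hu', hlt⟩
        linarith only [p1, p2, p3, this]
      · rintro ⟨v', v, h3, h4, h5⟩
        refine b3 hg' (by omega) ⟨u' ++ v', u ++ v, (F.mem_append _ _ _).2 ⟨hu', h3⟩,
          (F.mem_append _ _ _).2 ⟨hu, h4⟩, ?_⟩
        rwa [sub_append, sub_append]
    · have d1 := b8 hg' c1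
      have d2 := acc_sub_le e3.nonneg hu'
      have d3 : 1 ≤ l ^ 20 * b (I + 1) n :=
        one_le_mul_of_one_le_of_one_le (one_le_pow₀ (by linarith only [p1, p2, p3, e6])) e5
      calc _ ≤ 2 * (l ^ 20 * b (I + 1) n) := by linarith only [d1, d2, d3]
        _ ≤ l * (l ^ 20 * b (I + 1) n) := by gcongr; linarith only [p1, p2, p3, e6]
        _ = _ := by ring
  have c4 : l ^ 21 * (l ^ (9 * (I + 1)) * γ (j n + (I + 1))) * l ^ 3 ≤
      Real.exp ((1 / (2 * Real.log ρ) + η) * Real.log l ^ 2) := by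
    set L := Real.log l with hL
    set B := Real.log ρ with hB
    calc _ = Real.exp ((9 * (I + 1) + 24 : ℕ) * L) * γ (j n + (I + 1)) := by
          rw [Real.exp_nat_mul, Real.exp_log l0]; ring
      _ ≤ _ := by
          simp only [hγ]
          rw [← Real.exp_add]
          refine Real.exp_le_exp.2 ?_
          push_cast
          rw [div_le_iff₀ hη] at e8
          have d0 : (0 : ℝ) ≤ j n := Nat.cast_nonneg _
          have d0' : (0 : ℝ) ≤ I := Nat.cast_nonneg _
          have d1 : (j n : ℝ) ≤ 1 / B * L := by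
            rw [one_div_mul_eq_div, le_div_iff₀ hρ]; exact e1
          have d2 : (j n : ℝ) ^ 2 / 2 * B ≤ 1 / (2 * B) * L ^ 2 := by
            calc _ ≤ (1 / B * L) ^ 2 / 2 * B := by gcongr
              _ = _ := by field_simp
          have d3 : K * (j n + (I + 1) + 1) ≤ K * (1 / B + (I + 2)) * L := by
            rw [mul_assoc]
            refine mul_le_mul_of_nonneg_left ?_ hK
            linarith only [le_mul_of_one_le_right (show (0 : ℝ) ≤ I + 2 by linarith only [p1, p2, p3]) e7, d1, p1, p2, p3, e7]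
          have d4 : (I + 1) * (j n * B) ≤ (I + 1) * L := by gcongr
          have d5 : ((I : ℝ) + 1) ^ 2 / 2 * B ≤ (I + 1) ^ 2 / 2 * B * L :=
            le_mul_of_one_le_right (by positivity) e7
          have d6 := mul_le_mul_of_nonneg_right e8 (show 0 ≤ L by linarith only [p1, p2, p3, e7])
          linarith only [d2, d3, d4, d5, d6]
  obtain ⟨u, u1, -, u3⟩ := exists_hub' (b1 hf)
  obtain ⟨u', u1', -, u3'⟩ := exists_hub' (b2 hg)
  have c5 : (n : ℝ) ^ (1 / α') ≤ l ^ 3 * (min (toPT f).maxDeg (toPT g).maxDeg : ℕ) := by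
    rw [← div_le_iff₀' (by positivity), Nat.cast_min]
    refine le_min (le_trans ?_ (u3.trans (Nat.cast_le.2 (len_le_maxDeg u1))))
      (u3'.trans (Nat.cast_le.2 (len_le_maxDeg u1')))
    gcongr
  simp only [hb] at c3
  rw [← mul_assoc] at c3
  have c6 : 0 ≤ l ^ 21 * (l ^ (9 * (I + 1)) * γ (j n + (I + 1))) := by positivity
  refine ⟨c3.trans ?_, c3.trans ?_⟩
  · refine (mul_le_mul_of_nonneg_left c5 c6).trans ?_
    rw [← mul_assoc]
    gcongr
  · gcongr
    exact (le_mul_of_one_le_right c6 (one_le_pow₀ (by linarith only [p1, p2, p3, e6]))).trans c4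

end Pool.Agent.MP_8702f5_pr

end

-- part MP_8702f5_pr.SLow
section

/-! The recursive matching with the optimal ratio of scales. -/

namespace Pool.Agent.MP_8702f5_pr

open Finset F Filter Topology
open scoped ENNReal

variable {μ μ' : ℕ → ℝ} {α α' c C ρ δ : ℝ} {r : ℕ}

theorem Good.chernoff_up (h : Good μ α c C) (A : F → Prop) (l : ℕ) {x : ℝ}
    (hx : 4 * (PT μ A * l) ≤ x) : P μ l (fun f => x < f.cnt A) ≤ Real.exp (-(x / 4)) := by
  classical
  have h1 : E (μe μ) l (fun f => 2 ^ f.cnt A) = ET (μe μ) (fun a => 1 + ind (A a)) ^ l := by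
    refine E_prod _ _ (by simp [cnt]) (fun a r => ?_) l
    simp only [cnt]
    split_ifs with ha
    · rw [pow_succ, mul_comm, ind_pos ha, one_add_one_eq_two]
    · simp [ind_neg ha]
  have h2 : ET (μe μ) (fun a => 1 + ind (A a)) ≤ ee (PT μ A) := by
    rw [ET_add, h.ET_eq_PT]
    refine (add_le_add (ET_one_le h.tsum_e) le_rfl).trans ?_
    rw [← ENNReal.ofReal_one, ← ENNReal.ofReal_add zero_le_one (PT_nonneg _)]
    exact ENNReal.ofReal_le_ofReal (by linarith [Real.add_one_le_exp (PT μ A)])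
  refine ENNReal.toReal_le_of_le_ofReal (Real.exp_pos _).le ?_
  calc _ ≤ E (μe μ) l fun f => ee (-(x / 2)) * 2 ^ f.cnt A := by
        refine E_mono fun f _ => ?_
        by_cases hf : x < f.cnt A
        swap
        · rw [ind_neg hf]; exact zero_le
        have a1 : ee (1 / 2) ≤ 2 := by
          rw [← ENNReal.ofReal_ofNat 2]
          exact ENNReal.ofReal_le_ofReal
            (by linarith only [exp_le_one_add_two (x := 1 / 2) (by norm_num) (by norm_num)])
        refine le_trans ?_ (mul_le_mul_right (pow_le_pow_left' a1 _) _)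
        rw [ind_pos hf, ee, ee, ← ENNReal.ofReal_pow (Real.exp_pos _).le, ← Real.exp_nat_mul]
        exact (one_le_ee (by linarith)).trans (ee_add _ _).le
    _ ≤ ee (-(x / 2)) * ee (PT μ A) ^ l := by
        rw [E_mul, h1]
        gcongr
    _ ≤ _ := by
        rw [ee, ee, ← ENNReal.ofReal_pow (Real.exp_pos _).le, ← Real.exp_nat_mul]
        exact (ee_add _ _).ge.trans (ee_mono (by linarith))

theorem Good.PT_Bev_le (h : Good μ α c C) {k : ℕ} (hk : 1 ≤ k) (K : ℕ) (G : F → Prop) (n : ℕ) :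
    PT μ (Bev k K G n) ≤ tl μ k := by
  have h0 := tl_nonneg h.nonneg h.total k
  induction n with
  | zero =>
    obtain ⟨k, rfl⟩ := Nat.exists_eq_add_of_le' hk
    exact (h.PT_mono fun f hf => hf.1).trans (ENNReal.toReal_le_of_le_ofReal h0 (h.PT_len k))
  | succ n ih =>
    refine h.PT_le_of_mul h0 fun l => (h.P_mono (B := fun f => f.ex (Bev k K G n))
      fun f _ hf => hf.2.2).trans ?_
    have := ENNReal.toReal_mono (ENNReal.mul_ne_top (ENNReal.natCast_ne_top l) (h.ET_ne _))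
      (E_ex_le h.tsum_e (Bev k K G n) l)
    rw [ENNReal.toReal_mul, ENNReal.toReal_natCast] at this
    exact this.trans (mul_le_mul_of_nonneg_left ih (Nat.cast_nonneg l))

theorem Good.P_take (h : Good μ α c C) {l l' : ℕ} (hl : l' ≤ l) (G : F → Prop) :
    P μ l (fun f => ¬∃ a b : F, f = a.app b ∧ G a) ≤ P μ l' fun a => ¬G a := by
  obtain ⟨k, rfl⟩ := Nat.exists_eq_add_of_le hl
  refine ENNReal.toReal_mono (h.E_ne _ _) ?_
  rw [E_app]
  exact E_mono fun a _ => le_trans (E_mono fun b _ => ind_mono fun h1 h2 => h1 ⟨a, b, rfl, h2⟩)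
    (E_const_le h.tsum_e k _)

theorem cnt_le_app (A : F → Prop) (a b : F) : a.cnt A ≤ (a.app b).cnt A := by
  induction a with
  | nil => simp [cnt]
  | cons x y _ ih => simp only [app, cnt]; omega

theorem cnt_exists_le (B : ℕ → F → Prop) (H : ℕ) (f : F) :
    f.cnt (fun a => ∃ i < H, B i a) ≤ ∑ i ∈ range H, f.cnt (B i) := by
  classical
  induction f with
  | nil => simp [cnt]
  | cons x y _ ih =>
    simp only [cnt, sum_add_distrib]
    refine add_le_add ih ?_
    split_ifs with hx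
    · obtain ⟨i, hi, h1⟩ := hx
      refine le_trans ?_ (single_le_sum (f := fun i => if B i x then 1 else 0)
        (fun _ _ => Nat.zero_le _) (mem_range.2 hi))
      rw [if_pos h1]
    · exact Nat.zero_le _

theorem Good.le_PT_exists (h : Good μ α c C) (B : ℕ → F → Prop)
    (hd : ∀ i j f, B i f → B j f → i = j) {x : ℝ} (H : ℕ) (hx : ∀ i < H, x ≤ PT μ (B i)) :
    H * x ≤ PT μ fun a => ∃ i < H, B i a := by
  induction H with
  | zero => simpa using PT_nonneg _
  | succ H ih =>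
    have h1 := h.PT_add_le (A := fun a => ∃ i < H + 1, B i a) (B := fun a => ∃ i < H, B i a)
      (C := B H) (fun f ⟨i, hi, h1⟩ => ⟨i, by omega, h1⟩) (fun f hf => ⟨H, by omega, hf⟩)
      fun f ⟨i, hi, h1⟩ h2 => by have := hd _ _ f h1 h2; omega
    push_cast
    linarith [ih fun i hi => hx i (by omega), hx H (by omega)]

/-- Good events for forests with at least `M ^ ρ`, respectively `M`, trees, which force a common
rooted subforest of size `x`. -/
def Lev' (μ μ' : ℕ → ℝ) (ρ δ : ℝ) (M : ℕ) (x : ℝ) : Prop :=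
  ∃ G G' : F → Prop,
    (∀ l : ℕ, (M : ℝ) ^ ρ ≤ l → P μ l (fun f => ¬G f) ≤ Real.exp (-(M : ℝ) ^ δ)) ∧
    (∀ l : ℕ, M ≤ l → P μ' l (fun f => ¬G' f) ≤ Real.exp (-(M : ℝ) ^ δ)) ∧
    ∀ f f', G f → G' f' → Com f f' x

theorem Lev'.mono {M : ℕ} {x y : ℝ} (h : Lev' μ μ' ρ δ M x) (hy : y ≤ x) : Lev' μ μ' ρ δ M y := by
  obtain ⟨G, G', g1, g2, g3⟩ := h
  exact ⟨G, G', g1, g2, fun f f' a b => (g3 f f' a b).mono hy⟩

theorem level_zero' (h : Good μ α c C) (h' : Good μ' α' c C) (hρ : 1 ≤ ρ) {M : ℕ} (hM : 1 ≤ M) :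
    Lev' μ μ' ρ δ M M := by
  refine ⟨fun f => M ≤ f.len, fun f => M ≤ f.len, fun l hl => ?_, fun l hl => ?_,
    fun f f' hf hf' => ?_⟩
  · have : M ≤ l := by
      have h1 : (1 : ℝ) ≤ M := by exact_mod_cast hM
      have h2 := Real.rpow_le_rpow_of_exponent_le h1 hρ
      rw [Real.rpow_one] at h2
      exact_mod_cast h2.trans hl
    refine (h.P_exists_le (∅ : Finset ℕ) (fun _ _ => True) fun f hf hf' =>
      absurd (hf ▸ this) hf').trans ?_
    rw [sum_empty]; positivity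
  · refine (h'.P_exists_le (∅ : Finset ℕ) (fun _ _ => True) fun f hf hf' =>
      absurd (hf ▸ hl) hf').trans ?_
    rw [sum_empty]; positivity
  · refine (com_combine (τ := Fin M) Fin.val Fin.val (fun _ => 0) (fun t => t.2.trans_le hf)
      (fun t => t.2.trans_le hf') Fin.val_injective Fin.val_injective
      fun _ => com_zero _ _).mono ?_
    simp

theorem eventually_exp_le' {a σ : ℝ} (ha : 0 < a) (hδ : 0 < δ) (hσ : δ < σ) : ∀ᶠ M : ℕ in atTop,
    4 * (M : ℝ) ^ 2 * Real.exp (-(a * (M : ℝ) ^ σ)) ≤ Real.exp (-(M : ℝ) ^ δ) := by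
  have h1 : Tendsto (fun M : ℕ => (M : ℝ) ^ (σ - δ)) atTop atTop :=
    (tendsto_rpow_atTop (sub_pos.2 hσ)).comp tendsto_natCast_atTop_atTop
  filter_upwards [h1.eventually_ge_atTop (4 / a), log_pow_le_rpow hδ 1, eventually_ge_atTop 4]
    with M h2 h3 h4
  have hM : (4 : ℝ) ≤ M := by exact_mod_cast h4
  have hM0 : (0 : ℝ) < M := by linarith
  rw [pow_one] at h3
  rw [div_le_iff₀ ha] at h2
  have e1 : (M : ℝ) ^ σ = (M : ℝ) ^ (σ - δ) * (M : ℝ) ^ δ := by
    rw [← Real.rpow_add hM0]; congr 1; ring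
  calc _ ≤ M * (M : ℝ) ^ 2 * Real.exp (-(a * (M : ℝ) ^ σ)) := by gcongr
    _ = Real.exp ((3 : ℕ) * Real.log M + -(a * (M : ℝ) ^ σ)) := by
        rw [Real.exp_add, Real.exp_nat_mul, Real.exp_log hM0]; ring
    _ ≤ _ := by
        refine Real.exp_le_exp.2 ?_
        push_cast
        rw [e1]
        linarith [mul_le_mul_of_nonneg_right h2 (show 0 ≤ (M : ℝ) ^ δ by positivity)]

theorem lstep (h : Good μ α c C) (h' : Good μ' α' c C) (hr : 1 ≤ r) (hα : α' - 1 ≤ r * (α - 1))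
    {η₁ η₂ : ℝ} (hη0 : 0 < η₁) (hη : η₁ < η₂) (hδ : 0 < δ) (h1 : δ < 1 - η₂)
    (h2 : δ < ρ - η₂ * (r * α)) (h3 : η₂ * (r * α - α') ≤ ρ - 1) :
    ∃ a : ℝ, 0 < a ∧ ∀ᶠ M : ℕ in atTop, ∀ (κ : ℝ) (m : ℕ), 0 < κ →
      (∀ k : ℕ, η₁ * Real.log M ≤ Real.log k → Lev' μ μ' r δ k (κ * k * Real.log k ^ m)) →
      Lev' μ μ' ρ δ M (a * κ * η₁ ^ m * M * Real.log M ^ (m + 1)) := by
  have hc := h.c_pos
  have hc1 := h.c_le
  have hC := h.C_ge
  have hα1 := h.one_lt
  have hr' : (1 : ℝ) ≤ r := by exact_mod_cast hr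
  have t1 : Tendsto (fun M : ℕ => Real.exp (-(M : ℝ) ^ δ)) atTop (𝓝 0) :=
    Real.tendsto_exp_neg_atTop_nhds_zero.comp
      ((tendsto_rpow_atTop hδ).comp tendsto_natCast_atTop_atTop)
  obtain ⟨M₀, g4⟩ := eventually_atTop.1 (t1.eventually (ge_mem_nhds
    (show (0 : ℝ) < 1 / 4 by norm_num)))
  set L' := ⌈2 * C / c⌉₊ + 1 with hL'def
  have hL' : 2 * C / c ≤ L' := by
    rw [hL'def]; push_cast; linarith only [Nat.le_ceil (2 * C / c), hη0, hη, hδ, h1]
  have hL'1 : 1 ≤ L' := by omega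
  set L := 2 * L' with hLdef
  have hL2 : 2 ≤ L := by omega
  have hL1 : (1 : ℝ) < L := by exact_mod_cast (by omega : 1 < L)
  have hlg : 0 < Real.log L := Real.log_pos hL1
  set d := 1 / (6 * C) with hd
  have hd0 : 0 < d := by positivity
  have hd1 : d ≤ 1 := by rw [hd, div_le_one (by positivity)]; linarith only [hη0, hη, hδ, h1, hC]
  set θ := c / (256 * C) with hθ
  have hθ0 : 0 < θ := by positivity
  have hθ1 : θ ≤ 1 := by rw [hθ, div_le_one (by positivity)]; linarith only [hη0, hη, hδ, h1, hc1, hC]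
  set a := d * (c / 64) * (θ / 2) with ha
  have ha0 : 0 < a := by positivity
  have ha1 : a ≤ c / 256 := by
    have : θ ≤ 1 / 2 := by rw [hθ, div_le_iff₀ (by positivity)]; linarith only [hη0, hη, hδ, h1, hc1, hC]
    calc a ≤ 1 * (c / 64) * (1 / 2 / 2) := by rw [ha]; gcongr
      _ = _ := by ring
  set σ := min (1 - η₂) (ρ - η₂ * (r * α)) with hσ
  have hη' : 0 < η₂ - η₁ := sub_pos.2 hη
  refine ⟨(η₂ - η₁) / (2 * Real.log L) * a, by positivity, ?_⟩
  have t2 := tendsto_log_nat.const_mul_atTop (show 0 < (η₂ - η₁) / Real.log L by positivity)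
  have t3 := tendsto_log_nat.const_mul_atTop (show 0 < η₁ / Real.log L by positivity)
  filter_upwards [t2.eventually_ge_atTop 4, t3.eventually_ge_atTop M₀, eventually_ge_atTop 1,
    eventually_exp_le' ha0 hδ (lt_min h1 h2),
    (tendsto_natCast_atTop_atTop.const_mul_atTop hθ0).eventually_ge_atTop 2]
    with M e1 e2 e3 e4 e5 κ m hκ hm
  choose! G G' g1 g2 g3 using hm
  have hM1 : (1 : ℝ) ≤ M := by exact_mod_cast e3
  have hM0 : (0 : ℝ) < M := by positivity
  have hlM : 0 ≤ Real.log M := Real.log_nonneg hM1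
  set J₁ := ⌈η₁ / Real.log L * Real.log M⌉₊ with hJ₁
  set J₂ := ⌊η₂ / Real.log L * Real.log M⌋₊ with hJ₂
  have hη2 : 0 < η₂ := by linarith only [hη0, hη]
  have hJ : (η₂ - η₁) / (2 * Real.log L) * Real.log M ≤ (Ico J₁ J₂).card := by
    have a1 := Nat.ceil_lt_add_one (show 0 ≤ η₁ / Real.log L * Real.log M by positivity)
    have a2 := Nat.lt_floor_add_one (η₂ / Real.log L * Real.log M)
    have a3 : (η₂ - η₁) / Real.log L * Real.log M =
        η₂ / Real.log L * Real.log M - η₁ / Real.log L * Real.log M := by ring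
    have a4 : (η₂ - η₁) / (2 * Real.log L) * Real.log M =
        (η₂ - η₁) / Real.log L * Real.log M / 2 := by ring
    rw [Nat.card_Ico, Nat.cast_sub (by exact_mod_cast (show (J₁ : ℝ) ≤ J₂ by linarith only [hc1, ha0, ha1, e1, a1, a2, a3]))]
    linarith only [e1, a1, a2, a3, a4]
  have k1 : ∀ j, 1 ≤ L ^ j := fun j => Nat.one_le_pow _ _ (by omega)
  have k1' : ∀ j, (1 : ℝ) ≤ ((L ^ j : ℕ) : ℝ) := fun j => by exact_mod_cast k1 j
  have k2 : ∀ j ∈ Ico J₁ J₂, M₀ ≤ L ^ j := fun j hj => by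
    have : M₀ ≤ J₁ := by exact_mod_cast e2.trans (Nat.le_ceil _)
    exact (this.trans (mem_Ico.1 hj).1).trans (Nat.lt_pow_self (by omega)).le
  have k3 : ∀ j ≤ J₂, ((L ^ j : ℕ) : ℝ) ≤ (M : ℝ) ^ η₂ := by
    intro j hj
    rw [Real.le_rpow_iff_log_le (by linarith only [k1' j, hc1, ha0, ha1]) hM0]
    push_cast
    rw [Real.log_pow, ← le_div_iff₀ hlg, mul_div_right_comm]
    exact le_trans (by exact_mod_cast hj) (Nat.floor_le (by positivity))
  have k4 : ∀ j ∈ Ico J₁ J₂, η₁ * Real.log M ≤ Real.log ((L ^ j : ℕ) : ℝ) := by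
    intro j hj
    push_cast
    rw [Real.log_pow, ← div_le_iff₀ hlg, mul_div_right_comm]
    exact (Nat.le_ceil _).trans (by exact_mod_cast (mem_Ico.1 hj).1)
  have k5 : ∀ j ≤ J₂, ((L ^ j : ℕ) : ℝ) ≤ M := fun j hj => (k3 j hj).trans (by
    simpa using Real.rpow_le_rpow_of_exponent_le hM1 (show η₂ ≤ 1 by linarith only [hδ, h1]))
  have k6 : ∀ j, ((L ^ (r * j) : ℕ) : ℝ) = ((L ^ j : ℕ) : ℝ) ^ (r : ℝ) := fun j => by
    rw [Real.rpow_natCast, mul_comm, pow_mul]; push_cast; rfl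
  set H : ℕ → ℕ := fun j => ⌈d * ((L ^ j : ℕ) : ℝ) ^ (α' - 1)⌉₊ with hH
  set s := (Ico J₁ J₂).sigma fun j => range (H j) with hs
  set x : (Σ _ : ℕ, ℕ) → ℝ := fun i => c / 64 * (M : ℝ) ^ ρ * ((L ^ i.1 : ℕ) : ℝ) ^ (r * -α) with hx
  set z : ℕ → ℝ := fun j => a * M / ((L ^ j : ℕ) : ℝ) with hz
  have hy : ∀ i ∈ s, a * (M : ℝ) ^ σ ≤ x i / 4 := by
    intro i hi
    have hj := (mem_Ico.1 (mem_sigma.1 hi).1).2.le
    have a1 : ((M : ℝ) ^ η₂) ^ (r * -α) ≤ ((L ^ i.1 : ℕ) : ℝ) ^ (r * -α) :=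
      Real.rpow_le_rpow_of_nonpos (by linarith only [k1' i.1, hc1, ha0, ha1]) (k3 _ hj) (by nlinarith only [hc1, hr', ha0, ha1, hα1])
    calc _ ≤ c / 256 * (M : ℝ) ^ (ρ - η₂ * (r * α)) := by gcongr; exact min_le_right _ _
      _ = c / 64 * (M : ℝ) ^ ρ * ((M : ℝ) ^ η₂) ^ (r * -α) / 4 := by
          rw [← Real.rpow_mul hM0.le, sub_eq_add_neg, Real.rpow_add hM0, mul_neg, mul_neg]
          ring
      _ ≤ _ := by simp only [hx]; gcongr
  have hy' : ∀ j ∈ Ico J₁ J₂, a * (M : ℝ) ^ σ ≤ z j := by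
    intro j hj
    calc _ ≤ a * (M : ℝ) ^ (1 - η₂) := by gcongr; exact min_le_left _ _
      _ = a * M / (M : ℝ) ^ η₂ := by rw [Real.rpow_sub hM0, Real.rpow_one]; ring
      _ ≤ _ := by
          simp only [hz]
          gcongr
          exact k3 j (mem_Ico.1 hj).2.le
  have hcard0 : ((Ico J₁ J₂).card : ℝ) ≤ M := by
    rw [Nat.card_Ico]
    refine le_trans ?_ (k5 J₂ le_rfl)
    exact_mod_cast (Nat.sub_le _ _).trans (Nat.lt_pow_self (by omega)).le
  have hcard : (s.card : ℝ) ≤ 2 * (M : ℝ) ^ 2 := by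
    rw [hs, card_sigma]
    push_cast
    have a1 : ∀ j ∈ Ico J₁ J₂, ((range (H j)).card : ℝ) ≤ 2 * M := by
      intro j hj
      rw [card_range]
      have b1 := k1' j
      have b2 := k5 j (mem_Ico.1 hj).2.le
      have b3 : ((L ^ j : ℕ) : ℝ) ^ (α' - 1) ≤ ((L ^ j : ℕ) : ℝ) := by
        simpa using Real.rpow_le_rpow_of_exponent_le b1 (show α' - 1 ≤ 1 by linarith only [h'.lt_two])
      have b4 : d * ((L ^ j : ℕ) : ℝ) ^ (α' - 1) ≤ 1 * ((L ^ j : ℕ) : ℝ) := by gcongr
      have b5 := (Nat.ceil_lt_add_one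
        (show 0 ≤ d * ((L ^ j : ℕ) : ℝ) ^ (α' - 1) by positivity)).le
      linarith only [hM1, b2, b4, b5]
    refine (sum_le_card_nsmul _ _ _ a1).trans ?_
    rw [nsmul_eq_mul]
    nlinarith only [hcard0]
  set l' := ⌊θ * M⌋₊ with hl'
  have l1 : (l' : ℝ) ≤ θ * M := Nat.floor_le (by positivity)
  have l2 : θ / 2 * M ≤ l' := by linarith only [Nat.lt_floor_add_one (θ * M), e5]
  set B : (Σ _ : ℕ, ℕ) → F → Prop := fun i =>
    Bev (L ^ (r * i.1)) (L * L ^ (r * i.1)) (G (L ^ i.1)) i.2 with hB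
  set B' : (Σ _ : ℕ, ℕ) → F → Prop := fun i =>
    Bev (L ^ i.1) (L * L ^ i.1) (G' (L ^ i.1)) i.2 with hB'
  have hE := Real.exp_pos (-(a * (M : ℝ) ^ σ))
  refine ⟨fun f => ∀ i ∈ s, ⌈x i⌉₊ ≤ f.cnt (B i),
    fun f => ∃ u v : F, f = u.app v ∧ ((∀ i ∈ s, (u.cnt (B' i) : ℝ) ≤ x i) ∧
      ∀ j ∈ Ico J₁ J₂, ⌈z j⌉₊ ≤ u.cnt fun w => ∃ i < H j, B' ⟨j, i⟩ w),
    fun l hl => ?_, fun l hl => ?_, fun f f' hf hf' => ?_⟩
  · refine (h.P_count s _ x l (fun i hi => ?_) (y := a * (M : ℝ) ^ σ) fun i hi => ?_).trans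
      (le_trans (by gcongr; nlinarith only [hcard]) e4)
    swap
    · linarith only [hy i hi, show 0 ≤ x i by simp only [hx]; positivity, hx, hc, e3, hC]
    obtain ⟨hj, hh⟩ := mem_sigma.1 hi
    have b0 := k1' i.1
    have b1 := h.PT_Bev hL' (k1 (r * i.1)) (G (L ^ i.1)) (fun l hl => (g1 _ (k4 _ hj) l
      (by rw [← k6]; exact_mod_cast hl)).trans (g4 _ (k2 _ hj))) i.2 (by
        refine (Nat.lt_ceil.1 (mem_range.1 hh)).le.trans ?_
        rw [k6, ← Real.rpow_mul (by linarith only [hc1, ha0, ha1, b0])]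
        gcongr)
    rw [k6, ← Real.rpow_mul (by linarith only [hc1, ha0, ha1, b0])] at b1
    calc x i = c / 16 * ((L ^ i.1 : ℕ) : ℝ) ^ (r * -α) * (M : ℝ) ^ ρ / 4 := by
          simp only [hx]; ring
      _ ≤ _ := by gcongr; exact PT_nonneg _
  · have b0 : l' ≤ l := by
      have : (l' : ℝ) ≤ M := l1.trans (mul_le_of_le_one_left hM0.le hθ1)
      exact le_trans (by exact_mod_cast this) hl
    refine (h'.P_take b0 _).trans ((h'.P_or_le
      (B := fun u => ∃ i ∈ s, x i < u.cnt (B' i)) (C := fun u => ¬∀ j ∈ Ico J₁ J₂,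
        ⌈z j⌉₊ ≤ u.cnt fun w => ∃ i < H j, B' ⟨j, i⟩ w) fun u _ hu => ?_).trans ?_)
    · by_contra hc
      simp only [not_or, not_exists, not_and, not_lt, not_not] at hc
      exact hu hc
    have b1 : P μ' l' (fun u => ∃ i ∈ s, x i < u.cnt (B' i)) ≤
        s.card * Real.exp (-(a * (M : ℝ) ^ σ)) := by
      refine (h'.P_exists_le s (fun i u => x i < u.cnt (B' i)) fun _ _ hu => hu).trans ?_
      rw [← nsmul_eq_mul]
      refine sum_le_card_nsmul _ _ _ fun i hi => (h'.chernoff_up _ l' ?_).trans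
        (Real.exp_le_exp.2 (neg_le_neg (hy i hi)))
      have c0 := k1' i.1
      have c1 := (h'.PT_Bev_le (k1 i.1) (L * L ^ i.1) (G' (L ^ i.1)) i.2).trans
        (h'.upper _ (k1 i.1))
      have c2 : ((L ^ i.1 : ℕ) : ℝ) ^ (r * α - α') ≤ (M : ℝ) ^ (ρ - 1) := by
        refine (Real.rpow_le_rpow (by linarith only [hc1, ha0, ha1, c0]) (k3 _ (mem_Ico.1 (mem_sigma.1 hi).1).2.le)
          (by nlinarith only [hα, hr'])).trans ?_
        rw [← Real.rpow_mul hM0.le]
        exact Real.rpow_le_rpow_of_exponent_le hM1 h3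
      calc _ ≤ 4 * (C * ((L ^ i.1 : ℕ) : ℝ) ^ (-α') * (θ * M)) := by gcongr
        _ = c / 64 * (M * ((L ^ i.1 : ℕ) : ℝ) ^ (r * α - α')) *
              ((L ^ i.1 : ℕ) : ℝ) ^ (r * -α) := by
            rw [show -α' = (r * α - α') + r * -α by ring, Real.rpow_add (by linarith only [hc1, ha0, ha1, c0]), hθ]
            field_simp
            ring
        _ ≤ c / 64 * (M * (M : ℝ) ^ (ρ - 1)) * ((L ^ i.1 : ℕ) : ℝ) ^ (r * -α) := by gcongr
        _ = _ := by rw [Real.rpow_sub_one hM0.ne', mul_div_cancel₀ _ hM0.ne']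
    have b2 := h'.P_count (Ico J₁ J₂) (fun j w => ∃ i < H j, B' ⟨j, i⟩ w) z l' (fun j hj => by
      have c0 := k1' j
      have c1 := h'.le_PT_exists (fun i => B' ⟨j, i⟩) (fun i i' w h1 h2 =>
        Bev.height_eq (Nat.le_mul_of_pos_left _ (by omega)) h1 h2) (H j) fun i hi =>
          h'.PT_Bev hL' (k1 j) (G' (L ^ j)) (fun l hl => (g2 _ (k4 _ hj) l hl).trans
            (g4 _ (k2 _ hj))) i (Nat.lt_ceil.1 hi).le
      calc z j = d * ((L ^ j : ℕ) : ℝ) ^ (α' - 1) * (c / 16 * ((L ^ j : ℕ) : ℝ) ^ (-α')) *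
            (θ / 2 * M) / 4 := by
            simp only [hz, ha]
            rw [Real.rpow_sub_one (by linarith only [hc1, ha0, ha1, c0]), Real.rpow_neg (by linarith only [hc1, ha0, ha1, c0])]
            field_simp
            ring
        _ ≤ H j * (c / 16 * ((L ^ j : ℕ) : ℝ) ^ (-α')) * l' / 4 := by
            gcongr; exact Nat.le_ceil _
        _ ≤ _ := by gcongr) hy'
    refine (add_le_add b1 b2).trans (le_trans ?_ e4)
    rw [← add_mul]
    gcongr
    nlinarith only [hc1, ha0, ha1, e5, hcard0, hcard, hθ1]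
  · obtain ⟨u, v, rfl, hu1, hu2⟩ := hf'
    refine (com_match s B B' (fun i => u.cnt (B' i))
      (fun i => κ * ((L ^ i.1 : ℕ) : ℝ) * Real.log ((L ^ i.1 : ℕ) : ℝ) ^ m)
      (fun i _ i' _ f => Bev.index_eq (k := fun j => L ^ (r * j)) (K := fun j => L * L ^ (r * j))
        (G := fun j => G (L ^ j)) (fun j => Nat.le_mul_of_pos_left _ (by omega)) fun j j' hj => ?_)
      (fun i _ i' _ f => Bev.index_eq (k := fun j => L ^ j) (K := fun j => L * L ^ j)
        (G := fun j => G' (L ^ j)) (fun j => Nat.le_mul_of_pos_left _ (by omega)) fun j j' hj => ?_)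
      (fun i hi => le_trans (by exact_mod_cast (hu1 i hi).trans (Nat.le_ceil _)) (hf i hi))
      (fun i _ => cnt_le_app _ u v)
      fun i hi f f' => Bev.com (g3 _ (k4 _ (mem_sigma.1 hi).1))).mono ?_
    · rw [← pow_succ']
      exact Nat.pow_le_pow_right (by omega) (by nlinarith only [hr, hj])
    · rw [← pow_succ']
      exact Nat.pow_le_pow_right (by omega) hj
    rw [hs, sum_sigma]
    have a1 : ∀ j ∈ Ico J₁ J₂, a * κ * η₁ ^ m * M * Real.log M ^ m ≤
        ∑ i ∈ range (H j), (u.cnt (B' ⟨j, i⟩) : ℝ) *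
          (κ * ((L ^ j : ℕ) : ℝ) * Real.log ((L ^ j : ℕ) : ℝ) ^ m + 1) := by
      intro j hj
      have b0 := k1' j
      have b1 : z j ≤ ∑ i ∈ range (H j), (u.cnt (B' ⟨j, i⟩) : ℝ) := by
        refine (Nat.le_ceil _).trans ?_
        exact_mod_cast (hu2 j hj).trans (cnt_exists_le (fun i => B' ⟨j, i⟩) (H j) u)
      have b2 := k4 j hj
      rw [← sum_mul]
      calc _ = z j * (κ * ((L ^ j : ℕ) : ℝ) * (η₁ * Real.log M) ^ m) := by
            simp only [hz]
            rw [mul_pow η₁]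
            field_simp
        _ ≤ _ := by
            refine mul_le_mul b1 (le_trans ?_ (le_add_of_nonneg_right zero_le_one))
              (by positivity) (by positivity)
            gcongr
    refine le_trans ?_ (card_nsmul_le_sum _ _ _ a1)
    rw [nsmul_eq_mul]
    calc _ = (η₂ - η₁) / (2 * Real.log L) * Real.log M *
          (a * κ * η₁ ^ m * M * Real.log M ^ m) := by ring
      _ ≤ _ := by gcongr

theorem lall (h : Good μ α c C) (h' : Good μ' α' c C) (h2 : α ≤ α') (hr : 1 ≤ r)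
    (hα : α' - 1 ≤ r * (α - 1)) {B η₂ : ℝ} (hB : 0 < B) (hη : Real.exp (-B) < η₂)
    (hη' : η₂ * α < 1) (hδ : 0 < δ) (h1 : δ < 1 - η₂ * α) : ∃ a T : ℝ, 0 < a ∧ ∀ m M : ℕ,
      T ≤ Real.log M * Real.exp (-B) ^ m → Lev' μ μ' r δ M
        (a ^ m * Real.exp (-(B * m ^ 2 / 2)) * M * Real.log M ^ m) := by
  have hr' : (1 : ℝ) ≤ r := by exact_mod_cast hr
  have hα1 := h.one_lt
  have hb0 := Real.exp_pos (-B)
  have hb1 : Real.exp (-B) ≤ 1 := Real.exp_le_one_iff.2 (by linarith)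
  have hη0 : 0 < η₂ := by linarith
  obtain ⟨a, ha, h3⟩ := lstep (ρ := r) h h' hr hα hb0 hη hδ (by nlinarith only [h1, hη, hα1, hb0]) (by nlinarith only [h1, hη', hr']) (by
    have a1 : 0 ≤ r * α - α' := by nlinarith only [hα, hr']
    have a2 : α * (η₂ * (r * α - α')) ≤ α * (r - 1) := by nlinarith only [h2, hα, hη', hr']
    exact le_of_mul_le_mul_left a2 (by linarith))
  obtain ⟨M₁, hM₁⟩ := eventually_atTop.1 (h3.and (eventually_ge_atTop 1))
  refine ⟨a, Real.log M₁ + 1, ha, fun m => ?_⟩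
  have key : ∀ m M : ℕ, Real.log M₁ + 1 ≤ Real.log M * Real.exp (-B) ^ m → M₁ ≤ M := by
    intro m M hM
    by_contra hlt
    have a1 : Real.log M ≤ Real.log M₁ := by
      rcases Nat.eq_zero_or_pos M with rfl | h0
      · simpa using Real.log_natCast_nonneg M₁
      · exact Real.log_le_log (by exact_mod_cast h0) (by exact_mod_cast (not_le.1 hlt).le)
    have a2 : Real.log M * Real.exp (-B) ^ m ≤ Real.log M :=
      mul_le_of_le_one_right (Real.log_natCast_nonneg M) (pow_le_one₀ hb0.le hb1)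
    linarith
  induction m with
  | zero => intro M hM; simpa using level_zero' h h' hr' (hM₁ M (key 0 M hM)).2
  | succ m ih =>
    intro M hM
    have hL := Real.log_natCast_nonneg M
    refine ((hM₁ M (key _ M hM)).1 (a ^ m * Real.exp (-(B * m ^ 2 / 2))) m (by positivity)
      fun k hk => ih k (hM.trans (by
        rw [pow_succ', ← mul_assoc, mul_comm (Real.log M)]
        gcongr))).mono ?_
    gcongr ?_ * _ * _
    rw [pow_succ' a, ← Real.exp_nat_mul, mul_assoc, mul_assoc, mul_assoc, ← Real.exp_add]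
    gcongr
    push_cast
    nlinarith only [hB]

theorem exists_depth' {a B η : ℝ} (T : ℝ) (ha : 0 < a) (hB : 0 < B) (hη : 0 < η) :
    ∃ m : ℕ → ℕ, ∀ᶠ n : ℕ in atTop, ∀ y : ℝ, Real.log n / 4 ≤ y →
      T ≤ y * Real.exp (-B) ^ m n ∧
      Real.exp ((1 / (2 * B) - η) * Real.log (Real.log n) ^ 2) * (2 * Real.log n ^ 3) ≤
        a ^ (m n + 1) * Real.exp (-(B * m n ^ 2 / 2)) * y ^ (m n + 1) := by
  set R := |T| + 2 with hR
  have hR0 : 0 ≤ R := by positivity
  set A := |Real.log a| with hA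
  have hA0 : 0 ≤ A := abs_nonneg _
  refine ⟨fun n => ⌊(Real.log (Real.log n) - R) / B⌋₊, ?_⟩
  have t1 := Real.tendsto_log_atTop.comp tendsto_log_nat
  filter_upwards [t1.eventually_ge_atTop R, t1.eventually_ge_atTop
    (((R + B) ^ 2 / (2 * B) + (A + 2) * (1 / B + 1) + 4) / η),
    tendsto_log_nat.eventually_gt_atTop 0] with n e1 e2 e4 y hy
  simp only [Function.comp] at e1 e2
  set l := Real.log (Real.log n) with hl
  have hL : Real.log n = Real.exp l := (Real.exp_log e4).symm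
  rw [div_le_iff₀ hη] at e2
  set m := ⌊(l - R) / B⌋₊ with hm
  have l1 : 1 ≤ l := by linarith only [abs_nonneg T, e1]
  have m1 : m * B ≤ l - R := (le_div_iff₀ hB).1 (Nat.floor_le (div_nonneg (by linarith only [e1]) hB.le))
  have m2 : l - R < (m + 1) * B := (div_lt_iff₀ hB).1 (Nat.lt_floor_add_one _)
  have m0 : (0 : ℝ) ≤ m := Nat.cast_nonneg m
  have y1 : Real.exp (l - 2) ≤ y := by
    refine le_trans ?_ hy
    rw [hL, Real.exp_sub]
    gcongr
    have := Real.add_one_le_exp (1 : ℝ)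
    rw [show (2 : ℝ) = 1 + 1 by norm_num, Real.exp_add]
    nlinarith only [this]
  constructor
  · calc T ≤ Real.exp (l - 2 + m * -B) := by
          linarith only [Real.add_one_le_exp (l - 2 + m * -B), le_abs_self T, m1]
      _ ≤ _ := by
          rw [Real.exp_add, Real.exp_nat_mul]
          gcongr
  · calc _ ≤ Real.exp ((1 / (2 * B) - η) * l ^ 2) * (Real.exp l * Real.exp l ^ 3) := by
          rw [hL]; gcongr; linarith only [Real.add_one_le_exp l, l1]
      _ = Real.exp ((1 / (2 * B) - η) * l ^ 2 + 4 * l) := by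
          rw [← Real.exp_nat_mul, ← Real.exp_add, ← Real.exp_add]; congr 1; push_cast; ring
      _ ≤ Real.exp ((m + 1 : ℕ) * -A + -(B * m ^ 2 / 2) + (m + 1 : ℕ) * (l - 2)) := by
          refine Real.exp_le_exp.2 ?_
          push_cast
          have a1 : (l - m * B) ^ 2 ≤ (R + B) ^ 2 := by gcongr <;> linarith only [hR0, m1, m2]
          have a2 : m * l - B * m ^ 2 / 2 = 1 / (2 * B) * l ^ 2 - (l - m * B) ^ 2 / (2 * B) := by
            field_simp; ring
          have a3 : (l - m * B) ^ 2 / (2 * B) ≤ (R + B) ^ 2 / (2 * B) * l :=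
            le_trans (by gcongr) (le_mul_of_one_le_right (by positivity) l1)
          have a4 : (m : ℝ) + 1 ≤ (1 / B + 1) * l := by
            have : (m : ℝ) ≤ 1 / B * l := by
              rw [one_div_mul_eq_div, le_div_iff₀ hB]; linarith only [hR0, m1]
            linarith only [l1, this]
          have a5 := mul_le_mul_of_nonneg_left a4 (show 0 ≤ A + 2 by linarith only [hA0])
          have a6 := mul_le_mul_of_nonneg_right e2 (show 0 ≤ l by linarith only [l1])
          linarith only [l1, a2, a3, a5, a6]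
      _ ≤ _ := by
          rw [Real.exp_add, Real.exp_add, Real.exp_nat_mul, Real.exp_nat_mul]
          gcongr
          rw [← Real.le_log_iff_exp_le ha]
          exact neg_abs_le _

theorem Good.negl_any' (h : Good μ α c C) (hδ : 0 < δ) (G : ℕ → ℕ → F → Prop) (a : ℕ → ℕ → Prop)
    (hG : ∀ᶠ n : ℕ in atTop, ∀ M : ℕ, (n : ℝ) ^ (1 / 4 : ℝ) ≤ M → ∀ l, a M l →
      P μ l (fun f => ¬G n M f) ≤ Real.exp (-(M : ℝ) ^ δ)) :
    Negl fun n => PT μ (anyV (fun g => ∃ M ∈ Icc ⌈(n : ℝ) ^ (1 / 4 : ℝ)⌉₊ n,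
      a M g.len ∧ ¬G n M g) n) := by
  refine (negl_rpow one_pos (show (0 : ℝ) < 1 / 4 * δ by positivity)).mul_nat.mul_nat.of_le ?_
  have t1 : Tendsto (fun M : ℕ => (M : ℝ) ^ (1 / 4 : ℝ)) atTop atTop :=
    (tendsto_rpow_atTop (by norm_num)).comp tendsto_natCast_atTop_atTop
  filter_upwards [hG, t1.eventually_gt_atTop 0] with n hG h2
  refine (h.PT_anyV_le _ n).trans ?_
  gcongr
  refine h.PT_le_of_P_le (by positivity) fun l => ?_
  refine (h.P_exists_le (Icc ⌈(n : ℝ) ^ (1 / 4 : ℝ)⌉₊ n) (fun M g => a M l ∧ ¬G n M g)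
    fun g hg hg' => by rwa [← hg]).trans ?_
  refine (sum_le_card_nsmul _ _ (Real.exp (-(1 * (n : ℝ) ^ (1 / 4 * δ)))) fun M hM => ?_).trans ?_
  · have a1 : (n : ℝ) ^ (1 / 4 : ℝ) ≤ M := Nat.ceil_le.1 (mem_Icc.1 hM).1
    by_cases ha : a M l
    · refine (h.P_mono fun g _ hg => hg.2).trans ((hG M a1 l ha).trans
        (Real.exp_le_exp.2 (neg_le_neg ?_)))
      refine le_trans (le_of_eq ?_) (Real.rpow_le_rpow (by positivity) a1 hδ.le)
      rw [← Real.rpow_mul (by positivity), one_mul]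
    · refine (h.P_exists_le (∅ : Finset ℕ) (fun _ _ => True) fun f _ hf' =>
        absurd hf'.1 ha).trans ?_
      rw [sum_empty]; positivity
  · rw [nsmul_eq_mul, Nat.card_Icc]
    gcongr
    have := Nat.one_le_ceil_iff.2 h2
    omega

end Pool.Agent.MP_8702f5_pr

end
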