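import Mathlib
import Pool.Agent.MP_8702f5_pr.Mg.SLow

/-! The sharp two-sided statement. -/

namespace Pool.Agent.MP_8702f5_pr

open Finset F Filter Topology

variable {μ μ' : ℕ → ℝ} {α α' c C c' C' : ℝ}

theorem main_low (h : Good μ α c C) (h' : Good μ' α' c C) (h2 : α ≤ α') {B γ : ℝ}
    (hB : Real.log α < B) (hγ : 0 < γ) {ε : ℝ} (hε : 0 < ε) (hε1 : ε ≤ 1) :
    ∀ᶠ n : ℕ in atTop, 0 < sizeProb μ n → 0 < sizeProb μ' n →
      (1 - ε) ^ 2 ≤ pairProb μ μ' n fun t t' =>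
        Real.exp ((1 / (2 * B) - γ) * Real.log (Real.log n) ^ 2) *
          (min t.maxDeg t'.maxDeg : ℕ) ≤ LCS t t' ∧
        Real.exp ((1 / (2 * B) - γ) * Real.log (Real.log n) ^ 2) * (n : ℝ) ^ (1 / α') ≤
          LCS t t' := by
  obtain ⟨r, ρ, η, θ, p1, p2, p3, p4, p5, p6, p7, p8, p9⟩ := exists_params h.one_lt h2 h'.lt_two
  have hα := h.one_lt
  have hα' := h'.one_lt
  have hB0 : 0 < B := (Real.log_pos hα).trans hB
  have q1 : Real.exp (-B) < 1 / α := by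
    rw [one_div, ← Real.exp_log (show 0 < α by linarith only [p5, p6, hα]), ← Real.exp_neg]
    exact Real.exp_lt_exp.2 (neg_lt_neg hB)
  obtain ⟨η₂, q2, q3⟩ := exists_between q1
  rw [lt_div_iff₀ (by linarith only [p5, p6, hα])] at q3
  set δ := min ((1 - η₂ * α) / 2) (1 / 4) with hδ
  have hδ0 : 0 < δ := lt_min (by linarith only [q3]) (by norm_num)
  have hδ1 : δ ≤ 1 / 4 := min_le_right _ _
  obtain ⟨a, T, ha, hall⟩ := lall h h' h2 p1 p4 hB0 q2 q3 hδ0
    ((min_le_left _ _).trans_lt (by linarith only [q3]))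
  obtain ⟨a', ha', htop⟩ := lstep (ρ := ρ) h h' p1 p4 (half_pos p5) (half_lt_self p5) hδ0
    (by linarith only [p5, p6, hδ1]) (by nlinarith only [h'.lt_two, p6, p7, hδ1, p5]) p7
  obtain ⟨M₁, hM₁⟩ := eventually_atTop.1 htop
  set a₀ := min a' (a * (η / 2)) with ha₀
  have ha₀0 : 0 < a₀ := lt_min ha' (by positivity)
  obtain ⟨m, hm⟩ := exists_depth' (T / (η / 2)) ha₀0 hB0 hγ
  have hlog : ∀ n M : ℕ, 1 ≤ n → (n : ℝ) ^ (1 / 4 : ℝ) ≤ M → Real.log n / 4 ≤ Real.log M := by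
    intro n M hn hM
    have hn0 : (0 : ℝ) < n := by exact_mod_cast hn
    have := Real.log_le_log (by positivity) hM
    rw [Real.log_rpow hn0] at this
    linarith only [this]
  have hlev : ∀ n M : ℕ, M₁ ≤ M ∧ T / (η / 2) ≤ Real.log M * Real.exp (-B) ^ m n →
      Lev' μ μ' ρ δ M (a₀ ^ (m n + 1) * Real.exp (-(B * m n ^ 2 / 2)) * M *
        Real.log M ^ (m n + 1)) := by
    intro n M ⟨h3, h4⟩
    have hL := Real.log_natCast_nonneg M
    refine (hM₁ M h3 (a ^ m n * Real.exp (-(B * m n ^ 2 / 2))) (m n) (by positivity)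
      fun k hk => hall _ k ?_).mono ?_
    · rw [div_le_iff₀' (half_pos p5), ← mul_assoc] at h4
      exact h4.trans (by gcongr)
    · gcongr ?_ * _ * _
      calc _ ≤ a' * (a * (η / 2)) ^ m n * Real.exp (-(B * m n ^ 2 / 2)) := by
            rw [pow_succ']
            gcongr
            · exact min_le_left _ _
            · exact min_le_right _ _
        _ = _ := by rw [mul_pow]; ring
  choose! G G' g using hlev
  have hG : ∀ᶠ n : ℕ in atTop, ∀ M : ℕ, (n : ℝ) ^ (1 / 4 : ℝ) ≤ M →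
      (∀ l : ℕ, (M : ℝ) ^ ρ ≤ l → P μ l (fun f => ¬G n M f) ≤ Real.exp (-(M : ℝ) ^ δ)) ∧
      (∀ l : ℕ, M ≤ l → P μ' l (fun f => ¬G' n M f) ≤ Real.exp (-(M : ℝ) ^ δ)) ∧
      ∀ f f', G n M f → G' n M f' → Com f f' (a₀ ^ (m n + 1) * Real.exp (-(B * m n ^ 2 / 2)) * M *
        Real.log M ^ (m n + 1)) := by
    filter_upwards [hm, eventually_ge_atTop 1, ((tendsto_rpow_atTop (show (0 : ℝ) < 1 / 4 by
      norm_num)).comp tendsto_natCast_atTop_atTop).eventually_ge_atTop M₁] with n e1 e2 e3 M hM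
    exact g n M ⟨by exact_mod_cast e3.trans hM, (e1 _ (hlog n M e2 hM)).1⟩
  have n1 := h.negl_le (h.negl_small.add (h.negl_any' hδ0 G (fun M l => (M : ℝ) ^ ρ ≤ l)
    (hG.mono fun n hn M hM => (hn M hM).1))) hε
  have n2 := h'.negl_le ((h'.negl_small.add (h'.negl_any' hδ0 G' (fun M l => M ≤ l)
    (hG.mono fun n hn M hM => (hn M hM).2.1))).add (h'.negl_large p8)) hε
  have n3 : ∀ᶠ n : ℕ in atTop, ρ = 1 ∨ (n : ℝ) ^ (θ * ρ) ≤ (n : ℝ) ^ (1 / α) / Real.log n ^ 3 := by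
    rcases p9 with p9 | p9
    · exact Eventually.of_forall fun _ => Or.inl p9
    filter_upwards [log_pow_le_rpow (sub_pos.2 p9) 3, tendsto_log_nat.eventually_ge_atTop 1,
      eventually_gt_atTop 0] with n e1 e2 e3
    have hn : (0 : ℝ) < n := by exact_mod_cast e3
    refine Or.inr ?_
    rw [Real.rpow_sub hn, le_div_iff₀ (by positivity)] at e1
    rw [le_div_iff₀ (by positivity), mul_comm]
    exact e1
  filter_upwards [n1, n2, n3, log_pow_le_rpow (show (0 : ℝ) < 1 / 4 by norm_num) 3,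
    tendsto_log_nat.eventually_ge_atTop 1, eventually_ge_atTop 1, hm, hG]
    with n n1 n2 n3 e1 e2 e3 e4 e5 hn hn'
  have hn1 : (1 : ℝ) ≤ n := by exact_mod_cast e3
  refine le_pairProb h h' hn hn' hε1
    (B := fun f => f.small ⌈(n : ℝ) ^ (1 / α) / Real.log n ^ 3⌉₊ ∨
      anyV (fun g => ∃ M ∈ Icc ⌈(n : ℝ) ^ (1 / 4 : ℝ)⌉₊ n, (M : ℝ) ^ ρ ≤ g.len ∧ ¬G n M g) n f)
    (B' := fun f => (f.small ⌈(n : ℝ) ^ (1 / α') / Real.log n ^ 3⌉₊ ∨
      anyV (fun g => ∃ M ∈ Icc ⌈(n : ℝ) ^ (1 / 4 : ℝ)⌉₊ n, M ≤ g.len ∧ ¬G' n M g) n f) ∨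
      ¬f.small (⌊(n : ℝ) ^ θ⌋₊ + 1))
    (le_trans (h.PT_or_le fun f hf => by tauto) (n1 hn))
    (le_trans ?_ (n2 hn')) ?_
  · refine (h'.PT_or_le (B := fun f => f.size + 1 = n ∧
      (f.small ⌈(n : ℝ) ^ (1 / α') / Real.log n ^ 3⌉₊ ∨
      anyV (fun g => ∃ M ∈ Icc ⌈(n : ℝ) ^ (1 / 4 : ℝ)⌉₊ n, M ≤ g.len ∧ ¬G' n M g) n f))
      (C := fun f => f.size + 1 = n ∧ ¬f.small (⌊(n : ℝ) ^ θ⌋₊ + 1)) fun f hf => by tauto).trans ?_
    exact add_le_add (h'.PT_or_le fun f hf => by tauto) le_rfl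
  intro f f' hf hf' hB hB'
  push Not at hB hB'
  obtain ⟨u, u1, u2, u3⟩ := exists_hub' hB.1
  obtain ⟨u', u1', u2', u3'⟩ := exists_hub' hB'.1.1
  set D := (f.sub u).len with hD
  set D' := (f'.sub u').len with hD'
  set M := min D D' with hM
  have hL0 : 0 < Real.log n := by linarith only [p5, p6, e2]
  have a1 : (n : ℝ) ^ (1 / α') / Real.log n ^ 3 ≤ M := by
    rw [hM, Nat.cast_min]
    refine le_min (le_trans ?_ u3) u3'
    gcongr
  have a2 : (n : ℝ) ^ (1 / 4 : ℝ) ≤ M := by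
    refine le_trans ?_ a1
    rw [le_div_iff₀ (by positivity)]
    calc _ ≤ (n : ℝ) ^ (1 / 4 : ℝ) * (n : ℝ) ^ (1 / 4 : ℝ) := by gcongr
      _ = (n : ℝ) ^ (1 / 2 : ℝ) := by rw [← Real.rpow_add (by positivity)]; norm_num
      _ ≤ _ := Real.rpow_le_rpow_of_exponent_le hn1
          (one_div_le_one_div_of_le (by linarith only [h2, p5, p6, hα]) h'.lt_two.le)
  have a3 : M ∈ Icc ⌈(n : ℝ) ^ (1 / 4 : ℝ)⌉₊ n := by
    refine mem_Icc.2 ⟨Nat.ceil_le.2 a2, ?_⟩
    have := len_sub_le_size u1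
    omega
  have a4 : (M : ℝ) ^ ρ ≤ D := by
    rcases n3 with n3 | n3
    · rw [n3, Real.rpow_one]; exact_mod_cast min_le_left _ _
    refine le_trans ?_ (n3.trans u3)
    rw [Real.rpow_mul (by positivity)]
    refine Real.rpow_le_rpow (by positivity) ?_ (by linarith only [p2, p5, p6])
    have b1 := (small_iff _ _).1 hB'.2 u' u1'
    have b2 : (M : ℝ) ≤ ⌊(n : ℝ) ^ θ⌋₊ := by exact_mod_cast (by omega)
    exact b2.trans (Nat.floor_le (by positivity))
  have a5 : G n M (f.sub u) := by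
    by_contra hG
    exact hB.2 (anyV_of_mem u1 ⟨M, a3, a4, hG⟩ (by have := length_le_size u1; omega))
  have a6 : G' n M (f'.sub u') := by
    by_contra hG
    exact hB'.1.2 (anyV_of_mem u1' ⟨M, a3, min_le_right _ _, hG⟩
      (by have := length_le_size u1'; omega))
  obtain ⟨-, a9'⟩ := e4 _ (hlog n M e3 a2)
  have a7 := le_LCS u1 u1' ((e5 M a2).2.2 _ _ a5 a6)
  have a8 : (1 : ℝ) ≤ M := (Real.one_le_rpow hn1 (by norm_num)).trans a2
  have a10 : Real.exp ((1 / (2 * B) - γ) * Real.log (Real.log n) ^ 2) * (2 * M * Real.log n ^ 3) ≤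
      LCS (toPT f) (toPT f') := by
    refine le_trans ?_ a7
    nlinarith only [a9']
  have a11 : 1 ≤ Real.log n ^ 3 := one_le_pow₀ e2
  refine ⟨le_trans ?_ a10, le_trans ?_ a10⟩
  · gcongr
    have b1 := maxDeg_le u2
    have b2 := maxDeg_le u2'
    have b3 : ((min (toPT f).maxDeg (toPT f').maxDeg : ℕ) : ℝ) ≤ M + 1 := by
      exact_mod_cast (by omega)
    nlinarith only [a8, b3, a11]
  · gcongr
    rw [div_le_iff₀ (by positivity)] at a1
    nlinarith only [p5, p6, a1, a8, a11]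

theorem final_sharp {c c' : ℝ} (hμ : HeavyTailed μ c α) (hμ' : HeavyTailed μ' c' α') (hc : 0 < c)
    (hc' : 0 < c') (h1 : 1 < α) (h2 : α ≤ α') (h3 : α' < 2) {ε : ℝ} (hε : 0 < ε) :
    Tendsto (fun n : ℕ => pairProb μ μ' n fun t t' =>
      (Real.exp ((1 / (2 * Real.log α) - ε) * Real.log (Real.log n) ^ 2) *
        (min t.maxDeg t'.maxDeg : ℕ) ≤ LCS t t' ∧
      Real.exp ((1 / (2 * Real.log α) - ε) * Real.log (Real.log n) ^ 2) * (n : ℝ) ^ (1 / α') ≤
        LCS t t') ∧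
      (LCS t t' : ℝ) ≤ Real.exp ((1 / (2 * Real.log α) + ε) * Real.log (Real.log n) ^ 2) *
        (min t.maxDeg t'.maxDeg : ℕ) ∧
      (LCS t t' : ℝ) ≤ Real.exp ((1 / (2 * Real.log α) + ε) * Real.log (Real.log n) ^ 2) *
        (n : ℝ) ^ (1 / α'))
      (atTop ⊓ 𝓟 {n | 0 < sizeProb μ n ∧ 0 < sizeProb μ' n}) (𝓝 1) := by
  obtain ⟨c₁, C₁, g⟩ := hμ.good hc h1 (by linarith)
  obtain ⟨c₂, C₂, g'⟩ := hμ'.good hc' (by linarith) h3
  have h := g.weaken (lt_min g.c_pos g'.c_pos) (min_le_left _ _) (le_max_left _ C₂)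
  have h' := g'.weaken (lt_min g.c_pos g'.c_pos) (min_le_right _ _) (le_max_right C₁ _)
  have hl := Real.log_pos h1
  set u := 1 / Real.log α with hu
  have hu0 : 0 < u := by positivity
  have e0 : 1 / (2 * Real.log α) = u / 2 := by rw [hu]; field_simp
  set η := min ε (u / 2) with hη
  have η0 : 0 < η := lt_min hε (by linarith only [hu0])
  have η1 : η ≤ ε := min_le_left _ _
  have η2 : η ≤ u / 2 := min_le_right _ _
  have b1 : Real.log α < 1 / (u - η) := by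
    rw [← one_div_one_div (Real.log α)]
    exact one_div_lt_one_div_of_lt (by linarith only [η0, η2]) (by linarith only [η0])
  have e1 : 1 / (2 * (1 / (u - η))) - (ε - η / 2) = 1 / (2 * Real.log α) - ε := by
    have : u - η ≠ 0 := by linarith only [η0, η2]
    rw [e0]; field_simp; ring
  have b2 : 1 < Real.exp (1 / (u + ε)) := Real.one_lt_exp_iff.2 (by positivity)
  have b3 : Real.exp (1 / (u + ε)) < α := by
    rw [← Real.lt_log_iff_exp_lt (by linarith only [h1, h2, h3]), ← one_div_one_div (Real.log α)]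
    exact one_div_lt_one_div_of_lt hu0 (by linarith only [hε])
  have e2 : 1 / (2 * Real.log (Real.exp (1 / (u + ε)))) + ε / 2 = 1 / (2 * Real.log α) + ε := by
    rw [e0, Real.log_exp]; field_simp; ring
  refine tendsto_order.2 ⟨fun a ha => ?_, fun a ha =>
    Eventually.of_forall fun n => (pairProb_le_one h.nonneg h'.nonneg _ _).trans_lt ha⟩
  rw [eventually_inf_principal]
  have a1 := main_low h h' h2 b1 (show 0 < ε - η / 2 by linarith only [hε, η1])
    (lt_min one_pos (show 0 < (1 - a) / 8 by linarith only [ha])) (min_le_left _ _)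
  have a2 := upper_rho h h' h2 b2 b3 (half_pos hε) (show 0 < (1 - a) / 2 by linarith only [ha])
  rw [e1] at a1
  rw [e2] at a2
  filter_upwards [a1, a2] with n d1 d2 hadm
  linarith only [d1 hadm.1 hadm.2, d2 hadm.1 hadm.2, pairProb_le_add h.nonneg h'.nonneg n
    (fun t t' => Real.exp ((1 / (2 * Real.log α) - ε) * Real.log (Real.log n) ^ 2) *
        (min t.maxDeg t'.maxDeg : ℕ) ≤ LCS t t' ∧
      Real.exp ((1 / (2 * Real.log α) - ε) * Real.log (Real.log n) ^ 2) * (n : ℝ) ^ (1 / α') ≤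
        LCS t t')
    fun t t' => (LCS t t' : ℝ) ≤ Real.exp ((1 / (2 * Real.log α) + ε) *
        Real.log (Real.log n) ^ 2) * (min t.maxDeg t'.maxDeg : ℕ) ∧
      (LCS t t' : ℝ) ≤ Real.exp ((1 / (2 * Real.log α) + ε) * Real.log (Real.log n) ^ 2) *
        (n : ℝ) ^ (1 / α'), min_le_right 1 ((1 - a) / 8), sq_nonneg (min 1 ((1 - a) / 8)), ha, hadm]

end Pool.Agent.MP_8702f5_pr
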